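import Mathlib

set_option autoImplicit false

namespace Pool.Agent.Lib.MP_cc9ac0_pr

open MeasureTheory Set Filter Topology

section
variable {X : Type*} [MeasurableSpace X]

lemma integrable_bdd (μ : Measure X) [IsFiniteMeasure μ] {f : X → ℝ} (hf : Measurable f) {C : ℝ}
    (hC : ∀ z, |f z| ≤ C) : Integrable f μ :=
  Integrable.of_bound hf.aestronglyMeasurable C (Eventually.of_forall hC)

lemma approx_one (μ μ' : Measure X) [IsFiniteMeasure μ] [IsFiniteMeasure μ'] {G B : Set X}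
    {ψ f : X → ℝ} (hψm : Measurable ψ) (hψ0 : ∀ z, 0 ≤ ψ z) (hψ1 : ∀ z, ψ z ≤ 1) (hGB : G ⊆ B)
    (hψB : ∀ᵐ z ∂μ', ψ z ≠ 0 → z ∈ B) (hle : μ.real G ≤ ∫ z, ψ z ∂μ') (hf : Measurable f)
    {C c η : ℝ} (hC : ∀ z, |f z| ≤ C) (hη : 0 ≤ η) (hc : ∀ z ∈ B, |f z - c| ≤ η) :
    |∫ z in G, f z ∂μ - ∫ z, ψ z * f z ∂μ'| ≤
      2 * η * ∫ z, ψ z ∂μ' + |c| * (∫ z, ψ z ∂μ' - μ.real G) := by
  have hψ : Integrable ψ μ' := integrable_bdd μ' hψm (C := 1) fun z => by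
    rw [abs_of_nonneg (hψ0 z)]; exact hψ1 z
  have hψf : Integrable (fun z => ψ z * f z) μ' := integrable_bdd μ' (hψm.mul hf) (C := C) fun z => by
    rw [abs_mul, abs_of_nonneg (hψ0 z)]
    exact (mul_le_of_le_one_left (abs_nonneg _) (hψ1 z)).trans (hC z)
  have h1 : |∫ z in G, f z ∂μ - c * μ.real G| ≤ η * μ.real G := by
    have : ∫ z in G, f z ∂μ - c * μ.real G = ∫ z in G, (f z - c) ∂μ := by
      rw [integral_sub (integrable_bdd _ hf hC) (integrable_const c), setIntegral_const,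
        smul_eq_mul, mul_comm]
    rw [this, ← Real.norm_eq_abs]
    exact norm_setIntegral_le_of_norm_le_const (measure_lt_top _ _) fun z hz => hc z (hGB hz)
  have h2 : |∫ z, ψ z * f z ∂μ' - c * ∫ z, ψ z ∂μ'| ≤ η * ∫ z, ψ z ∂μ' := by
    rw [← integral_const_mul, ← integral_const_mul, ← integral_sub hψf (hψ.const_mul c),
      ← Real.norm_eq_abs]
    refine norm_integral_le_of_norm_le (hψ.const_mul η) ?_
    filter_upwards [hψB] with z hz
    by_cases h : ψ z = 0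
    · simp [h]
    · rw [show ψ z * f z - c * ψ z = (f z - c) * ψ z by ring, Real.norm_eq_abs, abs_mul,
        abs_of_nonneg (hψ0 z)]
      exact mul_le_mul_of_nonneg_right (hc z (hz h)) (hψ0 z)
  have h3 : |c * (∫ z, ψ z ∂μ' - μ.real G)| = |c| * (∫ z, ψ z ∂μ' - μ.real G) := by
    rw [abs_mul, abs_of_nonneg (sub_nonneg.mpr hle)]
  have h4 := mul_le_mul_of_nonneg_left hle hη
  rw [abs_le] at h1 h2 ⊢
  have h5 := le_abs_self (c * (∫ z, ψ z ∂μ' - μ.real G))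
  have h6 := neg_abs_le (c * (∫ z, ψ z ∂μ' - μ.real G))
  constructor <;> nlinarith [h1.1, h1.2, h2.1, h2.2]

end

section
variable {X : Type*} [PseudoMetricSpace X]

/-- points near which `f` oscillates on `Γ` -/
def Osc (Γ : Set X) (f : X → ℝ) (κ η : ℝ) : Set X :=
  {z | ∃ z' ∈ Γ, ∃ z'' ∈ Γ, dist z z' < κ ∧ dist z z'' < κ ∧ η < |f z' - f z''|}

lemma isOpen_Osc (Γ : Set X) (f : X → ℝ) (κ η : ℝ) : IsOpen (Osc Γ f κ η) := by
  rw [isOpen_iff_forall_mem_open]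
  rintro z ⟨a, ha, b, hb, h1, h2, h3⟩
  exact ⟨Metric.ball a κ ∩ Metric.ball b κ, fun y hy => ⟨a, ha, b, hb, hy.1, hy.2, h3⟩,
    Metric.isOpen_ball.inter Metric.isOpen_ball, h1, h2⟩

variable [MeasurableSpace X] [OpensMeasurableSpace X]

lemma Osc_tendsto (μ : Measure X) [IsFiniteMeasure μ] {Γ : Set X} (hΓ : ∀ᵐ z ∂μ, z ∈ Γ)
    {f : X → ℝ} (hf : ContinuousOn f Γ) {η : ℝ} (hη : 0 < η) :
    Tendsto (fun n : ℕ => μ.real (Osc Γ f (1 / (n + 1)) η)) atTop (𝓝 0) := by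
  have h1 : Tendsto (fun n : ℕ => μ (Osc Γ f (1 / (n + 1)) η)) atTop
      (𝓝 (μ (⋂ n : ℕ, Osc Γ f (1 / (n + 1)) η))) := by
    refine tendsto_measure_iInter_atTop
      (fun n => (isOpen_Osc _ _ _ _).measurableSet.nullMeasurableSet) (fun a b hab => ?_)
      ⟨0, measure_ne_top _ _⟩
    rintro z ⟨u, hu, v, hv, h1, h2, h3⟩
    exact ⟨u, hu, v, hv, h1.trans_le (Nat.one_div_le_one_div hab),
      h2.trans_le (Nat.one_div_le_one_div hab), h3⟩
  have h2 : μ (⋂ n : ℕ, Osc Γ f (1 / (n + 1)) η) = 0 := by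
    refine measure_mono_null (t := {z | z ∈ Γ}ᶜ) (fun z hz hzΓ => ?_) hΓ
    obtain ⟨δ, hδ, h⟩ := Metric.continuousOn_iff.mp hf z hzΓ (η / 2) (half_pos hη)
    obtain ⟨n, hn⟩ := exists_nat_one_div_lt hδ
    obtain ⟨u, hu, v, hv, h1, h2, h3⟩ := mem_iInter.mp hz n
    have a1 := h u hu (by rw [dist_comm]; exact h1.trans hn)
    have a2 := h v hv (by rw [dist_comm]; exact h2.trans hn)
    rw [Real.dist_eq, abs_lt] at a1 a2
    rw [lt_abs] at h3
    rcases h3 with h3 | h3 <;> linarith [a1.1, a1.2, a2.1, a2.2]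
  rw [h2] at h1
  exact (ENNReal.tendsto_toReal ENNReal.zero_ne_top).comp h1

lemma approx (μ μ' : Measure X) [IsFiniteMeasure μ] [IsFiniteMeasure μ'] {ι : Type*}
    (T : Finset ι) (G B : ι → Set X) (ψ : ι → X → ℝ) {Γ : Set X} {κ ε : ℝ}
    (hG : ∀ i ∈ T, MeasurableSet (G i)) (hd : ∀ i ∈ T, ∀ j ∈ T, i ≠ j → Disjoint (G i) (G j))
    (hψm : ∀ i ∈ T, Measurable (ψ i)) (hψ0 : ∀ i ∈ T, ∀ z, 0 ≤ ψ i z)
    (hψ1 : ∀ z, ∑ i ∈ T, ψ i z ≤ 1) (hGB : ∀ i ∈ T, G i ⊆ B i)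
    (hψB : ∀ i ∈ T, ∀ᵐ z ∂μ', ψ i z ≠ 0 → z ∈ B i) (hBΓ : ∀ i ∈ T, B i ⊆ Γ)
    (hBκ : ∀ i ∈ T, ∀ z ∈ B i, ∀ z' ∈ B i, dist z z' < κ)
    (hle : ∀ i ∈ T, μ.real (G i) ≤ ∫ z, ψ i z ∂μ')
    (htot : μ.real univ ≤ ∑ i ∈ T, μ.real (G i) + ε) (heq : μ'.real univ = μ.real univ)
    {f : X → ℝ} (hf : Measurable f) {C η : ℝ} (hC0 : 0 ≤ C) (hC : ∀ z, |f z| ≤ C) (hη : 0 ≤ η) :
    |∫ z, f z ∂μ - ∫ z, f z ∂μ'| ≤
      2 * η * μ'.real univ + 2 * C * μ'.real (Osc Γ f κ η) + 3 * C * ε := by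
  have hO := (isOpen_Osc Γ f κ η).measurableSet
  have hψ1' : ∀ i ∈ T, ∀ z, ψ i z ≤ 1 := fun i hi z =>
    (Finset.single_le_sum (f := fun i => ψ i z) (fun j hj => hψ0 j hj z) hi).trans (hψ1 z)
  have hψ : ∀ i ∈ T, Integrable (ψ i) μ' := fun i hi =>
    integrable_bdd μ' (hψm i hi) (C := 1) fun z => by
      rw [abs_of_nonneg (hψ0 i hi z)]; exact hψ1' i hi z
  have hψf : ∀ i ∈ T, Integrable (fun z => ψ i z * f z) μ' := fun i hi =>
    integrable_bdd μ' ((hψm i hi).mul hf) (C := C) fun z => by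
      rw [abs_mul, abs_of_nonneg (hψ0 i hi z)]
      exact (mul_le_of_le_one_left (abs_nonneg _) (hψ1' i hi z)).trans (hC z)
  have key : ∀ i ∈ T, |∫ z in G i, f z ∂μ - ∫ z, ψ i z * f z ∂μ'| ≤ 2 * η * ∫ z, ψ i z ∂μ' +
      C * (∫ z, ψ i z ∂μ' - μ.real (G i)) + 2 * C * ∫ z in Osc Γ f κ η, ψ i z ∂μ' := by
    intro i hi
    have b0 : 0 ≤ ∫ z, ψ i z ∂μ' := integral_nonneg (hψ0 i hi)
    have b1 := sub_nonneg.mpr (hle i hi)
    by_cases h : ∃ u ∈ B i, ∃ v ∈ B i, η < |f u - f v|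
    · obtain ⟨u, hu, v, hv, h⟩ := h
      have e : ∫ z in Osc Γ f κ η, ψ i z ∂μ' = ∫ z, ψ i z ∂μ' := by
        refine setIntegral_eq_integral_of_ae_compl_eq_zero ?_
        filter_upwards [hψB i hi] with z hz hn
        by_contra h0
        exact hn ⟨u, hBΓ i hi hu, v, hBΓ i hi hv, hBκ i hi _ (hz h0) _ hu,
          hBκ i hi _ (hz h0) _ hv, h⟩
      have := approx_one μ μ' (hψm i hi) (hψ0 i hi) (hψ1' i hi) (hGB i hi) (hψB i hi) (hle i hi)
        hf (c := 0) hC hC0 fun z _ => by rw [sub_zero]; exact hC z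
      rw [abs_zero, zero_mul, add_zero] at this
      rw [e]
      nlinarith [mul_nonneg hη b0, mul_nonneg hC0 b1]
    · have b2 : 0 ≤ ∫ z in Osc Γ f κ η, ψ i z ∂μ' := integral_nonneg (hψ0 i hi)
      obtain ⟨c, c1, c2⟩ : ∃ c, |c| ≤ C ∧ ∀ z ∈ B i, |f z - c| ≤ η := by
        rcases (B i).eq_empty_or_nonempty with he | ⟨v, hv⟩
        · exact ⟨0, by simpa using hC0, by simp [he]⟩
        · exact ⟨f v, hC v, fun z hz => not_lt.mp fun hh => h ⟨z, hz, v, hv, hh⟩⟩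
      have := approx_one μ μ' (hψm i hi) (hψ0 i hi) (hψ1' i hi) (hGB i hi) (hψB i hi) (hle i hi)
        hf hC hη c2
      nlinarith [mul_nonneg hC0 b2, mul_le_mul_of_nonneg_right c1 b1]
  have hU : MeasurableSet (⋃ i ∈ T, G i) := Finset.measurableSet_biUnion _ hG
  have s1 : |∫ z, f z ∂μ - ∑ i ∈ T, ∫ z in G i, f z ∂μ| ≤ C * ε := by
    rw [← integral_biUnion_finset T hG hd fun i _ => (integrable_bdd _ hf hC).integrableOn,
      ← integral_add_compl hU (integrable_bdd μ hf hC), add_sub_cancel_left, ← Real.norm_eq_abs]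
    refine (norm_setIntegral_le_of_norm_le_const (measure_lt_top _ _) fun z _ => hC z).trans
      (mul_le_mul_of_nonneg_left ?_ hC0)
    rw [measureReal_compl hU, measureReal_biUnion_finset hd hG]
    linarith
  have hs : Integrable (fun z => ∑ i ∈ T, ψ i z) μ' := integrable_finsetSum _ hψ
  have s0 : ∀ A : Set X, ∑ i ∈ T, ∫ z in A, ψ i z ∂μ' ≤ μ'.real A := by
    intro A
    rw [← integral_finsetSum _ fun i hi => (hψ i hi).integrableOn]
    refine (integral_mono hs.integrableOn (integrable_const 1) hψ1).trans (le_of_eq ?_)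
    rw [setIntegral_const, smul_eq_mul, mul_one]
  have s3 := s0 univ
  simp only [Measure.restrict_univ] at s3
  have s4 := Finset.sum_le_sum hle
  have s2 : |∫ z, f z ∂μ' - ∑ i ∈ T, ∫ z, ψ i z * f z ∂μ'| ≤ C * ε := by
    rw [← integral_finsetSum _ hψf, ← integral_sub (integrable_bdd _ hf hC)
      (integrable_finsetSum _ hψf), ← Real.norm_eq_abs]
    refine (norm_integral_le_of_norm_le (((integrable_const 1).sub hs).const_mul C)
      (Eventually.of_forall fun z => ?_)).trans ?_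
    · rw [← Finset.sum_mul, ← one_sub_mul, Real.norm_eq_abs, abs_mul,
        abs_of_nonneg (sub_nonneg.mpr (hψ1 z)), mul_comm]
      exact mul_le_mul_of_nonneg_right (hC z) (sub_nonneg.mpr (hψ1 z))
    · rw [integral_const_mul]
      refine mul_le_mul_of_nonneg_left ?_ hC0
      simp only [Pi.sub_apply]
      rw [integral_sub (integrable_const 1) hs, integral_const, smul_eq_mul, mul_one,
        integral_finsetSum _ hψ]
      linarith
  have s5 := (Finset.abs_sum_le_sum_abs _ _).trans (Finset.sum_le_sum key)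
  rw [Finset.sum_sub_distrib, Finset.sum_add_distrib, Finset.sum_add_distrib, ← Finset.mul_sum,
    ← Finset.mul_sum, ← Finset.mul_sum, Finset.sum_sub_distrib] at s5
  have s6 := mul_le_mul_of_nonneg_left (s0 (Osc Γ f κ η)) hC0
  have s7 := mul_le_mul_of_nonneg_left s3 hη
  have s8 : C * (∑ i ∈ T, ∫ z, ψ i z ∂μ' - ∑ i ∈ T, μ.real (G i)) ≤ C * ε :=
    mul_le_mul_of_nonneg_left (by linarith) hC0
  rw [abs_le] at s1 s2 s5 ⊢
  constructor <;> linarith [s1.1, s1.2, s2.1, s2.2, s5.1, s5.2]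

end

end Pool.Agent.Lib.MP_cc9ac0_pr
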