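import Pool.Agent.Lib.MP_cc9ac0_pr.Defs

set_option autoImplicit false

namespace Pool.Agent.Lib.MP_cc9ac0_pr

open MeasureTheory Set Filter Topology

/-- A segment with centre `c`, direction `u` and half length `h`. -/
structure Seg where
  c : ℂ
  u : ℂ
  h : ℝ

def Seg.set (s : Seg) : Set ℂ := {z | ∃ t : ℝ, |t| ≤ s.h ∧ z = s.c + t * s.u}

def Seg.oset (s : Seg) : Set ℂ := {z | ∃ t : ℝ, |t| < s.h ∧ z = s.c + t * s.u}

/-- cross product -/
def cr (v z : ℂ) : ℝ := v.re * z.im - v.im * z.re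

/-- dot product -/
def dt (v z : ℂ) : ℝ := v.re * z.re + v.im * z.im

lemma Seg.oset_subset (s : Seg) : s.oset ⊆ s.set := fun _ ⟨t, h1, h2⟩ => ⟨t, h1.le, h2⟩

lemma Seg.isCompact_set (s : Seg) : IsCompact s.set := by
  have : s.set = (fun t : ℝ => s.c + t * s.u) '' Icc (-s.h) s.h := by
    ext z
    constructor
    · rintro ⟨t, h1, h2⟩
      exact ⟨t, abs_le.mp h1, h2.symm⟩
    · rintro ⟨t, h1, h2⟩
      exact ⟨t, abs_le.mpr h1, h2.symm⟩
  rw [this]
  exact isCompact_Icc.image (by fun_prop)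

lemma Seg.isClosed_set (s : Seg) : IsClosed s.set := s.isCompact_set.isClosed

lemma cr_add (v a b : ℂ) : cr v (a + b) = cr v a + cr v b := by simp [cr]; ring

lemma cr_sub (v a b : ℂ) : cr v (a - b) = cr v a - cr v b := by simp [cr]; ring

lemma cr_smul (v : ℂ) (t : ℝ) (a : ℂ) : cr v (t * a) = t * cr v a := by simp [cr]; ring

lemma cr_self (v : ℂ) : cr v v = 0 := by simp [cr]; ring

lemma cr_comm (v w : ℂ) : cr v w = -cr w v := by simp [cr]; ring

lemma dt_add (v a b : ℂ) : dt v (a + b) = dt v a + dt v b := by simp [dt]; ring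

lemma dt_smul (v : ℂ) (t : ℝ) (a : ℂ) : dt v (t * a) = t * dt v a := by simp [dt]; ring

lemma normSq_of_norm {v : ℂ} (hv : ‖v‖ = 1) : v.re ^ 2 + v.im ^ 2 = 1 := by
  have h := Complex.sq_norm v
  rw [hv, Complex.normSq_apply] at h
  nlinarith

lemma dt_self {v : ℂ} (hv : ‖v‖ = 1) : dt v v = 1 := by
  have := normSq_of_norm hv
  simp only [dt]; nlinarith

lemma abs_cr_le (v z : ℂ) : |cr v z| ≤ ‖v‖ * ‖z‖ := by
  have h : cr v z = ((starRingEnd ℂ) v * z).im := by simp [cr]; ring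
  rw [h]
  refine (Complex.abs_im_le_norm _).trans ?_
  rw [norm_mul, RCLike.norm_conj]

/-- Two points on a line with unit direction `v` differ by a multiple of `v`. -/
lemma eq_add_of_cr {v : ℂ} (hv : ‖v‖ = 1) {a b : ℂ} (h : cr v a = cr v b) :
    b = a + ((dt v b - dt v a : ℝ) : ℂ) * v := by
  have h1 := normSq_of_norm hv
  simp only [cr] at h
  apply Complex.ext
  · simp only [dt, Complex.add_re, Complex.mul_re, Complex.ofReal_re, Complex.ofReal_im]
    linear_combination (a.re - b.re) * h1 + v.im * h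
  · simp only [dt, Complex.add_im, Complex.mul_im, Complex.ofReal_re, Complex.ofReal_im]
    linear_combination (a.im - b.im) * h1 - v.re * h

lemma cr_refl {u : ℂ} (hu : ‖u‖ = 1) (v : ℂ) :
    cr (u ^ 2 * (starRingEnd ℂ) v) u = -cr v u := by
  have h1 := normSq_of_norm hu
  simp only [cr, pow_two, Complex.mul_re, Complex.mul_im, Complex.conj_re, Complex.conj_im]
  linear_combination (v.im * u.re - v.re * u.im) * h1

lemma norm_dir (α : ℝ) : ‖dir α‖ = 1 := Complex.norm_exp_ofReal_mul_I α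

lemma dir_re (α : ℝ) : (dir α).re = Real.cos α := Complex.exp_ofReal_mul_I_re α

lemma dir_im (α : ℝ) : (dir α).im = Real.sin α := Complex.exp_ofReal_mul_I_im α

lemma dir_add (α β : ℝ) : dir (α + β) = dir α * dir β := by
  simp only [dir, ← Complex.exp_add]; congr 1; push_cast; ring

lemma dir_add_pi (α : ℝ) : dir (α + Real.pi) = -dir α := by
  apply Complex.ext <;> simp [dir_re, dir_im]

lemma continuous_dir : Continuous dir := by unfold dir; fun_prop

lemma continuous_cr : Continuous fun p : ℂ × ℂ => cr p.1 p.2 := by unfold cr; fun_prop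

/-- A point in the interior of one segment of a locally finite family is a flat point. -/
lemma flatAt_of_family {J : Type*} (sg : J → Seg) (A : Set J) (i : J) (hi : i ∈ A)
    (hu : ‖(sg i).u‖ = 1) {q : ℂ} (hq : q ∈ (sg i).oset)
    (hfin : {j | j ∈ A ∧ ∃ z ∈ (sg j).set, |z.re| ≤ |q.re| + 1}.Finite)
    (hdis : ∀ j ∈ A, j ≠ i → q ∉ (sg j).set) :
    FlatAt (⋃ j ∈ A, (sg j).set) q (sg i).u := by
  refine ⟨hu, ?_⟩
  obtain ⟨t0, ht0, rfl⟩ := hq
  set q := (sg i).c + t0 * (sg i).u with hqdef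
  set B := {j | j ∈ A ∧ ∃ z ∈ (sg j).set, |z.re| ≤ |q.re| + 1} with hB
  have hcl : IsClosed (⋃ j ∈ B \ {i}, (sg j).set) :=
    (hfin.subset sdiff_subset).isClosed_biUnion fun j _ => (sg j).isClosed_set
  have hqn : q ∈ (⋃ j ∈ B \ {i}, (sg j).set)ᶜ := by
    simp only [mem_compl_iff, mem_iUnion, not_exists]
    intro j hj
    exact hdis j hj.1.1 hj.2
  obtain ⟨δ, hδ, hball⟩ := Metric.isOpen_iff.mp hcl.isOpen_compl q hqn
  refine ⟨min (min δ 1) ((sg i).h - |t0|), lt_min (lt_min hδ one_pos) (by linarith), ?_⟩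
  intro z hz
  have hz1 : dist z q < δ := hz.trans_le ((min_le_left _ _).trans (min_le_left _ _))
  have hz2 : dist z q < 1 := hz.trans_le ((min_le_left _ _).trans (min_le_right _ _))
  have hz3 : dist z q < (sg i).h - |t0| := hz.trans_le (min_le_right _ _)
  constructor
  · intro hzM
    simp only [mem_iUnion] at hzM
    obtain ⟨j, hj, hzj⟩ := hzM
    by_cases hji : j = i
    · subst hji
      obtain ⟨t, -, rfl⟩ := hzj
      exact ⟨t - t0, by rw [hqdef]; push_cast; ring⟩
    · exfalso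
      refine hball hz1 (mem_iUnion₂.mpr ⟨j, ⟨⟨hj, z, hzj, ?_⟩, hji⟩, hzj⟩)
      have h1 : |(z - q).re| ≤ ‖z - q‖ := Complex.abs_re_le_norm _
      rw [dist_eq_norm] at hz2
      have h2 : z.re = q.re + (z - q).re := by simp
      rw [h2]
      exact (abs_add_le _ _).trans (by linarith)
  · rintro ⟨t, rfl⟩
    refine mem_iUnion₂.mpr ⟨i, hi, t0 + t, ?_, by rw [hqdef]; push_cast; ring⟩
    rw [dist_eq_norm, add_sub_cancel_left, norm_mul, hu, mul_one, Complex.norm_real,
      Real.norm_eq_abs] at hz3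
    exact (abs_add_le _ _).trans (by linarith)

end Pool.Agent.Lib.MP_cc9ac0_pr
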