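import Mathlib

set_option autoImplicit false

namespace Pool.Agent.Lib.MP_cc9ac0_pr

open MeasureTheory Set Filter Topology

section Wander

variable {X : Type*} [MeasurableSpace X] (μ : Measure X) (T : X → X) (Dom Init : Set X)

/-- The states that reach `S` in at most `n` steps. -/
def reachN (T : X → X) (Dom S : Set X) : ℕ → Set X
  | 0 => S
  | n + 1 => S ∪ (Dom ∩ T ⁻¹' reachN T Dom S n)

lemma reachN_meas (hT : Measurable T) (hD : MeasurableSet Dom) {S : Set X}
    (hS : MeasurableSet S) : ∀ n, MeasurableSet (reachN T Dom S n)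
  | 0 => hS
  | n + 1 => hS.union (hD.inter (hT (reachN_meas hT hD hS n)))

omit [MeasurableSpace X] in
lemma reachN_mono (S : Set X) : ∀ n, reachN T Dom S n ⊆ reachN T Dom S (n + 1)
  | 0 => subset_union_left
  | n + 1 => by
    intro x hx
    rcases hx with hx | ⟨h1, h2⟩
    · exact Or.inl hx
    · exact Or.inr ⟨h1, reachN_mono S n h2⟩

omit [MeasurableSpace X] in
lemma mem_reachN (S : Set X) : ∀ (n : ℕ) (x : X), (∀ j < n, T^[j] x ∈ Dom) → T^[n] x ∈ S →
    x ∈ reachN T Dom S n
  | 0, x, _, h => h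
  | n + 1, x, h1, h2 => by
    right
    refine ⟨h1 0 (Nat.succ_pos n), mem_reachN S n (T x) (fun j hj => ?_) ?_⟩
    · have := h1 (j + 1) (by omega)
      rwa [Function.iterate_succ_apply] at this
    · rwa [Function.iterate_succ_apply] at h2

lemma reach_le (hT : Measurable T) (hD : MeasurableSet Dom) (hI : MeasurableSet Init)
    (hP : ∀ S, MeasurableSet S → μ (Dom ∩ T ⁻¹' S) ≤ μ S)
    (hTI : ∀ x ∈ Dom, T x ∉ Init) {S : Set X} (hS : MeasurableSet S) :
    μ (Init ∩ ⋃ n, reachN T Dom S n) ≤ μ S := by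
  by_cases hfin : μ S = ⊤
  · rw [hfin]; exact le_top
  have hm := reachN_meas T Dom hT hD hS
  have hf : ∀ n, μ (reachN T Dom S n) ≠ ⊤ := by
    intro n
    induction n with
    | zero => exact hfin
    | succ n ih =>
      refine ne_top_of_le_ne_top (ENNReal.add_ne_top.mpr ⟨hfin, ih⟩) ?_
      exact (measure_union_le _ _).trans (add_le_add le_rfl (hP _ (hm n)))
  have key : ∀ n, μ (Init ∩ reachN T Dom S n) ≤ μ S := by
    intro n
    cases n with
    | zero => exact measure_mono inter_subset_right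
    | succ n =>
      have h1 : μ (reachN T Dom S (n + 1)) ≤ μ S + μ (reachN T Dom S (n + 1) \ Init) := by
        refine (measure_union_le _ _).trans (add_le_add le_rfl ?_)
        have : Dom ∩ T ⁻¹' reachN T Dom S n ⊆ Dom ∩ T ⁻¹' (reachN T Dom S n \ Init) :=
          fun x hx => ⟨hx.1, hx.2, hTI x hx.1⟩
        refine (measure_mono this).trans ((hP _ ((hm n).diff hI)).trans (measure_mono ?_))
        exact diff_subset_diff_left (reachN_mono T Dom S n)
      rw [← measure_inter_add_diff (reachN T Dom S (n + 1)) hI] at h1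
      have h2 : μ (reachN T Dom S (n + 1) \ Init) ≠ ⊤ :=
        ne_top_of_le_ne_top (hf (n + 1)) (measure_mono diff_subset)
      rw [inter_comm]
      exact (ENNReal.add_le_add_iff_right h2).mp h1
  rw [inter_iUnion]
  have hmono : Monotone fun n => Init ∩ reachN T Dom S n :=
    monotone_nat_of_le_succ fun n => inter_subset_inter_right _ (reachN_mono T Dom S n)
  rw [hmono.measure_iUnion]
  exact iSup_le key

lemma recur_null (hT : Measurable T) (hD : MeasurableSet Dom) (hI : MeasurableSet Init)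
    (hP : ∀ S, MeasurableSet S → μ (Dom ∩ T ⁻¹' S) ≤ μ S)
    {Y : Set X} (hY : MeasurableSet Y) (hYf : μ Y ≠ ⊤) (hYI : Disjoint Y Init) :
    μ {x | x ∈ Init ∧ ∀ j, T^[j] x ∈ Dom ∧ T^[j + 1] x ∈ Y} = 0 := by
  set Z : Set X := ⋂ j : ℕ, T^[j] ⁻¹' (Dom ∩ Y) with hZ
  have hZm : MeasurableSet Z := MeasurableSet.iInter fun j => (hT.iterate j) (hD.inter hY)
  have hZY : Z ⊆ Y := fun x hx => (mem_iInter.mp hx 0).2
  have hZf : μ Z ≠ ⊤ := ne_top_of_le_ne_top hYf (measure_mono hZY)
  set N : Set X := Init ∩ (Dom ∩ T ⁻¹' Z) with hN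
  have hNm : MeasurableSet N := hI.inter (hD.inter (hT hZm))
  have h1 : Z ∪ N ⊆ Dom ∩ T ⁻¹' Z := by
    rintro x (hx | hx)
    · refine ⟨(mem_iInter.mp hx 0).1, mem_iInter.mpr fun j => ?_⟩
      have := mem_iInter.mp hx (j + 1)
      rwa [mem_preimage, Function.iterate_succ_apply] at this
    · exact hx.2
  have hd : Disjoint Z N := hYI.mono hZY inter_subset_left
  have h2 : μ Z + μ N ≤ μ Z + 0 := by
    rw [← measure_union hd hNm, add_zero]
    exact (measure_mono h1).trans (hP _ hZm)
  have h3 : μ N = 0 := le_antisymm ((ENNReal.add_le_add_iff_left hZf).mp h2) bot_le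
  refine measure_mono_null (fun x hx => ?_) h3
  refine ⟨hx.1, (hx.2 0).1, mem_iInter.mpr fun j => ?_⟩
  rw [mem_preimage, ← Function.iterate_succ_apply]
  exact ⟨(hx.2 (j + 1)).1, (hx.2 j).2⟩

end Wander

/-- Gluing countably many measurable maps. -/
lemma exists_measurable_glue {X Y ι : Type*} [MeasurableSpace X] [MeasurableSpace Y] [Countable ι]
    (A : ι → Set X) (hA : ∀ i, MeasurableSet (A i)) (f : ι → X → Y) (hf : ∀ i, Measurable (f i))
    (g : X → Y) (hg : Measurable g) :
    ∃ K : X → Y, Measurable K ∧ (∀ x, (∃ i, x ∈ A i) → ∃ i, x ∈ A i ∧ K x = f i x) ∧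
      ∀ x, (∀ i, x ∉ A i) → K x = g x := by
  classical
  obtain ⟨e, he⟩ := exists_surjective_nat (Option ι)
  let B : Option ι → Set X := fun o => o.elim (⋃ i, A i)ᶜ A
  let F : Option ι → X → Y := fun o => o.elim g f
  have hB : ∀ o, MeasurableSet (B o) := by
    intro o
    cases o with
    | none => exact (MeasurableSet.iUnion hA).compl
    | some i => exact hA i
  have hF : ∀ o, Measurable (F o) := by
    intro o
    cases o with
    | none => exact hg
    | some i => exact hf i
  have hex : ∀ x, ∃ n, x ∈ B (e n) := by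
    intro x
    by_cases h : ∃ i, x ∈ A i
    · obtain ⟨i, hi⟩ := h
      obtain ⟨n, hn⟩ := he (some i)
      exact ⟨n, by rw [hn]; exact hi⟩
    · obtain ⟨n, hn⟩ := he none
      refine ⟨n, ?_⟩
      rw [hn]
      simpa [B] using h
  refine ⟨fun x => F (e (Nat.find (hex x))) x,
    Measurable.find (fun n => hF (e n)) (fun n => hB (e n)) hex, ?_, ?_⟩
  · intro x ⟨i, hi⟩
    have := Nat.find_spec (hex x)
    cases h : e (Nat.find (hex x)) with
    | none =>
      rw [h] at this
      exact absurd (mem_iUnion.mpr ⟨i, hi⟩) this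
    | some j =>
      rw [h] at this
      exact ⟨j, this, by simp only [h]; rfl⟩
  · intro x hx
    have := Nat.find_spec (hex x)
    cases h : e (Nat.find (hex x)) with
    | none => simp only [h]; rfl
    | some j =>
      rw [h] at this
      exact absurd this (hx j)

end Pool.Agent.Lib.MP_cc9ac0_pr
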