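import Pool.Agent.Lib.MP_cc9ac0_pr.Lines
import Pool.Agent.Lib.MP_cc9ac0_pr.Wander

set_option autoImplicit false

namespace Pool.Agent.Lib.MP_cc9ac0_pr

open MeasureTheory Set Filter Topology

/-- A locally finite family of mirrors closed off from below. The index `j0` stands for the line
`x₂ = 0`. -/
structure Room (J : Type) where
  sg : J → Seg
  j0 : J
  up : Set ℂ
  dn : Set ℂ
  c0 : (sg j0).c = 0
  u0 : (sg j0).u = 1
  unit : ∀ j, ‖(sg j).u‖ = 1
  fin : ∀ k : ℝ, {j | j ≠ j0 ∧ ∃ z ∈ (sg j).set, |z.re| ≤ k}.Finite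
  dis : ∀ i j, i ≠ j0 → j ≠ j0 → i ≠ j → ∀ z ∈ (sg i).oset, z ∉ (sg j).set
  neg : ∀ j, j ≠ j0 → ∀ z ∈ (sg j).set, z.im < 0
  up_open : IsOpen up
  dn_open : IsOpen dn
  up_dn : Disjoint up dn
  cover : ∀ z, (∀ j, j ≠ j0 → z ∉ (sg j).set) → z ∈ up ∪ dn
  mem_up : ∀ z : ℂ, 0 ≤ z.im → z ∈ up
  mem_dn : ∀ z : ℂ, z.im < -1 → z ∈ dn
  thin : ∀ ε : ℝ, 0 < ε → ∃ k : ℝ, ∀ z ∈ up, k ≤ |z.re| → -ε < z.im

namespace Room

variable {J : Type} (R : Room J)

def M : Set ℂ := ⋃ j ∈ {j | j ≠ R.j0}, (R.sg j).set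

def Gen (l : Ln) : Prop :=
  ∀ j, cr (vv l.1) (R.sg j).u ≠ 0 ∧ (j ≠ R.j0 → |tp (R.sg j) l| ≠ (R.sg j).h)

def Hit (j : J) (l : Ln) : Prop := j ≠ R.j0 ∧ |tp (R.sg j) l| < (R.sg j).h

def Valid (o : J) (l : Ln) : Prop :=
  R.Gen l ∧ (o = R.j0 → (vv l.1).im < 0) ∧ (o ≠ R.j0 → |tp (R.sg o) l| < (R.sg o).h)

def Next (o i : J) (l : Ln) : Prop :=
  R.Valid o l ∧ R.Hit i l ∧ tau (R.sg o) l < tau (R.sg i) l ∧
    ∀ j, R.Hit j l → ¬ (tau (R.sg o) l < tau (R.sg j) l ∧ tau (R.sg j) l < tau (R.sg i) l)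

def Inv (o : J) (l : Ln) : Prop :=
  ∃ δ : ℝ, 0 < δ ∧ ∀ t : ℝ, 0 < t → t < δ → pt (R.sg o) l + t * vv l.1 ∈ R.up

lemma mem_M {z : ℂ} : z ∈ R.M ↔ ∃ j, j ≠ R.j0 ∧ z ∈ (R.sg j).set := by
  simp [M]

lemma pt_mem_oset {j : J} {l : Ln} (h : |tp (R.sg j) l| < (R.sg j).h) :
    pt (R.sg j) l ∈ (R.sg j).oset := ⟨_, h, rfl⟩

lemma pt_j0 (l : Ln) : pt (R.sg R.j0) l = (tp (R.sg R.j0) l : ℂ) := by
  rw [pt, R.c0, R.u0]; simp

lemma pt_add {l : Ln} (hg : R.Gen l) (o i : J) :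
    pt (R.sg i) l = pt (R.sg o) l + ((tau (R.sg i) l - tau (R.sg o) l : ℝ) : ℂ) * vv l.1 :=
  pt_eq_add _ _ (hg o).1 (hg i).1

lemma im_ne {l : Ln} (hg : R.Gen l) : (vv l.1).im ≠ 0 := by
  have := (hg R.j0).1
  rw [R.u0] at this
  simpa [cr] using this

lemma valid_im_le {o : J} {l : Ln} (h : R.Valid o l) : (pt (R.sg o) l).im ≤ 0 := by
  by_cases ho : o = R.j0
  · rw [ho, pt_j0]; simp
  · exact (R.neg o ho _ ((R.sg o).oset_subset (R.pt_mem_oset (h.2.2 ho)))).le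

lemma hit_im_lt {i : J} {l : Ln} (h : R.Hit i l) : (pt (R.sg i) l).im < 0 :=
  R.neg i h.1 _ ((R.sg i).oset_subset (R.pt_mem_oset h.2))

/-- a point of `M` on a generic line is a hit point -/
lemma hit_of_mem {o : J} {l : Ln} (hg : R.Gen l) {s : ℝ}
    (hz : pt (R.sg o) l + s * vv l.1 ∈ R.M) :
    ∃ j, R.Hit j l ∧ tau (R.sg j) l = tau (R.sg o) l + s := by
  obtain ⟨j, hj, t, ht, hz⟩ := R.mem_M.mp hz
  have h1 : cr (vv l.1) ((R.sg j).c + t * (R.sg j).u) = l.2 := by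
    rw [← hz, cr_add, cr_smul, cr_self, cr_pt _ (hg o).1]; ring
  have h2 := pt_eq_of_cr _ (hg j).1 h1
  refine ⟨j, ⟨hj, ?_⟩, ?_⟩
  · rw [h2] at ht
    exact lt_of_le_of_ne ht ((hg j).2 hj)
  · have : pt (R.sg j) l = pt (R.sg o) l + s * vv l.1 := by rw [hz, h2, pt]
    rw [tau, this, dt_add, dt_smul, dt_self (norm_vv _), mul_one, tau]

lemma valid_tau_ne {o o' : J} {l : Ln} (h : R.Valid o l) (h' : R.Valid o' l) (hne : o ≠ o') :
    tau (R.sg o) l ≠ tau (R.sg o') l := by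
  intro he
  have h1 := R.pt_add h.1 o o'
  rw [he, sub_self, Complex.ofReal_zero, zero_mul, add_zero] at h1
  by_cases ho : o = R.j0
  · have ho' : o' ≠ R.j0 := fun e => hne (ho.trans e.symm)
    have := R.hit_im_lt ⟨ho', h'.2.2 ho'⟩
    rw [h1, ho, pt_j0] at this
    simp at this
  · by_cases ho' : o' = R.j0
    · have := R.hit_im_lt ⟨ho, h.2.2 ho⟩
      rw [← h1, ho', pt_j0] at this
      simp at this
    · refine R.dis o o' ho ho' hne _ (R.pt_mem_oset (h.2.2 ho)) ?_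
      rw [← h1]
      exact (R.sg o').oset_subset (R.pt_mem_oset (h'.2.2 ho'))

lemma hit_valid {i : J} {l : Ln} (hg : R.Gen l) (h : R.Hit i l) : R.Valid i l :=
  ⟨hg, fun e => absurd e h.1, fun _ => h.2⟩

lemma valid_lt {o o' : J} {l : Ln} (h : R.Valid o l) (h' : R.Valid o' l)
    (hlt : tau (R.sg o) l < tau (R.sg o') l) : R.Hit o' l := by
  by_cases ho' : o' = R.j0
  · exfalso
    have h1 := R.pt_add h.1 o o'
    have h2 := congrArg Complex.im h1
    have h3 := h'.2.1 ho'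
    have h4 := R.valid_im_le h
    rw [ho', pt_j0] at h2
    simp only [Complex.ofReal_im, Complex.add_im, Complex.mul_im, Complex.ofReal_re, zero_mul,
      add_zero] at h2
    rw [ho'] at hlt
    nlinarith
  · exact ⟨ho', h'.2.2 ho'⟩

lemma next_src_unique {o o' i : J} {l : Ln} (h : R.Next o i l) (h' : R.Next o' i l) : o = o' := by
  by_contra hne
  rcases lt_or_gt_of_ne (R.valid_tau_ne h.1 h'.1 hne) with hl | hl
  · exact h.2.2.2 o' (R.valid_lt h.1 h'.1 hl) ⟨hl, h'.2.2.1⟩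
  · exact h'.2.2.2 o (R.valid_lt h'.1 h.1 hl) ⟨hl, h.2.2.1⟩

lemma conn {s : Set ℂ} (hs : IsPreconnected s) (hM : ∀ z ∈ s, z ∉ R.M) {a : ℂ} (ha : a ∈ s)
    (hau : a ∈ R.up) : s ⊆ R.up :=
  hs.subset_left_of_subset_union R.up_open R.dn_open R.up_dn
    (fun z hz => R.cover z fun j hj hzj => hM z hz (R.mem_M.mpr ⟨j, hj, hzj⟩)) ⟨a, ha, hau⟩

lemma ray_up {o : J} {l : Ln} (hi : R.Inv o l) {T : ℝ}
    (hM : ∀ s : ℝ, 0 < s → s < T → pt (R.sg o) l + s * vv l.1 ∉ R.M) :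
    ∀ s : ℝ, 0 < s → s < T → pt (R.sg o) l + s * vv l.1 ∈ R.up := by
  intro s hs hsT
  obtain ⟨δ, hδ, hi⟩ := hi
  have hc : IsPreconnected ((fun s : ℝ => pt (R.sg o) l + s * vv l.1) '' Ioo 0 T) :=
    isPreconnected_Ioo.image _ (by fun_prop)
  have h1 : 0 < min δ s / 2 := by positivity
  have h2 : min δ s / 2 < δ := by linarith [min_le_left δ s, lt_min hδ hs]
  have h3 : min δ s / 2 < T := by linarith [min_le_right δ s, lt_min hδ hs]
  refine R.conn hc ?_ ⟨_, ⟨h1, h3⟩, rfl⟩ (hi _ h1 h2) ⟨s, ⟨hs, hsT⟩, rfl⟩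
  rintro z ⟨t, ht, rfl⟩
  exact hM t ht.1 ht.2

lemma next_free {o i : J} {l : Ln} (h : R.Next o i l) (s : ℝ) (hs : 0 < s)
    (hs' : s < tau (R.sg i) l - tau (R.sg o) l) :
    pt (R.sg o) l + s * vv l.1 ∉ R.M ∧ (pt (R.sg o) l + s * vv l.1).im < 0 := by
  constructor
  · intro hz
    obtain ⟨j, hj, he⟩ := R.hit_of_mem h.1.1 hz
    exact h.2.2.2 j hj ⟨by linarith, by linarith⟩
  · have h1 := congrArg Complex.im (R.pt_add h.1.1 o i)
    have h2 := R.valid_im_le h.1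
    have h3 := R.hit_im_lt h.2.1
    simp only [Complex.ofReal_im, Complex.add_im, Complex.mul_im, Complex.ofReal_re, zero_mul,
      add_zero] at h1 ⊢
    set T := tau (R.sg i) l - tau (R.sg o) l
    by_cases hv : 0 ≤ (vv l.1).im
    · nlinarith
    · nlinarith

lemma next_flat {i : J} {l : Ln} (h : R.Hit i l) : FlatAt R.M (pt (R.sg i) l) (R.sg i).u :=
  flatAt_of_family R.sg {j | j ≠ R.j0} i h.1 (R.unit i) (R.pt_mem_oset h.2) (R.fin _)
    fun j hj hji => R.dis i j h.1 hj (Ne.symm hji) _ (R.pt_mem_oset h.2)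

lemma next_inv {o i : J} {l : Ln} (h : R.Next o i l) (hi : R.Inv o l) :
    R.Inv i (rfl' (R.sg i) l) := by
  obtain ⟨hu, δ, hδ, hfl⟩ := R.next_flat h.2.1
  set T := tau (R.sg i) l - tau (R.sg o) l with hT
  have hT0 : 0 < T := sub_pos.mpr h.2.2.1
  refine ⟨min δ T, lt_min hδ hT0, fun t ht ht' => ?_⟩
  rw [pt_rfl _ hu, vv_rfl _ hu]
  set q := pt (R.sg i) l with hq
  set v := vv l.1 with hv
  set u := (R.sg i).u with hudef
  set w := u ^ 2 * (starRingEnd ℂ) v with hw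
  have htδ : t < δ := ht'.trans_le (min_le_left _ _)
  have htT : t < T := ht'.trans_le (min_le_right _ _)
  have hnv : ‖v‖ = 1 := norm_vv _
  have hnw : ‖w‖ = 1 := by rw [hw, norm_mul, norm_pow, hu, RCLike.norm_conj, hnv]; simp
  have ha : q + ((-t : ℝ) : ℂ) * v ∈ R.up := by
    have := R.ray_up hi (fun s h1 h2 => (R.next_free h s h1 h2).1) (T - t) (by linarith)
      (by linarith)
    convert this using 1
    rw [hq, R.pt_add h.1.1 o i, ← hT, ← hv]
    push_cast; ring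
  have hc : cr v u ≠ 0 := (h.1.1 i).1
  refine R.conn (convex_segment (q + ((-t : ℝ) : ℂ) * v) (q + t * w)).isPreconnected ?_
    (left_mem_segment ℝ _ _) ha (right_mem_segment ℝ _ _)
  intro z hz hzM
  have hb : z ∈ Metric.ball q δ := by
    refine (convex_ball q δ).segment_subset ?_ ?_ hz
    · rw [Metric.mem_ball, dist_eq_norm, add_sub_cancel_left, norm_mul, hnv, mul_one,
        Complex.norm_real, Real.norm_eq_abs, abs_neg, abs_of_pos ht]
      exact htδ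
    · rw [Metric.mem_ball, dist_eq_norm, add_sub_cancel_left, norm_mul, hnw, mul_one,
        Complex.norm_real, Real.norm_eq_abs, abs_of_pos ht]
      exact htδ
  obtain ⟨r, hr⟩ := (hfl z hb).mp hzM
  obtain ⟨a, b, -, -, hab, hz⟩ := hz
  have h1 : cr u w = cr v u := by rw [cr_comm u w, hw, cr_refl hu, neg_neg]
  have h2 : z = q + (((-t * a : ℝ) : ℂ) * v + ((t * b : ℝ) : ℂ) * w) := by
    rw [← hz]
    have : (a : ℂ) + b = 1 := by exact_mod_cast hab
    simp only [Complex.real_smul]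
    push_cast
    linear_combination q * this
  have h3 : cr u z = cr u q + t * cr v u := by
    rw [h2, cr_add, cr_add, cr_smul, cr_smul, h1, cr_comm u v]
    linear_combination (t * cr v u) * hab
  rw [hr, cr_add, cr_smul, cr_self] at h3
  have : t * cr v u = 0 := by linarith
  exact hc ((mul_eq_zero.mp this).resolve_left ht.ne')

lemma exists_next {o j : J} {l : Ln} (h : R.Valid o l) (hj : R.Hit j l)
    (hlt : tau (R.sg o) l < tau (R.sg j) l) : ∃ i, R.Next o i l := by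
  set T := tau (R.sg j) l - tau (R.sg o) l with hT
  set A := {i | R.Hit i l ∧ tau (R.sg o) l < tau (R.sg i) l ∧ tau (R.sg i) l ≤ tau (R.sg j) l}
  have hA : A.Finite := by
    refine (R.fin (|(pt (R.sg o) l).re| + T)).subset fun i hi => ⟨hi.1.1, _,
      (R.sg i).oset_subset (R.pt_mem_oset hi.1.2), ?_⟩
    rw [R.pt_add h.1 o i, Complex.add_re]
    refine (abs_add_le _ _).trans (add_le_add le_rfl ((Complex.abs_re_le_norm _).trans ?_))
    rw [norm_mul, norm_vv, mul_one, Complex.norm_real, Real.norm_eq_abs,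
      abs_of_pos (sub_pos.mpr hi.2.1)]
    linarith [hi.2.2]
  obtain ⟨i, hi, hmin⟩ := exists_min_image A (fun i => tau (R.sg i) l) hA ⟨j, hj, hlt, le_rfl⟩
  refine ⟨i, h, hi.1, hi.2.1, fun j' hj' hh => ?_⟩
  have := hmin j' ⟨hj', hh.1, hh.2.le.trans hi.2.2⟩
  linarith [hh.2]

/-- exit data of a line -/
noncomputable def out (l : Ln) : ℝ × ℝ := (tp (R.sg R.j0) l, (vv l.1).arg - Real.pi)

lemma exit_traj {o : J} {l : Ln} (h : R.Valid o l) (hi : R.Inv o l) (hn : ∀ i, ¬ R.Next o i l) :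
    R.out l ∈ rayD ∧
      Traj R.M 0 (pt (R.sg o) l) (vv l.1) ((R.out l).1 : ℂ) (dir ((R.out l).2 + Real.pi)) := by
  have hfree : ∀ s : ℝ, 0 < s → pt (R.sg o) l + s * vv l.1 ∉ R.M := by
    intro s hs hz
    obtain ⟨j, hj, he⟩ := R.hit_of_mem h.1 hz
    obtain ⟨i, hi⟩ := R.exists_next h hj (by linarith)
    exact hn i hi
  have hle := R.valid_im_le h
  have hpos : 0 < (vv l.1).im := by
    rcases lt_or_gt_of_ne (R.im_ne h.1) with hneg | hpos
    · exfalso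
      set s := 2 / (-(vv l.1).im) with hs
      have hs0 : 0 < s := div_pos two_pos (neg_pos.mpr hneg)
      have h1 := R.ray_up hi (T := s + 1) (fun s h1 _ => hfree s h1) s hs0 (by linarith)
      refine disjoint_left.mp R.up_dn h1 (R.mem_dn _ ?_)
      simp only [Complex.ofReal_im, Complex.add_im, Complex.mul_im, Complex.ofReal_re, zero_mul,
        add_zero]
      have : s * (vv l.1).im = -2 := by
        rw [hs]; field_simp [hneg.ne]
      linarith
    · exact hpos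
  have ho : o ≠ R.j0 := fun e => by linarith [h.2.1 e]
  have hlt := R.hit_im_lt ⟨ho, h.2.2 ho⟩
  have h1 := R.pt_add h.1 o R.j0
  set T := tau (R.sg R.j0) l - tau (R.sg o) l with hT
  have h2 := congrArg Complex.im h1
  rw [pt_j0] at h2
  simp only [Complex.ofReal_im, Complex.add_im, Complex.mul_im, Complex.ofReal_re, zero_mul,
    add_zero] at h2
  have hT0 : 0 < T := by
    by_contra hc
    nlinarith
  have hd : dir ((R.out l).2 + Real.pi) = vv l.1 := by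
    simp only [out, sub_add_cancel]
    rw [← vv_coe, vv_arg (norm_vv _)]
  constructor
  · refine ⟨trivial, ?_, ?_⟩
    · have := Complex.arg_nonneg_iff.mpr hpos.le
      have h3 : (vv l.1).arg ≠ 0 := fun e => by
        have := (Complex.arg_eq_zero_iff.mp e).2
        linarith
      simp only [out]
      linarith [lt_of_le_of_ne this h3.symm]
    · have := Complex.arg_lt_pi_iff.mpr (Or.inr hpos.ne')
      simp only [out]
      linarith
  · rw [hd]
    have h3 : ((R.out l).1 : ℂ) = pt (R.sg o) l + T * vv l.1 := by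
      rw [← h1, pt_j0]; rfl
    rw [h3]
    refine Traj.exit _ _ T hT0 ?_ fun s hs hsT => ⟨hfree s hs, ?_⟩
    · rw [← h1, pt_j0]; simp
    · simp only [Complex.ofReal_im, Complex.add_im, Complex.mul_im, Complex.ofReal_re, zero_mul,
        add_zero]
      nlinarith

lemma bounce_traj {o i : J} {l : Ln} (h : R.Next o i l) {n : ℕ} {y w : ℂ}
    (ht : Traj R.M n (pt (R.sg i) (rfl' (R.sg i) l)) (vv (rfl' (R.sg i) l).1) y w) :
    Traj R.M (n + 1) (pt (R.sg o) l) (vv l.1) y w := by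
  rw [pt_rfl _ (R.unit i), vv_rfl _ (R.unit i), R.pt_add h.1.1 o i] at ht
  refine Traj.bounce n _ _ (R.sg i).u y w _ (sub_pos.mpr h.2.2.1) (R.next_free h) ?_ ht
  rw [← R.pt_add h.1.1 o i]
  exact R.next_flat h.2.1

end Room

end Pool.Agent.Lib.MP_cc9ac0_pr
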