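import Pool.Agent.Lib.MP_cc9ac0_pr.Kernel

set_option autoImplicit false

namespace Pool.Agent.Lib.MP_cc9ac0_pr

open MeasureTheory ProbabilityTheory Set Filter Topology

lemma boxU_mono (k : ℝ) {d d' : ℝ} (h : d ≤ d') : boxU k d ⊆ boxU k d' :=
  fun _ hz => ⟨hz.1, hz.2.1, by linarith [hz.2.2.1], hz.2.2.2⟩

lemma OneHit.mono {F : Finset Seg} {U U' : Set ℂ} (h : U ⊆ U') {a b : ℝ × ℝ}
    (H : OneHit F U a b) : OneHit F U' a b := by
  obtain ⟨h1, p, hp, t1, t2, a1, a2, a3, a4, a5, a6, a7⟩ := H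
  exact ⟨h1, p, hp, t1, t2, a1, a2, a3, a4, a5, fun s b c => ⟨h (a6 s b c).1, (a6 s b c).2⟩,
    fun s b c => ⟨h (a7 s b c).1, (a7 s b c).2⟩⟩

variable (P : Kernel (ℝ × ℝ) ℝ) [IsMarkovKernel P]

/-- what the mirrors of one strip do for the kernel `P` -/
def CellProp (k d ε κ : ℝ) (F : Finset Seg) (G : Set (ℝ × ℝ)) (K1 : ℝ × ℝ → ℝ × ℝ) : Prop :=
  (∀ p ∈ F, ‖p.u‖ = 1 ∧ 0 < p.h ∧ p.set ⊆ boxU k d) ∧
  (∀ p ∈ F, ∀ q ∈ F, p ≠ q → Disjoint p.set q.set) ∧ MeasurableSet G ∧ Measurable K1 ∧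
  (∀ a ∈ G, OneHit F (boxU k d) a (K1 a) ∧ a ∈ St' k) ∧
  rayMeas (St' k \ G) ≤ ENNReal.ofReal ε ∧
  ∀ K : ℝ × ℝ → ℝ × ℝ, Measurable K → (∀ᵐ a ∂rayMeas, K a ∈ rayD) → (∀ a ∈ G, K a = K1 a) →
    ∀ f : (ℝ × ℝ) × (ℝ × ℝ) → ℝ, Measurable f → ∀ C η : ℝ, 0 ≤ C → (∀ z, |f z| ≤ C) → 0 ≤ η →
      |∫ z in Gam k, f z ∂(detMeas K) - ∫ z in Gam k, f z ∂(kerMeas P)| ≤
        8 * η + 2 * C * ((kerMeas P).restrict (Gam k)).real (Osc (Gam k) f κ η) + 3 * C * ε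

lemma masses (hs : SymmKernel P) {g : Grid} (ok : g.Ok) (hτ : g.τ ≤ Real.sin g.m) {δ : ℝ}
    (h0 : 0 < δ) {φ : ℕ → ℝ → ℝ}
    (h1 : ∀ a, ContDiff ℝ ((⊤ : ℕ∞) : WithTop ℕ∞) (φ a) ∧ U1 (φ a) ∧ ∀ α, φ a α ≠ 0 → α ∈ g.W a)
    (h2 : ∀ a < g.N, g.τ - 2 * δ ≤ ∫ α in Ioo (-Real.pi) 0, φ a α) :
    ∃ ω : Ms, g.Adm ω ∧ (∀ j a b, g.τ * ω j a b ≤ I3 P g.k (g.u j) (φ a) (φ b)) ∧
      angMeas.real univ - (4 * g.m + 4 * g.N * δ + 8 * g.μ + 4 * (g.τ / Real.sin g.m)) ≤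
        g.τ * ∑ j ∈ Finset.range g.J, ∑ a ∈ Finset.range g.N, ∑ b ∈ Finset.range g.N, ω j a b := by
  have σ0 := ok.σ0
  have τ0 := ok.τ0
  have w0 := ok.w0
  set θ := 1 - g.τ / Real.sin g.m with hθ
  have θ0 : 0 ≤ θ := sub_nonneg.mpr ((div_le_one σ0).mpr hτ)
  have θ1 : θ ≤ 1 := sub_le_self _ (by positivity)
  have hU : ∀ a, U1 (φ a) := fun a => (h1 a).2.1
  have hΦ : U1 fun α => ∑ a ∈ Finset.range g.N, φ a α :=
    ⟨Finset.measurable_sum _ fun a _ => (hU a).1, fun α =>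
      ⟨Finset.sum_nonneg fun a _ => ((hU a).2 α).1, sum_le_one _ _ (fun a _ => ((hU a).2 α).2)
        fun a _ b _ ha hb => ok.W_uniq ((h1 a).2.2 α ha) ((h1 b).2.2 α hb)⟩⟩
  have cΦ : ContDiff ℝ ((⊤ : ℕ∞) : WithTop ℕ∞) fun α => ∑ a ∈ Finset.range g.N, φ a α :=
    ContDiff.sum fun a _ => (h1 a).1
  have hb0 : ∀ j a b, 0 ≤ I3 P g.k (g.u j) (φ a) (φ b) := fun j a b =>
    I3_nonneg P _ (Grid.u_U1 j) (hU a) (hU b)
  refine ⟨fun j a b => θ / g.τ * I3 P g.k (g.u j) (φ a) (φ b), ⟨fun j a b => ?_, fun j a b => ?_,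
    fun j hj a ha α hα => ?_⟩, fun j a b => ?_, ?_⟩
  · exact mul_nonneg (div_nonneg θ0 τ0.le) (hb0 j a b)
  · rw [I3_symm P hs _ (Grid.u_U1 j) (hU a) (hU b) (h1 a).1 (h1 b).1]
  · rw [cum, ← Finset.mul_sum, I3_sum_right P _ (Grid.u_U1 j) (hU a) hU]
    have a1 := I3_le P g.k (Grid.u_U1 (g := g) j) (hU a) hΦ
    rw [I3_one P _ (Grid.u_U1 j) (hU a), Grid.u_int ok hj] at a1
    have a2 := mul_le_mul_of_nonneg_left (Grid.int_φ_le ok ha (hU a) (h1 a).2.2 hα) w0.le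
    refine (mul_le_mul_of_nonneg_left (a1.trans a2) (div_nonneg θ0 τ0.le)).trans ?_
    have a3 := ok.W_sin ha hα
    have a4 : g.τ ≤ g.τ / Real.sin g.m * -Real.sin α := by
      rw [div_mul_eq_mul_div, le_div_iff₀ σ0]
      exact mul_le_mul_of_nonneg_left a3 τ0.le
    have a5 : θ * (-Real.sin α + g.τ) ≤ -Real.sin α := by
      have : 0 ≤ g.τ / Real.sin g.m * g.τ := by positivity
      rw [hθ]
      nlinarith
    have : θ / g.τ * (g.w * (g.τ * (-Real.sin α + g.τ))) = g.w * (θ * (-Real.sin α + g.τ)) := by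
      field_simp
    rw [this]
    exact mul_le_mul_of_nonneg_left a5 w0.le
  · rw [← mul_assoc, mul_div_cancel₀ _ τ0.ne']
    exact mul_le_of_le_one_left (hb0 j a b) θ1
  · set T0 := angMeas.real univ with hT0
    have T4 : T0 ≤ 4 := ang_univ
    have T00 : 0 ≤ T0 := measureReal_nonneg
    set A := ∫ α, ∑ a ∈ Finset.range g.N, φ a α ∂angMeas with hA
    have hA1 : T0 - (2 * g.m + 2 * g.N * δ) ≤ A := Grid.int_Φ_ge ok hU hΦ h2
    have key : ∀ j ∈ Finset.range g.J, g.w * (2 * A - T0) ≤ ∑ a ∈ Finset.range g.N,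
        ∑ b ∈ Finset.range g.N, I3 P g.k (g.u j) (φ a) (φ b) ∧ ∑ a ∈ Finset.range g.N,
        ∑ b ∈ Finset.range g.N, I3 P g.k (g.u j) (φ a) (φ b) ≤ g.w * T0 := by
      intro j hj
      have hj' := Finset.mem_range.mp hj
      have uj := Grid.u_U1 (g := g) j
      rw [Finset.sum_congr rfl fun a _ => I3_sum_right P _ uj (hU a) hU _,
        I3_sum_left P _ uj hΦ hU]
      have a1 := I3_ge P g.k uj hΦ
      have a2 := I3_le P g.k uj hΦ hΦ
      have a3 := I3_le P g.k uj U1_one hΦ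
      rw [I3_symm P hs _ uj U1_one hΦ contDiff_const cΦ] at a1 a3
      rw [I3_one P _ uj hΦ, I3_one P _ uj U1_one, Grid.u_int ok hj', integral_const, smul_eq_mul,
        mul_one] at a1 a3
      rw [I3_one P _ uj hΦ, Grid.u_int ok hj'] at a2
      exact ⟨by linarith, by linarith⟩
    have k1 := Finset.sum_le_sum fun j hj => (key j hj).1
    have k2 := Finset.sum_le_sum fun j hj => (key j hj).2
    simp only [Finset.sum_const, Finset.card_range, nsmul_eq_mul] at k1 k2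
    rw [← mul_assoc, ok.Jw] at k1 k2
    simp only [← Finset.mul_sum]
    rw [← mul_assoc, mul_div_cancel₀ _ τ0.ne']
    set Sb := ∑ j ∈ Finset.range g.J, ∑ a ∈ Finset.range g.N,
      ∑ b ∈ Finset.range g.N, I3 P g.k (g.u j) (φ a) (φ b)
    have μ0 := ok.μpos
    have m0 := ok.m0
    have μ1 := ok.μ1
    have e1 : Sb ≤ 4 := by nlinarith
    have e2 : g.τ / Real.sin g.m * Sb ≤ g.τ / Real.sin g.m * 4 :=
      mul_le_mul_of_nonneg_left e1 (by positivity)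
    have e3 : (1 - 2 * g.μ) * (T0 - 2 * (2 * g.m + 2 * g.N * δ)) ≤ (1 - 2 * g.μ) * (2 * A - T0) :=
      mul_le_mul_of_nonneg_left (by linarith) (by linarith)
    have e4 : 0 ≤ g.μ * (2 * g.m + 2 * g.N * δ) := by positivity
    rw [hθ]
    nlinarith

theorem cell (hP : ∀ a ∈ rayD, P a (Ioo (-Real.pi) 0)ᶜ = 0) (hs : SymmKernel P) (k : ℝ)
    {d ε κ : ℝ} (hd : 0 < d) (hε : 0 < ε) (hκ : 0 < κ) :
    ∃ F G K1, CellProp P k d ε κ F G K1 := by
  classical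
  set m := min 1 (ε / 20) with hm
  have m0 : 0 < m := lt_min one_pos (by positivity)
  have m1 : m < Real.pi / 2 := (min_le_left _ _).trans_lt (by linarith [Real.pi_gt_three])
  have m2 : m ≤ ε / 20 := min_le_right _ _
  have σ0 : 0 < Real.sin m := Real.sin_pos_of_pos_of_lt_pi m0 (by linarith [Real.pi_pos])
  have σ1 := Real.sin_le_one m
  set τ1 := min (min (Real.sin m) (ε * Real.sin m / 20)) (κ / 2) with hτ1
  have τ10 : 0 < τ1 := lt_min (lt_min σ0 (by positivity)) (by positivity)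
  obtain ⟨N0, hN0⟩ := exists_nat_ge (4 / τ1)
  set μ := min (min (1 / 4) (ε / 40)) (κ / 8) with hμ
  have μ0 : 0 < μ := lt_min (lt_min (by norm_num) (by positivity)) (by positivity)
  have μ1 : μ ≤ 1 / 4 := (min_le_left _ _).trans (min_le_left _ _)
  have μ2 : μ ≤ ε / 40 := (min_le_left _ _).trans (min_le_right _ _)
  have μ3 : μ ≤ κ / 8 := min_le_right _ _
  set d' := min d (μ * Real.sin m / 2) with hd'
  have d0 : 0 < d' := lt_min hd (by positivity)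
  have d1 : d' ≤ μ * Real.sin m / 2 := min_le_right _ _
  obtain ⟨w0, hw0, hstrip⟩ := strip m d' (ε / 5) (N0 + 1) m0 m1 N0.succ_pos d0 (by positivity)
  have w1 : 0 < min w0 (κ / 8) := lt_min hw0 (by positivity)
  obtain ⟨J0, hJ0⟩ := exists_nat_ge (1 / min w0 (κ / 8))
  set g : Grid := ⟨k, m, d', μ, N0 + 1, J0 + 1⟩ with hg
  have ok : g.Ok := by
    refine ⟨m0, m1, N0.succ_pos, J0.succ_pos, d0, ?_, by change μ < _; linarith⟩
    change d' / 2 + d' / Real.sin m ≤ μ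
    have : d' / Real.sin m ≤ μ / 2 := by rw [div_le_iff₀ σ0]; linarith
    nlinarith
  have hw : g.w ≤ min w0 (κ / 8) := by
    change (1 - 2 * μ) / ((J0 + 1 : ℕ) : ℝ) ≤ _
    rw [div_le_iff₀ w1] at hJ0
    rw [div_le_iff₀ (by positivity)]
    push_cast
    nlinarith
  have hτ : g.τ ≤ τ1 := by
    change (Real.pi - 2 * m) / ((N0 + 1 : ℕ) : ℝ) ≤ _
    rw [div_le_iff₀ τ10] at hN0
    rw [div_le_iff₀ (by positivity)]
    push_cast
    nlinarith [Real.pi_le_four]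
  have t1 : g.τ ≤ Real.sin m := hτ.trans ((min_le_left _ _).trans (min_le_left _ _))
  have t2 : g.τ ≤ ε * Real.sin m / 20 := hτ.trans ((min_le_left _ _).trans (min_le_right _ _))
  have t3 : g.τ ≤ κ / 2 := hτ.trans (min_le_right _ _)
  have τ0 := ok.τ0
  have N1 : (0 : ℝ) < g.N := by exact_mod_cast ok.N0
  set δ := min (g.τ / 4) (ε / (20 * g.N)) with hδ
  have δ0 : 0 < δ := lt_min (by positivity) (by positivity)
  have δ1 : δ < g.τ / 2 := (min_le_left _ _).trans_lt (by linarith)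
  have δ2 : 20 * g.N * δ ≤ ε := by
    have : δ ≤ ε / (20 * g.N) := min_le_right _ _
    rwa [le_div_iff₀' (by positivity)] at this
  obtain ⟨φ, h1, h2⟩ := Grid.exists_bumps ok δ0 δ1
  obtain ⟨ω, adm, hω, htot⟩ := masses P hs ok t1 δ0 h1 h2
  obtain ⟨F, G, K1, f1, f2, f3, f4, f5, f6⟩ :=
    hstrip g ok rfl rfl rfl (hw.trans (min_le_left _ _)) ω adm
  have hGS : G ⊆ St' k := fun a ha => ⟨⟨(f5 a ha).2.2.1.le, (f5 a ha).2.2.2.1⟩, trivial⟩
  have hlG : lam k G = rayMeas G := by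
    rw [lam, Measure.restrict_apply f3, inter_eq_left.mpr hGS]
  have hG : angMeas.real univ ≤ (lam k).real G + ε := by
    have a1 : g.τ / Real.sin g.m ≤ ε / 20 := by
      change g.τ / Real.sin m ≤ _
      rw [div_le_iff₀ σ0]; linarith
    rw [← hlG, ENNReal.ofReal_le_iff_le_toReal (measure_ne_top _ _)] at f6
    have a2 : g.m = m := rfl
    have a3 : g.μ = μ := rfl
    rw [Measure.real]
    rw [Measure.real] at htot ⊢
    linarith
  have hlu : (lam k).real univ = angMeas.real univ := by simp only [Measure.real, lam_univ]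
  refine ⟨F, G, K1, fun p hp => ⟨(f1 p hp).1, (f1 p hp).2.1,
    (f1 p hp).2.2.trans (boxU_mono _ (min_le_left _ _))⟩, f2, f3, f4,
    fun a ha => ⟨(f5 a ha).1.mono (boxU_mono _ (min_le_left _ _)), hGS ha⟩, ?_, ?_⟩
  · have : rayMeas (St' k \ G) = lam k Gᶜ := by
      rw [lam, Measure.restrict_apply f3.compl, inter_comm]; rfl
    rw [this, ← ENNReal.ofReal_toReal (measure_ne_top (lam k) Gᶜ)]
    refine ENNReal.ofReal_le_ofReal ?_
    have := measureReal_compl (μ := lam k) f3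
    rw [Measure.real] at this
    rw [this]
    linarith
  intro K hK hKD hKG f hf C η hC0 hC hη
  have e1 := det_restrict hK hKD k
  have e2 := ker_restrict P hP k
  have hm : Measurable fun a : ℝ × ℝ => (a, K a) := by fun_prop
  have fin1 : IsFiniteMeasure ((detMeas K).restrict (Gam k)) := by rw [e1]; infer_instance
  have fin2 : IsFiniteMeasure ((kerMeas P).restrict (Gam k)) := by rw [e2]; infer_instance
  have u1 : ((detMeas K).restrict (Gam k)).real univ = angMeas.real univ := by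
    rw [e1, ← hlu, Measure.real, Measure.map_apply hm MeasurableSet.univ]; rfl
  have u2 : ((kerMeas P).restrict (Gam k)).real univ = angMeas.real univ := by
    rw [e2, ← hlu, Measure.real, Measure.map_apply measurable_emb MeasurableSet.univ,
      preimage_univ, Measure.compProd_apply_univ]; rfl
  have hU : ∀ a, U1 (φ a) := fun a => (h1 a).2.1
  set T := Finset.range g.J ×ˢ Finset.range g.N ×ˢ Finset.range g.N with hT
  have mT : ∀ {i : ℕ × ℕ × ℕ}, i ∈ T → i.1 < g.J ∧ i.2.1 < g.N ∧ i.2.2 < g.N := by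
    intro i hi
    simpa [hT] using hi
  set GX : ℕ × ℕ × ℕ → Set ((ℝ × ℝ) × (ℝ × ℝ)) := fun i =>
    Gam k ∩ g.Box ω i.1 i.2.1 i.2.2 ×ˢ g.Box ω i.1 i.2.2 i.2.1 with hGX
  have mGX : ∀ i, MeasurableSet (GX i) := fun i =>
    (meas_Gam k).inter ((Grid.meas_Box _ _ _ _).prod (Grid.meas_Box _ _ _ _))
  have dGX : ∀ i ∈ T, ∀ j ∈ T, i ≠ j → Disjoint (GX i) (GX j) := by
    intro i hi j hj hne
    refine disjoint_left.mpr fun z a b => hne ?_
    obtain ⟨c1, c2, c3⟩ := Grid.box_uniq ok adm (mT hi).1 (mT hi).2.1 (mT hi).2.2 (mT hj).1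
      (mT hj).2.2 a.2.1 b.2.1
    exact Prod.ext c1 (Prod.ext c2 c3)
  have mψ : ∀ i : ℕ × ℕ × ℕ, Measurable fun z : (ℝ × ℝ) × (ℝ × ℝ) =>
      g.u i.1 z.1.1 * g.u i.1 z.2.1 * φ i.2.1 z.1.2 * φ i.2.2 z.2.2 := fun i =>
    ((((Grid.u_U1 _).1.comp (measurable_fst.comp measurable_fst)).mul
      ((Grid.u_U1 _).1.comp (measurable_fst.comp measurable_snd))).mul
      ((hU _).1.comp (measurable_snd.comp measurable_fst))).mul
      ((hU _).1.comp (measurable_snd.comp measurable_snd))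
  have := approx ((detMeas K).restrict (Gam k)) ((kerMeas P).restrict (Gam k)) T GX
    (fun i => Gam k ∩ {z | |z.1.1 - g.x i.1| ≤ g.w + g.μ ∧ |z.2.1 - g.x i.1| ≤ g.w + g.μ ∧
      z.1.2 ∈ g.W i.2.1 ∧ z.2.2 ∈ g.W i.2.2})
    (fun i z => g.u i.1 z.1.1 * g.u i.1 z.2.1 * φ i.2.1 z.1.2 * φ i.2.2 z.2.2)
    (Γ := Gam k) (κ := κ) (ε := ε) (fun i _ => mGX i) dGX (fun i _ => mψ i)
    (fun i _ z => mul_nonneg (mul_nonneg (mul_nonneg ((Grid.u_U1 _).2 _).1 ((Grid.u_U1 _).2 _).1)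
      ((hU _).2 _).1) ((hU _).2 _).1) ?_ ?_ ?_ (fun _ _ => inter_subset_left) ?_ ?_ ?_
    (u2.trans u1.symm) hf hC0 hC hη
  · rw [u2] at this
    nlinarith [ang_univ]
  · intro z
    refine sum_le_one _ _ (fun i _ => mul_le_one₀ (mul_le_one₀ (mul_le_one₀ ((Grid.u_U1 _).2 _).2
      ((Grid.u_U1 _).2 _).1 ((Grid.u_U1 _).2 _).2) ((hU _).2 _).1 ((hU _).2 _).2) ((hU _).2 _).1
      ((hU _).2 _).2) fun i _ j _ a b => ?_
    simp only [ne_eq, mul_eq_zero, not_or] at a b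
    exact Prod.ext (Grid.u_uniq ok a.1.1.1 b.1.1.1) (Prod.ext
      (ok.W_uniq ((h1 _).2.2 _ a.1.2) ((h1 _).2.2 _ b.1.2))
      (ok.W_uniq ((h1 _).2.2 _ a.2) ((h1 _).2.2 _ b.2)))
  · intro i hi z hz
    exact ⟨hz.1, Grid.box_near ok adm (mT hi).1 (mT hi).2.1 (mT hi).2.2 hz.2.1,
      Grid.box_near ok adm (mT hi).1 (mT hi).2.2 (mT hi).2.1 hz.2.2, hz.2.1.1, hz.2.2.1⟩
  · intro i _
    filter_upwards [ae_restrict_mem (meas_Gam k)] with z hz a
    simp only [ne_eq, mul_eq_zero, not_or] at a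
    have b1 := Grid.u_ne a.1.1.1
    have b2 := Grid.u_ne a.1.1.2
    have := ok.μpos
    have := ok.w0
    exact ⟨hz, abs_le.mpr ⟨by linarith [b1.1], by linarith [b1.2]⟩,
      abs_le.mpr ⟨by linarith [b2.1], by linarith [b2.2]⟩, (h1 _).2.2 _ a.1.2, (h1 _).2.2 _ a.2⟩
  · rintro i - z ⟨-, a1, a2, a3, a4⟩ z' ⟨-, b1, b2, b3, b4⟩
    have c1 : g.w ≤ κ / 8 := hw.trans (min_le_right _ _)
    have c2 : g.μ ≤ κ / 8 := μ3
    rw [abs_le] at a1 a2 b1 b2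
    simp only [Prod.dist_eq, Real.dist_eq, max_lt_iff, abs_lt]
    refine ⟨⟨⟨?_, ?_⟩, ?_, ?_⟩, ⟨?_, ?_⟩, ?_, ?_⟩ <;>
      linarith [a1.1, a1.2, a2.1, a2.2, b1.1, b1.2, b2.1, b2.2, a3.1, a3.2, a4.1, a4.2, b3.1, b3.2,
        b4.1, b4.2]
  · intro i _
    have a1 : ((detMeas K).restrict (Gam k)) (GX i) ≤ ENNReal.ofReal (g.τ * ω i.1 i.2.1 i.2.2) := by
      rw [e1, Measure.map_apply hm (mGX i)]
      refine le_trans ((Measure.restrict_apply_le _ _).trans (measure_mono fun a ha => ha.2.1))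
        (Grid.vol_Box ω ok _ _ _)
    refine (ENNReal.toReal_le_of_le_ofReal (mul_nonneg τ0.le (adm.nn _ _ _)) a1).trans
      ((hω _ _ _).trans (le_of_eq ?_))
    rw [e2, integral_map measurable_emb.aemeasurable (mψ i).aestronglyMeasurable]
    simp only [emb, Grid.u_mul]
    rfl
  · rw [u1, ← measureReal_biUnion_finset dGX fun i _ => mGX i]
    refine hG.trans (add_le_add (ENNReal.toReal_mono (measure_ne_top _ _) ?_) le_rfl)
    rw [e1, Measure.map_apply hm (Finset.measurableSet_biUnion _ fun i _ => mGX i)]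
    refine measure_mono fun a ha => ?_
    obtain ⟨b1, b2, -, -, j, hj, u, hu, v, hv, b3, b4⟩ := f5 a ha
    refine mem_iUnion₂.mpr ⟨(j, u, v), by simp [hT, hj, hu, hv], ?_⟩
    simp only [hKG a ha]
    exact ⟨⟨⟨b2, b1.1⟩, hGS ha, trivial⟩, b3, b4⟩

end Pool.Agent.Lib.MP_cc9ac0_pr
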