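import Pool.Agent.Lib.MP_cc9ac0_pr.Layers

set_option autoImplicit false

namespace Pool.Agent.Lib.MP_cc9ac0_pr

open MeasureTheory Set Filter Topology

lemma vol_ring (x : ℝ) {a d : ℝ} (ha : 0 ≤ a) (hd : 0 ≤ d) :
    volume (Metric.closedBall x (a + d) \ Metric.closedBall x a) ≤ ENNReal.ofReal (2 * d) := by
  rw [measure_sdiff (Metric.closedBall_subset_closedBall (by linarith))
    measurableSet_closedBall.nullMeasurableSet measure_closedBall_lt_top.ne,
    Real.volume_closedBall, Real.volume_closedBall, ← ENNReal.ofReal_sub _ (by linarith)]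
  exact ENNReal.ofReal_le_ofReal (by linarith)

namespace Par

variable (P : Par)

def Nb (γ : ℝ) : Set ℝ :=
  ⋃ r ∈ Finset.range P.R, ⋃ i ∈ P.I.filter (fun i => i.1.1 < r),
    (Metric.closedBall (Lf γ (P.pc i).1) ((P.pc i).2 * Real.cos γ + 2 * (P.δ r * P.Z)) \
      pr γ (P.pc i))

lemma meas_Nb (γ : ℝ) : MeasurableSet (P.Nb γ) :=
  Finset.measurableSet_biUnion _ fun _ _ => Finset.measurableSet_biUnion _ fun _ _ =>
    measurableSet_closedBall.diff measurableSet_closedBall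

lemma meas_H (γ : ℝ) (r : ℕ) : MeasurableSet (P.H γ r) := by
  have : P.H γ r = ⋃ i ∈ P.I.filter (fun i => i.1.1 < r), pr γ (P.pc i) := by
    ext s; simp only [H, mem_ofPred_eq, mem_iUnion, Finset.mem_filter]
    constructor
    · rintro ⟨i, h1, h2, h3⟩; exact ⟨i, ⟨h1, h2⟩, h3⟩
    · rintro ⟨i, ⟨h1, h2⟩, h3⟩; exact ⟨i, h1, h2, h3⟩
  rw [this]
  exact Finset.measurableSet_biUnion _ fun _ _ => measurableSet_closedBall

lemma card_lt (r : ℕ) : ((P.I.filter fun i => i.1.1 < r).card : ℝ) * P.A ≤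
    (2 * P.K + 1) * P.B.card * P.Jn r := by
  have h1 : P.I.filter (fun i => i.1.1 < r) ⊆ ((Finset.range r).sigma fun r =>
      Finset.Icc (-(P.K : ℤ)) P.K ×ˢ Finset.range (P.Jn r)) ×ˢ P.B := by
    intro i hi
    obtain ⟨hi, hr⟩ := Finset.mem_filter.mp hi
    obtain ⟨he, hb⟩ := P.mem_I.mp hi
    obtain ⟨-, h2, h3⟩ := P.mem_E.mp he
    simp [hr, hb, h3, abs_le.mp h2]
  have h2 := Finset.card_le_card h1
  rw [Finset.card_product, Finset.card_sigma] at h2
  simp only [Finset.card_product, Int.card_Icc, Finset.card_range] at h2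
  have h3 : (P.K + 1 - -(P.K : ℤ)).toNat = 2 * P.K + 1 := by omega
  rw [h3, ← Finset.mul_sum] at h2
  have h4 := geom_sum_mul_add P.A r
  have h5 : (P.I.filter fun i => i.1.1 < r).card * P.A ≤ (2 * P.K + 1) * P.B.card * P.Jn r := by
    calc _ ≤ (2 * P.K + 1) * (∑ i ∈ Finset.range r, P.Jn i) * P.B.card * P.A := by gcongr
      _ = (2 * P.K + 1) * P.B.card * ((∑ i ∈ Finset.range r, (P.A + 1) ^ i) * P.A) := by
        unfold Jn; ring
      _ ≤ _ := by unfold Jn; gcongr; omega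
  exact_mod_cast h5

lemma vol_Nb {γ : ℝ} (g2 : |γ| ≤ P.γ2) (hA : 0 < P.A) : volume (P.Nb γ) ≤
    ENNReal.ofReal (P.R * (4 * (2 * P.K + 1) * P.B.card * P.T / P.A)) := by
  have hA' : (0 : ℝ) < P.A := by exact_mod_cast hA
  have hc := P.c_pos.trans_le (P.cos_ge g2)
  have hT := P.T_pos
  refine (measure_biUnion_finset_le _ _).trans ?_
  rw [ENNReal.ofReal_mul (Nat.cast_nonneg _), ENNReal.ofReal_natCast]
  refine (Finset.sum_le_card_nsmul _ _
    (ENNReal.ofReal (4 * (2 * P.K + 1) * P.B.card * P.T / P.A)) fun r _ => ?_).trans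
    (by rw [Finset.card_range, nsmul_eq_mul])
  have hδZ := mul_pos (P.δ_pos r) P.Z_pos
  refine (measure_biUnion_finset_le _ _).trans ?_
  refine (Finset.sum_le_card_nsmul _ _ (ENNReal.ofReal (2 * (2 * (P.δ r * P.Z)))) fun i _ =>
    vol_ring _ (mul_pos (P.δ_pos _) hc).le (by positivity)).trans ?_
  rw [nsmul_eq_mul, ← ENNReal.ofReal_natCast, ← ENNReal.ofReal_mul (Nat.cast_nonneg _)]
  refine ENNReal.ofReal_le_ofReal ?_
  rw [le_div_iff₀ hA', ← P.δ_mul r]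
  have := mul_le_mul_of_nonneg_left (P.card_lt r) hδZ.le
  nlinarith

lemma central {γ s y : ℝ} {k : ℤ} (g2 : |γ| ≤ P.γ2)
    (hs : |s| ≤ (P.K - 2 * P.R - 1) * P.ρ * Real.cos γ) (hy1 : -(P.R * P.T) ≤ y) (hy2 : y ≤ 0)
    (h : |s - Lf γ (k * P.ρ, y)| ≤ P.T) : |k| + P.R ≤ P.K := by
  have hcg := P.cos_ge g2
  have hc0 := P.c_pos
  have hρ := P.hρ
  have h1 : |y * Real.sin γ| ≤ P.R * P.T := by
    rw [abs_mul]
    refine (mul_le_of_le_one_right (abs_nonneg _) (Real.abs_sin_le_one _)).trans ?_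
    exact abs_le.mpr ⟨hy1, by linarith⟩
  have e : k * P.ρ * Real.cos γ = s - (s - Lf γ (k * P.ρ, y)) - y * Real.sin γ := by
    simp only [Lf]; ring
  have h2 : |k * P.ρ * Real.cos γ| ≤ |s| + P.T + P.R * P.T := by
    rw [e]
    linarith [abs_sub (s - (s - Lf γ (k * P.ρ, y))) (y * Real.sin γ),
      abs_sub s (s - Lf γ (k * P.ρ, y))]
  have h3 : P.T ≤ P.ρ * Real.cos γ := by
    have := mul_le_mul_of_nonneg_left hcg hρ.le
    have := mul_pos hρ hc0
    unfold T; linarith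
  have h4 : P.R * P.T ≤ P.R * (P.ρ * Real.cos γ) := by gcongr
  rw [abs_mul, abs_mul, abs_of_pos hρ, abs_of_pos (hc0.trans_le hcg)] at h2
  have h5 : (|(k : ℝ)| + P.R) * (P.ρ * Real.cos γ) ≤ P.K * (P.ρ * Real.cos γ) := by linarith
  have h6 := le_of_mul_le_mul_right h5 (mul_pos hρ (hc0.trans_le hcg))
  exact_mod_cast h6

lemma yfind {y : ℝ} (hy1 : -(P.R * P.T) < y) (hy2 : y ≤ 0) (k : ℤ) :
    ∃ r j, r < P.R ∧ j < P.Jn r ∧ |y - P.yc ⟨r, k, j⟩| ≤ P.δ r * P.Z / 2 := by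
  have hT := P.T_pos
  have h0 : 0 ≤ -y / P.T := div_nonneg (by linarith) hT.le
  have h1 := Nat.floor_le h0
  have h2 := Nat.lt_floor_add_one (-y / P.T)
  set r := ⌊-y / P.T⌋₊
  rw [le_div_iff₀ hT] at h1
  rw [div_lt_iff₀ hT] at h2
  have hd := mul_pos (P.δ_pos r) P.Z_pos
  have h3 : 0 ≤ (-y - r * P.T) / (P.δ r * P.Z) := div_nonneg (by linarith) hd.le
  have h4 := Nat.floor_le h3
  have h5 := Nat.lt_floor_add_one ((-y - r * P.T) / (P.δ r * P.Z))
  set j := ⌊(-y - r * P.T) / (P.δ r * P.Z)⌋₊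
  rw [le_div_iff₀ hd] at h4
  rw [div_lt_iff₀ hd] at h5
  refine ⟨r, j, ?_, ?_, ?_⟩
  · have : (r : ℝ) * P.T < P.R * P.T := by linarith
    exact_mod_cast lt_of_mul_lt_mul_right this hT.le
  · have : (j : ℝ) * (P.δ r * P.Z) < P.Jn r * (P.δ r * P.Z) := by linarith [P.δ_mul r]
    exact_mod_cast lt_of_mul_lt_mul_right this hd.le
  · simp only [yc]
    exact abs_le.mpr ⟨by linarith, by linarith⟩

lemma kfind {γ : ℝ} (g1 : P.γ1 ≤ |γ|) (g2 : |γ| ≤ P.γ2) {m : ℕ}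
    (hm : m * P.ρ ≤ P.R * P.T * Real.sin P.γ1) (s : ℝ) :
    ∃ g : ℕ → ℤ, Function.Injective g ∧ ∀ i < m, ∃ y, -(P.R * P.T) < y ∧ y ≤ 0 ∧
      s = Lf γ (g i * P.ρ, y) := by
  have hc := P.c_pos.trans_le (P.cos_ge g2)
  have hρ := P.hρ
  have hp : 0 < P.ρ * Real.cos γ := mul_pos hρ hc
  have hs := P.sin_ge g1 g2
  have hs0 := P.s_pos
  have hRT : 0 ≤ P.R * P.T := mul_nonneg (Nat.cast_nonneg _) P.T_pos.le
  have hb : ∀ i < m, (i + 1) * (P.ρ * Real.cos γ) ≤ P.R * P.T * |Real.sin γ| := by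
    intro i hi
    have h1 : (i : ℝ) + 1 ≤ m := by exact_mod_cast hi
    have h2 : P.ρ * Real.cos γ ≤ P.ρ := mul_le_of_le_one_right hρ.le (Real.cos_le_one _)
    calc ((i : ℝ) + 1) * (P.ρ * Real.cos γ) ≤ m * P.ρ := by gcongr
      _ ≤ _ := hm.trans (by gcongr)
  rcases lt_or_gt_of_ne (abs_pos.mp (hs0.trans_le hs)) with hneg | hpos
  · refine ⟨fun i => ⌊s / (P.ρ * Real.cos γ)⌋ - i, fun a b h => by simpa using h, fun i hi => ?_⟩
    have h1 := Int.floor_le (s / (P.ρ * Real.cos γ))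
    have h2 := Int.lt_floor_add_one (s / (P.ρ * Real.cos γ))
    rw [le_div_iff₀ hp] at h1
    rw [div_lt_iff₀ hp] at h2
    have h3 := hb i hi
    rw [abs_of_neg hneg] at h3
    have h4 : (0 : ℝ) ≤ i * (P.ρ * Real.cos γ) := by positivity
    refine ⟨(s - (⌊s / (P.ρ * Real.cos γ)⌋ - i) * (P.ρ * Real.cos γ)) / Real.sin γ, ?_, ?_, ?_⟩
    · rw [lt_div_iff_of_neg hneg]; linarith
    · exact div_nonpos_of_nonneg_of_nonpos (by linarith) hneg.le
    · simp only [Lf]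
      rw [div_mul_cancel₀ _ hneg.ne]
      push_cast; ring
  · refine ⟨fun i => ⌈s / (P.ρ * Real.cos γ)⌉ + i, fun a b h => by simpa using h, fun i hi => ?_⟩
    have h1 := Int.le_ceil (s / (P.ρ * Real.cos γ))
    have h2 := Int.ceil_lt_add_one (s / (P.ρ * Real.cos γ))
    rw [div_le_iff₀ hp] at h1
    rw [← sub_lt_iff_lt_add, lt_div_iff₀ hp] at h2
    have h3 := hb i hi
    rw [abs_of_pos hpos] at h3
    have h4 : (0 : ℝ) ≤ i * (P.ρ * Real.cos γ) := by positivity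
    refine ⟨(s - (⌈s / (P.ρ * Real.cos γ)⌉ + i) * (P.ρ * Real.cos γ)) / Real.sin γ, ?_, ?_, ?_⟩
    · rw [lt_div_iff₀ hpos]; linarith
    · exact div_nonpos_of_nonpos_of_nonneg (by linarith) hpos.le
    · simp only [Lf]
      rw [div_mul_cancel₀ _ hpos.ne']
      push_cast; ring

lemma clean_of {γ s : ℝ} {e : St} (he : e ∈ P.E) (hk : |e.2.1| + P.R ≤ P.K)
    (hs : |s - P.ctr γ e| ≤ P.δ e.1 * P.Z) (h1 : s ∉ P.H γ e.1) (h2 : s ∉ P.Nb γ) :
    P.Clean γ e := by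
  refine ⟨hk, disjoint_left.mpr fun s' h3 h4 => h2 ?_⟩
  obtain ⟨i, hi, hr, h4⟩ := h4
  refine mem_iUnion₂.mpr ⟨e.1, Finset.mem_range.mpr (P.mem_E.mp he).1,
    mem_iUnion₂.mpr ⟨i, Finset.mem_filter.mpr ⟨hi, hr⟩, ?_, fun h => h1 ⟨i, hi, hr, h⟩⟩⟩
  rw [pr] at h4
  rw [Metric.mem_closedBall, Real.dist_eq] at h3 h4 ⊢
  rw [abs_le] at *
  constructor <;> linarith [h3.1, h3.2, h4.1, h4.2, hs.1, hs.2]

open Classical in
lemma count_clean {γ : ℝ} (g1 : P.γ1 ≤ |γ|) (g2 : |γ| ≤ P.γ2) {m : ℕ}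
    (hm : m * P.ρ ≤ P.R * P.T * Real.sin P.γ1) {s : ℝ}
    (hs : |s| ≤ (P.K - 2 * P.R - 1) * P.ρ * Real.cos γ) (h1 : s ∉ P.H γ P.R) (h2 : s ∉ P.Nb γ) :
    m ≤ ((P.E.filter (P.Clean γ)).filter fun e =>
      s ∈ Metric.closedBall (P.ctr γ e) (P.δ e.1 * P.Z / 2)).card := by
  obtain ⟨g, hg, hg'⟩ := P.kfind g1 g2 hm s
  have : ∀ i, i < m → ∃ e ∈ (P.E.filter (P.Clean γ)).filter fun e =>
      s ∈ Metric.closedBall (P.ctr γ e) (P.δ e.1 * P.Z / 2), e.2.1 = g i := by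
    intro i hi
    obtain ⟨y, y1, y2, hy⟩ := hg' i hi
    obtain ⟨r, j, hr, hj, hyc⟩ := P.yfind y1 y2 (g i)
    have hk := P.central g2 hs y1.le y2 (k := g i) (by rw [← hy, sub_self, abs_zero]; exact P.T_pos.le)
    have hE : (⟨r, g i, j⟩ : St) ∈ P.E := P.mem_E.mpr ⟨hr, by simp only; omega, hj⟩
    have hd : |s - P.ctr γ ⟨r, g i, j⟩| ≤ P.δ r * P.Z / 2 := by
      have e : s - P.ctr γ ⟨r, g i, j⟩ = (y - P.yc ⟨r, g i, j⟩) * Real.sin γ := by
        rw [hy]; simp only [ctr, Lf]; ring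
      rw [e, abs_mul]
      exact (mul_le_of_le_one_right (abs_nonneg _) (Real.abs_sin_le_one _)).trans hyc
    have hp := mul_pos (P.δ_pos r) P.Z_pos
    refine ⟨⟨r, g i, j⟩, Finset.mem_filter.mpr ⟨Finset.mem_filter.mpr ⟨hE,
      P.clean_of hE hk (by simp only; linarith) ?_ h2⟩, hd⟩, rfl⟩
    rintro ⟨i', hi', hr', h⟩
    exact h1 ⟨i', hi', hr'.trans hr, h⟩
  choose! f hf1 hf2 using this
  rw [← Finset.card_range m]
  refine Finset.card_le_card_of_injOn f (fun i hi => hf1 i (by simpa using hi)) ?_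
  intro a ha b hb h
  apply hg
  rw [← hf2 a (by simpa using ha), ← hf2 b (by simpa using hb), h]

open Classical in
lemma vol_alive {γ : ℝ} (g1 : P.γ1 ≤ |γ|) (g2 : |γ| ≤ P.γ2) {m : ℕ}
    (hm : m * P.ρ ≤ P.R * P.T * Real.sin P.γ1) :
    m * volume (Metric.closedBall 0 ((P.K - 2 * P.R - 1) * P.ρ * Real.cos γ) \
      (P.H γ P.R ∪ P.Nb γ)) ≤
      ENNReal.ofReal (P.Z * ∑ e ∈ P.E.filter (P.Clean γ), P.δ e.1) := by
  set S := Metric.closedBall 0 ((P.K - 2 * P.R - 1) * P.ρ * Real.cos γ) \ (P.H γ P.R ∪ P.Nb γ)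
  have hS : MeasurableSet S := measurableSet_closedBall.diff ((P.meas_H _ _).union (P.meas_Nb _))
  calc (m : ENNReal) * volume S = ∫⁻ _ in S, (m : ENNReal) := by rw [setLIntegral_const]
    _ ≤ ∫⁻ s in S, ∑ e ∈ P.E.filter (P.Clean γ),
        (Metric.closedBall (P.ctr γ e) (P.δ e.1 * P.Z / 2)).indicator 1 s := by
      refine setLIntegral_mono' hS fun s hs => ?_
      have h1 := P.count_clean g1 g2 hm (s := s) (by simpa using hs.1) (fun h => hs.2 (Or.inl h))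
        (fun h => hs.2 (Or.inr h))
      rw [Finset.card_filter] at h1
      have h2 : (m : ENNReal) ≤ ((∑ e ∈ P.E.filter (P.Clean γ),
        if s ∈ Metric.closedBall (P.ctr γ e) (P.δ e.1 * P.Z / 2) then 1 else 0 : ℕ) : ENNReal) := by
        exact_mod_cast h1
      refine h2.trans (le_of_eq ?_)
      push_cast
      refine Finset.sum_congr rfl fun e _ => ?_
      simp [indicator]
    _ ≤ ∫⁻ s, ∑ e ∈ P.E.filter (P.Clean γ),
        (Metric.closedBall (P.ctr γ e) (P.δ e.1 * P.Z / 2)).indicator 1 s :=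
      setLIntegral_le_lintegral _ _
    _ = ∑ e ∈ P.E.filter (P.Clean γ), ENNReal.ofReal (P.Z * P.δ e.1) := by
      rw [lintegral_finsetSum _ fun e _ => measurable_one.indicator measurableSet_closedBall]
      refine Finset.sum_congr rfl fun e _ => ?_
      rw [lintegral_indicator_one measurableSet_closedBall, Real.volume_closedBall]
      congr 1; ring
    _ = _ := by
      rw [Finset.mul_sum, ENNReal.ofReal_sum_of_nonneg fun e _ =>
        (mul_pos P.Z_pos (P.δ_pos _)).le]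

open Classical in
lemma sum_clean_le {γ : ℝ} (g1 : P.γ1 ≤ |γ|) (g2 : |γ| ≤ P.γ2) :
    Real.cos P.γ2 * P.B.card * ∑ e ∈ P.E.filter (P.Clean γ), P.δ e.1 ≤
      P.K * P.ρ + P.ρ + P.R * P.T := by
  have hc0 := P.c_pos
  have hcg := P.cos_ge g2
  have hρ := P.hρ
  have hT := P.T_pos
  have hsub : ∀ i ∈ P.E.filter (P.Clean γ) ×ˢ P.B, i ∈ P.I := fun i hi =>
    P.mem_I.mpr ⟨(Finset.mem_filter.mp (Finset.mem_product.mp hi).1).1,
      (Finset.mem_product.mp hi).2⟩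
  have hcl : ∀ i ∈ P.E.filter (P.Clean γ) ×ˢ P.B, P.Clean γ i.1 := fun i hi =>
    (Finset.mem_filter.mp (Finset.mem_product.mp hi).1).2
  have h1 : volume (⋃ i ∈ P.E.filter (P.Clean γ) ×ˢ P.B, pr γ (P.pc i)) =
      ∑ i ∈ P.E.filter (P.Clean γ) ×ˢ P.B, volume (pr γ (P.pc i)) := by
    refine measure_biUnion_finset ?_ fun _ _ => measurableSet_closedBall
    intro i hi i' hi' hne
    rcases le_total i'.1.1 i.1.1 with h | h
    · exact (P.clean_disj g1 g2 (hsub i hi) (hsub i' hi') (hcl i hi) h hne).1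
    · exact (P.clean_disj g1 g2 (hsub i' hi') (hsub i hi) (hcl i' hi') h hne.symm).1.symm
  have h2 : (⋃ i ∈ P.E.filter (P.Clean γ) ×ˢ P.B, pr γ (P.pc i)) ⊆
      Metric.closedBall 0 (P.K * P.ρ + P.ρ + P.R * P.T) := by
    refine iUnion₂_subset fun i hi s hs => ?_
    obtain ⟨he, hb⟩ := P.mem_I.mp (hsub i hi)
    have n1 := P.near hb hs
    have n2 := P.δΔ_le_ρ i.1.1
    have n3 : |P.ctr γ i.1| ≤ P.K * P.ρ + P.R * P.T := by
      refine (abs_add_le _ _).trans (add_le_add ?_ ?_) <;> rw [abs_mul]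
      · refine (mul_le_of_le_one_right (abs_nonneg _) (Real.abs_cos_le_one _)).trans ?_
        have : |(i.1.2.1 : ℝ)| ≤ P.K := by exact_mod_cast (P.mem_E.mp he).2.1
        rw [abs_mul, abs_of_pos hρ]
        gcongr
      · refine (mul_le_of_le_one_right (abs_nonneg _) (Real.abs_sin_le_one _)).trans ?_
        have y1 := P.yc_range he
        have r1 : (i.1.1 : ℝ) + 1 ≤ P.R := by exact_mod_cast (P.mem_E.mp he).1
        have r2 := mul_le_mul_of_nonneg_right r1 hT.le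
        have r3 : (0 : ℝ) ≤ i.1.1 * P.T := by positivity
        have r4 := mul_pos (P.δ_pos i.1.1) P.Z_pos
        exact abs_le.mpr ⟨by linarith [y1.1], by linarith [y1.2]⟩
    rw [Metric.mem_closedBall, Real.dist_eq, sub_zero]
    have := abs_add_le (s - P.ctr γ i.1) (P.ctr γ i.1)
    rw [sub_add_cancel] at this
    linarith
  have h3 := measure_mono (μ := volume) h2
  rw [h1, Real.volume_closedBall] at h3
  simp only [pr, Real.volume_closedBall] at h3
  rw [← ENNReal.ofReal_sum_of_nonneg fun i _ => by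
      have := P.δ_pos i.1.1; have := hc0.trans_le hcg; simp only [pc]; positivity,
    ENNReal.ofReal_le_ofReal_iff (by positivity), Finset.sum_product] at h3
  simp only [pc, Finset.sum_const, nsmul_eq_mul] at h3
  refine le_trans ?_ (le_of_mul_le_mul_left (a := 2) ?_ two_pos : Real.cos γ * P.B.card *
    ∑ e ∈ P.E.filter (P.Clean γ), P.δ e.1 ≤ _)
  · have := Finset.sum_nonneg fun e (_ : e ∈ P.E.filter (P.Clean γ)) => (P.δ_pos e.1).le
    gcongr
  · refine le_trans (le_of_eq ?_) h3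
    rw [Finset.mul_sum, Finset.mul_sum]
    exact Finset.sum_congr rfl fun e _ => by ring

open Classical in
lemma cover {γ : ℝ} (g1 : P.γ1 ≤ |γ|) (g2 : |γ| ≤ P.γ2) {m : ℕ} (hm0 : 0 < m)
    (hm : m * P.ρ ≤ P.R * P.T * Real.sin P.γ1) (hA : 0 < P.A) (hB : P.B.Nonempty) {l : ℝ}
    (hl : l ≤ (P.K + 2) * P.ρ) :
    volume (Metric.closedBall 0 (l * Real.cos γ) \
      ⋃ i ∈ P.I.filter (fun i => P.Clean γ i.1), opr γ (P.pc i)) ≤
      ENNReal.ofReal (2 * ((2 * P.R + 3) * P.ρ) +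
        P.Z * (P.K * P.ρ + P.ρ + P.R * P.T) / (Real.cos P.γ2 * P.B.card * m) +
        P.R * (4 * (2 * P.K + 1) * P.B.card * P.T / P.A)) := by
  have hc0 := P.c_pos
  have hcg := P.cos_ge g2
  have hρ := P.hρ
  have hT := P.T_pos
  have hZ := P.Z_pos
  have hm' : (0 : ℝ) < m := by exact_mod_cast hm0
  have hB' : (0 : ℝ) < P.B.card := by exact_mod_cast hB.card_pos
  set W := (P.K - 2 * P.R - 1) * P.ρ * Real.cos γ with hW
  have hsub : Metric.closedBall 0 (l * Real.cos γ) \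
      (⋃ i ∈ P.I.filter (fun i => P.Clean γ i.1), opr γ (P.pc i)) ⊆
      ((Metric.closedBall 0 (l * Real.cos γ) \ Metric.closedBall 0 W) ∪
        (Metric.closedBall 0 W \ (P.H γ P.R ∪ P.Nb γ)) ∪ P.Nb γ) ∪
        ⋃ i ∈ P.I, Metric.sphere (Lf γ (P.pc i).1) ((P.pc i).2 * Real.cos γ) := by
    rintro s ⟨hs1, hs2⟩
    by_contra hc
    simp only [mem_union, not_or, Set.mem_sdiff, not_and, not_not] at hc
    obtain ⟨⟨⟨c1, c2⟩, c3⟩, c4⟩ := hc
    have hcen := c1 hs1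
    have hH : s ∈ P.H γ P.R := by
      by_contra h
      exact c3 (c2 hcen h)
    have hex : ∃ r, ∃ i ∈ P.I, i.1.1 = r ∧ s ∈ pr γ (P.pc i) := by
      obtain ⟨i, hi, -, h⟩ := hH
      exact ⟨_, i, hi, rfl, h⟩
    obtain ⟨i, hi, hr, hs⟩ := Nat.find_spec hex
    obtain ⟨he, hb⟩ := P.mem_I.mp hi
    have n1 := P.near hb hs
    have n2 := P.δΔ_le i.1.1
    have n3 := P.δ_pos i.1.1
    have n4 := P.δZ_le i.1.1
    have n5 := mul_nonneg n3.le P.hΔ
    have y1 := P.yc_range he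
    have r1 : (i.1.1 : ℝ) + 1 ≤ P.R := by exact_mod_cast (P.mem_E.mp he).1
    have r2 := mul_le_mul_of_nonneg_right r1 hT.le
    have r3 : (0 : ℝ) ≤ i.1.1 * P.T := by positivity
    have hk := P.central g2 (s := s) (by simpa using hcen) (y := P.yc i.1) (k := i.1.2.1)
      (by linarith [y1.1]) (by linarith [y1.2]) (le_trans n1 (by linarith))
    have hcl := P.clean_of he hk (le_trans n1 (by linarith)) (by
      rintro ⟨i', hi', hr', h⟩
      exact Nat.find_min hex (hr ▸ hr') ⟨i', hi', rfl, h⟩) c3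
    refine hs2 (mem_iUnion₂.mpr ⟨i, Finset.mem_filter.mpr ⟨hi, hcl⟩, ?_⟩)
    exact lt_of_le_of_ne hs fun h => c4 (mem_iUnion₂.mpr ⟨i, hi, h⟩)
  have h0 : volume (⋃ i ∈ P.I, Metric.sphere (Lf γ (P.pc i).1) ((P.pc i).2 * Real.cos γ)) = 0 :=
    (measure_biUnion_null_iff P.I.countable_toSet).mpr fun i _ => Measure.addHaar_sphere _ _ _
  have h1 : volume (Metric.closedBall (0 : ℝ) (l * Real.cos γ) \ Metric.closedBall 0 W) ≤
      ENNReal.ofReal (2 * ((2 * P.R + 3) * P.ρ)) := by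
    have hd : l * Real.cos γ ≤ W + (2 * P.R + 3) * P.ρ := by
      have a1 := mul_le_mul_of_nonneg_right hl (hc0.trans_le hcg).le
      have a2 : (2 * P.R + 3) * P.ρ * Real.cos γ ≤ (2 * P.R + 3) * P.ρ :=
        mul_le_of_le_one_right (by positivity) (Real.cos_le_one _)
      rw [hW]; linarith
    rcases le_or_gt 0 W with h | h
    · exact (measure_mono (sdiff_subset_sdiff_left (Metric.closedBall_subset_closedBall hd))).trans
        (vol_ring 0 h (by positivity))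
    · refine (measure_mono sdiff_subset).trans ?_
      rw [Real.volume_closedBall]
      exact ENNReal.ofReal_le_ofReal (by linarith)
  have h2 : volume (Metric.closedBall 0 W \ (P.H γ P.R ∪ P.Nb γ)) ≤ ENNReal.ofReal
      (P.Z * (P.K * P.ρ + P.ρ + P.R * P.T) / (Real.cos P.γ2 * P.B.card * m)) := by
    have a1 := P.vol_alive g1 g2 hm
    have a2 := P.sum_clean_le g1 g2
    rw [← ENNReal.mul_le_mul_iff_right (a := m) (by exact_mod_cast hm0.ne') (ENNReal.natCast_ne_top m)]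
    refine a1.trans ?_
    rw [← ENNReal.ofReal_natCast, ← ENNReal.ofReal_mul hm'.le]
    refine ENNReal.ofReal_le_ofReal ?_
    rw [← mul_div_assoc, le_div_iff₀ (by positivity)]
    have := mul_le_mul_of_nonneg_left a2 (mul_pos hm' hZ).le
    linarith
  refine (measure_mono hsub).trans ((measure_union_le _ _).trans ?_)
  rw [h0, add_zero]
  refine (measure_union_le _ _).trans ?_
  rw [ENNReal.ofReal_add (by positivity) (by positivity),
    ENNReal.ofReal_add (by positivity) (by positivity)]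
  exact add_le_add ((measure_union_le _ _).trans (add_le_add h1 h2)) (P.vol_Nb g2 hA)

lemma foreign (γ : ℝ) {w : ℝ} (hw : 0 ≤ w) (h : volume (shade γ P.B) ≤ ENNReal.ofReal w) :
    volume (⋃ i ∈ P.I, Metric.closedBall (Lf γ (P.pc i).1) (P.pc i).2) ≤
      ENNReal.ofReal (P.R * (2 * P.K + 1) * (P.T / P.Z) * w) := by
  have hsub : (⋃ i ∈ P.I, Metric.closedBall (Lf γ (P.pc i).1) (P.pc i).2) ⊆
      ⋃ e ∈ P.E, (fun x => x + -P.ctr γ e) ⁻¹' ((fun x => (P.δ e.1)⁻¹ * x) ⁻¹' shade γ P.B) := by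
    refine iUnion₂_subset fun i hi s hs => ?_
    obtain ⟨he, hb⟩ := P.mem_I.mp hi
    refine mem_iUnion₂.mpr ⟨i.1, he, mem_iUnion₂.mpr ⟨i.2, hb, ?_⟩⟩
    have hδ := P.δ_pos i.1.1
    rw [Metric.mem_closedBall, Real.dist_eq] at hs ⊢
    rw [Lf_pc] at hs
    have e : (P.δ i.1.1)⁻¹ * (s + -P.ctr γ i.1) - Lf γ i.2 =
        (P.δ i.1.1)⁻¹ * (s - (P.ctr γ i.1 + P.δ i.1.1 * Lf γ i.2)) := by
      field_simp; ring
    rw [e, abs_mul, abs_of_pos (inv_pos.mpr hδ), inv_mul_le_iff₀ hδ, mul_one]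
    exact hs
  refine (measure_mono hsub).trans ((measure_biUnion_finset_le _ _).trans ?_)
  refine (Finset.sum_le_sum (g := fun e => ENNReal.ofReal (P.δ e.1 * w)) fun e _ => ?_).trans ?_
  · have hδ := P.δ_pos e.1
    rw [measure_preimage_add_right, Real.volume_preimage_mul_left (inv_pos.mpr hδ).ne', inv_inv,
      abs_of_pos hδ, ENNReal.ofReal_mul hδ.le]
    exact mul_le_mul_right h _
  · rw [← ENNReal.ofReal_sum_of_nonneg fun e _ => mul_nonneg (P.δ_pos _).le hw]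
    refine ENNReal.ofReal_le_ofReal (le_of_eq ?_)
    rw [E, Finset.sum_sigma]
    simp only [Finset.sum_const, Finset.card_product, Int.card_Icc, Finset.card_range,
      nsmul_eq_mul]
    have h3 : (P.K + 1 - -(P.K : ℤ)).toNat = 2 * P.K + 1 := by omega
    rw [h3, Finset.sum_congr rfl (g := fun _ => (2 * P.K + 1) * (P.T / P.Z) * w)]
    · simp; ring
    · intro r _
      rw [← P.δ_mul r]
      have := P.Z_pos
      push_cast
      field_simp

end Par

end Pool.Agent.Lib.MP_cc9ac0_pr
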