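import Mathlib

set_option autoImplicit false

namespace Pool.Agent.Lib.MP_cc9ac0_pr

open MeasureTheory ProbabilityTheory Set Filter Topology

/-- The plane is `ℂ`; `dir α` is the unit vector at angle `α`. -/
noncomputable def dir (α : ℝ) : ℂ := Complex.exp (α * Complex.I)

/-- `D = ℝ × (-π, 0)`. -/
def rayD : Set (ℝ × ℝ) := univ ×ˢ Ioo (-Real.pi) 0

/-- The measure `-sin α dα` on `(-π, 0)`. -/
noncomputable def angMeas : Measure ℝ :=
  (volume.restrict (Ioo (-Real.pi) 0)).withDensity fun α => ENNReal.ofReal (-Real.sin α)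

/-- The measure `Λ(dx, dα) = -sin α dx dα` on `D`. -/
noncomputable def rayMeas : Measure (ℝ × ℝ) := (volume : Measure ℝ).prod angMeas

/-- The members of the class `M₁` all of whose curves are line segments: `M` lies in the open lower
half plane and, for every `k`, its part in the strip `-k ≤ x₁ ≤ k` is a finite union of
nondegenerate compact segments, two of which meet only at common endpoints and are then not
parallel. -/
def PolyM1 (M : Set ℂ) : Prop :=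
  (∀ z ∈ M, z.im < 0) ∧
  ∀ k : ℕ, ∃ S : Finset (ℂ × ℂ), (∀ s ∈ S, s.1 ≠ s.2) ∧
    M ∩ {z | -(k : ℝ) ≤ z.re ∧ z.re ≤ k} = (⋃ s ∈ S, segment ℝ s.1 s.2) ∧
    ∀ s ∈ S, ∀ s' ∈ S, s ≠ s' → ∀ z ∈ segment ℝ s.1 s.2 ∩ segment ℝ s'.1 s'.2,
      (z = s.1 ∨ z = s.2) ∧ (z = s'.1 ∨ z = s'.2) ∧
        ((s.2 - s.1) / (s'.2 - s'.1)).im ≠ 0

/-- Near `q` the set `M` is the straight line through `q` with unit tangent `u`. -/
def FlatAt (M : Set ℂ) (q u : ℂ) : Prop :=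
  ‖u‖ = 1 ∧ ∃ δ : ℝ, 0 < δ ∧ ∀ z : ℂ, dist z q < δ → (z ∈ M ↔ ∃ t : ℝ, z = q + t * u)

/-- `Traj M n p v y w`: the light ray leaving `p` in direction `v` makes exactly `n` specular
reflections off `M` and then first reaches the line `x₂ = 0`, at the point `y` and with
direction `w`.  Specular reflection in a mirror with unit tangent `u` sends `v` to
`u ^ 2 * conj v`. -/
inductive Traj (M : Set ℂ) : ℕ → ℂ → ℂ → ℂ → ℂ → Prop
  | exit (p v : ℂ) (t : ℝ) : 0 < t → (p + t * v).im = 0 →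
      (∀ s : ℝ, 0 < s → s < t → p + s * v ∉ M ∧ (p + s * v).im < 0) →
      Traj M 0 p v (p + t * v) v
  | bounce (n : ℕ) (p v u y w : ℂ) (t : ℝ) : 0 < t →
      (∀ s : ℝ, 0 < s → s < t → p + s * v ∉ M ∧ (p + s * v).im < 0) →
      FlatAt M (p + t * v) u →
      Traj M n (p + t * v) (u ^ 2 * (starRingEnd ℂ) v) y w →
      Traj M (n + 1) p v y w

/-- The ray `a = (x, α)` returns to `x₂ = 0` after exactly `n` reflections, at the point `b.1`
with direction angle `β' = b.2 + π`, and `b ∈ D`; that is, `K a = b`. -/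
def Returns (M : Set ℂ) (n : ℕ) (a b : ℝ × ℝ) : Prop :=
  b ∈ rayD ∧ Traj M n (a.1 : ℂ) (dir a.2) (b.1 : ℂ) (dir (b.2 + Real.pi))

/-- Symmetry of the kernel, tested on smooth bounded functions. -/
def SymmKernel (P : Kernel (ℝ × ℝ) ℝ) : Prop :=
  ∀ᵐ x : ℝ, ∀ f g : ℝ → ℝ, ContDiff ℝ ((⊤ : ℕ∞) : WithTop ℕ∞) f →
    ContDiff ℝ ((⊤ : ℕ∞) : WithTop ℕ∞) g →
    (∃ C : ℝ, ∀ t, |f t| ≤ C) → (∃ C : ℝ, ∀ t, |g t| ≤ C) →
    ∫ α in Ioo (-Real.pi) 0, (∫ β, f β ∂(P (x, α))) * g α * Real.sin α =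
      ∫ α in Ioo (-Real.pi) 0, (∫ β, g β ∂(P (x, α))) * f α * Real.sin α

/-- The measure `Λ(dx, dα) δ_{K (x, α)}(dy, dβ)` on `D²`. -/
noncomputable def detMeas (K : ℝ × ℝ → ℝ × ℝ) : Measure ((ℝ × ℝ) × (ℝ × ℝ)) :=
  rayMeas.map fun a => (a, K a)

/-- The measure `Λ(dx, dα) δ_x(dy) P(x, α; dβ)` on `D²`. -/
noncomputable def kerMeas (P : Kernel (ℝ × ℝ) ℝ) : Measure ((ℝ × ℝ) × (ℝ × ℝ)) :=
  (rayMeas.compProd P).map fun q => (q.1, (q.1.1, q.2))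

/-- Weak convergence of `σ`-finite measures on `D²`: measurable sets `Γ j` cover `D²`, have finite
mass, and the restrictions converge weakly (tested on all bounded measurable functions that are
continuous on `Γ j`). -/
def WeakConv (μ : ℕ → Measure ((ℝ × ℝ) × (ℝ × ℝ))) (ν : Measure ((ℝ × ℝ) × (ℝ × ℝ))) : Prop :=
  ∃ Γ : ℕ → Set ((ℝ × ℝ) × (ℝ × ℝ)), (∀ j, MeasurableSet (Γ j)) ∧
    (⋃ j, Γ j) = rayD ×ˢ rayD ∧ (∀ n j, μ n (Γ j) < ⊤) ∧ (∀ j, ν (Γ j) < ⊤) ∧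
    ∀ j, ∀ f : (ℝ × ℝ) × (ℝ × ℝ) → ℝ, Measurable f → (∃ C : ℝ, ∀ z, |f z| ≤ C) →
      ContinuousOn f (Γ j) →
      Tendsto (fun n => ∫ z in Γ j, f z ∂(μ n)) atTop (𝓝 (∫ z in Γ j, f z ∂ν))

end Pool.Agent.Lib.MP_cc9ac0_pr
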