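import Pool.Agent.Lib.MP_cc9ac0_pr.Basic

set_option autoImplicit false

namespace Pool.Agent.Lib.MP_cc9ac0_pr

lemma FlatAt.mem {M : Set ℂ} {q u : ℂ} (h : FlatAt M q u) : q ∈ M := by
  obtain ⟨-, δ, hδ, h⟩ := h
  exact (h q (by simpa using hδ)).mpr ⟨0, by simp⟩

lemma FlatAt.sq_eq {M : Set ℂ} {q u u' : ℂ} (h : FlatAt M q u) (h' : FlatAt M q u') :
    u ^ 2 = u' ^ 2 := by
  obtain ⟨h1, δ, hδ, h⟩ := h
  obtain ⟨h1', δ', hδ', h'⟩ := h'
  have hm : 0 < min δ δ' / 2 := half_pos (lt_min hδ hδ')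
  have hd : dist (q + ((min δ δ' / 2 : ℝ) : ℂ) * u) q < min δ δ' := by
    rw [dist_eq_norm, add_sub_cancel_left, norm_mul, h1, mul_one, Complex.norm_real,
      Real.norm_eq_abs, abs_of_pos hm]
    linarith
  obtain ⟨t, ht⟩ := (h' _ (hd.trans_le (min_le_right _ _))).mp
    ((h _ (hd.trans_le (min_le_left _ _))).mpr ⟨_, rfl⟩)
  have e := add_left_cancel ht
  have n := congrArg norm e
  rw [norm_mul, norm_mul, h1, h1', mul_one, mul_one, Complex.norm_real, Complex.norm_real,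
    Real.norm_eq_abs, Real.norm_eq_abs] at n
  have n2 : ((min δ δ' / 2 : ℝ) : ℂ) ^ 2 = (t : ℂ) ^ 2 := by
    exact_mod_cast sq_eq_sq_iff_abs_eq_abs _ _ |>.mpr n
  have : ((min δ δ' / 2 : ℝ) : ℂ) ^ 2 * u ^ 2 = ((min δ δ' / 2 : ℝ) : ℂ) ^ 2 * u' ^ 2 := by
    rw [← mul_pow, e, mul_pow, n2]
  exact mul_left_cancel₀ (pow_ne_zero _ (Complex.ofReal_ne_zero.mpr hm.ne')) this

/-- Trajectories are determined by their start: number of reflections, exit point and exit
direction are unique. -/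
theorem Traj.unique {M : Set ℂ} (hM : ∀ z ∈ M, z.im < 0) {n : ℕ} {p v y w : ℂ}
    (h : Traj M n p v y w) : ∀ {n' : ℕ} {y' w' : ℂ}, Traj M n' p v y' w' →
      n = n' ∧ y = y' ∧ w = w' := by
  induction h with
  | exit p v t h0 h1 h2 =>
    intro n' y' w' h'
    cases h' with
    | exit _ _ t' g0 g1 g2 =>
      rcases lt_trichotomy t t' with c | c | c
      · exact absurd h1 (g2 t h0 c).2.ne
      · exact ⟨rfl, by rw [c], rfl⟩
      · exact absurd g1 (h2 t' g0 c).2.ne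
    | bounce _ _ _ u _ _ t' g0 g1 g2 g3 =>
      rcases lt_trichotomy t t' with c | c | c
      · exact absurd h1 (g1 t h0 c).2.ne
      · exact absurd h1 (c ▸ hM _ g2.mem).ne
      · exact absurd g2.mem (h2 t' g0 c).1
  | bounce n p v u y w t h0 h1 h2 _ ih =>
    intro n' y' w' h'
    cases h' with
    | exit _ _ t' g0 g1 g2 =>
      rcases lt_trichotomy t t' with c | c | c
      · exact absurd h2.mem (g2 t h0 c).1
      · exact absurd g1 (c ▸ hM _ h2.mem).ne
      · exact absurd g1 (h1 t' g0 c).2.ne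
    | bounce _ _ _ u' _ _ t' g0 g1 g2 g3 =>
      rcases lt_trichotomy t t' with c | c | c
      · exact absurd h2.mem (g1 t h0 c).1
      · subst c
        rw [← h2.sq_eq g2] at g3
        obtain ⟨a, b, c⟩ := ih g3
        exact ⟨by rw [a], b, c⟩
      · exact absurd g2.mem (h1 t' g0 c).1

end Pool.Agent.Lib.MP_cc9ac0_pr
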