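import Mathlib

set_option autoImplicit false

namespace Pool.Agent.Lib.MP_cc9ac0_pr

open MeasureTheory Set Filter Topology

/-- projection along the direction `γ` in normalised coordinates -/
noncomputable def Lf (γ : ℝ) (p : ℝ × ℝ) : ℝ := p.1 * Real.cos γ + p.2 * Real.sin γ

/-- shadow of unit pieces centred at the points of `C` -/
def shade (γ : ℝ) (C : Finset (ℝ × ℝ)) : Set ℝ := ⋃ c ∈ C, Metric.closedBall (Lf γ c) 1

lemma Lf_add (γ : ℝ) (p q : ℝ × ℝ) : Lf γ (p + q) = Lf γ p + Lf γ q := by simp [Lf]; ring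

lemma Lf_step (γ θ h i : ℝ) :
    Lf γ (i • (-(h * Real.sin θ), h * Real.cos θ)) = i * h * Real.sin (γ - θ) := by
  simp [Lf, Real.sin_sub]; ring

lemma shade_le_of_ext {γ E : ℝ} {C : Finset (ℝ × ℝ)} (hC : C.Nonempty)
    (h : ∀ c ∈ C, ∀ c' ∈ C, |Lf γ c - Lf γ c'| + 3 ≤ E) :
    volume (shade γ C) ≤ ENNReal.ofReal (2 * E) := by
  obtain ⟨c0, hc0⟩ := hC
  rw [← Real.volume_closedBall (Lf γ c0)]
  refine measure_mono (iUnion₂_subset fun c hc => Metric.closedBall_subset_closedBall' ?_)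
  rw [Real.dist_eq]
  linarith [h c hc c0 hc0]

lemma shade_image_le (γ : ℝ) (C : Finset (ℝ × ℝ)) (n : ℕ) (a : ℝ × ℝ) :
    volume (shade γ ((C ×ˢ Finset.range n).image fun p => p.1 + (p.2 : ℝ) • a)) ≤
      n * volume (shade γ C) := by
  have h : shade γ ((C ×ˢ Finset.range n).image fun p => p.1 + (p.2 : ℝ) • a) ⊆
      ⋃ i ∈ Finset.range n, (fun x => x + -Lf γ ((i : ℝ) • a)) ⁻¹' shade γ C := by
    intro x hx
    simp only [shade, mem_iUnion, Finset.mem_image, Finset.mem_product] at hx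
    obtain ⟨c, ⟨p, ⟨hp1, hp2⟩, rfl⟩, hx⟩ := hx
    refine mem_iUnion₂.mpr ⟨p.2, hp2, mem_iUnion₂.mpr ⟨p.1, hp1, ?_⟩⟩
    rw [Metric.mem_closedBall, Real.dist_eq] at hx ⊢
    rw [Lf_add] at hx
    convert hx using 2
    ring
  refine (measure_mono h).trans ((measure_biUnion_finset_le _ _).trans ?_)
  simp only [measure_preimage_add_right, Finset.sum_const, Finset.card_range, nsmul_eq_mul,
    le_refl]

lemma abs_sin_ratio {s x y : ℝ} (hs : 0 < s) (h : s ≤ |Real.sin y|) (hxy : y ≤ x) :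
    |Real.sin x| ≤ Real.exp ((x - y) / s) * |Real.sin y| := by
  have h1 := Real.abs_sin_sub_sin_le x y
  rw [abs_of_nonneg (sub_nonneg.mpr hxy)] at h1
  have h2 : |Real.sin x| ≤ |Real.sin y| + (x - y) := by
    have := abs_sub_abs_le_abs_sub (Real.sin x) (Real.sin y)
    linarith
  have h3 := Real.add_one_le_exp ((x - y) / s)
  have h4 : x - y ≤ (x - y) / s * |Real.sin y| := by
    rw [div_mul_eq_mul_div, le_div_iff₀ hs]
    exact mul_le_mul_of_nonneg_left h (sub_nonneg.mpr hxy)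
  nlinarith [abs_nonneg (Real.sin y)]

lemma gadget (O : Set ℝ) (hO : O.Nonempty) {s η : ℝ} (hs : 0 < s) (hη : 0 < η) :
    ∃ C : Finset (ℝ × ℝ), C.Nonempty ∧
      (∀ γ ∈ O, ∀ c ∈ C, ∀ c' ∈ C, c ≠ c' → 3 ≤ |Lf γ c - Lf γ c'|) ∧
      ∀ γ ∈ Icc (-Real.pi) Real.pi, (∀ γ' ∈ O, s ≤ |Real.sin (γ - γ')|) →
        volume (shade γ C) ≤ ENNReal.ofReal (η * C.card) := by
  classical
  set s' := s / 2 with hs'
  have hs'0 : 0 < s' := by positivity
  set D := 3 / s' with hD
  have hD0 : 0 < D := by positivity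
  set Em := Real.exp ((2 * Real.pi) / s') with hEm
  have hEm0 : 0 < Em := Real.exp_pos _
  set D' := D * Em + 3 with hD'
  have hD'0 : 0 < D' := by positivity
  set τ := min s' (η / (4 * D')) with hτ
  have hτ0 : 0 < τ := lt_min hs'0 (by positivity)
  obtain ⟨n, hn⟩ := exists_nat_ge (4 * D' / η)
  have hn0 : (0 : ℝ) < n := lt_of_lt_of_le (by positivity) hn
  have hn1 : (1 : ℝ) ≤ n := by exact_mod_cast (Nat.cast_pos.mp hn0)
  let K : Set ℝ := {θ | θ ≤ Real.pi ∧ ∀ γ' ∈ O, s' ≤ |Real.sin (γ' - θ)|}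
  let E : ℝ → ℝ := fun θ => Real.exp ((θ + Real.pi) / s')
  have key : ∀ j : ℕ, ∃ C : Finset (ℝ × ℝ), C.Nonempty ∧
      (∀ γ ∈ O, ∀ c ∈ C, ∀ c' ∈ C, c ≠ c' → 3 ≤ |Lf γ c - Lf γ c'|) ∧
      (∀ θ ∈ K, -Real.pi + j * τ ≤ θ → ∀ γ ∈ O, ∀ c ∈ C, ∀ c' ∈ C,
        |Lf γ c - Lf γ c'| + 3 ≤ C.card * D * E θ * |Real.sin (γ - θ)|) ∧
      (∀ γ, ∀ c ∈ C, ∀ c' ∈ C, |Lf γ c - Lf γ c'| + 3 ≤ C.card * D') ∧
      ∀ i < j, -Real.pi + i * τ ∈ K → ∀ γ, |γ - (-Real.pi + i * τ)| ≤ τ →
        volume (shade γ C) ≤ ENNReal.ofReal (η * C.card) := by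
    intro j
    induction j with
    | zero =>
      refine ⟨{0}, Finset.singleton_nonempty _, ?_, ?_, ?_, fun i hi => absurd hi (by omega)⟩
      · intro γ _ c hc c' hc' hne
        rw [Finset.mem_singleton] at hc hc'
        exact absurd (hc.trans hc'.symm) hne
      · intro θ hθ hθ' γ hγ c hc c' hc'
        rw [Finset.mem_singleton] at hc hc'
        rw [hc, hc', sub_self, abs_zero, zero_add, Finset.card_singleton, Nat.cast_one, one_mul]
        have h1 : 1 ≤ E θ := Real.one_le_exp (div_nonneg (by simp at hθ'; linarith) hs'0.le)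
        have h2 := hθ.2 γ hγ
        have h3 : D * s' = 3 := by rw [hD]; field_simp
        calc (3 : ℝ) = D * 1 * s' := by rw [mul_one, h3]
          _ ≤ _ := by gcongr
      · intro γ c hc c' hc'
        rw [Finset.mem_singleton] at hc hc'
        rw [hc, hc', sub_self, abs_zero, zero_add, Finset.card_singleton, Nat.cast_one, one_mul]
        have : 0 < D * Em := by positivity
        linarith
    | succ j ih =>
      obtain ⟨C, hC, hsep, hext, hdiam, hkill⟩ := ih
      have hle : -Real.pi + j * τ ≤ -Real.pi + ((j + 1 : ℕ) : ℝ) * τ := by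
        push_cast; linarith
      by_cases hK : -Real.pi + j * τ ∈ K
      swap
      · refine ⟨C, hC, hsep, fun θ hθ hθ' => hext θ hθ (hle.trans hθ'), hdiam, fun i hi hiK => ?_⟩
        have : i ≠ j := fun e => hK (e ▸ hiK)
        exact hkill i (by omega) hiK
      set θ0 := -Real.pi + j * τ with hθ0
      set N : ℝ := (C.card : ℝ) with hN
      have hN0 : 0 < N := by rw [hN]; exact_mod_cast hC.card_pos
      set h := N * D * E θ0 with hh
      have hE0 : 0 < E θ0 := Real.exp_pos _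
      have hh0 : 0 < h := by positivity
      have hEle : E θ0 ≤ Em := by
        refine Real.exp_le_exp.mpr (div_le_div_of_nonneg_right ?_ hs'0.le)
        linarith [hK.1]
      set a : ℝ × ℝ := (-(h * Real.sin θ0), h * Real.cos θ0) with ha
      set f : (ℝ × ℝ) × ℕ → ℝ × ℝ := fun p => p.1 + (p.2 : ℝ) • a with hf
      have hLf : ∀ γ p, Lf γ (f p) = Lf γ p.1 + p.2 * h * Real.sin (γ - θ0) := by
        intro γ p
        simp only [hf, ha, Lf_add, Lf_step]
      have hdiff : ∀ γ, ∀ p ∈ C ×ˢ Finset.range n, ∀ p' ∈ C ×ˢ Finset.range n,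
          |Lf γ (f p) - Lf γ (f p')| ≤
            |Lf γ p.1 - Lf γ p'.1| + (n - 1) * h * |Real.sin (γ - θ0)| := by
        intro γ p hp p' hp'
        rw [Finset.mem_product, Finset.mem_range] at hp hp'
        have e : Lf γ (f p) - Lf γ (f p') =
            (Lf γ p.1 - Lf γ p'.1) + ((p.2 : ℝ) - p'.2) * h * Real.sin (γ - θ0) := by
          rw [hLf, hLf]; ring
        rw [e]
        refine (abs_add_le _ _).trans (add_le_add le_rfl ?_)
        rw [abs_mul, abs_mul, abs_of_pos hh0]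
        have h1 : (p.2 : ℝ) + 1 ≤ n := by exact_mod_cast hp.2
        have h2 : (p'.2 : ℝ) + 1 ≤ n := by exact_mod_cast hp'.2
        have h3 : |(p.2 : ℝ) - p'.2| ≤ n - 1 :=
          abs_le.mpr ⟨by linarith [p.2.cast_nonneg (α := ℝ)],
            by linarith [p'.2.cast_nonneg (α := ℝ)]⟩
        gcongr
      have hsep' : ∀ γ ∈ O, ∀ p ∈ C ×ˢ Finset.range n, ∀ p' ∈ C ×ˢ Finset.range n, p ≠ p' →
          3 ≤ |Lf γ (f p) - Lf γ (f p')| := by
        intro γ hγ p hp p' hp' hne
        rw [Finset.mem_product] at hp hp'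
        have e : Lf γ (f p) - Lf γ (f p') =
            (Lf γ p.1 - Lf γ p'.1) + ((p.2 : ℝ) - p'.2) * h * Real.sin (γ - θ0) := by
          rw [hLf, hLf]; ring
        rw [e]
        by_cases h2 : p.2 = p'.2
        · rw [h2, sub_self, zero_mul, zero_mul, add_zero]
          exact hsep γ hγ _ hp.1 _ hp'.1 fun e => hne (Prod.ext e h2)
        · have h3 : (1 : ℝ) ≤ |(p.2 : ℝ) - p'.2| := by
            have : (1 : ℤ) ≤ |(p.2 : ℤ) - p'.2| := Int.one_le_abs (by omega)
            exact_mod_cast this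
          have h4 := hext θ0 hK le_rfl γ hγ _ hp.1 _ hp'.1
          have h5 : h * |Real.sin (γ - θ0)| ≤ |((p.2 : ℝ) - p'.2) * h * Real.sin (γ - θ0)| := by
            rw [abs_mul, abs_mul, abs_of_pos hh0, mul_assoc |(p.2 : ℝ) - p'.2|]
            exact le_mul_of_one_le_left (by positivity) h3
          have h6 := abs_sub_abs_le_abs_sub (((p.2 : ℝ) - p'.2) * h * Real.sin (γ - θ0))
            (-(Lf γ p.1 - Lf γ p'.1))
          rw [abs_neg, sub_neg_eq_add, add_comm] at h6
          linarith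
      have hcard : (((C ×ˢ Finset.range n).image f).card : ℝ) = N * n := by
        rw [Finset.card_image_of_injOn, Finset.card_product, Finset.card_range]
        · push_cast; rfl
        · intro p hp p' hp' he
          by_contra hne
          obtain ⟨γ, hγ⟩ := hO
          have := hsep' γ hγ p hp p' hp' hne
          rw [he, sub_self, abs_zero] at this
          linarith
      refine ⟨(C ×ˢ Finset.range n).image f, ?_, ?_, ?_, ?_, ?_⟩
      · exact (hC.product (Finset.nonempty_range_iff.mpr (Nat.cast_pos.mp hn0).ne')).image f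
      · intro γ hγ c hc c' hc' hne
        obtain ⟨p, hp, rfl⟩ := Finset.mem_image.mp hc
        obtain ⟨p', hp', rfl⟩ := Finset.mem_image.mp hc'
        exact hsep' γ hγ p hp p' hp' fun e => hne (e ▸ rfl)
      · intro θ hθ hθ' γ hγ c hc c' hc'
        obtain ⟨p, hp, rfl⟩ := Finset.mem_image.mp hc
        obtain ⟨p', hp', rfl⟩ := Finset.mem_image.mp hc'
        have h1 := hdiff γ p hp p' hp'
        have h2 := hext θ0 hK le_rfl γ hγ _ (Finset.mem_product.mp hp).1 _
          (Finset.mem_product.mp hp').1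
        have h3 := abs_sin_ratio (x := γ - θ0) hs'0 (hθ.2 γ hγ) (by linarith [hle.trans hθ'])
        have h4 : E θ0 * Real.exp ((γ - θ0 - (γ - θ)) / s') = E θ := by
          simp only [E, ← Real.exp_add]
          congr 1; ring
        rw [hcard, ← h4]
        calc |Lf γ (f p) - Lf γ (f p')| + 3 ≤ n * (h * |Real.sin (γ - θ0)|) := by linarith
          _ ≤ n * (h * (Real.exp ((γ - θ0 - (γ - θ)) / s') * |Real.sin (γ - θ)|)) := by gcongr
          _ = _ := by rw [hh]; ring
      · intro γ c hc c' hc'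
        obtain ⟨p, hp, rfl⟩ := Finset.mem_image.mp hc
        obtain ⟨p', hp', rfl⟩ := Finset.mem_image.mp hc'
        have h1 := hdiff γ p hp p' hp'
        have h2 := hdiam γ _ (Finset.mem_product.mp hp).1 _ (Finset.mem_product.mp hp').1
        have h3 : (n - 1) * h * |Real.sin (γ - θ0)| ≤ (n - 1) * (N * D') * 1 := by
          have : h ≤ N * D' := by
            rw [hh, mul_assoc]
            exact mul_le_mul_of_nonneg_left (by nlinarith) hN0.le
          have h5 : (0 : ℝ) ≤ n - 1 := by linarith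
          gcongr
          exact Real.abs_sin_le_one _
        rw [hcard]
        linarith
      · intro i hi hiK γ hγ
        rw [hcard]
        by_cases hij : i = j
        · subst hij
          refine (shade_le_of_ext (E := N * D' + n * (N * D') * τ) ?_ ?_).trans
            (ENNReal.ofReal_le_ofReal ?_)
          · exact (hC.product (Finset.nonempty_range_iff.mpr (Nat.cast_pos.mp hn0).ne')).image f
          · intro c hc c' hc'
            obtain ⟨p, hp, rfl⟩ := Finset.mem_image.mp hc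
            obtain ⟨p', hp', rfl⟩ := Finset.mem_image.mp hc'
            have h1 := hdiff γ p hp p' hp'
            have h2 := hdiam γ _ (Finset.mem_product.mp hp).1 _ (Finset.mem_product.mp hp').1
            have h3 : (n - 1) * h * |Real.sin (γ - θ0)| ≤ n * (N * D') * τ := by
              have : h ≤ N * D' := by
                rw [hh, mul_assoc]
                exact mul_le_mul_of_nonneg_left (by nlinarith) hN0.le
              have h5 : (0 : ℝ) ≤ n - 1 := by linarith
              have h6 : |Real.sin (γ - θ0)| ≤ τ := Real.abs_sin_le_abs.trans hγ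
              gcongr
              linarith
            linarith
          · have h1 : 4 * D' ≤ η * n := by
              rw [div_le_iff₀ hη] at hn; linarith
            have h2 : 4 * D' * τ ≤ η := by
              have := min_le_right s' (η / (4 * D'))
              rw [← hτ, le_div_iff₀ (by positivity)] at this
              linarith
            have h3 : N * (4 * D') ≤ N * (η * n) := mul_le_mul_of_nonneg_left h1 hN0.le
            have h4 : N * n * (4 * D' * τ) ≤ N * n * η :=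
              mul_le_mul_of_nonneg_left h2 (by positivity)
            nlinarith
        · refine (shade_image_le γ C n a).trans ?_
          refine (mul_le_mul_right (hkill i (by omega) hiK γ hγ) _).trans (le_of_eq ?_)
          rw [← ENNReal.ofReal_natCast n, ← ENNReal.ofReal_mul hn0.le]
          congr 1; ring
  obtain ⟨J, hJ⟩ := exists_nat_gt (2 * Real.pi / τ)
  obtain ⟨C, hC, hsep, -, -, hkill⟩ := key J
  refine ⟨C, hC, hsep, fun γ hγ hγs => ?_⟩
  have h0 : 0 ≤ (γ + Real.pi) / τ := div_nonneg (by linarith [hγ.1]) hτ0.le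
  have h1 := Nat.floor_le h0
  have h2 := Nat.lt_floor_add_one ((γ + Real.pi) / τ)
  set i := ⌊(γ + Real.pi) / τ⌋₊
  rw [le_div_iff₀ hτ0] at h1
  rw [div_lt_iff₀ hτ0] at h2
  have h3 : |γ - (-Real.pi + i * τ)| ≤ τ := abs_le.mpr ⟨by linarith, by linarith⟩
  refine hkill i ?_ ⟨by linarith [hγ.2], fun γ' hγ' => ?_⟩ γ h3
  · have : (i : ℝ) < J := by
      rw [div_lt_iff₀ hτ0] at hJ
      have : (i : ℝ) * τ < J * τ := by linarith [hγ.2]
      exact lt_of_mul_lt_mul_right this hτ0.le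
    exact_mod_cast this
  · have h4 := hγs γ' hγ'
    rw [← neg_sub γ' γ, Real.sin_neg, abs_neg] at h4
    have h5 := Real.abs_sin_sub_sin_le (γ' - γ) (γ' - (-Real.pi + i * τ))
    have h6 := abs_sub_abs_le_abs_sub (Real.sin (γ' - γ)) (Real.sin (γ' - (-Real.pi + i * τ)))
    have h7 : |γ' - γ - (γ' - (-Real.pi + i * τ))| ≤ τ := by
      rw [← abs_neg]; convert h3 using 2; ring
    have h8 : τ ≤ s' := min_le_left _ _
    linarith

lemma Lf_flip (γ : ℝ) (p : ℝ × ℝ) : Lf γ (-p.1, p.2) = -Lf (-γ) p := by simp [Lf]; ring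

/-- The symmetrised gadget. -/
lemma gadget_symm {γ1 γ2 s η : ℝ} (h12 : γ1 ≤ γ2) (h1 : 0 ≤ γ1) (h2 : γ2 < Real.pi / 2)
    (hs : 0 < s) (hη : 0 < η) :
    ∃ B : Finset (ℝ × ℝ), B.Nonempty ∧ (∀ b ∈ B, (-b.1, b.2) ∈ B) ∧
      (∀ γ, γ1 ≤ |γ| → |γ| ≤ γ2 → ∀ c ∈ B, ∀ c' ∈ B, c ≠ c' → 3 ≤ |Lf γ c - Lf γ c'|) ∧
      ∀ γ ∈ Icc (-Real.pi) Real.pi, (∀ γ', γ1 ≤ |γ'| → |γ'| ≤ γ2 → s ≤ |Real.sin (γ - γ')|) →
        volume (shade γ B) ≤ ENNReal.ofReal (η * B.card) := by
  classical
  obtain ⟨C, hC, hsep, hkill⟩ := gadget {γ | γ1 ≤ |γ| ∧ |γ| ≤ γ2}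
    ⟨γ1, by simp [abs_of_nonneg h1, h12]⟩ hs (half_pos hη)
  obtain ⟨Δ, hΔ⟩ := (C.image fun c => |c.1| + |c.2|).bddAbove
  have hΔ' : ∀ c ∈ C, |c.1| + |c.2| ≤ Δ := fun c hc =>
    hΔ (Finset.mem_coe.mpr (Finset.mem_image_of_mem _ hc))
  have hc0 : 0 < Real.cos γ2 := Real.cos_pos_of_mem_Ioo ⟨by linarith [Real.pi_pos], h2⟩
  have hΔ0 : 0 ≤ Δ := by
    obtain ⟨c, hc⟩ := hC
    exact le_trans (by positivity) (hΔ' c hc)
  set x0 := (Δ + 2) / Real.cos γ2 with hx0
  set C1 := C.image fun c => c + (x0, 0) with hC1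
  set C2 := C1.image fun c => (-c.1, c.2) with hC2
  have hL1 : ∀ γ c, Lf γ (c + (x0, 0)) = Lf γ c + x0 * Real.cos γ := by
    intro γ c; rw [Lf_add]; simp [Lf]
  have hLb : ∀ γ, ∀ c ∈ C, |Lf γ c| ≤ Δ := by
    intro γ c hc
    refine le_trans ?_ (hΔ' c hc)
    refine (abs_add_le _ _).trans (add_le_add ?_ ?_) <;> rw [abs_mul]
    · exact mul_le_of_le_one_right (abs_nonneg _) (Real.abs_cos_le_one _)
    · exact mul_le_of_le_one_right (abs_nonneg _) (Real.abs_sin_le_one _)
  have hpos : ∀ γ, |γ| ≤ γ2 → ∀ c ∈ C1, 2 ≤ Lf γ c := by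
    intro γ hγ c hc
    replace hc := Finset.mem_image.mp hc
    obtain ⟨c, hc, rfl⟩ := hc
    have h3 : Real.cos γ2 ≤ Real.cos γ := by
      rw [← Real.cos_abs γ]
      exact Real.cos_le_cos_of_nonneg_of_le_pi (abs_nonneg _) (by linarith [Real.pi_pos]) hγ
    have h4 : Δ + 2 ≤ x0 * Real.cos γ := by
      rw [hx0, div_mul_eq_mul_div, le_div_iff₀ hc0]
      exact mul_le_mul_of_nonneg_left h3 (by linarith)
    rw [hL1]
    linarith [(abs_le.mp (hLb γ c hc)).1]
  have hsep1 : ∀ γ, γ1 ≤ |γ| → |γ| ≤ γ2 → ∀ c ∈ C1, ∀ c' ∈ C1, c ≠ c' →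
      3 ≤ |Lf γ c - Lf γ c'| := by
    intro γ g1 g2 c hc c' hc' hne
    replace hc := Finset.mem_image.mp hc
    obtain ⟨c, hc, rfl⟩ := hc
    replace hc' := Finset.mem_image.mp hc'
    obtain ⟨c', hc', rfl⟩ := hc'
    rw [hL1, hL1, add_sub_add_right_eq_sub]
    exact hsep γ ⟨g1, g2⟩ c hc c' hc' fun e => hne (e ▸ rfl)
  have hsh1 : ∀ γ, volume (shade γ C1) ≤ volume (shade γ C) := by
    intro γ
    rw [← measure_preimage_add_right volume (-(x0 * Real.cos γ)) (shade γ C)]
    refine measure_mono (iUnion₂_subset fun c hc x hx => ?_)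
    replace hc := Finset.mem_image.mp hc
    obtain ⟨c, hc, rfl⟩ := hc
    refine mem_iUnion₂.mpr ⟨c, hc, ?_⟩
    rw [Metric.mem_closedBall, Real.dist_eq] at hx ⊢
    rw [hL1] at hx
    convert hx using 2
    ring
  have hsh2 : ∀ γ, volume (shade γ C2) ≤ volume (shade (-γ) C1) := by
    intro γ
    rw [← Measure.measure_preimage_neg volume (shade (-γ) C1)]
    refine measure_mono (iUnion₂_subset fun c hc x hx => ?_)
    replace hc := Finset.mem_image.mp hc
    obtain ⟨c, hc, rfl⟩ := hc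
    refine mem_iUnion₂.mpr ⟨c, hc, ?_⟩
    rw [Metric.mem_closedBall, Real.dist_eq] at hx ⊢
    rw [Lf_flip] at hx
    rw [← abs_neg]
    convert hx using 2
    ring
  refine ⟨C1 ∪ C2, (hC.image _).mono Finset.subset_union_left, ?_, ?_, ?_⟩
  · intro b hb
    rcases Finset.mem_union.mp hb with hb | hb
    · exact Finset.mem_union_right _ (Finset.mem_image_of_mem _ hb)
    · obtain ⟨c, hc, rfl⟩ := Finset.mem_image.mp hb
      exact Finset.mem_union_left _ (by simpa using hc)
  · intro γ g1 g2 c hc c' hc' hne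
    have g1' : γ1 ≤ |-γ| := by rwa [abs_neg]
    have g2' : |-γ| ≤ γ2 := by rwa [abs_neg]
    rw [Finset.mem_union] at hc hc'
    rcases hc with hc | hc <;> rcases hc' with hc' | hc'
    · exact hsep1 γ g1 g2 c hc c' hc' hne
    · replace hc' := Finset.mem_image.mp hc'
      obtain ⟨c', hc', rfl⟩ := hc'
      rw [Lf_flip]
      exact le_trans (by linarith [hpos γ g2 c hc, hpos _ g2' c' hc']) (le_abs_self _)
    · replace hc := Finset.mem_image.mp hc
      obtain ⟨c, hc, rfl⟩ := hc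
      rw [Lf_flip]
      exact le_trans (by linarith [hpos γ g2 c' hc', hpos _ g2' c hc]) (neg_le_abs _)
    · replace hc := Finset.mem_image.mp hc
      obtain ⟨c, hc, rfl⟩ := hc
      replace hc' := Finset.mem_image.mp hc'
      obtain ⟨c', hc', rfl⟩ := hc'
      rw [Lf_flip, Lf_flip, neg_sub_neg, abs_sub_comm]
      exact hsep1 _ g1' g2' c hc c' hc' fun e => hne (e ▸ rfl)
  · intro γ hγ hγs
    have hsub : shade γ (C1 ∪ C2) ⊆ shade γ C1 ∪ shade γ C2 := by
      refine iUnion₂_subset fun c hc x hx => ?_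
      rcases Finset.mem_union.mp hc with hc | hc
      · exact Or.inl (mem_iUnion₂.mpr ⟨c, hc, hx⟩)
      · exact Or.inr (mem_iUnion₂.mpr ⟨c, hc, hx⟩)
    have k1 := hkill γ hγ fun γ' h => hγs γ' h.1 h.2
    have k2 := hkill (-γ) ⟨by linarith [hγ.2], by linarith [hγ.1]⟩ fun γ' h => by
      have := hγs (-γ') (by rw [abs_neg]; exact h.1) (by rw [abs_neg]; exact h.2)
      rw [← abs_neg, ← Real.sin_neg]
      convert this using 3
      ring
    have hcard : (C.card : ℝ) ≤ (C1 ∪ C2).card := by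
      have : C1.card = C.card := Finset.card_image_of_injective _ (add_left_injective _)
      rw [← this]
      exact_mod_cast Finset.card_le_card Finset.subset_union_left
    refine (measure_mono hsub).trans ((measure_union_le _ _).trans ?_)
    refine (add_le_add ((hsh1 γ).trans k1) ((hsh2 γ).trans ((hsh1 _).trans k2))).trans ?_
    rw [← ENNReal.ofReal_add (by positivity) (by positivity)]
    refine ENNReal.ofReal_le_ofReal ?_
    nlinarith

end Pool.Agent.Lib.MP_cc9ac0_pr
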