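import Pool.Agent.Lib.MP_cc9ac0_pr.Types
import Pool.Agent.Lib.MP_cc9ac0_pr.Approx

set_option autoImplicit false

namespace Pool.Agent.Lib.MP_cc9ac0_pr

open MeasureTheory ProbabilityTheory Set Filter Topology

def St' (k : ℝ) : Set (ℝ × ℝ) := Ico k (k + 1) ×ˢ univ

def Gam (k : ℝ) : Set ((ℝ × ℝ) × (ℝ × ℝ)) := (rayD ×ˢ rayD) ∩ St' k ×ˢ univ

noncomputable def lam (k : ℝ) : Measure (ℝ × ℝ) := rayMeas.restrict (St' k)

def emb (q : (ℝ × ℝ) × ℝ) : (ℝ × ℝ) × (ℝ × ℝ) := (q.1, (q.1.1, q.2))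

lemma measurable_emb : Measurable emb := by unfold emb; fun_prop

lemma meas_rayD : MeasurableSet rayD := MeasurableSet.univ.prod measurableSet_Ioo

lemma meas_St (k : ℝ) : MeasurableSet (St' k) := measurableSet_Ico.prod MeasurableSet.univ

lemma meas_Gam (k : ℝ) : MeasurableSet (Gam k) :=
  (meas_rayD.prod meas_rayD).inter ((meas_St k).prod MeasurableSet.univ)

lemma ang_le : angMeas ≤ volume.restrict (Ioo (-Real.pi) 0) := by
  rw [angMeas]
  refine (withDensity_mono (g := 1) (Eventually.of_forall fun α => ?_)).trans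
    (le_of_eq withDensity_one)
  exact ENNReal.ofReal_le_one.mpr (by linarith [Real.neg_one_le_sin α])

instance : IsFiniteMeasure angMeas := isFiniteMeasure_of_le _ ang_le

lemma ang_univ : angMeas.real univ ≤ 4 := by
  refine (ENNReal.toReal_mono (measure_ne_top _ _) (ang_le univ)).trans ?_
  rw [Measure.restrict_apply_univ, Real.volume_Ioo, ENNReal.toReal_ofReal (by simp; positivity)]
  linarith [Real.pi_le_four]

lemma lam_eq (k : ℝ) : lam k = (volume.restrict (Ico k (k + 1))).prod angMeas := by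
  rw [Measure.restrict_prod_eq_prod_univ]; rfl

instance (k : ℝ) : IsFiniteMeasure (lam k) := by rw [lam_eq]; infer_instance

lemma lam_univ (k : ℝ) : lam k univ = angMeas univ := by
  rw [lam_eq, ← univ_prod_univ, Measure.prod_prod]
  simp

lemma integral_ang (h : ℝ → ℝ) :
    ∫ α, h α ∂angMeas = -∫ α in Ioo (-Real.pi) 0, h α * Real.sin α := by
  rw [angMeas, integral_withDensity_eq_integral_toReal_smul (by fun_prop)
    (Eventually.of_forall fun _ => ENNReal.ofReal_lt_top), ← integral_neg]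
  refine setIntegral_congr_fun measurableSet_Ioo fun α hα => ?_
  simp only [ENNReal.toReal_ofReal (neg_sin_pos hα).le, smul_eq_mul]
  ring

lemma det_restrict {K : ℝ × ℝ → ℝ × ℝ} (hK : Measurable K) (h : ∀ᵐ a ∂rayMeas, K a ∈ rayD)
    (k : ℝ) : (detMeas K).restrict (Gam k) = (lam k).map fun a => (a, K a) := by
  rw [detMeas, Measure.restrict_map (by fun_prop) (meas_Gam k), lam]
  congr 1
  refine Measure.restrict_congr_set ?_
  have h' : ∀ᵐ a ∂rayMeas, a ∈ rayD := rayMeas_compl_rayD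
  filter_upwards [h, h'] with a h1 h2
  exact propext ⟨fun h => h.2.1, fun h => ⟨⟨h2, h1⟩, h, trivial⟩⟩

section
variable (P : Kernel (ℝ × ℝ) ℝ) [IsMarkovKernel P]

lemma ker_restrict (hP : ∀ a ∈ rayD, P a (Ioo (-Real.pi) 0)ᶜ = 0) (k : ℝ) :
    (kerMeas P).restrict (Gam k) = ((lam k).compProd P).map emb := by
  change ((rayMeas.compProd P).map emb).restrict _ = _
  rw [Measure.restrict_map measurable_emb (meas_Gam k)]
  congr 1
  have h' : ∀ᵐ a ∂rayMeas, a ∈ rayD := rayMeas_compl_rayD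
  have h1 : ∀ᵐ q ∂(rayMeas.compProd P), emb q ∈ rayD ×ˢ rayD := by
    refine Measure.ae_compProd_of_ae_ae (measurable_emb (meas_rayD.prod meas_rayD)) ?_
    filter_upwards [h'] with a ha
    have : ∀ᵐ β ∂P a, β ∈ Ioo (-Real.pi) 0 := hP a ha
    filter_upwards [this] with β hβ
    exact ⟨ha, trivial, hβ⟩
  have h2 : (rayMeas.compProd P).restrict (emb ⁻¹' Gam k) =
      (rayMeas.compProd P).restrict (St' k ×ˢ univ) := by
    refine Measure.restrict_congr_set ?_
    filter_upwards [h1] with q hq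
    exact propext ⟨fun h => ⟨h.2.1, trivial⟩, fun h => ⟨hq, h.1, trivial⟩⟩
  rw [h2]
  ext s hs
  have hm : MeasurableSet (St' k ×ˢ (univ : Set ℝ)) := (meas_St k).prod MeasurableSet.univ
  rw [Measure.restrict_apply hs, Measure.compProd_apply (hs.inter hm), Measure.compProd_apply hs,
    lam, ← lintegral_indicator (meas_St k)]
  refine lintegral_congr fun a => ?_
  by_cases ha : a ∈ St' k
  · rw [indicator_of_mem ha]
    congr 1
    ext β
    simp [ha]
  · rw [indicator_of_notMem ha]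
    have : Prod.mk a ⁻¹' (s ∩ St' k ×ˢ (univ : Set ℝ)) = ∅ := by
      ext β
      simp [ha]
    rw [this, measure_empty]

/-- unit bounded measurable functions -/
def U1 (f : ℝ → ℝ) : Prop := Measurable f ∧ ∀ x, 0 ≤ f x ∧ f x ≤ 1

lemma U1.abs {f : ℝ → ℝ} (h : U1 f) (x : ℝ) : |f x| ≤ 1 := by
  rw [abs_of_nonneg (h.2 x).1]; exact (h.2 x).2

lemma U1_one : U1 fun _ => 1 := ⟨measurable_const, fun _ => ⟨zero_le_one, le_rfl⟩⟩

noncomputable def I3 (k : ℝ) (u g f : ℝ → ℝ) : ℝ :=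
  ∫ q, u q.1.1 * g q.1.2 * f q.2 ∂((lam k).compProd P)

lemma int3 (k : ℝ) {u g f : ℝ → ℝ} (hu : U1 u) (hg : U1 g) (hf : U1 f) :
    Integrable (fun q : (ℝ × ℝ) × ℝ => u q.1.1 * g q.1.2 * f q.2) ((lam k).compProd P) := by
  refine integrable_bdd _ (((hu.1.comp (measurable_fst.comp measurable_fst)).mul
    (hg.1.comp (measurable_snd.comp measurable_fst))).mul (hf.1.comp measurable_snd)) (C := 1)
    fun q => ?_
  rw [abs_mul, abs_mul]
  exact mul_le_one₀ (mul_le_one₀ (hu.abs _) (abs_nonneg _) (hg.abs _)) (abs_nonneg _) (hf.abs _)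

lemma I3_eq (k : ℝ) {u g f : ℝ → ℝ} (hu : U1 u) (hg : U1 g) (hf : U1 f) :
    I3 P k u g f = ∫ x in Ico k (k + 1), u x * ∫ α, (∫ β, f β ∂P (x, α)) * g α ∂angMeas := by
  rw [I3, Measure.integral_compProd (int3 P k hu hg hf)]
  simp only [integral_const_mul]
  have hm : Measurable fun a : ℝ × ℝ => ∫ β, f β ∂P a :=
    (hf.1.stronglyMeasurable.integral_kernel (κ := P)).measurable
  have hb : ∀ a : ℝ × ℝ, |∫ β, f β ∂P a| ≤ 1 := fun a => by
    have := norm_integral_le_of_norm_le_const (μ := P a) (f := f) (C := 1)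
      (Eventually.of_forall hf.abs)
    simpa using this
  have hi : Integrable (fun a : ℝ × ℝ => u a.1 * g a.2 * ∫ β, f β ∂P a) (lam k) := by
    refine integrable_bdd _ (((hu.1.comp measurable_fst).mul (hg.1.comp measurable_snd)).mul hm)
      (C := 1) fun a => ?_
    rw [abs_mul, abs_mul]
    exact mul_le_one₀ (mul_le_one₀ (hu.abs _) (abs_nonneg _) (hg.abs _)) (abs_nonneg _) (hb _)
  rw [lam_eq] at hi ⊢
  rw [integral_prod _ hi]
  refine integral_congr_ae (Eventually.of_forall fun x => ?_)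
  simp only
  rw [← integral_const_mul]
  refine integral_congr_ae (Eventually.of_forall fun α => ?_)
  simp only
  ring

lemma I3_symm (hs : SymmKernel P) (k : ℝ) {u g f : ℝ → ℝ} (hu : U1 u) (hg : U1 g) (hf : U1 f)
    (cg : ContDiff ℝ ((⊤ : ℕ∞) : WithTop ℕ∞) g) (cf : ContDiff ℝ ((⊤ : ℕ∞) : WithTop ℕ∞) f) :
    I3 P k u g f = I3 P k u f g := by
  rw [I3_eq P k hu hg hf, I3_eq P k hu hf hg]
  refine integral_congr_ae (ae_restrict_of_ae ?_)
  filter_upwards [hs] with x hx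
  rw [integral_ang, integral_ang, hx f g cf cg ⟨1, hf.abs⟩ ⟨1, hg.abs⟩]

lemma I3_one (k : ℝ) {u g : ℝ → ℝ} (hu : U1 u) (hg : U1 g) :
    I3 P k u g (fun _ => 1) = (∫ x in Ico k (k + 1), u x) * ∫ α, g α ∂angMeas := by
  rw [I3_eq P k hu hg U1_one, ← integral_mul_const]
  simp

omit [IsMarkovKernel P] in
lemma I3_nonneg (k : ℝ) {u g f : ℝ → ℝ} (hu : U1 u) (hg : U1 g) (hf : U1 f) : 0 ≤ I3 P k u g f :=
  integral_nonneg fun _ => mul_nonneg (mul_nonneg (hu.2 _).1 (hg.2 _).1) (hf.2 _).1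

lemma I3_le (k : ℝ) {u g f : ℝ → ℝ} (hu : U1 u) (hg : U1 g) (hf : U1 f) :
    I3 P k u g f ≤ I3 P k u g fun _ => 1 :=
  integral_mono (int3 P k hu hg hf) (int3 P k hu hg U1_one) fun _ =>
    mul_le_mul_of_nonneg_left (hf.2 _).2 (mul_nonneg (hu.2 _).1 (hg.2 _).1)

lemma I3_ge (k : ℝ) {u g : ℝ → ℝ} (hu : U1 u) (hg : U1 g) :
    I3 P k u g (fun _ => 1) + I3 P k u (fun _ => 1) g - I3 P k u (fun _ => 1) (fun _ => 1) ≤
      I3 P k u g g := by
  rw [I3, I3, I3, ← integral_add (int3 P k hu hg U1_one) (int3 P k hu U1_one hg),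
    ← integral_sub _ (int3 P k hu U1_one U1_one)]
  · refine integral_mono (((int3 P k hu hg U1_one).add (int3 P k hu U1_one hg)).sub
      (int3 P k hu U1_one U1_one)) (int3 P k hu hg hg) fun q => ?_
    have := mul_nonneg (hu.2 q.1.1).1 (mul_nonneg (sub_nonneg.mpr (hg.2 q.1.2).2)
      (sub_nonneg.mpr (hg.2 q.2).2))
    simp only
    nlinarith
  · exact (int3 P k hu hg U1_one).add (int3 P k hu U1_one hg)

lemma I3_sum_right (k : ℝ) {u g : ℝ → ℝ} {φ : ℕ → ℝ → ℝ} (hu : U1 u) (hg : U1 g)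
    (hφ : ∀ a, U1 (φ a)) (T : Finset ℕ) :
    ∑ b ∈ T, I3 P k u g (φ b) = I3 P k u g fun β => ∑ b ∈ T, φ b β := by
  simp only [I3]
  rw [← integral_finsetSum _ fun b _ => int3 P k hu hg (hφ b)]
  simp only [Finset.mul_sum]

lemma I3_sum_left (k : ℝ) {u f : ℝ → ℝ} {φ : ℕ → ℝ → ℝ} (hu : U1 u) (hf : U1 f)
    (hφ : ∀ a, U1 (φ a)) (T : Finset ℕ) :
    ∑ b ∈ T, I3 P k u (φ b) f = I3 P k u (fun β => ∑ b ∈ T, φ b β) f := by
  simp only [I3]
  rw [← integral_finsetSum _ fun b _ => int3 P k hu (hφ b) hf]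
  simp only [Finset.mul_sum, Finset.sum_mul]

end

lemma sum_le_one {ι : Type*} (T : Finset ι) (f : ι → ℝ) (h1 : ∀ i ∈ T, f i ≤ 1)
    (h : ∀ i ∈ T, ∀ j ∈ T, f i ≠ 0 → f j ≠ 0 → i = j) : ∑ i ∈ T, f i ≤ 1 := by
  by_cases e : ∃ i ∈ T, f i ≠ 0
  · obtain ⟨i, hi, h0⟩ := e
    rw [Finset.sum_eq_single_of_mem i hi fun j hj hne => by_contra fun h' => hne (h j hj i hi h' h0)]
    exact h1 i hi
  · rw [Finset.sum_eq_zero fun i hi => by_contra fun h' => e ⟨i, hi, h'⟩]
    exact zero_le_one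

namespace Grid

variable {g : Grid}

lemma exists_bumps (ok : g.Ok) {δ : ℝ} (h0 : 0 < δ) (h1 : δ < g.τ / 2) :
    ∃ φ : ℕ → ℝ → ℝ, (∀ a, ContDiff ℝ ((⊤ : ℕ∞) : WithTop ℕ∞) (φ a) ∧ U1 (φ a) ∧
      ∀ α, φ a α ≠ 0 → α ∈ g.W a) ∧
      ∀ a < g.N, g.τ - 2 * δ ≤ ∫ α in Ioo (-Real.pi) 0, φ a α := by
  let φ : (a : ℕ) → ContDiffBump (-Real.pi + g.m + (a + 1 / 2) * g.τ) := fun a =>
    ⟨g.τ / 2 - δ, g.τ / 2, by linarith, by linarith⟩
  have hW : ∀ a α, φ a α ≠ 0 → α ∈ g.W a := by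
    intro a α h
    have : α ∈ Function.support (φ a) := h
    rw [(φ a).support_eq, Metric.mem_ball, Real.dist_eq, abs_lt] at this
    have e : (φ a).rOut = g.τ / 2 := rfl
    exact ⟨by linarith [this.1], by linarith [this.2]⟩
  refine ⟨fun a => φ a, fun a => ⟨(φ a).contDiff, ⟨(φ a).continuous.measurable,
    fun x => ⟨(φ a).nonneg, (φ a).le_one⟩⟩, hW a⟩, fun a ha => ?_⟩
  rw [setIntegral_eq_integral_of_forall_compl_eq_zero fun α hα => by_contra fun h =>
    hα (ok.W_sub ha (hW a α h))]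
  refine le_trans (le_of_eq ?_) ((φ a).measure_closedBall_le_integral volume)
  rw [Real.volume_real_closedBall (φ a).rIn_pos.le]
  change _ = 2 * (g.τ / 2 - δ)
  ring

noncomputable def u (g : Grid) (j : ℕ) : ℝ → ℝ :=
  (Ico (g.x j) (g.x j + g.w)).indicator fun _ => 1

lemma u_U1 (j : ℕ) : U1 (g.u j) :=
  ⟨measurable_const.indicator measurableSet_Ico, fun x => by
    unfold u; by_cases h : x ∈ Ico (g.x j) (g.x j + g.w) <;> simp [h]⟩

lemma u_ne {j : ℕ} {y : ℝ} (h : g.u j y ≠ 0) : y ∈ Ico (g.x j) (g.x j + g.w) :=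
  by_contra fun h' => h (indicator_of_notMem h' _)

lemma u_mul (j : ℕ) (y : ℝ) : g.u j y * g.u j y = g.u j y := by
  unfold u; by_cases h : y ∈ Ico (g.x j) (g.x j + g.w) <;> simp [h]

lemma u_uniq (ok : g.Ok) {j j' : ℕ} {y : ℝ} (h : g.u j y ≠ 0) (h' : g.u j' y ≠ 0) : j = j' := by
  have h1 := u_ne h
  have h2 := u_ne h'
  simp only [x, mem_Ico] at h1 h2
  have b1 : (j : ℝ) < j' + 1 := lt_of_mul_lt_mul_right (by linarith [h1.1, h2.2]) ok.w0.le
  have b2 : (j' : ℝ) < j + 1 := lt_of_mul_lt_mul_right (by linarith [h2.1, h1.2]) ok.w0.le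
  have c1 : j < j' + 1 := by exact_mod_cast b1
  have c2 : j' < j + 1 := by exact_mod_cast b2
  omega

lemma u_int (ok : g.Ok) {j : ℕ} (hj : j < g.J) : ∫ y in Ico g.k (g.k + 1), g.u j y = g.w := by
  have hj' : (j : ℝ) + 1 ≤ g.J := by exact_mod_cast hj
  have c5 := mul_le_mul_of_nonneg_right hj' ok.w0.le
  have c6 : 0 ≤ (j : ℝ) * g.w := mul_nonneg (Nat.cast_nonneg _) ok.w0.le
  rw [setIntegral_eq_integral_of_forall_compl_eq_zero, u,
    integral_indicator_const _ measurableSet_Ico, Real.volume_real_Ico_of_le (by linarith [ok.w0])]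
  · simp
  · intro y hy
    by_contra h
    have h1 := u_ne h
    simp only [x, mem_Ico] at h1
    exact hy ⟨by linarith [h1.1, ok.μpos], by linarith [h1.2, ok.μpos, ok.Jw]⟩

lemma int_φ_le (ok : g.Ok) {a : ℕ} (ha : a < g.N) {φ : ℝ → ℝ} (h1 : U1 φ)
    (h2 : ∀ α, φ α ≠ 0 → α ∈ g.W a) {α0 : ℝ} (h0 : α0 ∈ g.W a) :
    ∫ α, φ α ∂angMeas ≤ g.τ * (-Real.sin α0 + g.τ) := by
  have s0 := (neg_sin_pos (ok.W_sub ha h0)).le
  have τ0 := ok.τ0
  rw [integral_ang, ← integral_neg]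
  have hi : Integrable ((g.W a).indicator fun _ => -Real.sin α0 + g.τ)
      (volume.restrict (Ioo (-Real.pi) 0)) :=
    (integrable_const _).indicator measurableSet_Ioo
  refine (integral_mono ?_ hi fun α => ?_).trans ?_
  · refine integrable_bdd _ ((h1.1.mul Real.measurable_sin).neg) (C := 1) fun α => ?_
    rw [abs_neg, abs_mul]
    exact mul_le_one₀ (h1.abs _) (abs_nonneg _) (Real.abs_sin_le_one _)
  · by_cases h : φ α = 0
    · simp only [h, zero_mul, neg_zero]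
      exact indicator_nonneg (fun _ _ => by linarith) _
    · have hα := h2 α h
      simp only [indicator_of_mem hα]
      have b1 := Real.abs_sin_sub_sin_le α0 α
      have b2 : |α0 - α| ≤ g.τ := abs_le.mpr ⟨by linarith [h0.1, hα.2], by linarith [h0.2, hα.1]⟩
      have b3 := le_abs_self (Real.sin α0 - Real.sin α)
      have s1 := (neg_sin_pos (ok.W_sub ha hα)).le
      nlinarith [(h1.2 α).1, (h1.2 α).2]
  · rw [W, integral_indicator_const _ measurableSet_Ioo, smul_eq_mul]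
    refine mul_le_mul_of_nonneg_right ?_ (by linarith)
    refine (ENNReal.toReal_mono measure_Ioo_lt_top.ne (Measure.restrict_apply_le _ _)).trans
      (le_of_eq ?_)
    rw [Real.volume_Ioo, ENNReal.toReal_ofReal (by linarith)]
    ring

lemma int_Φ_ge (ok : g.Ok) {δ : ℝ} {φ : ℕ → ℝ → ℝ} (h1 : ∀ a, U1 (φ a))
    (hΦ : U1 fun α => ∑ a ∈ Finset.range g.N, φ a α)
    (h2 : ∀ a < g.N, g.τ - 2 * δ ≤ ∫ α in Ioo (-Real.pi) 0, φ a α) :
    angMeas.real univ - (2 * g.m + 2 * g.N * δ) ≤ ∫ α, ∑ a ∈ Finset.range g.N, φ a α ∂angMeas := by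
  have i1 := integrable_bdd angMeas hΦ.1 hΦ.abs
  have i2 := integrable_bdd (volume.restrict (Ioo (-Real.pi) 0)) hΦ.1 hΦ.abs
  have b := integral_mono_measure (f := fun α => 1 - ∑ a ∈ Finset.range g.N, φ a α) ang_le
    (Eventually.of_forall fun α => sub_nonneg.mpr (hΦ.2 α).2) ((integrable_const 1).sub i2)
  rw [integral_sub (integrable_const 1) i1, integral_sub (integrable_const 1) i2,
    integral_finsetSum (μ := volume.restrict _) _ fun a _ => integrable_bdd _ (h1 a).1 (h1 a).abs,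
    integral_const, setIntegral_const, Real.volume_real_Ioo_of_le (by simp; positivity)] at b
  have c := Finset.sum_le_sum fun a (ha : a ∈ Finset.range g.N) => h2 a (Finset.mem_range.mp ha)
  simp only [Finset.sum_const, Finset.card_range, nsmul_eq_mul, smul_eq_mul, mul_one] at b c
  linarith [ok.Nτ]

end Grid

end Pool.Agent.Lib.MP_cc9ac0_pr
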