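import Pool.Agent.Lib.MP_cc9ac0_pr.Gadget

set_option autoImplicit false

namespace Pool.Agent.Lib.MP_cc9ac0_pr

open MeasureTheory Set Filter Topology

/-- a horizontal piece: centre and half length -/
abbrev Pc := (ℝ × ℝ) × ℝ

def pr (γ : ℝ) (p : Pc) : Set ℝ := Metric.closedBall (Lf γ p.1) (p.2 * Real.cos γ)

def opr (γ : ℝ) (p : Pc) : Set ℝ := Metric.ball (Lf γ p.1) (p.2 * Real.cos γ)

structure Par where
  γ1 : ℝ
  γ2 : ℝ
  B : Finset (ℝ × ℝ)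
  Δ : ℝ
  Z : ℝ
  ρ : ℝ
  R : ℕ
  K : ℕ
  A : ℕ
  h1 : 0 < γ1
  h12 : γ1 ≤ γ2
  h2 : γ2 < Real.pi / 2
  symm : ∀ b ∈ B, (-b.1, b.2) ∈ B
  sep : ∀ γ, γ1 ≤ |γ| → |γ| ≤ γ2 → ∀ c ∈ B, ∀ c' ∈ B, c ≠ c' → 3 ≤ |Lf γ c - Lf γ c'|
  bd : ∀ b ∈ B, |b.1| + 1 ≤ Δ ∧ |b.2| ≤ Δ
  hΔ : 0 ≤ Δ
  hZ : 4 * Δ + 3 ≤ Z * Real.sin γ1
  hρ : 0 < ρ
  hR : 1 ≤ R

abbrev St := Σ _ : ℕ, ℤ × ℕ

namespace Par

variable (P : Par)

noncomputable def T : ℝ := P.ρ * Real.cos P.γ2 / 2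

def Jn (r : ℕ) : ℕ := (P.A + 1) ^ r

noncomputable def δ (r : ℕ) : ℝ := P.T / (P.Z * P.Jn r)

noncomputable def yc (e : St) : ℝ := -(e.1 * P.T) - (e.2.2 + 1 / 2) * (P.δ e.1 * P.Z)

noncomputable def E : Finset St :=
  (Finset.range P.R).sigma fun r => Finset.Icc (-(P.K : ℤ)) P.K ×ˢ Finset.range (P.Jn r)

noncomputable def I : Finset (St × (ℝ × ℝ)) := P.E ×ˢ P.B

noncomputable def pc (i : St × (ℝ × ℝ)) : Pc :=
  ((i.1.2.1 * P.ρ + P.δ i.1.1 * i.2.1, P.yc i.1 + P.δ i.1.1 * i.2.2), P.δ i.1.1)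

noncomputable def ctr (γ : ℝ) (e : St) : ℝ := Lf γ (e.2.1 * P.ρ, P.yc e)

lemma mem_E {e : St} : e ∈ P.E ↔ e.1 < P.R ∧ |e.2.1| ≤ P.K ∧ e.2.2 < P.Jn e.1 := by
  simp [E, abs_le]

lemma mem_I {i : St × (ℝ × ℝ)} : i ∈ P.I ↔ i.1 ∈ P.E ∧ i.2 ∈ P.B := Finset.mem_product

lemma c_pos : 0 < Real.cos P.γ2 :=
  Real.cos_pos_of_mem_Ioo ⟨by linarith [Real.pi_pos, P.h1, P.h12], P.h2⟩

lemma s_pos : 0 < Real.sin P.γ1 :=
  Real.sin_pos_of_pos_of_lt_pi P.h1 (by linarith [Real.pi_pos, P.h2, P.h12])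

lemma cos_ge {γ : ℝ} (g2 : |γ| ≤ P.γ2) : Real.cos P.γ2 ≤ Real.cos γ := by
  rw [← Real.cos_abs γ]
  exact Real.cos_le_cos_of_nonneg_of_le_pi (abs_nonneg _) (by linarith [Real.pi_pos, P.h2]) g2

lemma sin_ge {γ : ℝ} (g1 : P.γ1 ≤ |γ|) (g2 : |γ| ≤ P.γ2) : Real.sin P.γ1 ≤ |Real.sin γ| := by
  have h : Real.sin P.γ1 ≤ Real.sin |γ| :=
    Real.sin_le_sin_of_le_of_le_pi_div_two (by linarith [Real.pi_pos, P.h1])
      (by linarith [P.h2]) g1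
  refine h.trans ?_
  rcases abs_cases γ with h | h
  · rw [h.1]; exact le_abs_self _
  · rw [h.1, Real.sin_neg]; exact neg_le_abs _

lemma Z_ge : 4 * P.Δ + 3 ≤ P.Z := by
  have h1 := P.hZ
  have h2 := Real.sin_le_one P.γ1
  have h3 := P.s_pos
  have h4 := P.hΔ
  by_contra hc
  rcases le_or_gt 0 P.Z with h | h <;> nlinarith

lemma Z_pos : 0 < P.Z := by linarith [P.Z_ge, P.hΔ]

lemma T_pos : 0 < P.T := by
  have := P.c_pos; have := P.hρ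
  unfold T; positivity

lemma T_le : P.T ≤ P.ρ / 2 := by
  have := Real.cos_le_one P.γ2; have := P.hρ
  unfold T; nlinarith

lemma Jn_pos (r : ℕ) : (0 : ℝ) < P.Jn r := by unfold Jn; positivity

lemma Jn_ge (r : ℕ) : (1 : ℝ) ≤ P.Jn r := by
  have : 0 < P.Jn r := by exact_mod_cast P.Jn_pos r
  exact_mod_cast this

lemma δ_pos (r : ℕ) : 0 < P.δ r := div_pos P.T_pos (mul_pos P.Z_pos (P.Jn_pos r))

lemma δ_mul (r : ℕ) : P.δ r * P.Z * P.Jn r = P.T := by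
  have := P.Z_pos; have := P.Jn_pos r
  unfold δ; field_simp

lemma δZ_le (r : ℕ) : P.δ r * P.Z ≤ P.T := by
  rw [← P.δ_mul r]
  exact le_mul_of_one_le_right (mul_pos (P.δ_pos r) P.Z_pos).le (P.Jn_ge r)

lemma δΔ_le (r : ℕ) : 4 * (P.δ r * P.Δ) + 3 * P.δ r ≤ P.δ r * P.Z := by
  have := mul_le_mul_of_nonneg_left P.Z_ge (P.δ_pos r).le
  linarith

lemma Lf_pc (γ : ℝ) (i : St × (ℝ × ℝ)) :
    Lf γ (P.pc i).1 = P.ctr γ i.1 + P.δ i.1.1 * Lf γ i.2 := by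
  simp only [Lf, pc, ctr]; ring

lemma abs_Lf_le {b : ℝ × ℝ} (hb : b ∈ P.B) (γ : ℝ) : |Lf γ b| + 1 ≤ 2 * P.Δ := by
  have h := P.bd b hb
  have : |Lf γ b| ≤ |b.1| + |b.2| := by
    refine (abs_add_le _ _).trans (add_le_add ?_ ?_) <;> rw [abs_mul]
    · exact mul_le_of_le_one_right (abs_nonneg _) (Real.abs_cos_le_one _)
    · exact mul_le_of_le_one_right (abs_nonneg _) (Real.abs_sin_le_one _)
  linarith [h.1, h.2]

lemma near {γ s : ℝ} {i : St × (ℝ × ℝ)} (hb : i.2 ∈ P.B) (hs : s ∈ pr γ (P.pc i)) :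
    |s - P.ctr γ i.1| ≤ 2 * (P.δ i.1.1 * P.Δ) := by
  rw [pr, Metric.mem_closedBall, Real.dist_eq, Lf_pc] at hs
  have h1 := P.abs_Lf_le hb γ
  have h2 := P.δ_pos i.1.1
  have h3 : (P.pc i).2 * Real.cos γ ≤ P.δ i.1.1 :=
    mul_le_of_le_one_right h2.le (Real.cos_le_one _)
  have h4 : |P.δ i.1.1 * Lf γ i.2| ≤ P.δ i.1.1 * (2 * P.Δ - 1) := by
    rw [abs_mul, abs_of_pos h2]
    exact mul_le_mul_of_nonneg_left (by linarith) h2.le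
  have h5 := abs_add_le (s - (P.ctr γ i.1 + P.δ i.1.1 * Lf γ i.2)) (P.δ i.1.1 * Lf γ i.2)
  rw [show s - (P.ctr γ i.1 + P.δ i.1.1 * Lf γ i.2) + P.δ i.1.1 * Lf γ i.2 = s - P.ctr γ i.1 by
    ring] at h5
  linarith

lemma yc_range {e : St} (he : e ∈ P.E) :
    -((e.1 + 1) * P.T) + P.δ e.1 * P.Z / 2 ≤ P.yc e ∧
      P.yc e ≤ -(e.1 * P.T) - P.δ e.1 * P.Z / 2 := by
  have h1 : (e.2.2 : ℝ) + 1 ≤ P.Jn e.1 := by exact_mod_cast (P.mem_E.mp he).2.2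
  have h2 := P.δ_mul e.1
  have h3 := mul_pos (P.δ_pos e.1) P.Z_pos
  have h4 : (0 : ℝ) ≤ e.2.2 := Nat.cast_nonneg _
  unfold yc
  constructor <;> nlinarith

lemma Y_range {i : St × (ℝ × ℝ)} (hi : i ∈ P.I) :
    -((i.1.1 + 1) * P.T) < (P.pc i).1.2 ∧ (P.pc i).1.2 < -(i.1.1 * P.T) := by
  obtain ⟨he, hb⟩ := P.mem_I.mp hi
  have h1 := P.yc_range he
  have h2 := abs_le.mp (P.bd _ hb).2
  have h3 := P.δ_pos i.1.1
  have h4 := P.δΔ_le i.1.1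
  have h5 := mul_le_mul_of_nonneg_left h2.1 h3.le
  have h6 := mul_le_mul_of_nonneg_left h2.2 h3.le
  have h7 := mul_nonneg h3.le P.hΔ
  simp only [pc]
  constructor <;> nlinarith

lemma Y_abs {i : St × (ℝ × ℝ)} (hi : i ∈ P.I) :
    -(P.R * P.T) ≤ (P.pc i).1.2 ∧ (P.pc i).1.2 ≤ 0 := by
  have h1 := P.Y_range hi
  have h2 : (i.1.1 : ℝ) + 1 ≤ P.R := by exact_mod_cast (P.mem_E.mp (P.mem_I.mp hi).1).1
  have h3 := P.T_pos
  have h4 : (0 : ℝ) ≤ i.1.1 := Nat.cast_nonneg _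
  constructor <;> nlinarith

lemma layer_le {i i' : St × (ℝ × ℝ)} (hi : i ∈ P.I) (hi' : i' ∈ P.I)
    (h : (P.pc i).1.2 ≤ (P.pc i').1.2) : i'.1.1 ≤ i.1.1 := by
  have h1 := P.Y_range hi
  have h2 := P.Y_range hi'
  have h3 : (i'.1.1 : ℝ) * P.T < (i.1.1 + 1) * P.T := by linarith
  have h4 := lt_of_mul_lt_mul_right h3 P.T_pos.le
  have : i'.1.1 < i.1.1 + 1 := by exact_mod_cast h4
  omega

lemma X_near {i : St × (ℝ × ℝ)} (hb : i.2 ∈ P.B) :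
    |(P.pc i).1.1 - i.1.2.1 * P.ρ| + (P.pc i).2 ≤ P.δ i.1.1 * P.Δ := by
  have h1 := (P.bd _ hb).1
  have h2 := P.δ_pos i.1.1
  simp only [pc, add_sub_cancel_left, abs_mul, abs_of_pos h2]
  nlinarith

lemma δΔ_le_ρ (r : ℕ) : P.δ r * P.Δ ≤ P.ρ / 8 := by
  linarith [P.δΔ_le r, P.δZ_le r, P.T_le, P.δ_pos r]

lemma sep_layer {γ : ℝ} (g1 : P.γ1 ≤ |γ|) (g2 : |γ| ≤ P.γ2) {i i' : St × (ℝ × ℝ)}
    (hi : i ∈ P.I) (hi' : i' ∈ P.I) (hr : i'.1.1 = i.1.1) (hne : i ≠ i') :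
    3 * P.δ i.1.1 ≤ |Lf γ (P.pc i).1 - Lf γ (P.pc i').1| := by
  obtain ⟨⟨r, k, j⟩, b⟩ := i
  obtain ⟨⟨r', k', j'⟩, b'⟩ := i'
  simp only at hr
  subst hr
  obtain ⟨he, hb⟩ := P.mem_I.mp hi
  obtain ⟨he', hb'⟩ := P.mem_I.mp hi'
  simp only at hb hb' he he' ⊢
  have hδ := P.δ_pos r'
  rw [Lf_pc, Lf_pc]
  simp only
  have hb1 := P.abs_Lf_le hb γ
  have hb2 := P.abs_Lf_le hb' γ
  have hsm : |P.δ r' * Lf γ b - P.δ r' * Lf γ b'| ≤ 4 * (P.δ r' * P.Δ) := by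
    rw [← mul_sub, abs_mul, abs_of_pos hδ]
    have := abs_sub (Lf γ b) (Lf γ b')
    nlinarith
  have key : ∀ x : ℝ, P.ctr γ ⟨r', k, j⟩ - P.ctr γ ⟨r', k', j'⟩ = x →
      4 * (P.δ r' * P.Δ) + 3 * P.δ r' ≤ |x| →
      3 * P.δ r' ≤ |P.ctr γ ⟨r', k, j⟩ + P.δ r' * Lf γ b -
        (P.ctr γ ⟨r', k', j'⟩ + P.δ r' * Lf γ b')| := by
    intro x hx h
    have h2 := abs_sub_abs_le_abs_sub x (-(P.δ r' * Lf γ b - P.δ r' * Lf γ b'))
    rw [abs_neg, sub_neg_eq_add] at h2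
    rw [show P.ctr γ ⟨r', k, j⟩ + P.δ r' * Lf γ b - (P.ctr γ ⟨r', k', j'⟩ + P.δ r' * Lf γ b') =
      x + (P.δ r' * Lf γ b - P.δ r' * Lf γ b') by rw [← hx]; ring]
    linarith
  by_cases hk : k = k'
  · subst hk
    by_cases hj : j = j'
    · subst hj
      rw [add_sub_add_left_eq_sub, ← mul_sub, abs_mul, abs_of_pos hδ]
      have := P.sep γ g1 g2 b hb b' hb' fun e => hne (e ▸ rfl)
      nlinarith
    · refine key (((j' : ℝ) - j) * (P.δ r' * P.Z) * Real.sin γ) (by simp only [ctr, Lf, yc]; ring) ?_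
      have h3 : (1 : ℝ) ≤ |(j' : ℝ) - j| := by
        have : (1 : ℤ) ≤ |(j' : ℤ) - j| := Int.one_le_abs (by omega)
        exact_mod_cast this
      rw [abs_mul, abs_mul, abs_of_pos (mul_pos hδ P.Z_pos)]
      have h4 := mul_le_mul_of_nonneg_left P.hZ hδ.le
      have h5 := P.sin_ge g1 g2
      have h6 := mul_pos hδ P.Z_pos
      have h7 := P.s_pos
      calc 4 * (P.δ r' * P.Δ) + 3 * P.δ r' ≤ 1 * (P.δ r' * P.Z) * Real.sin P.γ1 := by linarith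
        _ ≤ _ := by gcongr
  · refine key _ rfl ?_
    have h3 : (1 : ℝ) ≤ |(k : ℝ) - k'| := by
      have : (1 : ℤ) ≤ |k - k'| := Int.one_le_abs (by omega)
      exact_mod_cast this
    have e : P.ctr γ ⟨r', k, j⟩ - P.ctr γ ⟨r', k', j'⟩ = ((k : ℝ) - k') * P.ρ * Real.cos γ +
        (P.yc ⟨r', k, j⟩ - P.yc ⟨r', k', j'⟩) * Real.sin γ := by
      simp only [ctr, Lf]; ring
    have h4 := P.yc_range he
    have h5 := P.yc_range he'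
    simp only at h4 h5
    have h6 := mul_pos hδ P.Z_pos
    have h7 : |(P.yc ⟨r', k, j⟩ - P.yc ⟨r', k', j'⟩) * Real.sin γ| ≤ P.T := by
      rw [abs_mul]
      refine (mul_le_of_le_one_right (abs_nonneg _) (Real.abs_sin_le_one _)).trans ?_
      exact abs_le.mpr ⟨by linarith, by linarith⟩
    have h8 : 2 * P.T ≤ |((k : ℝ) - k') * P.ρ * Real.cos γ| := by
      have hc := P.cos_ge g2
      have hc0 := P.c_pos
      have hρ := P.hρ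
      rw [abs_mul, abs_mul, abs_of_pos hρ, abs_of_pos (hc0.trans_le hc)]
      calc 2 * P.T = 1 * P.ρ * Real.cos P.γ2 := by unfold T; ring
        _ ≤ _ := by gcongr
    have h9 := abs_sub_abs_le_abs_sub (((k : ℝ) - k') * P.ρ * Real.cos γ)
      (-((P.yc ⟨r', k, j⟩ - P.yc ⟨r', k', j'⟩) * Real.sin γ))
    rw [abs_neg, sub_neg_eq_add, ← e] at h9
    linarith [P.δΔ_le r', P.δZ_le r']

lemma disj_layer {γ : ℝ} (g1 : P.γ1 ≤ |γ|) (g2 : |γ| ≤ P.γ2) {i i' : St × (ℝ × ℝ)}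
    (hi : i ∈ P.I) (hi' : i' ∈ P.I) (hr : i'.1.1 = i.1.1) (hne : i ≠ i') :
    Disjoint (pr γ (P.pc i)) (pr γ (P.pc i')) := by
  refine Metric.closedBall_disjoint_closedBall ?_
  rw [Real.dist_eq]
  have h1 := P.sep_layer g1 g2 hi hi' hr hne
  have h2 := P.δ_pos i.1.1
  have h3 := mul_le_of_le_one_right h2.le (Real.cos_le_one γ)
  simp only [pc, hr] at h1 ⊢
  linarith

/-- shadow of the layers above layer `r` -/
def H (γ : ℝ) (r : ℕ) : Set ℝ := {s | ∃ i ∈ P.I, i.1.1 < r ∧ s ∈ pr γ (P.pc i)}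

def Clean (γ : ℝ) (e : St) : Prop :=
  |e.2.1| + P.R ≤ P.K ∧ Disjoint (Metric.closedBall (P.ctr γ e) (P.δ e.1 * P.Z)) (P.H γ e.1)

lemma RT_eq : P.R * P.T = P.R * P.ρ / 2 * Real.cos P.γ2 := by unfold T; ring

lemma clean_disj {γ : ℝ} (g1 : P.γ1 ≤ |γ|) (g2 : |γ| ≤ P.γ2) {i i' : St × (ℝ × ℝ)}
    (hi : i ∈ P.I) (hi' : i' ∈ P.I) (hc : P.Clean γ i.1) (hr : i'.1.1 ≤ i.1.1) (hne : i ≠ i') :
    Disjoint (pr γ (P.pc i)) (pr γ (P.pc i')) ∧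
      Disjoint (pr (-γ) (P.pc i)) (pr (-γ) (P.pc i')) := by
  rcases hr.eq_or_lt with hr | hr
  · exact ⟨P.disj_layer g1 g2 hi hi' hr hne,
      P.disj_layer (by rwa [abs_neg]) (by rwa [abs_neg]) hi hi' hr hne⟩
  obtain ⟨he, hb⟩ := P.mem_I.mp hi
  obtain ⟨he', hb'⟩ := P.mem_I.mp hi'
  have hδ := P.δ_pos i.1.1
  have hδΔ := P.δΔ_le i.1.1
  have hδ0 := mul_nonneg hδ.le P.hΔ
  constructor
  · refine disjoint_left.mpr fun s h1 h2 => disjoint_left.mp hc.2 ?_ ⟨i', hi', hr, h2⟩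
    rw [Metric.mem_closedBall, Real.dist_eq]
    linarith [P.near hb h1]
  · refine disjoint_left.mpr fun s h1 h2 => ?_
    have hcg := P.cos_ge g2
    have hc0 := P.c_pos
    have hρ := P.hρ
    have n1 := P.near hb h1
    have n2 := P.near hb' h2
    have hk : |i.1.2.1 - i'.1.2.1| ≤ P.R := by
      have y1 := P.yc_range he
      have y2 := P.yc_range he'
      have r1 : (i.1.1 : ℝ) + 1 ≤ P.R := by exact_mod_cast (P.mem_E.mp he).1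
      have r2 : (i'.1.1 : ℝ) + 1 ≤ i.1.1 := by exact_mod_cast hr
      have r3 : (0 : ℝ) ≤ i'.1.1 := Nat.cast_nonneg _
      have hT := P.T_pos
      have d1 := P.δΔ_le i'.1.1
      have d2 := P.δ_pos i'.1.1
      have d3 := mul_le_mul_of_nonneg_right r1 hT.le
      have d4 := mul_le_mul_of_nonneg_right r2 hT.le
      have d5 := mul_nonneg r3 hT.le
      have hy : |(P.yc i.1 - P.yc i'.1) * Real.sin γ| ≤
          P.R * P.T - P.δ i.1.1 * P.Z / 2 - P.δ i'.1.1 * P.Z / 2 := by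
        rw [abs_mul]
        refine (mul_le_of_le_one_right (abs_nonneg _) (Real.abs_sin_le_one _)).trans ?_
        have d6 := P.δZ_le i.1.1
        have d7 := P.δZ_le i'.1.1
        exact abs_le.mpr ⟨by linarith, by linarith⟩
      have e : ((i.1.2.1 : ℝ) - i'.1.2.1) * P.ρ * Real.cos γ =
          (P.yc i.1 - P.yc i'.1) * Real.sin γ + ((s - P.ctr (-γ) i'.1) - (s - P.ctr (-γ) i.1)) := by
        simp only [ctr, Lf, Real.cos_neg, Real.sin_neg]; ring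
      have h3 : |((i.1.2.1 : ℝ) - i'.1.2.1) * P.ρ * Real.cos γ| ≤ P.R * P.T := by
        rw [e]
        refine (abs_add_le _ _).trans ?_
        have := abs_sub (s - P.ctr (-γ) i'.1) (s - P.ctr (-γ) i.1)
        linarith
      rw [abs_mul, abs_mul, abs_of_pos hρ, abs_of_pos (hc0.trans_le hcg), RT_eq] at h3
      have h4 : |(i.1.2.1 : ℝ) - i'.1.2.1| * P.ρ * Real.cos P.γ2 ≤
          P.R * P.ρ * Real.cos P.γ2 := by
        have : |(i.1.2.1 : ℝ) - i'.1.2.1| * P.ρ * Real.cos P.γ2 ≤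
          |(i.1.2.1 : ℝ) - i'.1.2.1| * P.ρ * Real.cos γ := by gcongr
        have h5 : 0 ≤ P.R * P.ρ * Real.cos P.γ2 := by positivity
        linarith
      have h5 := le_of_mul_le_mul_right (le_of_mul_le_mul_right h4 hc0) hρ
      exact_mod_cast h5
    let i'' : St × (ℝ × ℝ) :=
      (⟨i'.1.1, (2 * i.1.2.1 - i'.1.2.1, i'.1.2.2)⟩, (-i'.2.1, i'.2.2))
    have hi'' : i'' ∈ P.I := by
      refine P.mem_I.mpr ⟨P.mem_E.mpr ⟨(P.mem_E.mp he').1, ?_, (P.mem_E.mp he').2.2⟩,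
        P.symm _ hb'⟩
      have := hc.1
      have h5 := abs_add_le i.1.2.1 (i.1.2.1 - i'.1.2.1)
      simp only [i'']
      rw [show 2 * i.1.2.1 - i'.1.2.1 = i.1.2.1 + (i.1.2.1 - i'.1.2.1) by ring]
      linarith
    have hd := Set.disjoint_left.mp hc.2
    refine @hd (2 * (i.1.2.1 : ℝ) * P.ρ * Real.cos γ - s) ?_ ⟨i'', hi'', hr, ?_⟩
    · rw [Metric.mem_closedBall, Real.dist_eq, ← abs_neg]
      have e : -(2 * i.1.2.1 * P.ρ * Real.cos γ - s - P.ctr γ i.1) = s - P.ctr (-γ) i.1 := by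
        simp only [ctr, Lf, Real.cos_neg, Real.sin_neg]; ring
      rw [e]
      linarith
    · rw [pr, Metric.mem_closedBall, Real.dist_eq] at h2 ⊢
      rw [Real.cos_neg] at h2
      rw [← abs_neg]
      convert h2 using 2
      · simp only [i'', pc, Lf, yc, Real.cos_neg, Real.sin_neg]
        push_cast
        ring
      · rfl

end Par

end Pool.Agent.Lib.MP_cc9ac0_pr
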