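import Pool.Agent.Lib.MP_cc9ac0_pr.Basic

set_option autoImplicit false

namespace Pool.Agent.Lib.MP_cc9ac0_pr

open MeasureTheory Set Filter Topology

instance twoPiPos : Fact (0 < 2 * Real.pi) := ⟨Real.two_pi_pos⟩

abbrev Ang := AddCircle (2 * Real.pi)

/-- Oriented lines: direction angle and signed distance from the origin. -/
abbrev Ln := Ang × ℝ

noncomputable def vv (θ : Ang) : ℂ := (AddCircle.toCircle θ : ℂ)

noncomputable def mL : Measure Ln := (volume : Measure Ang).prod (volume : Measure ℝ)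

instance : SFinite mL := by unfold mL; infer_instance

lemma norm_vv (θ : Ang) : ‖vv θ‖ = 1 := Circle.norm_coe _

lemma continuous_vv : Continuous vv :=
  continuous_subtype_val.comp AddCircle.continuous_toCircle

lemma vv_coe (α : ℝ) : vv (α : Ang) = dir α := by
  unfold vv dir
  rw [AddCircle.toCircle_apply_mk, div_self Real.two_pi_pos.ne', one_mul, Circle.coe_exp]

lemma vv_sub (ψ θ : Ang) : vv (ψ - θ) = vv ψ * (starRingEnd ℂ) (vv θ) := by
  unfold vv
  rw [sub_eq_add_neg, AddCircle.toCircle_add, AddCircle.toCircle_neg, Circle.coe_mul,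
    Circle.coe_inv_eq_conj]

lemma vv_arg {z : ℂ} (hz : ‖z‖ = 1) : vv ((z.arg : ℝ) : Ang) = z := by
  rw [vv_coe]
  have := Complex.norm_mul_exp_arg_mul_I z
  rw [hz] at this
  simpa [dir] using this

lemma vv_inj : Function.Injective vv := fun _ _ h =>
  AddCircle.injective_toCircle Real.two_pi_pos.ne' (Subtype.ext h)

lemma ang_singleton (θ : Ang) : (volume : Measure Ang) {θ} = 0 := by
  have h := AddCircle.measurePreserving_mk (2 * Real.pi) 0
  rw [← h.measure_preimage (measurableSet_singleton θ).nullMeasurableSet,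
    Measure.restrict_apply' measurableSet_Ioc]
  refine Set.Countable.measure_zero (Set.Subsingleton.countable ?_) _
  rintro a ⟨ha1, ha2⟩ b ⟨hb1, hb2⟩
  simp only [mem_preimage, mem_singleton_iff] at ha1 hb1
  exact (AddCircle.coe_eq_coe_iff_of_mem_Ioc ha2 hb2).mp (ha1.trans hb1.symm)

instance : NullSingletonClass (volume : Measure Ang) := ⟨ang_singleton⟩

/-- parameter of the intersection of a line with the support of a segment -/
noncomputable def tp (s : Seg) (l : Ln) : ℝ := (l.2 - cr (vv l.1) s.c) / cr (vv l.1) s.u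

noncomputable def pt (s : Seg) (l : Ln) : ℂ := s.c + tp s l * s.u

noncomputable def tau (s : Seg) (l : Ln) : ℝ := dt (vv l.1) (pt s l)

/-- reflection of a line in the support of a segment -/
noncomputable def rfl' (s : Seg) (l : Ln) : Ln :=
  ((((s.u ^ 2).arg : ℝ) : Ang) - l.1,
    cr (vv ((((s.u ^ 2).arg : ℝ) : Ang) - l.1)) s.c + cr (vv l.1) s.c - l.2)

lemma measurable_cr_vv (z : ℂ) : Measurable fun θ : Ang => cr (vv θ) z :=
  (continuous_cr.comp (continuous_vv.prodMk continuous_const)).measurable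

lemma measurable_tp (s : Seg) : Measurable (tp s) :=
  (measurable_snd.sub ((measurable_cr_vv _).comp measurable_fst)).div
    ((measurable_cr_vv _).comp measurable_fst)

lemma measurable_pt (s : Seg) : Measurable (pt s) :=
  measurable_const.add ((Complex.measurable_ofReal.comp (measurable_tp s)).mul measurable_const)

lemma measurable_tau (s : Seg) : Measurable (tau s) := by
  have h1 : Measurable fun l : Ln => vv l.1 := continuous_vv.measurable.comp measurable_fst
  have h2 := measurable_pt s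
  unfold tau dt
  exact ((Complex.measurable_re.comp h1).mul (Complex.measurable_re.comp h2)).add
    ((Complex.measurable_im.comp h1).mul (Complex.measurable_im.comp h2))

lemma cr_pt (s : Seg) {l : Ln} (h : cr (vv l.1) s.u ≠ 0) : cr (vv l.1) (pt s l) = l.2 := by
  rw [pt, cr_add, cr_smul, tp, div_mul_cancel₀ _ h]; ring

lemma pt_eq_of_cr (s : Seg) {l : Ln} (h : cr (vv l.1) s.u ≠ 0) {t : ℝ}
    (ht : cr (vv l.1) (s.c + t * s.u) = l.2) : t = tp s l := by
  rw [cr_add, cr_smul] at ht
  rw [tp, eq_div_iff h]; linarith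

lemma pt_eq_add (s s' : Seg) {l : Ln} (h : cr (vv l.1) s.u ≠ 0) (h' : cr (vv l.1) s'.u ≠ 0) :
    pt s' l = pt s l + ((tau s' l - tau s l : ℝ) : ℂ) * vv l.1 :=
  eq_add_of_cr (norm_vv _) ((cr_pt s h).trans (cr_pt s' h').symm)

lemma vv_rfl (s : Seg) (hu : ‖s.u‖ = 1) (l : Ln) :
    vv (rfl' s l).1 = s.u ^ 2 * (starRingEnd ℂ) (vv l.1) := by
  have : ‖s.u ^ 2‖ = 1 := by rw [norm_pow, hu, one_pow]
  simp only [rfl']
  rw [vv_sub, vv_arg this]

lemma tp_rfl (s : Seg) (hu : ‖s.u‖ = 1) (l : Ln) : tp s (rfl' s l) = tp s l := by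
  unfold tp
  have h1 : cr (vv (rfl' s l).1) s.u = -cr (vv l.1) s.u := by rw [vv_rfl s hu, cr_refl hu]
  rw [h1]
  have h2 : (rfl' s l).2 - cr (vv (rfl' s l).1) s.c = -(l.2 - cr (vv l.1) s.c) := by
    simp only [rfl']; ring
  rw [h2, neg_div_neg_eq]

lemma pt_rfl (s : Seg) (hu : ‖s.u‖ = 1) (l : Ln) : pt s (rfl' s l) = pt s l := by
  unfold pt; rw [tp_rfl s hu]

lemma measurePreserving_rfl (s : Seg) : MeasurePreserving (rfl' s) mL mL := by
  have h1 : MeasurePreserving (fun θ : Ang => (((s.u ^ 2).arg : ℝ) : Ang) - θ) volume volume :=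
    Measure.measurePreserving_sub_left volume _
  refine h1.skew_product (g := fun θ ρ =>
    cr (vv ((((s.u ^ 2).arg : ℝ) : Ang) - θ)) s.c + cr (vv θ) s.c - ρ) ?_ ?_
  · exact ((((measurable_cr_vv s.c).comp h1.measurable).comp measurable_fst).add
      ((measurable_cr_vv s.c).comp measurable_fst)).sub measurable_snd
  · exact Eventually.of_forall fun θ => (Measure.measurePreserving_sub_left volume _).map_eq

/-- lines passing within `ε` of the point `a` -/
def gate (a : ℂ) (ε : ℝ) : Set Ln := {l | |l.2 - cr (vv l.1) a| ≤ ε}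

lemma measurableSet_gate (a : ℂ) (ε : ℝ) : MeasurableSet (gate a ε) :=
  measurableSet_le (measurable_snd.sub ((measurable_cr_vv _).comp measurable_fst)).abs
    measurable_const

lemma mL_gate (a : ℂ) (ε : ℝ) :
    mL (gate a ε) = ENNReal.ofReal (2 * ε) * ENNReal.ofReal (2 * Real.pi) := by
  rw [mL, Measure.prod_apply (measurableSet_gate a ε)]
  have : ∀ θ : Ang, (volume : Measure ℝ) (Prod.mk θ ⁻¹' gate a ε) = ENNReal.ofReal (2 * ε) := by
    intro θ
    rw [← Real.volume_closedBall (cr (vv θ) a) ε]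
    congr 1
  simp only [this, lintegral_const, AddCircle.measure_univ]

lemma mL_parallel {u : ℂ} (hu : ‖u‖ = 1) : mL {l | cr (vv l.1) u = 0} = 0 := by
  have h : {l : Ln | cr (vv l.1) u = 0} ⊆ (vv ⁻¹' {u, -u}) ×ˢ univ := by
    intro l hl
    refine ⟨?_, trivial⟩
    have h1 : cr u 0 = cr u (vv l.1) := by
      rw [cr_comm u (vv l.1), hl]; simp [cr]
    have h2 := eq_add_of_cr hu h1
    set t := dt u (vv l.1) - dt u 0
    rw [zero_add] at h2
    have h3 : |t| = 1 := by
      have := congrArg norm h2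
      rw [norm_vv, norm_mul, hu, mul_one, Complex.norm_real, Real.norm_eq_abs] at this
      exact this.symm
    rcases abs_eq (zero_le_one) |>.mp h3 with h4 | h4
    · left; rw [h2, h4]; simp
    · right; rw [h2, h4]; simp
  refine measure_mono_null h ?_
  rw [mL, Measure.prod_prod]
  have : (vv ⁻¹' {u, -u}).Finite := (toFinite _).preimage vv_inj.injOn
  rw [this.measure_zero, zero_mul]

lemma mL_end (s : Seg) (hu : ‖s.u‖ = 1) : mL {l | |tp s l| = s.h} = 0 := by
  have h : {l : Ln | |tp s l| = s.h} ⊆ {l | cr (vv l.1) s.u = 0} ∪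
      (gate (s.c + s.h * s.u) 0 ∪ gate (s.c + (-s.h : ℝ) * s.u) 0) := by
    intro l hl
    by_cases h0 : cr (vv l.1) s.u = 0
    · exact Or.inl h0
    · right
      have h1 := cr_pt s h0
      have hh : 0 ≤ s.h := by rw [← show |tp s l| = s.h from hl]; exact abs_nonneg _
      rcases (abs_eq hh).mp hl with h2 | h2
      · left
        simp only [gate, mem_setOf_eq, ← h2]
        rw [← h1, pt, sub_self, abs_zero]
      · right
        simp only [gate, mem_setOf_eq, ← h2]
        rw [← h1, pt, sub_self, abs_zero]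
  refine measure_mono_null h (measure_union_null (mL_parallel hu) (measure_union_null ?_ ?_)) <;>
    simp [mL_gate]

/-- the line of the ray `(x, α)` -/
noncomputable def lineOf (a : ℝ × ℝ) : Ln := ((a.2 : Ang), -Real.sin a.2 * a.1)

lemma measurable_lineOf : Measurable lineOf :=
  ((AddCircle.measurable_mk' (a := 2 * Real.pi)).comp measurable_snd).prodMk
    ((Real.measurable_sin.comp measurable_snd).neg.mul measurable_fst)

instance : SFinite angMeas := by unfold angMeas; infer_instance

instance : SFinite rayMeas := by unfold rayMeas; infer_instance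

lemma rayMeas_lineOf {N : Set Ln} (hN : mL N = 0) : rayMeas (lineOf ⁻¹' N) = 0 := by
  obtain ⟨N', hsub, hm, h0⟩ := exists_measurable_superset_of_null hN
  refine measure_mono_null (preimage_mono hsub) ?_
  rw [mL, Measure.prod_apply hm, lintegral_eq_zero_iff (measurable_measure_prodMk_left hm)] at h0
  have h1 := (AddCircle.measurePreserving_mk (2 * Real.pi) (-Real.pi)).quasiMeasurePreserving.ae h0
  have h2 : ∀ᵐ α : ℝ ∂(volume.restrict (Ioo (-Real.pi) 0)),
      (volume : Measure ℝ) (Prod.mk (α : Ang) ⁻¹' N') = 0 := by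
    refine ae_restrict_of_ae_restrict_of_subset ?_ h1
    intro α hα
    exact ⟨hα.1, by linarith [hα.2, Real.pi_pos]⟩
  have h3 : ∀ᵐ α : ℝ ∂(volume.restrict (Ioo (-Real.pi) 0)), α ∈ Ioo (-Real.pi) 0 :=
    ae_restrict_mem measurableSet_Ioo
  rw [rayMeas, Measure.prod_apply_symm (measurable_lineOf hm)]
  refine lintegral_eq_zero_of_ae_eq_zero ?_
  refine (withDensity_absolutelyContinuous _ _).ae_le ?_
  filter_upwards [h2, h3] with α h2 h3
  have hs : -Real.sin α ≠ 0 := (neg_pos.mpr (Real.sin_neg_of_neg_of_neg_pi_lt h3.2 h3.1)).ne'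
  have : (fun x : ℝ => (x, α)) ⁻¹' (lineOf ⁻¹' N') =
      (fun x => -Real.sin α * x) ⁻¹' (Prod.mk (α : Ang) ⁻¹' N') := rfl
  rw [this, Real.volume_preimage_mul_left hs, h2, mul_zero]
  rfl

lemma rayMeas_compl_rayD : rayMeas rayDᶜ = 0 := by
  have : rayDᶜ = univ ×ˢ (Ioo (-Real.pi) 0)ᶜ := by
    ext a; simp [rayD]
  rw [this, rayMeas, Measure.prod_prod]
  have h : angMeas (Ioo (-Real.pi) 0)ᶜ = 0 := by
    refine withDensity_absolutelyContinuous _ _ ?_
    rw [Measure.restrict_apply measurableSet_Ioo.compl, compl_inter_self, measure_empty]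
  rw [h, mul_zero]

end Pool.Agent.Lib.MP_cc9ac0_pr
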