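import Pool.Agent.Lib.MP_cc9ac0_pr.Billiard

set_option autoImplicit false

namespace Pool.Agent.Lib.MP_cc9ac0_pr

open MeasureTheory Set Filter Topology

lemma meas_of_sec {J X : Type*} [Countable J] [MeasurableSpace J] [MeasurableSingletonClass J]
    [MeasurableSpace X] {S : Set (J × X)} (h : ∀ o, MeasurableSet (Prod.mk o ⁻¹' S)) :
    MeasurableSet S := by
  have : S = ⋃ o, {o} ×ˢ (Prod.mk o ⁻¹' S) := by
    ext ⟨a, b⟩
    simp
  rw [this]
  exact MeasurableSet.iUnion fun o => (measurableSet_singleton o).prod (h o)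

lemma count_prod_apply {J : Type*} [MeasurableSpace J] [MeasurableSingletonClass J]
    {S : Set (J × Ln)} (h : MeasurableSet S) :
    (Measure.count.prod mL) S = ∑' o, mL (Prod.mk o ⁻¹' S) := by
  rw [Measure.prod_apply h, lintegral_count]

namespace Room

variable {J : Type} (R : Room J)

lemma meas_hit (j : J) : MeasurableSet {l | R.Hit j l} :=
  (MeasurableSet.const _).inter (measurableSet_lt (measurable_tp _).abs measurable_const)

variable [Countable J]

lemma meas_gen : MeasurableSet {l | R.Gen l} := by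
  have : {l | R.Gen l} = ⋂ j, ({l : Ln | cr (vv l.1) (R.sg j).u = 0}ᶜ ∩
      {l | j ≠ R.j0 → |tp (R.sg j) l| ≠ (R.sg j).h}) := by
    ext l; simp [Gen]
  rw [this]
  refine MeasurableSet.iInter fun j => MeasurableSet.inter ?_ ?_
  · exact (measurableSet_eq_fun ((measurable_cr_vv _).comp measurable_fst)
      measurable_const).compl
  · by_cases hj : j = R.j0
    · simp [hj]
    · simp only [ne_eq, hj, not_false_eq_true, forall_const]
      exact (measurableSet_eq_fun (measurable_tp _).abs measurable_const).compl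

lemma null_gen : mL {l | R.Gen l}ᶜ = 0 := by
  have : {l | R.Gen l}ᶜ ⊆ ⋃ j, ({l : Ln | cr (vv l.1) (R.sg j).u = 0} ∪
      {l | |tp (R.sg j) l| = (R.sg j).h}) := by
    intro l hl
    by_contra hc
    simp only [mem_iUnion, mem_union, mem_ofPred_eq, not_exists, not_or] at hc
    exact hl fun j => ⟨(hc j).1, fun _ => (hc j).2⟩
  refine measure_mono_null this (measure_iUnion_null fun j => measure_union_null ?_ ?_)
  · exact mL_parallel (R.unit j)
  · exact mL_end _ (R.unit j)

lemma meas_valid (o : J) : MeasurableSet {l | R.Valid o l} := by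
  refine R.meas_gen.inter (MeasurableSet.inter ?_ ?_)
  · by_cases h : o = R.j0
    · simp only [h, forall_const]
      exact measurableSet_lt
        (Complex.measurable_im.comp (continuous_vv.measurable.comp measurable_fst))
        measurable_const
    · simp only [h, false_imp_iff]
      exact MeasurableSet.univ
  · by_cases h : o = R.j0
    · simp only [h, ne_eq, not_true_eq_false, false_imp_iff]
      exact MeasurableSet.univ
    · simp only [ne_eq, h, not_false_eq_true, forall_const]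
      exact measurableSet_lt (measurable_tp _).abs measurable_const

lemma meas_next (o i : J) : MeasurableSet {l | R.Next o i l} := by
  refine (R.meas_valid o).inter ((R.meas_hit i).inter
    ((measurableSet_lt (measurable_tau _) (measurable_tau _)).inter ?_))
  have : {l | ∀ j, R.Hit j l → ¬ (tau (R.sg o) l < tau (R.sg j) l ∧
      tau (R.sg j) l < tau (R.sg i) l)} = ⋂ j, ({l | R.Hit j l} ∩
        ({l | tau (R.sg o) l < tau (R.sg j) l} ∩ {l | tau (R.sg j) l < tau (R.sg i) l}))ᶜ := by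
    ext l; simp
  change MeasurableSet {l | ∀ j, R.Hit j l → ¬ (tau (R.sg o) l < tau (R.sg j) l ∧
      tau (R.sg j) l < tau (R.sg i) l)}
  rw [this]
  exact MeasurableSet.iInter fun j => ((R.meas_hit j).inter
    ((measurableSet_lt (measurable_tau _) (measurable_tau _)).inter
      (measurableSet_lt (measurable_tau _) (measurable_tau _)))).compl

omit [Countable J] in
def Dom : Set (J × Ln) := {x | ∃ i, R.Next x.1 i x.2}

omit [Countable J] in
def Init : Set (J × Ln) := {x | x.1 = R.j0}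

variable [MeasurableSpace J] [MeasurableSingletonClass J]

lemma meas_nextX (i : J) : MeasurableSet {x : J × Ln | R.Next x.1 i x.2} :=
  meas_of_sec fun o => R.meas_next o i

lemma meas_Dom : MeasurableSet R.Dom := by
  have : R.Dom = ⋃ i, {x : J × Ln | R.Next x.1 i x.2} := by ext; simp [Dom]
  rw [this]
  exact MeasurableSet.iUnion R.meas_nextX

omit [Countable J] in
lemma meas_Init : MeasurableSet R.Init := measurable_fst (measurableSet_singleton R.j0)

lemma exists_T : ∃ T : J × Ln → J × Ln, Measurable T ∧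
    ∀ x ∈ R.Dom, ∃ i, R.Next x.1 i x.2 ∧ T x = (i, rfl' (R.sg i) x.2) := by
  obtain ⟨T, h1, h2, -⟩ := exists_measurable_glue (fun i => {x : J × Ln | R.Next x.1 i x.2})
    R.meas_nextX (fun i x => (i, rfl' (R.sg i) x.2))
    (fun i => measurable_const.prodMk ((measurePreserving_rfl _).measurable.comp measurable_snd))
    id measurable_id
  exact ⟨T, h1, fun x hx => h2 x hx⟩

lemma T_le {T : J × Ln → J × Ln} (hT : Measurable T)
    (hs : ∀ x ∈ R.Dom, ∃ i, R.Next x.1 i x.2 ∧ T x = (i, rfl' (R.sg i) x.2))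
    (S : Set (J × Ln)) (hS : MeasurableSet S) :
    (Measure.count.prod mL) (R.Dom ∩ T ⁻¹' S) ≤ (Measure.count.prod mL) S := by
  rw [count_prod_apply (R.meas_Dom.inter (hT hS)), count_prod_apply hS]
  have hm : ∀ i, MeasurableSet (rfl' (R.sg i) ⁻¹' (Prod.mk i ⁻¹' S)) := fun i =>
    (measurePreserving_rfl _).measurable (measurable_prodMk_left hS)
  calc ∑' o, mL (Prod.mk o ⁻¹' (R.Dom ∩ T ⁻¹' S))
      ≤ ∑' o, ∑' i, mL ({l | R.Next o i l} ∩ rfl' (R.sg i) ⁻¹' (Prod.mk i ⁻¹' S)) := by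
        refine ENNReal.tsum_le_tsum fun o => (measure_mono ?_).trans (measure_iUnion_le _)
        rintro l ⟨h1, h2⟩
        obtain ⟨i, hi, he⟩ := hs _ h1
        refine mem_iUnion.mpr ⟨i, hi, ?_⟩
        rw [mem_preimage, he] at h2
        exact h2
    _ = ∑' i, ∑' o, mL ({l | R.Next o i l} ∩ rfl' (R.sg i) ⁻¹' (Prod.mk i ⁻¹' S)) :=
        ENNReal.tsum_comm
    _ ≤ ∑' i, mL (Prod.mk i ⁻¹' S) := by
        refine ENNReal.tsum_le_tsum fun i => ?_
        rw [← measure_iUnion]
        · rw [← (measurePreserving_rfl (R.sg i)).measure_preimage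
            (measurable_prodMk_left hS).nullMeasurableSet]
          exact measure_mono (iUnion_subset fun o => inter_subset_right)
        · intro o o' hne
          exact disjoint_left.mpr fun l h1 h2 => hne (R.next_src_unique h1.1 h2.1)
        · exact fun o => (R.meas_next o i).inter (hm i)

omit [Countable J] [MeasurableSpace J] [MeasurableSingletonClass J] in
/-- states in a bounded region -/
def Ybd (k : ℝ) : Set (J × Ln) := {x | R.Valid x.1 x.2 ∧ x.1 ≠ R.j0 ∧ |(pt (R.sg x.1) x.2).re| ≤ k}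

lemma meas_Ybd (k : ℝ) : MeasurableSet (R.Ybd k) :=
  meas_of_sec fun o => (R.meas_valid o).inter ((MeasurableSet.const (o ≠ R.j0)).inter
    (measurableSet_le (Complex.measurable_re.comp (measurable_pt (R.sg o))).abs
      (measurable_const (a := k))))

omit [Countable J] in
lemma Ybd_fin (k : ℝ) : (Measure.count.prod mL) (R.Ybd k) ≠ ⊤ := by
  have h : R.Ybd k ⊆ ⋃ j ∈ {j | j ≠ R.j0 ∧ ∃ z ∈ (R.sg j).set, |z.re| ≤ k},
      {j} ×ˢ gate (R.sg j).c (R.sg j).h := by
    rintro ⟨o, l⟩ ⟨h1, h2, h3⟩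
    refine mem_iUnion₂.mpr ⟨o, ⟨h2, _, (R.sg o).oset_subset (R.pt_mem_oset (h1.2.2 h2)), h3⟩,
      rfl, ?_⟩
    have h4 := cr_pt (R.sg o) (h1.1 o).1
    have h5 := h1.2.2 h2
    have h6 := abs_cr_le (vv l.1) (R.sg o).u
    rw [norm_vv, R.unit, mul_one] at h6
    simp only [gate, mem_ofPred_eq] at h4 h5 ⊢
    rw [← h4, pt, cr_add, add_sub_cancel_left, cr_smul, abs_mul]
    nlinarith [abs_nonneg (tp (R.sg o) l), abs_nonneg (cr (vv l.1) (R.sg o).u)]
  refine ne_top_of_le_ne_top (measure_biUnion_ne_top (R.fin k) fun j _ => ?_) (measure_mono h)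
  rw [Measure.prod_prod, Measure.count_singleton, one_mul, mL_gate]
  exact ENNReal.mul_ne_top ENNReal.ofReal_ne_top ENNReal.ofReal_ne_top

omit [Countable J] [MeasurableSpace J] [MeasurableSingletonClass J] in
/-- states about to leave the bounded region -/
def Sx (k ε : ℝ) : Set (J × Ln) :=
  {x | (∃ i, R.Next x.1 i x.2 ∧ k < |(pt (R.sg i) x.2).re|) ∧ |(pt (R.sg x.1) x.2).re| ≤ k ∧
    x.2 ∈ gate (k : ℂ) ε ∪ gate ((-k : ℝ) : ℂ) ε}

omit [MeasurableSpace J] [MeasurableSingletonClass J] in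
lemma meas_Sx_sec (k ε : ℝ) (o : J) : MeasurableSet (Prod.mk o ⁻¹' R.Sx k ε) := by
  refine MeasurableSet.inter ?_ (MeasurableSet.inter
    (measurableSet_le (Complex.measurable_re.comp (measurable_pt (R.sg o))).abs
      (measurable_const (a := k)))
    ((measurableSet_gate _ _).union (measurableSet_gate _ _)))
  change MeasurableSet {l | ∃ i, R.Next o i l ∧ k < |(pt (R.sg i) l).re|}
  rw [ofPred_exists]
  exact MeasurableSet.iUnion fun i => (R.meas_next o i).inter
    (measurableSet_lt measurable_const (Complex.measurable_re.comp (measurable_pt _)).abs)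

omit [Countable J] [MeasurableSpace J] [MeasurableSingletonClass J] in
lemma Sx_aux {k ε : ℝ} {o o' : J} {l : Ln} (h : (o, l) ∈ R.Sx k ε) (h' : (o', l) ∈ R.Sx k ε)
    (hlt : tau (R.sg o) l < tau (R.sg o') l) : False := by
  obtain ⟨⟨i, hi, hk⟩, h2, -⟩ := h
  obtain ⟨⟨i', hi', -⟩, h2', -⟩ := h'
  simp only at hi hk h2 hi' h2'
  have hh := R.valid_lt hi.1 hi'.1 hlt
  have h3 : tau (R.sg i) l ≤ tau (R.sg o') l := not_lt.mp fun e => hi.2.2.2 o' hh ⟨hlt, e⟩
  have e1 := congrArg Complex.re (R.pt_add hi.1.1 o i)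
  have e2 := congrArg Complex.re (R.pt_add hi.1.1 o o')
  simp only [Complex.add_re, Complex.mul_re, Complex.ofReal_re, Complex.ofReal_im, zero_mul,
    sub_zero] at e1 e2
  have h4 := hi.2.2.1
  rw [abs_le] at h2 h2'
  have : |(pt (R.sg i) l).re| ≤ k := by
    rw [abs_le]
    by_cases hv : 0 ≤ (vv l.1).re
    · constructor <;> nlinarith
    · constructor <;> nlinarith
  linarith

lemma Sx_le (k ε : ℝ) : (Measure.count.prod mL) (R.Sx k ε) ≤
    2 * (ENNReal.ofReal (2 * ε) * ENNReal.ofReal (2 * Real.pi)) := by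
  rw [count_prod_apply (meas_of_sec (R.meas_Sx_sec k ε)), ← measure_iUnion]
  · refine (measure_mono (iUnion_subset fun o l hl => hl.2.2)).trans
      ((measure_union_le _ _).trans ?_)
    rw [mL_gate, mL_gate, ← two_mul]
  · intro o o' hne
    refine disjoint_left.mpr fun l h1 h2 => ?_
    obtain ⟨i, hi, -⟩ := h1.1
    obtain ⟨i', hi', -⟩ := h2.1
    rcases lt_or_gt_of_ne (R.valid_tau_ne hi.1 hi'.1 hne) with h | h
    · exact R.Sx_aux h1 h2 h
    · exact R.Sx_aux h2 h1 h
  · exact R.meas_Sx_sec k ε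

omit [Countable J] [MeasurableSpace J] [MeasurableSingletonClass J] in
lemma mem_Sx {k ε : ℝ} (hε : 0 < ε) (hk : ∀ z ∈ R.up, k ≤ |z.re| → -ε < z.im)
    {o i : J} {l : Ln} (h : R.Next o i l) (hi : R.Inv o l) (h1 : |(pt (R.sg o) l).re| ≤ k)
    (h2 : k < |(pt (R.sg i) l).re|) : (o, l) ∈ R.Sx k (2 * ε) := by
  refine ⟨⟨i, h, h2⟩, h1, ?_⟩
  set T := tau (R.sg i) l - tau (R.sg o) l with hT
  have hT0 : 0 < T := sub_pos.mpr h.2.2.1
  have hc : ContinuousOn (fun s : ℝ => |(pt (R.sg o) l + s * vv l.1).re|) (Icc 0 T) := by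
    fun_prop
  have hm : 0 < min ε (|(pt (R.sg i) l).re| - k) := lt_min hε (by linarith)
  obtain ⟨s, hs, he⟩ := intermediate_value_Ioo hT0.le hc
    (show k + min ε (|(pt (R.sg i) l).re| - k) / 2 ∈ _ from ⟨by
      simp only [Complex.ofReal_zero, zero_mul, add_zero]; linarith, by
      rw [← R.pt_add h.1.1 o i]
      linarith [min_le_right ε (|(pt (R.sg i) l).re| - k)]⟩)
  simp only at he
  set z := pt (R.sg o) l + s * vv l.1 with hz
  have hup : z ∈ R.up := R.ray_up hi (fun s h1 h2 => (R.next_free h s h1 h2).1) s hs.1 hs.2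
  have hneg : z.im < 0 := (R.next_free h s hs.1 hs.2).2
  have him := hk z hup (by linarith)
  have hcr : cr (vv l.1) z = l.2 := by
    rw [hz, cr_add, cr_smul, cr_self, cr_pt _ (h.1.1 o).1]; ring
  have key : ∀ a : ℝ, |z.re - a| ≤ ε → l ∈ gate (a : ℂ) (2 * ε) := by
    intro a ha
    simp only [gate, mem_ofPred_eq]
    rw [← hcr, ← cr_sub]
    refine (abs_cr_le _ _).trans ?_
    rw [norm_vv, one_mul]
    refine (Complex.norm_le_abs_re_add_abs_im _).trans ?_
    simp only [Complex.sub_re, Complex.ofReal_re, Complex.sub_im, Complex.ofReal_im, sub_zero]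
    have : |z.im| ≤ ε := abs_le.mpr ⟨him.le, by linarith⟩
    linarith
  have hm2 := min_le_left ε (|(pt (R.sg i) l).re| - k)
  rcases le_total 0 z.re with hz0 | hz0
  · left
    rw [abs_of_nonneg hz0] at he
    exact key k (abs_le.mpr ⟨by linarith, by linarith⟩)
  · right
    rw [abs_of_nonpos hz0] at he
    exact key (-k) (abs_le.mpr ⟨by linarith, by linarith⟩)

omit [Countable J] [MeasurableSpace J] [MeasurableSingletonClass J] in
lemma orbit_inv {T : J × Ln → J × Ln}
    (hs : ∀ x ∈ R.Dom, ∃ i, R.Next x.1 i x.2 ∧ T x = (i, rfl' (R.sg i) x.2)) :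
    ∀ (n : ℕ) (x : J × Ln), R.Inv x.1 x.2 → (∀ j < n, T^[j] x ∈ R.Dom) →
      R.Inv (T^[n] x).1 (T^[n] x).2
  | 0, _, h, _ => h
  | n + 1, x, h, hd => by
    have ih := orbit_inv hs n x h fun j hj => hd j (by omega)
    obtain ⟨i, hi, he⟩ := hs _ (hd n (Nat.lt_succ_self n))
    rw [Function.iterate_succ_apply', he]
    exact R.next_inv hi ih

omit [Countable J] [MeasurableSpace J] [MeasurableSingletonClass J] in
lemma orbit_traj {T : J × Ln → J × Ln}
    (hs : ∀ x ∈ R.Dom, ∃ i, R.Next x.1 i x.2 ∧ T x = (i, rfl' (R.sg i) x.2)) :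
    ∀ (n : ℕ) (x : J × Ln), R.Inv x.1 x.2 → (R.Gen x.2 → R.Valid x.1 x.2) →
      (∀ j < n, T^[j] x ∈ R.Dom) → T^[n] x ∉ R.Dom → R.Gen (T^[n] x).2 →
      R.out (T^[n] x).2 ∈ rayD ∧ Traj R.M n (pt (R.sg x.1) x.2) (vv x.2.1)
        ((R.out (T^[n] x).2).1 : ℂ) (dir ((R.out (T^[n] x).2).2 + Real.pi))
  | 0, x, h, hv, _, hn, hg => R.exit_traj (hv hg) h fun i hi => hn ⟨i, hi⟩
  | n + 1, x, h, _, hd, hn, hg => by
    obtain ⟨i, hi, he⟩ := hs x (hd 0 (Nat.succ_pos n))
    rw [Function.iterate_succ_apply] at hn hg ⊢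
    have := orbit_traj hs n (T x) (by rw [he]; exact R.next_inv hi h)
      (by
        rw [he]
        intro hg
        refine R.hit_valid hg ⟨hi.2.1.1, ?_⟩
        rw [tp_rfl _ (R.unit i)]
        exact hi.2.1.2)
      (fun j hj => by rw [← Function.iterate_succ_apply]; exact hd (j + 1) (by omega)) hn hg
    refine ⟨this.1, R.bounce_traj hi ?_⟩
    have h2 := this.2
    rw [he] at h2 ⊢
    exact h2

omit [Countable J] [MeasurableSpace J] [MeasurableSingletonClass J] in
lemma inv_j0 (l : Ln) : R.Inv R.j0 l := by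
  have h : pt (R.sg R.j0) l ∈ R.up := R.mem_up _ (by rw [pt_j0]; simp)
  obtain ⟨δ, hδ, hb⟩ := Metric.isOpen_iff.mp R.up_open _ h
  refine ⟨δ, hδ, fun t ht ht' => hb ?_⟩
  rw [Metric.mem_ball, dist_eq_norm, add_sub_cancel_left, norm_mul, norm_vv, mul_one,
    Complex.norm_real, Real.norm_eq_abs, abs_of_pos ht]
  exact ht'

lemma forever_null {T : J × Ln → J × Ln} (hT : Measurable T)
    (hs : ∀ x ∈ R.Dom, ∃ i, R.Next x.1 i x.2 ∧ T x = (i, rfl' (R.sg i) x.2)) :
    (Measure.count.prod mL) {x | x ∈ R.Init ∧ ∀ j, T^[j] x ∈ R.Dom} = 0 := by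
  have hTI : ∀ x ∈ R.Dom, T x ∉ R.Init := by
    intro x hx
    obtain ⟨i, hi, he⟩ := hs x hx
    rw [he]
    exact hi.2.1.1
  have h1 : {x | x ∈ R.Init ∧ ∀ j, T^[j] x ∈ R.Dom} ⊆ ⋃ b : ℕ,
      {x | x ∈ R.Init ∧ (∀ j, T^[j] x ∈ R.Dom) ∧ |(pt (R.sg x.1) x.2).re| ≤ b} := by
    intro x hx
    obtain ⟨b, hb⟩ := exists_nat_ge |(pt (R.sg x.1) x.2).re|
    exact mem_iUnion.mpr ⟨b, hx.1, hx.2, hb⟩
  refine measure_mono_null h1 (measure_iUnion_null fun b => ?_)
  have key : ∀ ε : ℝ, 0 < ε → (Measure.count.prod mL)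
      {x | x ∈ R.Init ∧ (∀ j, T^[j] x ∈ R.Dom) ∧ |(pt (R.sg x.1) x.2).re| ≤ b} ≤
      2 * (ENNReal.ofReal (2 * (2 * ε)) * ENNReal.ofReal (2 * Real.pi)) := by
    intro ε hε
    obtain ⟨k0, hk0⟩ := R.thin ε hε
    set k := max k0 b with hk
    have hkb : (b : ℝ) ≤ k := le_max_right _ _
    have hk1 : ∀ z ∈ R.up, k ≤ |z.re| → -ε < z.im := fun z hz h =>
      hk0 z hz ((le_max_left _ _).trans h)
    have hsub : {x | x ∈ R.Init ∧ (∀ j, T^[j] x ∈ R.Dom) ∧ |(pt (R.sg x.1) x.2).re| ≤ b} ⊆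
        {x | x ∈ R.Init ∧ ∀ j, T^[j] x ∈ R.Dom ∧ T^[j + 1] x ∈ R.Ybd k} ∪
          (R.Init ∩ ⋃ n, reachN T R.Dom (R.Sx k (2 * ε)) n) := by
      rintro x ⟨hx1, hx2, hx3⟩
      by_cases hall : ∀ j, |(pt (R.sg (T^[j] x).1) (T^[j] x).2).re| ≤ k
      · left
        refine ⟨hx1, fun j => ⟨hx2 j, ?_, ?_, hall _⟩⟩
        · obtain ⟨i, hi⟩ := hx2 (j + 1)
          exact hi.1
        · rw [Function.iterate_succ_apply']
          exact hTI _ (hx2 j)
      · right
        classical
        have hex : ∃ j, ¬ |(pt (R.sg (T^[j] x).1) (T^[j] x).2).re| ≤ k := not_forall.mp hall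
        have h0 : Nat.find hex ≠ 0 := by
          intro e
          have := Nat.find_spec hex
          rw [e] at this
          exact this (hx3.trans hkb)
        obtain ⟨n, hn⟩ := Nat.exists_eq_succ_of_ne_zero h0
        have ha := Nat.find_spec hex
        have hb := not_not.mp (Nat.find_min hex (show n < Nat.find hex by omega))
        rw [hn, Function.iterate_succ_apply'] at ha
        obtain ⟨i, hi, he⟩ := hs _ (hx2 n)
        rw [he] at ha
        simp only [pt_rfl _ (R.unit i), not_le] at ha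
        have hinv : R.Inv x.1 x.2 := by rw [show x.1 = R.j0 from hx1]; exact R.inv_j0 _
        refine ⟨hx1, mem_iUnion.mpr ⟨n, mem_reachN T R.Dom _ n x (fun j _ => hx2 j) ?_⟩⟩
        exact R.mem_Sx hε hk1 hi
          (R.orbit_inv hs n x hinv fun j _ => hx2 j) hb ha
    refine (measure_mono hsub).trans ((measure_union_le _ _).trans ?_)
    rw [recur_null _ T R.Dom R.Init hT R.meas_Dom R.meas_Init (R.T_le hT hs) (R.meas_Ybd k)
      (R.Ybd_fin k) (disjoint_left.mpr fun x h1 h2 => h1.2.1 h2), zero_add]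
    exact (reach_le _ T R.Dom R.Init hT R.meas_Dom R.meas_Init (R.T_le hT hs) hTI
      (meas_of_sec (R.meas_Sx_sec k _))).trans (R.Sx_le k _)
  refine le_antisymm (ENNReal.le_of_forall_pos_le_add fun ε hε _ => ?_) bot_le
  rw [zero_add]
  refine (key (ε / (16 * Real.pi)) (by have := Real.pi_pos; positivity)).trans (le_of_eq ?_)
  rw [← ENNReal.ofReal_mul (by have := Real.pi_pos; positivity), ← ENNReal.ofReal_ofNat 2,
    ← ENNReal.ofReal_mul (by norm_num), ← ENNReal.ofReal_coe_nnreal]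
  congr 1
  field_simp
  norm_num

end Room

/-- Almost every ray returns, and the return map can be taken measurable. -/
theorem Room.ae_returns {J : Type} [Countable J] (R : Room J) :
    ∃ K : ℝ × ℝ → ℝ × ℝ, Measurable K ∧ ∀ᵐ a ∂rayMeas, ∃ m, Returns R.M m a (K a) := by
  let : MeasurableSpace J := ⊤
  have : MeasurableSingletonClass J := ⟨fun _ => trivial⟩
  obtain ⟨T, hT, hs⟩ := R.exists_T
  have hTI : ∀ x ∈ R.Dom, T x ∉ R.Init := by
    intro x hx
    obtain ⟨i, hi, he⟩ := hs x hx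
    rw [he]
    exact hi.2.1.1
  let st : ℝ × ℝ → J × Ln := fun a => (R.j0, lineOf a)
  have hst : Measurable st := measurable_const.prodMk measurable_lineOf
  have hout : Measurable R.out := (measurable_tp _).prodMk
    ((Complex.measurable_arg.comp (continuous_vv.measurable.comp measurable_fst)).sub
      measurable_const)
  obtain ⟨K, hK, hK1, -⟩ := exists_measurable_glue
    (fun n : ℕ => {a | (∀ j < n, T^[j] (st a) ∈ R.Dom) ∧ T^[n] (st a) ∉ R.Dom})
    (fun n => by
      refine MeasurableSet.inter ?_ (((hT.iterate n).comp hst) R.meas_Dom).compl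
      change MeasurableSet {a | ∀ j < n, T^[j] (st a) ∈ R.Dom}
      simp only [ofPred_forall]
      exact MeasurableSet.iInter fun j => MeasurableSet.iInter fun _ =>
        ((hT.iterate j).comp hst) R.meas_Dom)
    (fun n a => R.out (T^[n] (st a)).2)
    (fun n => hout.comp (measurable_snd.comp ((hT.iterate n).comp hst))) id measurable_id
  refine ⟨K, hK, ?_⟩
  have hZm : MeasurableSet {x : J × Ln | ¬ R.Gen x.2} := measurable_snd R.meas_gen.compl
  have hZ0 : (Measure.count.prod mL) {x : J × Ln | ¬ R.Gen x.2} = 0 := by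
    rw [count_prod_apply hZm]
    exact ENNReal.tsum_eq_zero.mpr fun _ => R.null_gen
  have h1 := reach_le _ T R.Dom R.Init hT R.meas_Dom R.meas_Init (R.T_le hT hs) hTI hZm
  rw [hZ0, nonpos_iff_eq_zero] at h1
  have h2 := measure_union_null h1 (R.forever_null hT hs)
  obtain ⟨N, hsub, hm, h0⟩ := exists_measurable_superset_of_null h2
  rw [count_prod_apply hm, ENNReal.tsum_eq_zero] at h0
  have h3 : ∀ᵐ a ∂rayMeas, a ∉ lineOf ⁻¹' (Prod.mk R.j0 ⁻¹' N) :=
    measure_eq_zero_iff_ae_notMem.mp (rayMeas_lineOf (h0 R.j0))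
  have h4 : ∀ᵐ a ∂rayMeas, a ∉ rayDᶜ := measure_eq_zero_iff_ae_notMem.mp rayMeas_compl_rayD
  filter_upwards [h3, h4] with a h3 h4
  have ha : a ∈ rayD := not_not.mp h4
  have hN : st a ∉ N := h3
  have hex : ∃ j, T^[j] (st a) ∉ R.Dom := by
    by_contra hc
    exact hN (hsub (Or.inr ⟨rfl, fun j => not_not.mp fun e => hc ⟨j, e⟩⟩))
  classical
  obtain ⟨n, hn, he⟩ := hK1 a ⟨Nat.find hex, fun j hj => not_not.mp (Nat.find_min hex hj),
    Nat.find_spec hex⟩
  have hg : R.Gen (T^[n] (st a)).2 := by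
    by_contra hc
    exact hN (hsub (Or.inl ⟨rfl, mem_iUnion.mpr ⟨n, mem_reachN T R.Dom _ n _ hn.1 hc⟩⟩))
  have hsin : Real.sin a.2 < 0 := Real.sin_neg_of_neg_of_neg_pi_lt ha.2.2 ha.2.1
  have hv : vv (st a).2.1 = dir a.2 := vv_coe _
  have := R.orbit_traj hs n (st a) (R.inv_j0 _)
    (fun hg => ⟨hg, fun _ => by rw [hv, dir_im]; exact hsin, fun e => absurd rfl e⟩) hn.1 hn.2 hg
  refine ⟨n, by rw [he]; exact this.1, ?_⟩
  rw [he]
  have hp : pt (R.sg (st a).1) (st a).2 = (a.1 : ℂ) := by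
    change pt (R.sg R.j0) (lineOf a) = _
    rw [R.pt_j0, tp, R.c0, R.u0]
    change (((-Real.sin a.2 * a.1 - cr (vv (a.2 : Ang)) 0) / cr (vv (a.2 : Ang)) 1 : ℝ) : ℂ) = _
    rw [vv_coe]
    congr 1
    simp only [cr, dir_im, Complex.zero_re, Complex.zero_im, Complex.one_re, Complex.one_im]
    field_simp [hsin.ne]
    ring
  rw [← hp, ← hv]
  exact this.2

end Pool.Agent.Lib.MP_cc9ac0_pr
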