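import Pool.Agent.Lib.MP_cc9ac0_pr.Strip
import Pool.Agent.Lib.MP_cc9ac0_pr.Return

set_option autoImplicit false

namespace Pool.Agent.Lib.MP_cc9ac0_pr

open MeasureTheory Set Filter Topology

/-- a locally finite family of segments that meet only at end points, transversally -/
structure Fam (S : Set Seg) : Prop where
  unit : ∀ p ∈ S, ‖p.u‖ = 1 ∧ 0 < p.h
  neg : ∀ p ∈ S, ∀ z ∈ p.set, z.im < 0
  fin : ∀ r : ℝ, {p | p ∈ S ∧ ∃ z ∈ p.set, |z.re| ≤ r}.Finite
  meet : ∀ p ∈ S, ∀ q ∈ S, p ≠ q → ∀ z ∈ p.set, z ∈ q.set → z ∉ p.oset ∧ cr p.u q.u ≠ 0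

lemma Fam.ae_returns {S : Set Seg} (h : Fam S) (hS : S.Countable) {up dn : Set ℂ}
    (h1 : IsOpen up) (h2 : IsOpen dn) (h3 : Disjoint up dn)
    (h4 : ∀ z, (∀ p ∈ S, z ∉ p.set) → z ∈ up ∪ dn) (h5 : ∀ z : ℂ, 0 ≤ z.im → z ∈ up)
    (h6 : ∀ z : ℂ, z.im < -1 → z ∈ dn)
    (h7 : ∀ ε : ℝ, 0 < ε → ∃ k : ℝ, ∀ z ∈ up, k ≤ |z.re| → -ε < z.im) :
    ∃ K, Measurable K ∧ ∀ᵐ a ∂rayMeas, ∃ m, Returns (⋃ p ∈ S, p.set) m a (K a) := by
  have := hS.to_subtype
  let R : Room (Option S) :=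
    { sg := fun o => o.elim ⟨0, 1, 0⟩ fun p => p
      j0 := none
      up := up
      dn := dn
      c0 := rfl
      u0 := rfl
      unit := by
        rintro (_ | p)
        · exact norm_one
        · exact (h.unit p p.2).1
      fin := fun k => by
        refine (((h.fin k).preimage Subtype.val_injective.injOn).image
          (some : S → Option S)).subset ?_
        rintro (_ | p) ⟨a, b⟩
        · exact absurd rfl a
        · exact ⟨p, ⟨p.2, b⟩, rfl⟩
      dis := by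
        rintro (_ | p) (_ | q) a b c z hz hz'
        · exact a rfl
        · exact a rfl
        · exact b rfl
        · exact (h.meet p p.2 q q.2 (fun e => c (congrArg some (Subtype.ext e))) z
            (Seg.oset_subset _ hz) hz').1 hz
      neg := by
        rintro (_ | p) a z hz
        · exact absurd rfl a
        · exact h.neg p p.2 z hz
      up_open := h1
      dn_open := h2
      up_dn := h3
      cover := fun z hz => h4 z fun p hp => hz (some ⟨p, hp⟩) (Option.some_ne_none _)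
      mem_up := h5
      mem_dn := h6
      thin := h7 }
  have e : R.M = ⋃ p ∈ S, p.set := by
    ext z
    rw [R.mem_M, mem_iUnion₂]
    constructor
    · rintro ⟨_ | p, a, b⟩
      · exact absurd rfl a
      · exact ⟨p, p.2, b⟩
    · rintro ⟨p, hp, b⟩
      exact ⟨some ⟨p, hp⟩, Option.some_ne_none _, b⟩
  rw [← e]
  exact R.ae_returns

lemma Seg.segment_eq (p : Seg) (h : 0 < p.h) :
    segment ℝ (p.c - p.h * p.u) (p.c + p.h * p.u) = p.set := by
  rw [segment_eq_image']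
  ext z
  constructor
  · rintro ⟨θ, ⟨h0, h1⟩, rfl⟩
    refine ⟨(2 * θ - 1) * p.h, abs_le.mpr ⟨by nlinarith, by nlinarith⟩, ?_⟩
    simp only [Complex.real_smul]
    push_cast; ring
  · rintro ⟨t, ht, rfl⟩
    rw [abs_le] at ht
    refine ⟨(t + p.h) / (2 * p.h), ⟨div_nonneg (by linarith [ht.1]) (by linarith),
      (div_le_one (by linarith)).mpr (by linarith [ht.2])⟩, ?_⟩
    have : (p.h : ℂ) ≠ 0 := Complex.ofReal_ne_zero.mpr h.ne'
    simp only [Complex.real_smul]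
    push_cast; field_simp; ring

lemma Seg.end_of {p : Seg} {z : ℂ} (h1 : z ∈ p.set) (h2 : z ∉ p.oset) :
    z = p.c - p.h * p.u ∨ z = p.c + p.h * p.u := by
  obtain ⟨t, ht, rfl⟩ := h1
  have : |t| = p.h := le_antisymm ht (not_lt.mp fun h => h2 ⟨t, h, rfl⟩)
  rcases abs_cases t with h | h
  · right; rw [← this, h.1]
  · left; rw [← this, h.1]; push_cast; ring

lemma Fam.polyM1 {S : Set Seg} (h : Fam S)
    (cov : ∀ k : ℕ, ∀ p ∈ S, ∀ z ∈ p.set, -(k : ℝ) ≤ z.re → z.re ≤ k →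
      ∃ q ∈ S, z ∈ q.set ∧ ∀ y ∈ q.set, -(k : ℝ) ≤ y.re ∧ y.re ≤ k) :
    PolyM1 (⋃ p ∈ S, p.set) := by
  classical
  refine ⟨fun z hz => ?_, fun k => ?_⟩
  · obtain ⟨p, hp, hz⟩ := mem_iUnion₂.mp hz
    exact h.neg p hp z hz
  have hA : {p | p ∈ S ∧ ∀ y ∈ p.set, -(k : ℝ) ≤ y.re ∧ y.re ≤ k}.Finite := by
    refine (h.fin k).subset fun p hp => ⟨hp.1, p.c, ?_, abs_le.mpr (hp.2 _ ?_)⟩ <;>
      exact ⟨0, by simpa using (h.unit p hp.1).2.le, by simp⟩
  have hne : ∀ p ∈ S, (p.h : ℂ) ≠ 0 ∧ p.u ≠ 0 := fun p hp =>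
    ⟨Complex.ofReal_ne_zero.mpr (h.unit p hp).2.ne', fun e => by simpa [e] using (h.unit p hp).1⟩
  refine ⟨hA.toFinset.image fun p => (p.c - p.h * p.u, p.c + p.h * p.u), ?_, ?_, ?_⟩
  · intro s hs
    obtain ⟨p, hp, rfl⟩ := Finset.mem_image.mp hs
    have := hne p (hA.mem_toFinset.mp hp).1
    intro e
    have e' : 2 * (p.h * p.u) = 0 := by
      simp only at e
      linear_combination -e
    simp [this.1, this.2] at e'
  · rw [Finset.set_biUnion_finset_image]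
    ext z
    constructor
    · rintro ⟨hz, h1, h2⟩
      obtain ⟨p, hp, hz⟩ := mem_iUnion₂.mp hz
      obtain ⟨q, hq, a, b⟩ := cov k p hp z hz h1 h2
      exact mem_iUnion₂.mpr ⟨q, hA.mem_toFinset.mpr ⟨hq, b⟩, by
        rwa [q.segment_eq (h.unit q hq).2]⟩
    · intro hz
      obtain ⟨p, hp, hz⟩ := mem_iUnion₂.mp hz
      have hp' := hA.mem_toFinset.mp hp
      rw [p.segment_eq (h.unit p hp'.1).2] at hz
      exact ⟨mem_iUnion₂.mpr ⟨p, hp'.1, hz⟩, hp'.2 z hz⟩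
  · intro s hs s' hs' hss z hz
    obtain ⟨p, hp, rfl⟩ := Finset.mem_image.mp hs
    obtain ⟨q, hq, rfl⟩ := Finset.mem_image.mp hs'
    have hp' := (hA.mem_toFinset.mp hp).1
    have hq' := (hA.mem_toFinset.mp hq).1
    have hpq : p ≠ q := fun e => hss (by rw [e])
    simp only [p.segment_eq (h.unit p hp').2, q.segment_eq (h.unit q hq').2] at hz
    obtain ⟨a1, a2⟩ := h.meet p hp' q hq' hpq z hz.1 hz.2
    refine ⟨Seg.end_of hz.1 a1, Seg.end_of hz.2 (h.meet q hq' p hp' hpq.symm z hz.2 hz.1).1, ?_⟩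
    have e : (p.c + p.h * p.u - (p.c - p.h * p.u)) / (q.c + q.h * q.u - (q.c - q.h * q.u)) =
        ((p.h / q.h : ℝ) : ℂ) * (p.u / q.u) := by
      have := hne q hq'
      have b1 := this.1
      have b2 := this.2
      rw [show q.c + q.h * q.u - (q.c - q.h * q.u) = 2 * (q.h * q.u) by ring]
      push_cast; field_simp; ring
    simp only
    rw [e, Complex.im_ofReal_mul, Complex.div_im, Complex.normSq_eq_norm_sq, (h.unit q hq').1]
    refine mul_ne_zero (div_pos (h.unit p hp').2 (h.unit q hq').2).ne' fun e => a2 ?_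
    simp only [cr]
    linarith

lemma Fam.returns {S : Set Seg} (h : Fam S) {F : Finset Seg} (hF : ∀ p ∈ F, p ∈ S) {k d : ℝ}
    (hU : ∀ z ∈ boxU k d, ∀ p ∈ S, z ∈ p.set → p ∈ F) {a b : ℝ × ℝ}
    (H : OneHit F (boxU k d) a b) : Returns (⋃ p ∈ S, p.set) 1 a b := by
  obtain ⟨h1, p, hp, t1, t2, a1, a2, a3, a4, a5, a6, a7⟩ := H
  have key : ∀ z, (z ∈ boxU k d ∧ ∀ q ∈ F, z ∉ q.set) → z ∉ (⋃ p ∈ S, p.set) ∧ z.im < 0 := by
    rintro z ⟨b1, b2⟩
    refine ⟨fun hz => ?_, b1.2.2.2⟩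
    obtain ⟨q, hq, hz⟩ := mem_iUnion₂.mp hz
    exact b2 q (hU z b1 q hq hz) hz
  refine ⟨h1, Traj.bounce 0 _ _ p.u _ _ t1 a1 (fun s b c => key _ (a6 s b c)) ?_ ?_⟩
  · exact flatAt_of_family id S p (hF p hp) (h.unit p (hF p hp)).1 a3 (h.fin _)
      fun q hq hne hz => (h.meet p (hF p hp) q hq hne.symm _ (p.oset_subset a3) hz).1 a3
  · rw [a4, a5]
    exact Traj.exit _ _ t2 a2 (by rw [← a5]; simp) fun s b c => key _ (a7 s b c)

section Stair

variable (H : ℤ → ℝ)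

noncomputable def step (k : ℤ) : Seg := ⟨⟨k + 1 / 2, -H k⟩, 1, 1 / 2⟩

noncomputable def riser (k : ℤ) : Seg :=
  ⟨⟨k, -(H (k - 1) + H k) / 2⟩, Complex.I, |H (k - 1) - H k| / 2⟩

variable {H}

lemma mem_step {k : ℤ} {z : ℂ} :
    z ∈ (step H k).set ↔ k ≤ z.re ∧ z.re ≤ k + 1 ∧ z.im = -H k := by
  constructor
  · rintro ⟨t, ht, rfl⟩
    have := abs_le.mp ht
    simp only [step] at this
    refine ⟨?_, ?_, ?_⟩ <;> simp [step] <;> linarith [this.1, this.2]
  · rintro ⟨h1, h2, h3⟩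
    refine ⟨z.re - (k + 1 / 2), abs_le.mpr ⟨?_, ?_⟩, ?_⟩
    · simp only [step]; linarith
    · simp only [step]; linarith
    · apply Complex.ext <;> simp [step, h3]

lemma of_ostep {k : ℤ} {z : ℂ} (h : z ∈ (step H k).oset) : k < z.re ∧ z.re < k + 1 := by
  obtain ⟨t, ht, rfl⟩ := h
  have := abs_lt.mp ht
  simp only [step] at this
  refine ⟨?_, ?_⟩ <;> simp [step] <;> linarith [this.1, this.2]

lemma mem_riser {k : ℤ} {z : ℂ} : z ∈ (riser H k).set ↔
    z.re = k ∧ |z.im + (H (k - 1) + H k) / 2| ≤ |H (k - 1) - H k| / 2 := by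
  constructor
  · rintro ⟨t, ht, rfl⟩
    refine ⟨by simp [riser], ?_⟩
    have : ((riser H k).c + t * (riser H k).u).im + (H (k - 1) + H k) / 2 = t := by
      simp [riser]; ring
    rw [this]
    exact ht
  · rintro ⟨h1, h2⟩
    refine ⟨_, h2, ?_⟩
    apply Complex.ext
    · simp [riser, h1]
    · simp [riser]; ring

lemma of_oriser {k : ℤ} {z : ℂ} (h : z ∈ (riser H k).oset) :
    z.im ≠ -H k ∧ z.im ≠ -H (k - 1) := by
  obtain ⟨t, ht, rfl⟩ := h
  have : ((riser H k).c + t * (riser H k).u).im = t - (H (k - 1) + H k) / 2 := by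
    simp [riser]; ring
  rw [this]
  simp only [riser] at ht
  constructor <;> intro e
  · rw [show t = (H (k - 1) - H k) / 2 by linarith, abs_div, abs_two] at ht
    exact lt_irrefl _ ht
  · rw [show t = -((H (k - 1) - H k) / 2) by linarith, abs_neg, abs_div, abs_two] at ht
    exact lt_irrefl _ ht

lemma isClosed_strips {C : ℤ → Set ℂ} (h1 : ∀ k, IsClosed (C k))
    (h2 : ∀ k, ∀ z ∈ C k, (k : ℝ) ≤ z.re ∧ z.re ≤ k + 1) : IsClosed (⋃ k, C k) := by
  refine LocallyFinite.isClosed_iUnion (fun z => ⟨Metric.ball z 1, Metric.ball_mem_nhds _ one_pos,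
    (finite_Icc (⌊z.re⌋ - 2) (⌊z.re⌋ + 2)).subset ?_⟩) h1
  rintro k ⟨y, hy, hb⟩
  have a1 := h2 k y hy
  have a2 := abs_lt.mp ((Complex.abs_re_le_norm _).trans_lt (mem_ball_iff_norm.mp hb))
  rw [Complex.sub_re] at a2
  have a3 := Int.floor_le z.re
  have a4 := Int.lt_floor_add_one z.re
  constructor
  · have : ((⌊z.re⌋ - 2 : ℤ) : ℝ) ≤ k := by push_cast; linarith [a1.2, a2.1]
    exact_mod_cast this
  · have : (k : ℝ) ≤ ((⌊z.re⌋ + 2 : ℤ) : ℝ) := by push_cast; linarith [a1.1, a2.2]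
    exact_mod_cast this

def allS (H : ℤ → ℝ) (F : ℤ → Finset Seg) : Set Seg :=
  ⋃ k, insert (step H k) (insert (riser H k) (F k : Set Seg))

lemma mem_allS {F : ℤ → Finset Seg} {p : Seg} :
    p ∈ allS H F ↔ ∃ k, p = step H k ∨ p = riser H k ∨ p ∈ F k := by
  simp [allS]

lemma int_near {i j : ℤ} {x : ℝ} (h1 : (i : ℝ) ≤ x) (h2 : x ≤ j + 1) : i ≤ j + 1 := by
  exact_mod_cast h1.trans h2

lemma int_lt {i j : ℤ} {x : ℝ} (h1 : (i : ℝ) < x) (h2 : x ≤ j + 1) : i ≤ j := by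
  have : i < j + 1 := by exact_mod_cast h1.trans_le h2
  omega

lemma int_lt' {i j : ℤ} {x : ℝ} (h1 : (i : ℝ) ≤ x) (h2 : x < j + 1) : i ≤ j := by
  have : i < j + 1 := by exact_mod_cast h1.trans_lt h2
  omega

lemma not_between {i j : ℤ} (h1 : (i : ℝ) < j) (h2 : (j : ℝ) < i + 1) : False := by
  have a : i < j := by exact_mod_cast h1
  have := int_lt' le_rfl h2
  omega

variable {F : ℤ → Finset Seg}

lemma off_stair (hF : ∀ k, ∀ p ∈ F k, p.set ⊆ boxU k (H k)) {k : ℤ} {z : ℂ}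
    (hz : z ∈ boxU k (H k)) {p : Seg} (hp : p ∈ allS H F) (h : z ∈ p.set) : p ∈ F k := by
  obtain ⟨j, rfl | rfl | hj⟩ := mem_allS.mp hp
  · obtain ⟨a, b, c⟩ := mem_step.mp h
    obtain rfl : k = j := le_antisymm (int_lt hz.1 b) (int_lt' a hz.2.1)
    exact absurd hz.2.2.1 (by rw [c]; exact lt_irrefl _)
  · have a := (mem_riser.mp h).1
    exact (not_between (a ▸ hz.1) (a ▸ hz.2.1)).elim
  · have a := hF j p hj h
    obtain rfl : k = j := le_antisymm (int_lt hz.1 a.2.1.le) (int_lt a.1 hz.2.1.le)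
    exact hj

lemma riser_im {k : ℤ} {z : ℂ} (h : z ∈ (riser H k).set) :
    (-H k ≤ z.im ∧ z.im ≤ -H (k - 1)) ∨ (-H (k - 1) ≤ z.im ∧ z.im ≤ -H k) := by
  have := abs_le.mp (mem_riser.mp h).2
  rcases abs_cases (H (k - 1) - H k) with e | e <;> rw [e.1] at this
  · right; constructor <;> linarith [this.1, this.2]
  · left; constructor <;> linarith [this.1, this.2]

lemma fam_stair (H0 : ∀ k, 0 < H k) (H1 : ∀ k, H (k - 1) ≠ H k)
    (hF : ∀ k, ∀ p ∈ F k, ‖p.u‖ = 1 ∧ 0 < p.h ∧ p.set ⊆ boxU k (H k))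
    (hd : ∀ k, ∀ p ∈ F k, ∀ q ∈ F k, p ≠ q → Disjoint p.set q.set) : Fam (allS H F) := by
  have hF' : ∀ k, ∀ p ∈ F k, p.set ⊆ boxU k (H k) := fun k p hp => (hF k p hp).2.2
  refine ⟨fun p hp => ?_, fun p hp z hz => ?_, fun r => ?_, fun p hp q hq hne z hz hz' => ?_⟩
  · obtain ⟨j, rfl | rfl | hj⟩ := mem_allS.mp hp
    · exact ⟨norm_one, one_half_pos⟩
    · exact ⟨Complex.norm_I, half_pos (abs_pos.mpr (sub_ne_zero.mpr (H1 j)))⟩
    · exact ⟨(hF j p hj).1, (hF j p hj).2.1⟩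
  · obtain ⟨j, rfl | rfl | hj⟩ := mem_allS.mp hp
    · rw [(mem_step.mp hz).2.2]; linarith [H0 j]
    · rcases riser_im hz with h | h <;> linarith [h.2, H0 j, H0 (j - 1)]
    · exact (hF' j p hj hz).2.2.2
  · refine ((finite_Icc (-⌈r⌉ - 1) ⌈r⌉).biUnion
      (t := fun k => insert (step H k) (insert (riser H k) (F k : Set Seg)))
      fun k _ => ((F k).finite_toSet.insert _).insert _).subset ?_
    rintro p ⟨hp, z, hz, hr⟩
    obtain ⟨j, hj⟩ := mem_iUnion.mp hp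
    have a : (j : ℝ) ≤ z.re ∧ z.re ≤ j + 1 := by
      rcases hj with rfl | rfl | hj
      · exact ⟨(mem_step.mp hz).1, (mem_step.mp hz).2.1⟩
      · rw [(mem_riser.mp hz).1]; exact ⟨le_rfl, by linarith⟩
      · exact ⟨(hF' j p hj hz).1.le, (hF' j p hj hz).2.1.le⟩
    have b := abs_le.mp hr
    have c := Int.le_ceil r
    refine mem_iUnion₂.mpr ⟨j, ⟨?_, ?_⟩, hj⟩
    · have : ((-⌈r⌉ - 1 : ℤ) : ℝ) ≤ j := by push_cast; linarith [a.2, b.1]
      exact_mod_cast this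
    · have : (j : ℝ) ≤ (⌈r⌉ : ℤ) := by linarith [a.1, b.2]
      exact_mod_cast this
  · have pc : ∀ {p q : Seg} {j : ℤ}, p ∈ F j → q ∈ allS H F → p ≠ q → z ∈ p.set → z ∈ q.set →
        False := fun hp hq hne hz hz' => disjoint_left.mp
          (hd _ _ hp _ (off_stair hF' (hF' _ _ hp hz) hq hz') hne) hz hz'
    obtain ⟨i, rfl | rfl | hi⟩ := mem_allS.mp hp
    · obtain ⟨j, rfl | rfl | hj⟩ := mem_allS.mp hq
      · exfalso
        obtain ⟨a1, a2, a3⟩ := mem_step.mp hz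
        obtain ⟨b1, b2, b3⟩ := mem_step.mp hz'
        have c1 := int_near a1 b2
        have c2 := int_near b1 a2
        have c3 : i ≠ j := fun e => hne (by rw [e])
        have c4 : H i = H j := by linarith
        rcases (show i = j - 1 ∨ j = i - 1 by omega) with e | e
        · exact H1 j (e ▸ c4)
        · exact H1 i (e ▸ c4.symm)
      · have a := (mem_riser.mp hz').1
        exact ⟨fun h => not_between (a ▸ (of_ostep h).1) (a ▸ (of_ostep h).2),
          by simp [cr, step, riser]⟩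
      · exact (pc hj hp hne.symm hz' hz).elim
    · obtain ⟨j, rfl | rfl | hj⟩ := mem_allS.mp hq
      · refine ⟨fun h => ?_, by simp [cr, step, riser]⟩
        obtain ⟨b1, b2, b3⟩ := mem_step.mp hz'
        rw [(mem_riser.mp hz).1] at b1 b2
        have c1 : j ≤ i := by exact_mod_cast b1
        have c2 := int_near le_rfl b2
        rcases (show j = i ∨ j = i - 1 by omega) with e | e
        · exact (of_oriser h).1 (e ▸ b3)
        · exact (of_oriser h).2 (e ▸ b3)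
      · have : (i : ℝ) = j := (mem_riser.mp hz).1.symm.trans (mem_riser.mp hz').1
        exact absurd (by rw [show i = j by exact_mod_cast this]) hne
      · exact (pc hj hp hne.symm hz' hz).elim
    · exact (pc hi hq hne hz hz').elim

lemma poly_stair (h : Fam (allS H F)) (hF : ∀ k, ∀ p ∈ F k, p.set ⊆ boxU k (H k)) :
    PolyM1 (⋃ p ∈ allS H F, p.set) := by
  refine h.polyM1 fun k p hp z hz h1 h2 => ?_
  have rs : ∀ j : ℤ, z ∈ (riser H j).set →
      ∃ q ∈ allS H F, z ∈ q.set ∧ ∀ y ∈ q.set, -(k : ℝ) ≤ y.re ∧ y.re ≤ k := fun j hj =>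
    ⟨_, mem_allS.mpr ⟨j, Or.inr (Or.inl rfl)⟩, hj, fun y hy => by
      rw [(mem_riser.mp hy).1, ← (mem_riser.mp hj).1]; exact ⟨h1, h2⟩⟩
  have fit : ∀ j : ℤ, -(k : ℤ) ≤ j → j + 1 ≤ k → ∀ x : ℝ, j ≤ x → x ≤ j + 1 →
      -(k : ℝ) ≤ x ∧ x ≤ k := by
    intro j a b x c d
    have a' : -(k : ℝ) ≤ j := by exact_mod_cast a
    have b' : (j : ℝ) + 1 ≤ k := by exact_mod_cast b
    exact ⟨by linarith, by linarith⟩
  obtain ⟨j, rfl | rfl | hj⟩ := mem_allS.mp hp
  · obtain ⟨a1, a2, a3⟩ := mem_step.mp hz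
    by_cases c1 : (k : ℤ) ≤ j
    · have c : (k : ℝ) ≤ j := by exact_mod_cast c1
      refine rs j (mem_riser.mpr ⟨by linarith, le_of_eq ?_⟩)
      rw [a3, show -H j + (H (j - 1) + H j) / 2 = (H (j - 1) - H j) / 2 by ring, abs_div, abs_two]
    by_cases c2 : j + 1 ≤ -(k : ℤ)
    · have c : (j : ℝ) + 1 ≤ -k := by exact_mod_cast c2
      refine rs (j + 1) (mem_riser.mpr ⟨by push_cast; linarith, le_of_eq ?_⟩)
      rw [a3, add_sub_cancel_right, show -H j + (H j + H (j + 1)) / 2 = -((H j - H (j + 1)) / 2) by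
        ring, abs_neg, abs_div, abs_two]
    exact ⟨_, hp, hz, fun y hy => fit j (by omega) (by omega) _ (mem_step.mp hy).1
      (mem_step.mp hy).2.1⟩
  · exact rs j hz
  · have a := hF j p hj hz
    have c1 : j < (k : ℤ) := by exact_mod_cast a.1.trans_le h2
    have c2 : -(k : ℤ) < j + 1 := by exact_mod_cast h1.trans_lt a.2.1
    exact ⟨_, hp, hz, fun y hy => fit j (by omega) (by omega) _ (hF j p hj hy).1.le
      (hF j p hj hy).2.1.le⟩

lemma ae_stair (h : Fam (allS H F)) (H0 : ∀ k, 0 < H k) (H2 : ∀ k, H k ≤ 1)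
    (H3 : ∀ ε : ℝ, 0 < ε → ∃ r : ℝ, ∀ k : ℤ, r ≤ |(k : ℝ)| → H k ≤ ε) :
    ∃ K, Measurable K ∧ ∀ᵐ a ∂rayMeas, ∃ m, Returns (⋃ p ∈ allS H F, p.set) m a (K a) := by
  refine h.ae_returns (countable_iUnion fun k => (((F k).finite_toSet.insert _).insert _).countable)
    (up := (⋃ k : ℤ, {z : ℂ | k ≤ z.re ∧ z.re ≤ k + 1 ∧ z.im ≤ -H k})ᶜ)
    (dn := (⋃ k : ℤ, {z : ℂ | k ≤ z.re ∧ z.re ≤ k + 1 ∧ -H k ≤ z.im})ᶜ)
    (isClosed_strips (fun k => ?_) fun k z hz => ⟨hz.1, hz.2.1⟩).isOpen_compl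
    (isClosed_strips (fun k => ?_) fun k z hz => ⟨hz.1, hz.2.1⟩).isOpen_compl ?_ ?_ ?_ ?_ ?_
  · exact (isClosed_le continuous_const Complex.continuous_re).inter
      ((isClosed_le Complex.continuous_re continuous_const).inter
      (isClosed_le Complex.continuous_im continuous_const))
  · exact (isClosed_le continuous_const Complex.continuous_re).inter
      ((isClosed_le Complex.continuous_re continuous_const).inter
      (isClosed_le continuous_const Complex.continuous_im))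
  · refine disjoint_left.mpr fun z h1 h2 => ?_
    rcases le_total z.im (-H ⌊z.re⌋) with c | c
    · exact h1 (mem_iUnion.mpr ⟨_, Int.floor_le _, (Int.lt_floor_add_one _).le, c⟩)
    · exact h2 (mem_iUnion.mpr ⟨_, Int.floor_le _, (Int.lt_floor_add_one _).le, c⟩)
  · intro z hz
    by_contra hc
    rw [mem_union, not_or, notMem_compl_iff, notMem_compl_iff] at hc
    obtain ⟨i, a1, a2, a3⟩ := mem_iUnion.mp hc.1
    obtain ⟨j, b1, b2, b3⟩ := mem_iUnion.mp hc.2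
    have c1 := int_near a1 b2
    have c2 := int_near b1 a2
    rcases (show i = j ∨ i = j - 1 ∨ j = i - 1 by omega) with e | e | e
    · subst e
      exact hz _ (mem_allS.mpr ⟨i, Or.inl rfl⟩) (mem_step.mpr ⟨a1, a2, le_antisymm a3 b3⟩)
    · subst e
      push_cast at a2
      refine hz _ (mem_allS.mpr ⟨j, Or.inr (Or.inl rfl)⟩) (mem_riser.mpr ⟨by linarith, ?_⟩)
      rw [abs_of_nonpos (show H (j - 1) - H j ≤ 0 by linarith), abs_le]
      constructor <;> linarith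
    · subst e
      push_cast at b2
      refine hz _ (mem_allS.mpr ⟨i, Or.inr (Or.inl rfl)⟩) (mem_riser.mpr ⟨by linarith, ?_⟩)
      rw [abs_of_nonneg (show 0 ≤ H (i - 1) - H i by linarith), abs_le]
      constructor <;> linarith
  · intro z hz h
    obtain ⟨i, -, -, a3⟩ := mem_iUnion.mp h
    linarith [H0 i]
  · intro z hz h
    obtain ⟨i, -, -, a3⟩ := mem_iUnion.mp h
    linarith [H2 i]
  · intro ε hε
    obtain ⟨r, hr⟩ := H3 ε hε
    refine ⟨r + 1, fun z hz h => ?_⟩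
    have a1 := Int.floor_le z.re
    have a2 := Int.lt_floor_add_one z.re
    have a3 : r ≤ |(⌊z.re⌋ : ℝ)| := by
      have := abs_add_le (⌊z.re⌋ : ℝ) (z.re - ⌊z.re⌋)
      rw [add_sub_cancel, abs_of_nonneg (sub_nonneg.mpr a1)] at this
      linarith
    by_contra hc
    exact hz (mem_iUnion.mpr ⟨_, a1, a2.le, by linarith [hr _ a3, not_lt.mp hc]⟩)

end Stair

end Pool.Agent.Lib.MP_cc9ac0_pr
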