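import Pool.Agent.Lib.MP_cc9ac0_pr.Cell
import Pool.Agent.Lib.MP_cc9ac0_pr.Stair

set_option autoImplicit false

namespace Pool.Agent.Lib.MP_cc9ac0_pr

open MeasureTheory ProbabilityTheory Set Filter Topology

variable (P : Kernel (ℝ × ℝ) ℝ) [IsMarkovKernel P]

theorem level (hP : ∀ a ∈ rayD, P a (Ioo (-Real.pi) 0)ᶜ = 0) (hs : SymmKernel P) {r : ℝ}
    (hr : 0 < r) (hr1 : r ≤ 1) :
    ∃ (M : Set ℂ) (K : ℝ × ℝ → ℝ × ℝ), PolyM1 M ∧ Measurable K ∧
      (∀ᵐ a ∂rayMeas, ∃ m, Returns M m a (K a)) ∧ (∀ z ∈ M, -r < z.im ∧ z.im < 0) ∧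
      (∃ E : Set (ℝ × ℝ), MeasurableSet E ∧ E ⊆ rayD ∧ rayMeas E ≤ ENNReal.ofReal r ∧
        ∀ a ∈ rayD, a ∉ E → Returns M 1 a (K a)) ∧
      ∀ k : ℤ, ∀ f : (ℝ × ℝ) × (ℝ × ℝ) → ℝ, Measurable f → ∀ C η : ℝ, 0 ≤ C → (∀ z, |f z| ≤ C) →
        0 ≤ η → |∫ z in Gam k, f z ∂(detMeas K) - ∫ z in Gam k, f z ∂(kerMeas P)| ≤
          8 * η + 2 * C * ((kerMeas P).restrict (Gam k)).real (Osc (Gam k) f r η) + 3 * C * r := by
  set H : ℤ → ℝ := fun k => r / 2 / (|(k : ℝ)| + 1) with hH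
  have H0 : ∀ k, 0 < H k := fun k => by positivity
  have H1 : ∀ k, H (k - 1) ≠ H k := by
    intro k e
    simp only [hH] at e
    rw [div_eq_div_iff (by positivity) (by positivity)] at e
    have e1 := mul_left_cancel₀ (half_pos hr).ne' e
    have e2 : |k| = |k - 1| := by exact_mod_cast add_right_cancel e1
    rcases abs_cases k with h | h <;> rcases abs_cases (k - 1) with h' | h' <;> omega
  have H2 : ∀ k, H k < r := fun k =>
    (div_le_self (half_pos hr).le (by linarith [abs_nonneg (k : ℝ)])).trans_lt (half_lt_self hr)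
  obtain ⟨ε, hε0, hε⟩ := ENNReal.exists_pos_sum_of_countable (ENNReal.ofReal_pos.mpr hr).ne' ℤ
  have hε1 : ∀ k, (ε k : ℝ) ≤ r := fun k => by
    have := (ENNReal.le_tsum (f := fun k => (ε k : ENNReal)) k).trans hε.le
    rwa [← ENNReal.ofReal_coe_nnreal, ENNReal.ofReal_le_ofReal_iff hr.le] at this
  choose F G K1 hc using fun k : ℤ =>
    cell P hP hs k (H0 k) (show (0 : ℝ) < ε k from hε0 k) hr
  have fam := fam_stair H0 H1 (fun k => (hc k).1) fun k => (hc k).2.1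
  have hF : ∀ k, ∀ p ∈ F k, p.set ⊆ boxU k (H k) := fun k p hp => ((hc k).1 p hp).2.2
  obtain ⟨K2, hK2, hret⟩ := ae_stair fam H0 (fun k => (H2 k).le.trans hr1) fun η hη =>
    ⟨1 / η, fun k hk => by
      rw [div_le_iff₀ hη] at hk
      simp only [hH]
      rw [div_le_iff₀ (by positivity)]
      nlinarith⟩
  obtain ⟨K, hKm, hK1, hK3⟩ := exists_measurable_glue G (fun k => (hc k).2.2.1) K1
    (fun k => (hc k).2.2.2.1) K2 hK2
  have hKG : ∀ k, ∀ a ∈ G k, K a = K1 k a := by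
    intro k a ha
    obtain ⟨i, hi, e⟩ := hK1 a ⟨k, ha⟩
    have a1 := ((hc k).2.2.2.2.1 a ha).2.1
    have a2 := ((hc i).2.2.2.2.1 a hi).2.1
    obtain rfl : i = k := le_antisymm (int_lt' a2.1 a1.2) (int_lt' a1.1 a2.2)
    exact e
  have hone : ∀ k, ∀ a ∈ G k, Returns (⋃ p ∈ allS H F, p.set) 1 a (K a) := by
    intro k a ha
    rw [hKG k a ha]
    exact fam.returns (fun p hp => mem_allS.mpr ⟨k, Or.inr (Or.inr hp)⟩)
      (fun z hz p hp h => off_stair hF hz hp h) ((hc k).2.2.2.2.1 a ha).1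
  have hae : ∀ᵐ a ∂rayMeas, ∃ m, Returns (⋃ p ∈ allS H F, p.set) m a (K a) := by
    filter_upwards [hret] with a ha
    by_cases h : ∃ k, a ∈ G k
    · obtain ⟨k, hk⟩ := h
      exact ⟨1, hone k a hk⟩
    · rwa [hK3 a (not_exists.mp h)]
  refine ⟨_, K, poly_stair fam hF, hKm, hae, fun z hz => ?_, ⟨rayD \ ⋃ k, G k,
    meas_rayD.diff (MeasurableSet.iUnion fun k => (hc k).2.2.1), sdiff_subset, ?_, ?_⟩, ?_⟩
  · obtain ⟨p, hp, hz⟩ := mem_iUnion₂.mp hz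
    refine ⟨?_, fam.neg p hp z hz⟩
    obtain ⟨j, rfl | rfl | hj⟩ := mem_allS.mp hp
    · rw [(mem_step.mp hz).2.2]; linarith [H2 j]
    · rcases riser_im hz with h | h <;> linarith [h.1, H2 j, H2 (j - 1)]
    · linarith [(hF j p hj hz).2.2.1, H2 j]
  · have : rayD \ ⋃ k, G k ⊆ ⋃ k : ℤ, St' k \ G k := fun a ha =>
      mem_iUnion.mpr ⟨⌊a.1⌋, ⟨⟨Int.floor_le _, Int.lt_floor_add_one _⟩, trivial⟩,
        fun h => ha.2 (mem_iUnion.mpr ⟨_, h⟩)⟩
    refine (measure_mono this).trans ((measure_iUnion_le _).trans (le_trans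
      (ENNReal.tsum_le_tsum fun k => ?_) hε.le))
    have := (hc k).2.2.2.2.2.1
    rwa [ENNReal.ofReal_coe_nnreal] at this
  · intro a ha hn
    obtain ⟨k, hk⟩ := mem_iUnion.mp (by_contra fun h => hn ⟨ha, h⟩ : a ∈ ⋃ k, G k)
    exact hone k a hk
  · intro k f hf C η hC0 hC hη
    refine ((hc k).2.2.2.2.2.2 K hKm (hae.mono fun a ⟨_, h⟩ => h.1) (hKG k) f hf C η hC0 hC
      hη).trans (add_le_add le_rfl (mul_le_mul_of_nonneg_left (hε1 k) (by positivity)))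

theorem main (hP : ∀ a ∈ rayD, P a (Ioo (-Real.pi) 0)ᶜ = 0) (hs : SymmKernel P) :
    ∃ (M : ℕ → Set ℂ) (K : ℕ → ℝ × ℝ → ℝ × ℝ),
      (∀ n, PolyM1 (M n) ∧ Measurable (K n) ∧
        (∀ᵐ a ∂rayMeas, ∃ m, Returns (M n) m a (K n a))) ∧
      WeakConv (fun n => detMeas (K n)) (kerMeas P) ∧
      (∀ n : ℕ, 0 < n → ∀ z ∈ M n, -(1 / (n : ℝ)) < z.im ∧ z.im < 0) ∧
      (∀ n : ℕ, 0 < n → ∃ E : Set (ℝ × ℝ), MeasurableSet E ∧ E ⊆ rayD ∧
        rayMeas E ≤ ENNReal.ofReal (1 / (n : ℝ)) ∧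
        ∀ a ∈ rayD, a ∉ E → Returns (M n) 1 a (K n a)) := by
  choose M K h1 h2 h3 h4 h5 h6 using fun n : ℕ => level P hP hs (r := 1 / (n + 1))
    Nat.one_div_pos_of_nat (by
      rw [div_le_one (by positivity)]; linarith [(Nat.cast_nonneg n : (0 : ℝ) ≤ n)])
  have hle : ∀ n : ℕ, 0 < n → (1 : ℝ) / (n + 1) ≤ 1 / n := fun n hn =>
    one_div_le_one_div_of_le (by exact_mod_cast hn) (by linarith)
  refine ⟨M, K, fun n => ⟨h1 n, h2 n, h3 n⟩, ?_, fun n hn z hz =>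
    ⟨by linarith [(h4 n z hz).1, hle n hn], (h4 n z hz).2⟩, fun n hn => ?_⟩
  · obtain ⟨e, he⟩ := exists_surjective_nat ℤ
    have fin2 : ∀ k : ℝ, IsFiniteMeasure ((kerMeas P).restrict (Gam k)) := fun k => by
      rw [ker_restrict P hP k]; infer_instance
    refine ⟨fun j => Gam (e j), fun j => meas_Gam _, ?_, fun n j => ?_, fun j => ?_,
      fun j f hf ⟨C, hC⟩ hc => ?_⟩
    · refine subset_antisymm (iUnion_subset fun j => inter_subset_left) fun z hz => ?_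
      obtain ⟨j, hj⟩ := he ⌊z.1.1⌋
      refine mem_iUnion.mpr ⟨j, hz, ⟨?_, trivial⟩, trivial⟩
      rw [hj]
      exact ⟨Int.floor_le _, Int.lt_floor_add_one _⟩
    · rw [← Measure.restrict_apply_univ,
        det_restrict (h2 n) ((h3 n).mono fun a ⟨_, h⟩ => h.1)]
      exact measure_lt_top _ _
    · rw [← Measure.restrict_apply_univ]
      exact measure_lt_top _ _
    · have hC0 : 0 ≤ C := (abs_nonneg _).trans (hC 0)
      refine Metric.tendsto_nhds.mpr fun δ hδ => ?_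
      have t1 := Osc_tendsto ((kerMeas P).restrict (Gam (e j))) (ae_restrict_mem (meas_Gam _)) hc
        (show 0 < δ / 16 by positivity)
      have t2 := (t1.const_mul (2 * C)).add
        ((tendsto_one_div_add_atTop_nhds_zero_nat (𝕜 := ℝ)).const_mul (3 * C))
      rw [mul_zero, mul_zero, add_zero] at t2
      filter_upwards [t2.eventually (gt_mem_nhds (half_pos hδ))] with n hn
      have := h6 n (e j) f hf C (δ / 16) hC0 hC (by positivity)
      rw [Real.dist_eq]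
      linarith
  · obtain ⟨E, a1, a2, a3, a4⟩ := h5 n
    exact ⟨E, a1, a2, a3.trans (ENNReal.ofReal_le_ofReal (hle n hn)), a4⟩

end Pool.Agent.Lib.MP_cc9ac0_pr
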