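import Pool.Agent.Lib.MP_cc9ac0_pr.Select
import Pool.Agent.Lib.MP_cc9ac0_pr.Basic

set_option autoImplicit false

namespace Pool.Agent.Lib.MP_cc9ac0_pr

open MeasureTheory Set Filter Topology

/-- Data of one selective mirror. -/
structure Ty where
  c : ℂ
  ν : ℝ
  γ1 : ℝ
  γ2 : ℝ
  l : ℝ

def Ty.Ok (t : Ty) (m : ℝ) : Prop :=
  0 < t.γ1 ∧ t.γ1 ≤ t.γ2 ∧ -Real.pi + m ≤ t.ν - t.γ2 ∧ t.ν + t.γ2 ≤ -m

noncomputable def toC (c : ℂ) (ν : ℝ) (p : ℝ × ℝ) : ℂ :=
  c + p.1 * dir (ν + Real.pi / 2) + ((-p.2 : ℝ) : ℂ) * dir ν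

def Ty.slab (t : Ty) (ζ : ℝ) : Set ℂ := {z | ∃ p : ℝ × ℝ, |p.1| ≤ t.l ∧ |p.2| ≤ ζ ∧ z = toC t.c t.ν p}

lemma cr_dir (α β : ℝ) : cr (dir α) (dir β) = Real.sin (β - α) := by
  simp only [cr, dir_re, dir_im, Real.sin_sub]; ring

lemma dt_dir (α β : ℝ) : dt (dir α) (dir β) = Real.cos (β - α) := by
  simp only [dt, dir_re, dir_im, Real.cos_sub]; ring

lemma cr_dir_u (α ν : ℝ) : cr (dir α) (dir (ν + Real.pi / 2)) = Real.cos (α - ν) := by
  rw [cr_dir, show ν + Real.pi / 2 - α = Real.pi / 2 - (α - ν) by ring, Real.sin_pi_div_two_sub]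

lemma cr_toC (α : ℝ) (c : ℂ) (ν : ℝ) (p : ℝ × ℝ) :
    cr (dir α) (toC c ν p) = cr (dir α) c + Lf (α - ν) p := by
  rw [toC, cr_add, cr_add, cr_smul, cr_smul, cr_dir_u, cr_dir, ← neg_sub α ν, Real.sin_neg, Lf]
  ring

lemma dt_toC (c : ℂ) (ν : ℝ) (p : ℝ × ℝ) : dt (dir ν) (toC c ν p) = dt (dir ν) c - p.2 := by
  rw [toC, dt_add, dt_add, dt_smul, dt_smul, dt_dir, dt_dir]
  simp [sub_eq_add_neg]

noncomputable def toSeg (c : ℂ) (ν : ℝ) (p : Pc) : Seg := ⟨toC c ν p.1, dir (ν + Real.pi / 2), p.2⟩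

lemma mem_toSeg {c : ℂ} {ν : ℝ} {p : Pc} {z : ℂ} (hz : z ∈ (toSeg c ν p).set) :
    ∃ X, |X - p.1.1| ≤ p.2 ∧ z = toC c ν (X, p.1.2) := by
  obtain ⟨t, ht, rfl⟩ := hz
  refine ⟨p.1.1 + t, by simpa [toSeg] using ht, ?_⟩
  simp only [toSeg, toC]
  push_cast; ring

lemma cr_mem_pr {c : ℂ} {ν : ℝ} {p : Pc} {z : ℂ} (hz : z ∈ (toSeg c ν p).set) {α : ℝ}
    (hc : 0 ≤ Real.cos (α - ν)) : cr (dir α) z - cr (dir α) c ∈ pr (α - ν) p := by
  obtain ⟨X, hX, rfl⟩ := mem_toSeg hz
  rw [cr_toC, pr, Metric.mem_closedBall, Real.dist_eq, add_sub_cancel_left]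
  have : Lf (α - ν) (X, p.1.2) - Lf (α - ν) p.1 = (X - p.1.1) * Real.cos (α - ν) := by
    simp only [Lf]; ring
  rw [this, abs_mul, abs_of_nonneg hc]
  exact mul_le_mul_of_nonneg_right hX hc

lemma cr_mem_ball {c : ℂ} {ν : ℝ} {p : Pc} {z : ℂ} (hz : z ∈ (toSeg c ν p).set) (α : ℝ) :
    cr (dir α) z - cr (dir α) c ∈ Metric.closedBall (Lf (α - ν) p.1) p.2 := by
  obtain ⟨X, hX, rfl⟩ := mem_toSeg hz
  rw [cr_toC, Metric.mem_closedBall, Real.dist_eq, add_sub_cancel_left]
  have : Lf (α - ν) (X, p.1.2) - Lf (α - ν) p.1 = (X - p.1.1) * Real.cos (α - ν) := by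
    simp only [Lf]; ring
  rw [this, abs_mul]
  exact (mul_le_of_le_one_right (abs_nonneg _) (Real.abs_cos_le_one _)).trans hX

lemma mem_image_of_opr {c : ℂ} {ν : ℝ} {p : Pc} {α s : ℝ} (hc : 0 < Real.cos (α - ν))
    (hs : s - cr (dir α) c ∈ opr (α - ν) p) : s ∈ cr (dir α) '' (toSeg c ν p).oset := by
  rw [opr, Metric.mem_ball, Real.dist_eq] at hs
  refine ⟨_, ⟨(s - cr (dir α) c - Lf (α - ν) p.1) / Real.cos (α - ν), ?_, rfl⟩, ?_⟩
  · rw [abs_div, abs_of_pos hc, div_lt_iff₀ hc]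
    exact hs
  · simp only [toSeg]
    rw [cr_add, cr_smul, cr_toC, cr_dir_u, div_mul_cancel₀ _ hc.ne']
    ring

lemma Y_of_mem {c : ℂ} {ν : ℝ} {p : Pc} {z : ℂ} (hz : z ∈ (toSeg c ν p).set) :
    dt (dir ν) z = dt (dir ν) c - p.1.2 := by
  obtain ⟨X, -, rfl⟩ := mem_toSeg hz
  rw [dt_toC]

lemma avoid_thick {A : Set ℂ} (hA : IsClosed A) {g : ℝ → ℂ} (hg : Continuous g)
    (h0 : volume (g ⁻¹' A) = 0) (L : ℝ) {ε : ℝ} (hε : 0 < ε) :
    ∃ r : ℝ, 0 < r ∧ volume (Icc (-L) L ∩ g ⁻¹' Metric.cthickening r A) ≤ ENNReal.ofReal ε := by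
  have h1 : Tendsto (fun n : ℕ => volume (Icc (-L) L ∩ g ⁻¹' Metric.cthickening (1 / (n + 1)) A))
      atTop (𝓝 (volume (⋂ n : ℕ, Icc (-L) L ∩ g ⁻¹' Metric.cthickening (1 / (n + 1)) A))) := by
    refine tendsto_measure_iInter_atTop (fun n => ?_) (fun a b hab => ?_) ⟨0, ?_⟩
    · exact (measurableSet_Icc.inter
        (Metric.isClosed_cthickening.preimage hg).measurableSet).nullMeasurableSet
    · exact inter_subset_inter_right _ (preimage_mono
        (Metric.cthickening_mono (Nat.one_div_le_one_div hab) _))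
    · exact ne_top_of_le_ne_top measure_Icc_lt_top.ne (measure_mono inter_subset_left)
  have h2 : volume (⋂ n : ℕ, Icc (-L) L ∩ g ⁻¹' Metric.cthickening (1 / (n + 1)) A) = 0 := by
    refine measure_mono_null (fun x hx => ?_) h0
    rw [mem_preimage, ← hA.closure_eq, Metric.closure_eq_iInter_cthickening]
    refine mem_iInter₂.mpr fun δ hδ => ?_
    obtain ⟨n, hn⟩ := exists_nat_one_div_lt hδ
    exact Metric.cthickening_mono hn.le _ (mem_iInter.mp hx n).2
  rw [h2] at h1
  obtain ⟨n, hn⟩ := (h1.eventually (gt_mem_nhds (ENNReal.ofReal_pos.mpr hε))).exists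
  exact ⟨_, by positivity, hn.le⟩

lemma exists_offset (A : Finset Seg) (c : ℂ) (ν : ℝ) {y : ℝ}
    (hy : 0 < y) : ∃ Y : ℝ, 0 < Y ∧ Y < y ∧
      volume ((fun X : ℝ => toC c ν (X, Y)) ⁻¹' ⋃ a ∈ A, a.set) = 0 := by
  classical
  set u := dir (ν + Real.pi / 2) with hu
  obtain ⟨Y, hY, hYn⟩ := (Ioo_infinite hy).exists_notMem_finset
    (A.image fun a => cr u a.c - cr u c)
  refine ⟨Y, hY.1, hY.2, ?_⟩
  rw [preimage_iUnion₂]
  refine (measure_biUnion_null_iff A.countable_toSet).mpr fun a ha => ?_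
  refine Set.Subsingleton.measure_zero ?_ _
  have hcr : ∀ X, cr u (toC c ν (X, Y)) = cr u c + Y := by
    intro X
    rw [hu, cr_toC]
    simp [Lf]
  have hdt : ∀ X, dt u (toC c ν (X, Y)) = dt u c + X := by
    intro X
    rw [toC, dt_add, dt_add, dt_smul, dt_smul, hu, dt_dir, dt_dir]
    simp
  rintro X ⟨t, -, ht⟩ X' ⟨t', -, ht'⟩
  have h1 := hcr X
  have h2 := hcr X'
  have h3 := hdt X
  have h4 := hdt X'
  simp only at ht ht'
  rw [ht, cr_add, cr_smul] at h1
  rw [ht', cr_add, cr_smul] at h2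
  by_cases h0 : cr u a.u = 0
  · exfalso
    refine hYn (Finset.mem_image.mpr ⟨a, ha, ?_⟩)
    rw [h0] at h1
    linarith
  · have : t = t' := mul_right_cancel₀ h0 (by linarith)
    rw [ht, this, ← ht', h4] at h3
    linarith

lemma sin_le_abs_sin {a x : ℝ} (ha : 0 ≤ a) (h1 : a ≤ |x|) (h2 : |x| ≤ Real.pi - a) :
    Real.sin a ≤ |Real.sin x| := by
  have h : Real.sin a ≤ Real.sin |x| := by
    rcases le_total |x| (Real.pi / 2) with h | h
    · exact Real.sin_le_sin_of_le_of_le_pi_div_two (by linarith [Real.pi_pos]) h h1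
    · rw [← Real.sin_pi_sub |x|]
      exact Real.sin_le_sin_of_le_of_le_pi_div_two (by linarith [Real.pi_pos]) (by linarith)
        (by linarith)
  refine h.trans ?_
  rcases abs_cases x with h | h
  · rw [h.1]; exact le_abs_self _
  · rw [h.1, Real.sin_neg]; exact neg_le_abs _

/-- What a finite family of segments has to do to be a selective mirror. -/
def IsMirror (t : Ty) (ζ ε : ℝ) (F : Finset Seg) : Prop :=
  (∀ p ∈ F, p.u = dir (t.ν + Real.pi / 2) ∧ 0 < p.h ∧ p.set ⊆ t.slab ζ) ∧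
  (∀ p ∈ F, ∀ q ∈ F, p ≠ q → Disjoint p.set q.set) ∧
  (∀ α, t.γ1 ≤ |α - t.ν| → |α - t.ν| ≤ t.γ2 → ∃ Cl : Finset Seg, Cl ⊆ F ∧
    (∀ p ∈ Cl, ∀ z ∈ p.set, ∀ q ∈ F, q ≠ p → ∀ s : ℝ, 0 < s →
      z + ((-s : ℝ) : ℂ) * dir α ∉ q.set ∧ z + ((-s : ℝ) : ℂ) * dir (2 * t.ν - α) ∉ q.set) ∧
    (∀ p ∈ Cl, ∀ q ∈ Cl, p ≠ q →
      Disjoint (cr (dir (2 * t.ν - α)) '' p.set) (cr (dir (2 * t.ν - α)) '' q.set)) ∧
    volume (Metric.closedBall (cr (dir α) t.c) (t.l * Real.cos (α - t.ν)) \
      ⋃ p ∈ Cl, cr (dir α) '' p.oset) ≤ ENNReal.ofReal ε) ∧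
  ∃ φ : ℝ → ENNReal, Measurable φ ∧ ∫⁻ α, φ α ≤ ENNReal.ofReal ε ∧
    ∀ α ∈ Ioo (-Real.pi) 0, ¬ (t.γ1 < |α - t.ν| ∧ |α - t.ν| < t.γ2) →
      volume (⋃ p ∈ F, cr (dir α) '' p.set) ≤ φ α

lemma Ty.Ok.lt {t : Ty} {m : ℝ} (h : t.Ok m) (hm : 0 < m) : t.γ2 < Real.pi / 2 := by
  linarith [h.2.2.1, h.2.2.2]

lemma Ty.Ok.cos_pos {t : Ty} {m : ℝ} (h : t.Ok m) (hm : 0 < m) {γ : ℝ} (hγ : |γ| ≤ t.γ2) :
    0 < Real.cos γ :=
  Real.cos_pos_of_mem_Ioo ⟨by linarith [h.lt hm, (abs_le.mp hγ).1],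
    by linarith [h.lt hm, (abs_le.mp hγ).2]⟩

theorem exists_mirror {t : Ty} {m ζ ε : ℝ} (hm : 0 < m) (ht : t.Ok m) (hζ : 0 < ζ) (hε : 0 < ε)
    (A : Finset Seg) :
    ∃ F : Finset Seg, IsMirror t ζ ε F ∧ ∀ p ∈ F, ∀ a ∈ A, Disjoint p.set a.set := by
  classical
  have hπ := Real.pi_pos
  rcases le_or_gt t.l 0 with hl | hl
  · refine ⟨∅, ⟨by simp, by simp, fun α g1 g2 => ⟨∅, Finset.Subset.refl _, by simp, by simp, ?_⟩,
      0, measurable_const, by simp, by simp⟩, by simp⟩
    refine (measure_mono sdiff_subset).trans ?_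
    rw [Real.volume_closedBall]
    have := mul_nonpos_of_nonpos_of_nonneg hl (ht.cos_pos hm g2).le
    exact ENNReal.ofReal_le_ofReal (by linarith)
  have h2 := ht.lt hm
  set c2 := Real.cos t.γ2 with hc2
  have hc0 : 0 < c2 := ht.cos_pos hm (by rw [abs_of_pos (ht.1.trans_le ht.2.1)])
  have hc1 : c2 ≤ 1 := Real.cos_le_one _
  obtain ⟨Λ, hΛ, hsel⟩ := select0 ht.1 ht.2.1 h2 hl (show 0 < ε / 4 by positivity)
  obtain ⟨Y0, hY0, hY1, hnull⟩ := exists_offset A t.c t.ν
    (lt_min (half_pos hζ) (show 0 < ε / 8 by positivity))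
  have hY2 : Y0 ≤ ζ / 2 := hY1.le.trans (min_le_left _ _)
  have hY3 : Y0 ≤ ε / 8 := hY1.le.trans (min_le_right _ _)
  set c' := toC t.c t.ν (0, Y0) with hc'
  have htoC : ∀ X Y, toC c' t.ν (X, Y) = toC t.c t.ν (X, Y + Y0) := by
    intro X Y
    simp only [hc', toC]
    push_cast; ring
  have hAcl : IsClosed (⋃ a ∈ A, a.set) :=
    A.finite_toSet.isClosed_biUnion fun a _ => a.isClosed_set
  obtain ⟨r, hr, hthick⟩ := avoid_thick hAcl (g := fun X : ℝ => toC t.c t.ν (X, Y0))
    (by unfold toC; fun_prop) hnull t.l (show 0 < ε / 4 by positivity)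
  set s' := min m (ε / (16 * Λ)) with hs'
  have hs'0 : 0 < s' := lt_min hm (by positivity)
  have hs'1 : s' ≤ m := min_le_left _ _
  have hs'2 : 16 * Λ * s' ≤ ε := by
    have : s' ≤ ε / (16 * Λ) := min_le_right _ _
    rwa [le_div_iff₀' (by positivity)] at this
  have hmπ : m ≤ Real.pi / 2 := by linarith [ht.2.2.1, ht.2.2.2, ht.1, ht.2.1]
  set ζ' := min (ζ / 2) (r * c2 / 4) with hζ'
  have hζ'0 : 0 < ζ' := lt_min (half_pos hζ) (by positivity)
  have hζ'1 : ζ' ≤ ζ / 2 := min_le_left _ _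
  have hζ'2 : ζ' ≤ r * c2 / 4 := min_le_right _ _
  obtain ⟨F0, hb, hd, hown, hf1, hf2⟩ := hsel (Real.sin s') (ε / (2 * Real.pi)) ζ'
    (Real.sin_pos_of_pos_of_lt_pi hs'0 (by linarith)) (by positivity) hζ'0
  set F1 := F0.filter fun p => ∀ a ∈ A, Disjoint (toSeg c' t.ν p).set a.set with hF1
  have hF10 : F1 ⊆ F0 := Finset.filter_subset _ _
  have hfor : ∀ α, volume (⋃ p ∈ F1.image (toSeg c' t.ν), cr (dir α) '' p.set) ≤
      volume (⋃ p ∈ F0, Metric.closedBall (Lf (α - t.ν) p.1) p.2) := by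
    intro α
    rw [← measure_preimage_add_right volume (-cr (dir α) c')
      (⋃ p ∈ F0, Metric.closedBall (Lf (α - t.ν) p.1) p.2), Finset.set_biUnion_finset_image]
    refine measure_mono (iUnion₂_subset fun p hp => ?_)
    rintro _ ⟨z, hz, rfl⟩
    exact mem_iUnion₂.mpr ⟨p, hF10 hp, cr_mem_ball hz α⟩
  refine ⟨F1.image (toSeg c' t.ν), ⟨?_, ?_, ?_, ?_⟩, ?_⟩
  · intro p hp
    obtain ⟨p, hp', rfl⟩ := Finset.mem_image.mp hp
    obtain ⟨b1, b2, b3, b4⟩ := hb p (hF10 hp')
    refine ⟨rfl, b1, fun z hz => ?_⟩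
    obtain ⟨X, hX, rfl⟩ := mem_toSeg hz
    refine ⟨(X, p.1.2 + Y0), ?_, ?_, htoC _ _⟩
    · have := abs_add_le (X - p.1.1) p.1.1
      rw [sub_add_cancel] at this
      simp only
      linarith
    · have := abs_add_le p.1.2 Y0
      rw [abs_of_pos hY0] at this
      simp only
      linarith
  · intro p hp q hq hne
    obtain ⟨p, hp', rfl⟩ := Finset.mem_image.mp hp
    obtain ⟨q, hq', rfl⟩ := Finset.mem_image.mp hq
    refine disjoint_left.mpr fun z h1 h2 => ?_
    have hY : p.1.2 = q.1.2 := by linarith [Y_of_mem h1, Y_of_mem h2]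
    have h3 := hd p (hF10 hp') q (hF10 hq') (fun e => hne (e ▸ rfl)) hY
    have h4 := cr_mem_ball h1 t.ν
    have h5 := cr_mem_ball h2 t.ν
    simp only [sub_self, Lf, Real.cos_zero, Real.sin_zero, mul_one, mul_zero, add_zero,
      Metric.mem_closedBall, Real.dist_eq] at h4 h5
    have h6 := abs_sub (cr (dir t.ν) z - cr (dir t.ν) c' - q.1.1)
      (cr (dir t.ν) z - cr (dir t.ν) c' - p.1.1)
    rw [show cr (dir t.ν) z - cr (dir t.ν) c' - q.1.1 - (cr (dir t.ν) z - cr (dir t.ν) c' - p.1.1)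
      = p.1.1 - q.1.1 by ring] at h6
    linarith
  · intro α g1 g2
    obtain ⟨Cl, hCl, hdis, hcov⟩ := hown (α - t.ν) g1 g2
    have hcos := ht.cos_pos hm g2
    have hβ : 2 * t.ν - α - t.ν = -(α - t.ν) := by ring
    have hcos' : 0 < Real.cos (2 * t.ν - α - t.ν) := by rwa [hβ, Real.cos_neg]
    refine ⟨(Cl ∩ F1).image (toSeg c' t.ν), Finset.image_subset_image Finset.inter_subset_right,
      ?_, ?_, ?_⟩
    · intro p hp z hz q hq hne s hs
      obtain ⟨p, hp', rfl⟩ := Finset.mem_image.mp hp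
      obtain ⟨q, hq', rfl⟩ := Finset.mem_image.mp hq
      have hp1 := (Finset.mem_inter.mp hp').1
      have key : ∀ β, 0 < Real.cos (β - t.ν) → z + ((-s : ℝ) : ℂ) * dir β ∈ (toSeg c' t.ν q).set →
          p.1.2 ≤ q.1.2 ∧ ¬ Disjoint (pr (β - t.ν) p) (pr (β - t.ν) q) := by
        intro β hβ h
        have y1 := Y_of_mem hz
        have y2 := Y_of_mem h
        rw [dt_add, dt_smul, dt_dir] at y2
        refine ⟨by nlinarith, fun hd => disjoint_left.mp hd (cr_mem_pr hz hβ.le) ?_⟩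
        have := cr_mem_pr h hβ.le
        rwa [cr_add, cr_smul, cr_self, mul_zero, add_zero] at this
      constructor
      · intro h
        obtain ⟨k1, k2⟩ := key α hcos h
        exact k2 (hdis p hp1 q (hF10 hq') (fun e => hne (e ▸ rfl)) k1).1
      · intro h
        obtain ⟨k1, k2⟩ := key _ hcos' h
        rw [hβ] at k2
        exact k2 (hdis p hp1 q (hF10 hq') (fun e => hne (e ▸ rfl)) k1).2
    · intro p hp q hq hne
      obtain ⟨p, hp', rfl⟩ := Finset.mem_image.mp hp
      obtain ⟨q, hq', rfl⟩ := Finset.mem_image.mp hq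
      have hp1 := (Finset.mem_inter.mp hp').1
      have hq1 := (Finset.mem_inter.mp hq').1
      have hd : Disjoint (pr (-(α - t.ν)) p) (pr (-(α - t.ν)) q) := by
        rcases le_total p.1.2 q.1.2 with h | h
        · exact (hdis p hp1 q (hCl hq1) (fun e => hne (e ▸ rfl)) h).2
        · exact (hdis q hq1 p (hCl hp1) (fun e => hne (e ▸ rfl)) h).2.symm
      refine disjoint_left.mpr ?_
      rintro _ ⟨z, hz, rfl⟩ ⟨z', hz', he⟩
      have a1 := cr_mem_pr hz hcos'.le
      have a2 := cr_mem_pr hz' hcos'.le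
      rw [hβ] at a1 a2
      rw [he] at a2
      exact disjoint_left.mp hd a1 a2
    · set γ := α - t.ν with hγ
      set o := cr (dir α) c' with ho
      have hoc : |o - cr (dir α) t.c| ≤ Y0 := by
        rw [ho, hc', cr_toC, add_sub_cancel_left]
        simp only [Lf, zero_mul, zero_add, abs_mul, abs_of_pos hY0]
        exact mul_le_of_le_one_right hY0.le (Real.abs_sin_le_one _)
      have hsub : Metric.closedBall (cr (dir α) t.c) (t.l * Real.cos γ) \
          (⋃ p ∈ (Cl ∩ F1).image (toSeg c' t.ν), cr (dir α) '' p.oset) ⊆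
          (Metric.closedBall o (t.l * Real.cos γ + Y0) \ Metric.closedBall o (t.l * Real.cos γ)) ∪
          ((fun x => x + -o) ⁻¹' (Metric.closedBall 0 (t.l * Real.cos γ) \ ⋃ p ∈ Cl, opr γ p) ∪
          (fun x => x + -o) ⁻¹' ((fun x => (Real.cos γ)⁻¹ * x) ⁻¹'
            (Icc (-t.l) t.l ∩ (fun X : ℝ => toC t.c t.ν (X, Y0)) ⁻¹'
              Metric.cthickening r (⋃ a ∈ A, a.set)))) := by
        rintro s ⟨hs1, hs2⟩
        by_cases b1 : s ∈ Metric.closedBall o (t.l * Real.cos γ)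
        swap
        · refine Or.inl ⟨?_, b1⟩
          rw [Metric.mem_closedBall, Real.dist_eq] at hs1 ⊢
          have := abs_sub (s - cr (dir α) t.c) (o - cr (dir α) t.c)
          rw [sub_sub_sub_cancel_right] at this
          linarith
        right
        rw [Metric.mem_closedBall, Real.dist_eq] at b1
        by_cases b2 : s + -o ∈ ⋃ p ∈ Cl, opr γ p
        swap
        · exact Or.inl ⟨by simpa [sub_eq_add_neg] using b1, b2⟩
        right
        obtain ⟨p, hp, hsp⟩ := mem_iUnion₂.mp b2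
        have hpF : p ∉ F1 := fun h => hs2 (mem_iUnion₂.mpr ⟨_, Finset.mem_image_of_mem _
          (Finset.mem_inter.mpr ⟨hp, h⟩), mem_image_of_opr hcos hsp⟩)
        rw [hF1, Finset.mem_filter, not_and] at hpF
        have hpF' := hpF (hCl hp)
        simp only [not_forall, not_disjoint_iff] at hpF'
        obtain ⟨a, ha, z, hz, hza⟩ := hpF'
        obtain ⟨X, hX, rfl⟩ := mem_toSeg hz
        obtain ⟨d1, d2, -, d4⟩ := hb p (hCl hp)
        refine ⟨?_, Metric.mem_cthickening_of_dist_le _ _ _ _ (mem_iUnion₂.mpr ⟨a, ha, hza⟩) ?_⟩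
        · change (Real.cos γ)⁻¹ * (s + -o) ∈ Icc _ _
          rw [mem_Icc, ← abs_le, abs_mul, abs_of_pos (inv_pos.mpr hcos), inv_mul_le_iff₀ hcos,
            ← sub_eq_add_neg, mul_comm]
          exact b1
        · have e : toC t.c t.ν ((Real.cos γ)⁻¹ * (s + -o), Y0) - toC c' t.ν (X, p.1.2) =
              (((Real.cos γ)⁻¹ * (s + -o) - X : ℝ) : ℂ) * dir (t.ν + Real.pi / 2) +
                (p.1.2 : ℂ) * dir t.ν := by
            rw [htoC]
            simp only [toC]
            push_cast; ring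
          rw [dist_eq_norm, e]
          refine (norm_add_le _ _).trans ?_
          rw [norm_mul, norm_mul, norm_dir, norm_dir, mul_one, mul_one, Complex.norm_real,
            Complex.norm_real, Real.norm_eq_abs, Real.norm_eq_abs]
          rw [opr, Metric.mem_ball, Real.dist_eq] at hsp
          have hcg : c2 ≤ Real.cos γ := by
            rw [← Real.cos_abs γ]
            exact Real.cos_le_cos_of_nonneg_of_le_pi (abs_nonneg _) (by linarith) g2
          have e2 : (Real.cos γ)⁻¹ * (s + -o) - X = (Real.cos γ)⁻¹ *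
              ((s + -o - Lf γ p.1) - (X - p.1.1) * Real.cos γ + p.1.2 * Real.sin γ) := by
            simp only [Lf]; field_simp; ring
          have e3 : |(s + -o - Lf γ p.1) - (X - p.1.1) * Real.cos γ + p.1.2 * Real.sin γ| ≤
              3 * ζ' := by
            have f1 := abs_add_le ((s + -o - Lf γ p.1) - (X - p.1.1) * Real.cos γ)
              (p.1.2 * Real.sin γ)
            have f2 := abs_sub (s + -o - Lf γ p.1) ((X - p.1.1) * Real.cos γ)
            have f3 : |(X - p.1.1) * Real.cos γ| ≤ ζ' := by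
              rw [abs_mul]
              exact (mul_le_of_le_one_right (abs_nonneg _) (Real.abs_cos_le_one _)).trans
                (hX.trans d2)
            have f4 : |p.1.2 * Real.sin γ| ≤ ζ' := by
              rw [abs_mul]
              exact (mul_le_of_le_one_right (abs_nonneg _) (Real.abs_sin_le_one _)).trans d4
            have f5 := mul_le_of_le_one_right d1.le (Real.cos_le_one γ)
            linarith
          have e4 : |(Real.cos γ)⁻¹ * (s + -o) - X| ≤ 3 * r / 4 := by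
            rw [e2, abs_mul, abs_of_pos (inv_pos.mpr hcos), inv_mul_le_iff₀ hcos]
            nlinarith
          nlinarith
      refine (measure_mono hsub).trans ((measure_union_le _ _).trans ?_)
      refine (add_le_add (vol_ring o (mul_pos hl hcos).le hY0.le)
        ((measure_union_le _ _).trans (add_le_add (b := ENNReal.ofReal (ε / 4))
          (d := ENNReal.ofReal (ε / 4)) ?_ ?_))).trans ?_
      · rw [measure_preimage_add_right]
        exact hcov
      · rw [measure_preimage_add_right, Real.volume_preimage_mul_left (inv_pos.mpr hcos).ne',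
          inv_inv]
        refine le_trans (mul_le_of_le_one_left' ?_) hthick
        exact ENNReal.ofReal_le_one.mpr (Real.abs_cos_le_one _)
      · rw [← ENNReal.ofReal_add (by positivity) (by positivity),
          ← ENNReal.ofReal_add (by positivity) (by positivity)]
        exact ENNReal.ofReal_le_ofReal (by linarith)
  · set Zn := (Metric.closedBall (t.ν + t.γ1) s' ∪ Metric.closedBall (t.ν - t.γ1) s') ∪
      (Metric.closedBall (t.ν + t.γ2) s' ∪ Metric.closedBall (t.ν - t.γ2) s') with hZn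
    have hZm : MeasurableSet Zn := (measurableSet_closedBall.union measurableSet_closedBall).union
      (measurableSet_closedBall.union measurableSet_closedBall)
    have hZv : volume Zn ≤ ENNReal.ofReal (8 * s') := by
      refine (measure_union_le _ _).trans ((add_le_add (measure_union_le _ _)
        (measure_union_le _ _)).trans (le_of_eq ?_))
      simp only [Real.volume_closedBall]
      rw [← ENNReal.ofReal_add (by positivity) (by positivity),
        ← ENNReal.ofReal_add (by positivity) (by positivity)]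
      congr 1; ring
    refine ⟨fun α => (Ioo (-Real.pi) 0).indicator (fun _ => ENNReal.ofReal (ε / (2 * Real.pi))) α +
      Zn.indicator (fun _ => ENNReal.ofReal Λ) α,
      (measurable_const.indicator measurableSet_Ioo).add (measurable_const.indicator hZm), ?_, ?_⟩
    · rw [lintegral_add_left (measurable_const.indicator measurableSet_Ioo),
        lintegral_indicator_const measurableSet_Ioo, lintegral_indicator_const hZm,
        Real.volume_Ioo, ← ENNReal.ofReal_mul (by positivity)]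
      refine (add_le_add le_rfl (mul_le_mul_right hZv _)).trans ?_
      rw [← ENNReal.ofReal_mul hΛ.le, ← ENNReal.ofReal_add (by simp; positivity) (by positivity)]
      refine ENNReal.ofReal_le_ofReal ?_
      have : ε / (2 * Real.pi) * (0 - -Real.pi) = ε / 2 := by field_simp; ring
      rw [this]
      linarith
    · intro α hα hn
      refine (hfor α).trans ?_
      by_cases hz : α ∈ Zn
      · simp only [indicator_of_mem hz]
        exact (hf1 _).trans le_add_self
      · simp only [indicator_of_mem hα]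
        refine (hf2 _ ⟨by linarith [hα.1, ht.2.2.2, ht.1, ht.2.1],
          by linarith [hα.2, ht.2.2.1, ht.1, ht.2.1]⟩ fun γ' k1 k2 => ?_).trans le_self_add
        simp only [hZn, mem_union, Metric.mem_closedBall, Real.dist_eq, not_or, not_le] at hz
        obtain ⟨⟨z1, z2⟩, z3, z4⟩ := hz
        refine sin_le_abs_sin hs'0.le ?_ ?_
        · rw [not_and_or, not_lt, not_lt] at hn
          rcases hn with hn | hn
          · have : |α - t.ν| ≤ t.γ1 - s' := by
              rw [abs_le] at hn ⊢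
              rw [lt_abs] at z1 z2
              constructor
              · rcases z2 with h | h <;> linarith [hn.1, hn.2]
              · rcases z1 with h | h <;> linarith [hn.1, hn.2]
            have h3 := abs_sub_abs_le_abs_sub γ' (α - t.ν)
            rw [abs_sub_comm]
            linarith
          · have : t.γ2 + s' ≤ |α - t.ν| := by
              rw [le_abs] at hn ⊢
              rw [lt_abs] at z3 z4
              rcases hn with hn | hn
              · left; rcases z3 with h | h <;> linarith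
              · right; rcases z4 with h | h <;> linarith
            have h3 := abs_sub_abs_le_abs_sub (α - t.ν) γ'
            linarith
        · rw [abs_le] at k2 ⊢
          constructor <;> linarith [hα.1, hα.2, ht.2.2.1, ht.2.2.2, k2.1, k2.2]
  · intro p hp a ha
    obtain ⟨p, hp', rfl⟩ := Finset.mem_image.mp hp
    exact (Finset.mem_filter.mp hp').2 a ha

end Pool.Agent.Lib.MP_cc9ac0_pr
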