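import Pool.Agent.Lib.MP_cc9ac0_pr.Mirror
import Pool.Agent.Lib.MP_cc9ac0_pr.Lines
import Pool.Agent.Lib.MP_cc9ac0_pr.Wander

set_option autoImplicit false

namespace Pool.Agent.Lib.MP_cc9ac0_pr

open MeasureTheory Set Filter Topology

def Ty.own (t : Ty) (α : ℝ) : Prop := t.γ1 < |α - t.ν| ∧ |α - t.ν| < t.γ2

lemma Ty.meas_own (t : Ty) : MeasurableSet {α | t.own α} :=
  (measurableSet_lt (f := fun _ => t.γ1) (g := fun α : ℝ => |α - t.ν|) measurable_const
    (by fun_prop)).inter (measurableSet_lt (f := fun α : ℝ => |α - t.ν|) (g := fun _ => t.γ2)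
    (by fun_prop) measurable_const)

lemma Ty.own.refl {t : Ty} {α : ℝ} (h : t.own α) : t.own (2 * t.ν - α) := by
  unfold Ty.own at h ⊢
  rwa [show 2 * t.ν - α - t.ν = -(α - t.ν) by ring, abs_neg]

lemma Ty.own.range {t : Ty} {m α : ℝ} (ht : t.Ok m) (h : t.own α) :
    -Real.pi + m < α ∧ α < -m := by
  have := abs_lt.mp h.2
  constructor <;> linarith [ht.2.2.1, ht.2.2.2, this.1, this.2]

lemma Ty.own.mem {t : Ty} {m α : ℝ} (hm : 0 < m) (ht : t.Ok m) (h : t.own α) :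
    α ∈ Ioo (-Real.pi) 0 := ⟨by linarith [(h.range ht).1], by linarith [(h.range ht).2]⟩

lemma Ty.vol_own (t : Ty) (h1 : 0 ≤ t.γ1) (h2 : t.γ1 ≤ t.γ2) :
    ENNReal.ofReal (2 * (t.γ2 - t.γ1)) ≤ volume {α | t.own α} := by
  have hs : Ioo (t.ν + t.γ1) (t.ν + t.γ2) ∪ Ioo (t.ν - t.γ2) (t.ν - t.γ1) ⊆ {α | t.own α} := by
    rintro α (h | h)
    · have : |α - t.ν| = α - t.ν := abs_of_nonneg (by linarith [h.1])
      exact ⟨by rw [this]; linarith [h.1], by rw [this]; linarith [h.2]⟩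
    · have : |α - t.ν| = -(α - t.ν) := abs_of_nonpos (by linarith [h.2])
      exact ⟨by rw [this]; linarith [h.2], by rw [this]; linarith [h.1]⟩
  refine le_trans (le_of_eq ?_) (measure_mono hs)
  rw [measure_union _ measurableSet_Ioo, Real.volume_Ioo, Real.volume_Ioo,
    ← ENNReal.ofReal_add (by linarith) (by linarith)]
  · congr 1; ring
  · exact disjoint_left.mpr fun α h h' => by linarith [h.1, h'.2]

lemma neg_sin_pos {α : ℝ} (h : α ∈ Ioo (-Real.pi) 0) : 0 < -Real.sin α :=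
  neg_pos.mpr (Real.sin_neg_of_neg_of_neg_pi_lt h.2 h.1)

lemma cr_real (α x : ℝ) : cr (dir α) (x : ℂ) = -Real.sin α * x := by simp [cr, dir_im]

lemma cr_real_inv {α : ℝ} (h : α ∈ Ioo (-Real.pi) 0) (ρ : ℝ) :
    cr (dir α) (((-Real.sin α)⁻¹ * ρ : ℝ) : ℂ) = ρ := by
  rw [cr_real, mul_inv_cancel_left₀ (neg_sin_pos h).ne']

/-- The section of a set of rays, in the coordinate `ρ = -x sin α`. -/
def sec (A : Set (ℝ × ℝ)) (α : ℝ) : Set ℝ := {ρ | ((-Real.sin α)⁻¹ * ρ, α) ∈ A}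

lemma rayMeas_eq {A : Set (ℝ × ℝ)} (hA : MeasurableSet A) :
    rayMeas A = ∫⁻ α in Ioo (-Real.pi) 0, volume (sec A α) := by
  rw [rayMeas, Measure.prod_apply_symm hA, angMeas, lintegral_withDensity_eq_lintegral_mul _
    (by fun_prop) (measurable_measure_prodMk_right hA)]
  refine setLIntegral_congr_fun measurableSet_Ioo fun α hα => ?_
  have hs := neg_sin_pos hα
  have : sec A α = (fun x => (-Real.sin α)⁻¹ * x) ⁻¹' ((fun x : ℝ => (x, α)) ⁻¹' A) := rfl
  simp only [Pi.mul_apply]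
  rw [this, Real.volume_preimage_mul_left (inv_pos.mpr hs).ne', inv_inv, abs_of_pos hs]

lemma meas_block {Q : Set ℂ} (hQ : IsClosed Q) :
    MeasurableSet {x : ℂ × ℂ | ∃ s : ℝ, 0 < s ∧ x.1 + ((-s : ℝ) : ℂ) * x.2 ∈ Q} := by
  have : {x : ℂ × ℂ | ∃ s : ℝ, 0 < s ∧ x.1 + ((-s : ℝ) : ℂ) * x.2 ∈ Q} =
      ⋃ n : ℕ, Prod.fst '' {y : (ℂ × ℂ) × Icc (1 / (n + 1) : ℝ) (n + 1) |
        y.1.1 + ((-(y.2 : ℝ) : ℝ) : ℂ) * y.1.2 ∈ Q} := by
    ext x
    simp only [mem_ofPred_eq, mem_iUnion, mem_image]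
    constructor
    · rintro ⟨s, hs, h⟩
      obtain ⟨n, hn⟩ := exists_nat_one_div_lt hs
      obtain ⟨n', hn'⟩ := exists_nat_ge s
      refine ⟨max n n', (x, ⟨s, ?_, ?_⟩), h, rfl⟩
      · exact (Nat.one_div_le_one_div (le_max_left n n')).trans hn.le
      · have : (n' : ℝ) ≤ (max n n' : ℕ) := by exact_mod_cast le_max_right n n'
        linarith
    · rintro ⟨n, y, h, rfl⟩
      exact ⟨y.2, lt_of_lt_of_le (by positivity) y.2.2.1, h⟩
  rw [this]
  refine MeasurableSet.iUnion fun n => IsClosed.measurableSet ?_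
  exact isClosedMap_fst_of_compactSpace _ (hQ.preimage (by fun_prop))

/-- parameter of the point where the line of the ray `a` meets the line of the segment `p` -/
noncomputable def tz (p : Seg) (a : ℝ × ℝ) : ℝ :=
  (cr (dir a.2) a.1 - cr (dir a.2) p.c) / cr (dir a.2) p.u

noncomputable def zz (p : Seg) (a : ℝ × ℝ) : ℂ := p.c + tz p a * p.u

lemma measurable_dir : Measurable dir := continuous_dir.measurable

lemma measurable_cr {X : Type*} [MeasurableSpace X] {f g : X → ℂ} (hf : Measurable f)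
    (hg : Measurable g) : Measurable fun x => cr (f x) (g x) :=
  continuous_cr.measurable.comp (hf.prodMk hg)

lemma measurable_tz (p : Seg) : Measurable (tz p) :=
  ((measurable_cr (measurable_dir.comp measurable_snd)
    (Complex.measurable_ofReal.comp measurable_fst)).sub
    (measurable_cr (measurable_dir.comp measurable_snd) measurable_const)).div
    (measurable_cr (measurable_dir.comp measurable_snd) measurable_const)

lemma measurable_zz (p : Seg) : Measurable (zz p) :=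
  measurable_const.add ((Complex.measurable_ofReal.comp (measurable_tz p)).mul measurable_const)

lemma cr_zz (p : Seg) {a : ℝ × ℝ} (h : cr (dir a.2) p.u ≠ 0) :
    cr (dir a.2) (zz p a) = cr (dir a.2) a.1 := by
  rw [zz, cr_add, cr_smul, tz, div_mul_cancel₀ _ h]; ring

lemma tz_eq (p : Seg) {a : ℝ × ℝ} (h : cr (dir a.2) p.u ≠ 0) {t : ℝ}
    (e : cr (dir a.2) (p.c + t * p.u) = cr (dir a.2) a.1) : tz p a = t := by
  rw [tz, ← e, cr_add, cr_smul, add_sub_cancel_left, mul_div_assoc, div_self h, mul_one]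

lemma exists_families {ι : Type} (T : Finset ι) (ty : ι → Ty) {m ζ ε : ℝ} (hm : 0 < m)
    (hζ : 0 < ζ) (hε : 0 < ε) (hok : ∀ t ∈ T, (ty t).Ok m) :
    ∃ F : ι → Finset Seg, (∀ t ∈ T, IsMirror (ty t) ζ ε (F t)) ∧
      ∀ t ∈ T, ∀ t' ∈ T, t ≠ t' → ∀ p ∈ F t, ∀ q ∈ F t', Disjoint p.set q.set := by
  classical
  induction T using Finset.induction_on with
  | empty => exact ⟨fun _ => ∅, by simp, by simp⟩
  | insert i T hi ih =>
    obtain ⟨F, h1, h2⟩ := ih fun t ht => hok t (Finset.mem_insert_of_mem ht)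
    obtain ⟨F', h3, h4⟩ := exists_mirror hm (hok i (Finset.mem_insert_self _ _)) hζ hε
      (T.biUnion F)
    have hne : ∀ t ∈ T, t ≠ i := fun t ht e => hi (e ▸ ht)
    refine ⟨Function.update F i F', ?_, ?_⟩
    · intro t ht
      rcases Finset.mem_insert.mp ht with rfl | ht
      · rwa [Function.update_self]
      · rw [Function.update_of_ne (hne t ht)]
        exact h1 t ht
    · intro t ht t' ht' htt p hp q hq
      rcases Finset.mem_insert.mp ht with e | ht <;>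
        rcases Finset.mem_insert.mp ht' with e' | ht'
      · exact absurd (e.trans e'.symm) htt
      · rw [e, Function.update_self] at hp
        rw [Function.update_of_ne (hne t' ht')] at hq
        exact h4 p hp q (Finset.mem_biUnion.mpr ⟨t', ht', hq⟩)
      · rw [e', Function.update_self] at hq
        rw [Function.update_of_ne (hne t ht)] at hp
        exact (h4 q hq p (Finset.mem_biUnion.mpr ⟨t, ht, hp⟩)).symm
      · rw [Function.update_of_ne (hne t ht)] at hp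
        rw [Function.update_of_ne (hne t' ht')] at hq
        exact h2 t ht t' ht' htt p hp q hq

/-- rays of the window of `t` that see the piece `p` freely on the way in and on the way out -/
def Good (FF : Finset Seg) (t : Ty) (p : Seg) : Set (ℝ × ℝ) :=
  {a | t.own a.2 ∧ |tz p a| < p.h ∧ ∀ q ∈ FF, q ≠ p →
    ¬ (∃ s : ℝ, 0 < s ∧ zz p a + ((-s : ℝ) : ℂ) * dir a.2 ∈ q.set) ∧
    ¬ (∃ s : ℝ, 0 < s ∧ zz p a + ((-s : ℝ) : ℂ) * dir (2 * t.ν - a.2) ∈ q.set)}

lemma meas_Good (FF : Finset Seg) (t : Ty) (p : Seg) : MeasurableSet (Good FF t p) := by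
  have h1 : MeasurableSet {a : ℝ × ℝ | t.own a.2} := measurable_snd t.meas_own
  have h2 : MeasurableSet {a : ℝ × ℝ | |tz p a| < p.h} :=
    measurableSet_lt (continuous_abs.measurable.comp (measurable_tz p)) measurable_const
  have h3 : ∀ q : Seg, MeasurableSet {a : ℝ × ℝ |
      ∃ s : ℝ, 0 < s ∧ zz p a + ((-s : ℝ) : ℂ) * dir a.2 ∈ q.set} := fun q =>
    ((measurable_zz p).prodMk (measurable_dir.comp measurable_snd)) (meas_block q.isClosed_set)
  have h4 : ∀ q : Seg, MeasurableSet {a : ℝ × ℝ |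
      ∃ s : ℝ, 0 < s ∧ zz p a + ((-s : ℝ) : ℂ) * dir (2 * t.ν - a.2) ∈ q.set} := fun q =>
    ((measurable_zz p).prodMk (measurable_dir.comp (measurable_const.sub measurable_snd)))
      (meas_block q.isClosed_set)
  have : Good FF t p = {a : ℝ × ℝ | t.own a.2} ∩ ({a : ℝ × ℝ | |tz p a| < p.h} ∩
      ⋂ q ∈ {q | q ∈ FF ∧ q ≠ p}, ({a : ℝ × ℝ |
      ∃ s : ℝ, 0 < s ∧ zz p a + ((-s : ℝ) : ℂ) * dir a.2 ∈ q.set}ᶜ ∩ {a : ℝ × ℝ |
      ∃ s : ℝ, 0 < s ∧ zz p a + ((-s : ℝ) : ℂ) * dir (2 * t.ν - a.2) ∈ q.set}ᶜ)) := by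
    ext a
    simp only [Good, mem_ofPred_eq, mem_inter_iff, mem_iInter, mem_compl_iff, and_imp]
  rw [this]
  exact h1.inter (h2.inter (MeasurableSet.biInter
    (FF.finite_toSet.subset fun q hq => hq.1).countable fun q _ => (h3 q).compl.inter (h4 q).compl))

lemma meas_shadow (v : ℂ) (p : Seg) : MeasurableSet (cr v '' p.set) :=
  (p.isCompact_set.image (continuous_cr.comp (continuous_const.prodMk continuous_id))).measurableSet

lemma sec_bound {FF F : Finset Seg} {t : Ty} {m ζ ε : ℝ} (hm : 0 < m) (ht : t.Ok m)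
    (hF : IsMirror t ζ ε F) {α : ℝ} (hα : t.own α) (B1 B2 : Set ℝ)
    (h1 : ∀ q ∈ FF, q ∉ F → ∀ z ∈ t.slab ζ, ∀ z' ∈ q.set, cr (dir α) z = cr (dir α) z' →
      cr (dir α) z ∈ B1)
    (h2 : ∀ q ∈ FF, q ∉ F → ∀ z ∈ t.slab ζ, ∀ z' ∈ q.set,
      cr (dir (2 * t.ν - α)) z = cr (dir (2 * t.ν - α)) z' → cr (dir (2 * t.ν - α)) z ∈ B2) :
    ENNReal.ofReal (2 * (t.l * Real.cos t.γ2)) ≤
      volume (sec (⋃ p ∈ F, Good FF t p) α) + (ENNReal.ofReal ε + volume B1 + volume B2) := by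
  obtain ⟨f1, -, f3, -⟩ := hF
  obtain ⟨Cl, hCl, hfree, hdis, hcov⟩ := f3 α hα.1.le hα.2.le
  set β := 2 * t.ν - α with hβ
  have hcos := ht.cos_pos hm hα.2.le
  have hmem := hα.mem hm ht
  have hb : ENNReal.ofReal (2 * (t.l * Real.cos t.γ2)) ≤
      volume (Metric.closedBall (cr (dir α) t.c) (t.l * Real.cos (α - t.ν))) := by
    rw [Real.volume_closedBall]
    rcases le_total t.l 0 with hl | hl
    · have hc0 : 0 < Real.cos t.γ2 := ht.cos_pos hm (by rw [abs_of_pos (ht.1.trans_le ht.2.1)])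
      rw [ENNReal.ofReal_of_nonpos (by nlinarith)]
      exact bot_le
    · refine ENNReal.ofReal_le_ofReal ?_
      have hcg : Real.cos t.γ2 ≤ Real.cos (α - t.ν) := by
        rw [← Real.cos_abs (α - t.ν)]
        exact Real.cos_le_cos_of_nonneg_of_le_pi (abs_nonneg _)
          (by linarith [ht.lt hm, Real.pi_pos]) hα.2.le
      nlinarith
  have hsub : Metric.closedBall (cr (dir α) t.c) (t.l * Real.cos (α - t.ν)) ⊆
      sec (⋃ p ∈ F, Good FF t p) α ∪
      (((Metric.closedBall (cr (dir α) t.c) (t.l * Real.cos (α - t.ν)) \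
        ⋃ p ∈ Cl, cr (dir α) '' p.oset) ∪ B1) ∪
        ⋃ p ∈ Cl, (fun ρ => ρ + (cr (dir β) p.c - cr (dir α) p.c)) ⁻¹'
          (cr (dir β) '' p.set ∩ B2)) := by
    intro ρ hρ
    by_cases c1 : ρ ∈ ⋃ p ∈ Cl, cr (dir α) '' p.oset
    swap
    · exact Or.inr (Or.inl (Or.inl ⟨hρ, c1⟩))
    obtain ⟨p, hp, z, hz, rfl⟩ := mem_iUnion₂.mp c1
    by_cases c2 : cr (dir α) z ∈ B1
    · exact Or.inr (Or.inl (Or.inr c2))
    obtain ⟨pu, -, psl⟩ := f1 p (hCl hp)
    have hzs := p.oset_subset hz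
    obtain ⟨s, hs, hzeq⟩ := hz
    by_cases c3 : cr (dir β) z ∈ B2
    · refine Or.inr (Or.inr (mem_iUnion₂.mpr ⟨p, hp, ?_⟩))
      have : cr (dir α) z + (cr (dir β) p.c - cr (dir α) p.c) = cr (dir β) z := by
        rw [hzeq, cr_add, cr_add, cr_smul, cr_smul, pu, cr_dir_u, cr_dir_u, hβ,
          show 2 * t.ν - α - t.ν = -(α - t.ν) by ring, Real.cos_neg]
        ring
      rw [mem_preimage, this]
      exact ⟨⟨z, hzs, rfl⟩, c3⟩
    left
    refine mem_iUnion₂.mpr ⟨p, hCl hp, ?_⟩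
    have hne : cr (dir α) p.u ≠ 0 := by rw [pu, cr_dir_u]; exact hcos.ne'
    have htz : tz p ((-Real.sin α)⁻¹ * cr (dir α) z, α) = s := by
      refine tz_eq p hne ?_
      simp only
      rw [cr_real_inv hmem, hzeq]
    have hzz : zz p ((-Real.sin α)⁻¹ * cr (dir α) z, α) = z := by rw [zz, htz, ← hzeq]
    refine ⟨hα, by rwa [htz], fun q hq hqp => ?_⟩
    rw [hzz]
    by_cases hqF : q ∈ F
    · exact ⟨fun ⟨s, hs, h⟩ => (hfree p hp z hzs q hqF hqp s hs).1 h,
        fun ⟨s, hs, h⟩ => (hfree p hp z hzs q hqF hqp s hs).2 h⟩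
    · refine ⟨fun ⟨s, hs, h⟩ => c2 (h1 q hq hqF z (psl hzs) _ h ?_),
        fun ⟨s, hs, h⟩ => c3 (h2 q hq hqF z (psl hzs) _ h ?_)⟩
      · rw [cr_add, cr_smul, cr_self, mul_zero, add_zero]
      · rw [cr_add, cr_smul, cr_self, mul_zero, add_zero]
  refine hb.trans ((measure_mono hsub).trans ((measure_union_le _ _).trans (add_le_add le_rfl
    ((measure_union_le _ _).trans (add_le_add ((measure_union_le _ _).trans
      (add_le_add hcov le_rfl)) ?_)))))
  refine (measure_biUnion_finset_le _ _).trans ?_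
  have := sum_measure_le_measure_univ (μ := volume.restrict B2) (s := Cl)
    (t := fun p => cr (dir β) '' p.set) (fun p _ => (meas_shadow _ p).nullMeasurableSet)
    (fun p hp q hq hne => (hdis p hp q hq hne).aedisjoint)
  rw [Measure.restrict_apply_univ] at this
  refine le_trans (le_of_eq (Finset.sum_congr rfl fun p _ => ?_)) this
  rw [measure_preimage_add_right, Measure.restrict_apply (meas_shadow _ p)]

theorem multi {ι : Type} (T : Finset ι) (ty : ι → Ty) {m ζ ε : ℝ} (hm : 0 < m)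
    (hζ : 0 < ζ) (hε : 0 < ε) (hok : ∀ t ∈ T, (ty t).Ok m)
    (hsep : ∀ t ∈ T, ∀ t' ∈ T, t ≠ t' → ∀ α, (ty t).own α → (ty t').own α →
      ∀ z ∈ (ty t).slab ζ, ∀ z' ∈ (ty t').slab ζ, cr (dir α) z ≠ cr (dir α) z') :
    ∃ (F : Finset Seg) (G : Set (ℝ × ℝ)) (K : ℝ × ℝ → ℝ × ℝ),
      (∀ p ∈ F, ‖p.u‖ = 1 ∧ 0 < p.h ∧ ∃ t ∈ T, p.set ⊆ (ty t).slab ζ) ∧
      (∀ p ∈ F, ∀ q ∈ F, p ≠ q → Disjoint p.set q.set) ∧ MeasurableSet G ∧ Measurable K ∧
      (∀ a ∈ G, ∃ t ∈ T, (ty t).own a.2 ∧ (K a).2 = 2 * (ty t).ν - a.2 ∧ ∃ p ∈ F,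
        p.u = dir ((ty t).ν + Real.pi / 2) ∧ ∃ z ∈ p.oset, z ∈ (ty t).slab ζ ∧
        cr (dir a.2) z = cr (dir a.2) a.1 ∧ cr (dir (K a).2) z = cr (dir (K a).2) (K a).1 ∧
        ∀ q ∈ F, q ≠ p → ∀ s : ℝ, 0 < s → z + ((-s : ℝ) : ℂ) * dir a.2 ∉ q.set ∧
          z + ((-s : ℝ) : ℂ) * dir (K a).2 ∉ q.set) ∧
      ∑ t ∈ T, ENNReal.ofReal (4 * ((ty t).l * Real.cos (ty t).γ2) * ((ty t).γ2 - (ty t).γ1)) ≤
        rayMeas G + ENNReal.ofReal ε := by
  classical
  set n : ℝ := (T.card : ℝ) with hn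
  have hn0 : 0 ≤ n := Nat.cast_nonneg _
  set ε0 := ε / ((n + 1) * (4 + 2 * n)) with hε0
  have hε00 : 0 < ε0 := by positivity
  obtain ⟨F, hF, hdis⟩ := exists_families T ty hm hζ hε00 hok
  set FF := T.biUnion F with hFF
  choose! φ hφm hφi hφ using fun t ht => (hF t ht).2.2.2
  set Φ : ℝ → ENNReal := fun α => ∑ t ∈ T, φ t α with hΦ
  have hΦm : Measurable Φ := Finset.measurable_sum _ fun t ht => hφm t ht
  have hΦi : ∫⁻ α, Φ α ≤ ENNReal.ofReal (n * ε0) := by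
    rw [hΦ, lintegral_finsetSum _ fun t ht => hφm t ht]
    refine (Finset.sum_le_card_nsmul _ _ _ hφi).trans (le_of_eq ?_)
    rw [nsmul_eq_mul, ENNReal.ofReal_mul hn0, hn, ENNReal.ofReal_natCast]
  set Bad : ℝ → Set ℝ := fun α => ⋃ t ∈ T.filter (fun t => ¬ (ty t).own α),
    ⋃ p ∈ F t, cr (dir α) '' p.set with hBad
  have hBadv : ∀ α ∈ Ioo (-Real.pi) 0, volume (Bad α) ≤ Φ α := by
    intro α hα
    refine (measure_biUnion_finset_le _ _).trans ((Finset.sum_le_sum fun t ht => ?_).trans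
      (Finset.sum_le_sum_of_subset (Finset.filter_subset _ _)))
    exact hφ t (Finset.mem_filter.mp ht).1 α hα (Finset.mem_filter.mp ht).2
  have hBadm : ∀ t ∈ T, ∀ α, (ty t).own α → ∀ q ∈ FF, q ∉ F t → ∀ z ∈ (ty t).slab ζ,
      ∀ z' ∈ q.set, cr (dir α) z = cr (dir α) z' → cr (dir α) z ∈ Bad α := by
    intro t ht α hα q hq hqF z hz z' hz' e
    obtain ⟨t', ht', hq'⟩ := Finset.mem_biUnion.mp hq
    have hne : t ≠ t' := fun h => hqF (h ▸ hq')
    by_cases ho : (ty t').own α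
    · exact absurd e (hsep t ht t' ht' hne α hα ho z hz z' (((hF t' ht').1 q hq').2.2 hz'))
    · exact mem_iUnion₂.mpr ⟨t', Finset.mem_filter.mpr ⟨ht', ho⟩,
        mem_iUnion₂.mpr ⟨q, hq', z', hz', e.symm⟩⟩
  set Gt : ι → Set (ℝ × ℝ) := fun t => ⋃ p ∈ F t, Good FF (ty t) p with hGt
  have hGm : ∀ t, MeasurableSet (Gt t) := fun t =>
    Finset.measurableSet_biUnion _ fun p _ => meas_Good _ _ _
  have hne0 : ∀ t ∈ T, ∀ p ∈ F t, ∀ α, (ty t).own α → cr (dir α) p.u ≠ 0 := by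
    intro t ht p hp α hα
    rw [((hF t ht).1 p hp).1, cr_dir_u]
    exact ((hok t ht).cos_pos hm hα.2.le).ne'
  have hlow : ∀ t ∈ T,
      ENNReal.ofReal (4 * ((ty t).l * Real.cos (ty t).γ2) * ((ty t).γ2 - (ty t).γ1)) ≤
        rayMeas (Gt t) + ENNReal.ofReal ((4 + 2 * n) * ε0) := by
    intro t ht
    have ok := hok t ht
    have hW : {α | (ty t).own α} ⊆ Ioo (-Real.pi) 0 := fun α hα => Ty.own.mem hm ok hα
    have hγ : 0 ≤ (ty t).γ2 - (ty t).γ1 := sub_nonneg.mpr ok.2.1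
    calc ENNReal.ofReal (4 * ((ty t).l * Real.cos (ty t).γ2) * ((ty t).γ2 - (ty t).γ1))
        = ENNReal.ofReal (2 * ((ty t).l * Real.cos (ty t).γ2)) *
            ENNReal.ofReal (2 * ((ty t).γ2 - (ty t).γ1)) := by
          rw [← ENNReal.ofReal_mul' (by positivity)]
          congr 1; ring
      _ ≤ ∫⁻ _ in {α | (ty t).own α}, ENNReal.ofReal (2 * ((ty t).l * Real.cos (ty t).γ2)) := by
          rw [setLIntegral_const]
          exact mul_le_mul_right ((ty t).vol_own ok.1.le ok.2.1) _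
      _ ≤ ∫⁻ α in {α | (ty t).own α}, (volume (sec (Gt t) α) +
            (ENNReal.ofReal ε0 + Φ α + Φ (2 * (ty t).ν - α))) := by
          refine setLIntegral_mono' (ty t).meas_own fun α hα => ?_
          refine (sec_bound hm ok (hF t ht) hα (Bad α) (Bad (2 * (ty t).ν - α))
            (hBadm t ht α hα) (hBadm t ht _ (Ty.own.refl hα))).trans ?_
          exact add_le_add le_rfl (add_le_add (add_le_add le_rfl (hBadv α (hW hα)))
            (hBadv _ (hW (Ty.own.refl hα))))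
      _ ≤ ∫⁻ α in Ioo (-Real.pi) 0, (volume (sec (Gt t) α) +
            (ENNReal.ofReal ε0 + Φ α + Φ (2 * (ty t).ν - α))) := lintegral_mono_set hW
      _ ≤ rayMeas (Gt t) + ENNReal.ofReal ((4 + 2 * n) * ε0) := by
          have hm2 : Measurable fun α => Φ (2 * (ty t).ν - α) :=
            hΦm.comp (measurable_const.sub measurable_id)
          have hm3 : Measurable fun α => ENNReal.ofReal ε0 + Φ α + Φ (2 * (ty t).ν - α) :=
            (measurable_const.add hΦm).add hm2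
          rw [lintegral_add_right _ hm3, ← rayMeas_eq (hGm t),
            lintegral_add_right _ hm2, lintegral_add_right _ hΦm, setLIntegral_const,
            Real.volume_Ioo]
          refine add_le_add le_rfl ?_
          have e1 : ∫⁻ α in Ioo (-Real.pi) 0, Φ α ≤ ENNReal.ofReal (n * ε0) :=
            (setLIntegral_le_lintegral _ _).trans hΦi
          have e2 : ∫⁻ α in Ioo (-Real.pi) 0, Φ (2 * (ty t).ν - α) ≤ ENNReal.ofReal (n * ε0) := by
            refine (setLIntegral_le_lintegral _ _).trans ?_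
            rw [lintegral_sub_left_eq_self Φ]
            exact hΦi
          refine (add_le_add (add_le_add le_rfl e1) e2).trans ?_
          rw [← ENNReal.ofReal_mul hε00.le, ← ENNReal.ofReal_add (by simp; positivity)
            (by positivity), ← ENNReal.ofReal_add (by simp; positivity) (by positivity)]
          refine ENNReal.ofReal_le_ofReal ?_
          nlinarith [Real.pi_le_four]
  have hGd : ∀ t ∈ T, ∀ t' ∈ T, t ≠ t' → Disjoint (Gt t) (Gt t') := by
    intro t ht t' ht' hne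
    refine disjoint_left.mpr fun a ha ha' => ?_
    obtain ⟨p, hp, g1, g2, -⟩ := mem_iUnion₂.mp ha
    obtain ⟨p', hp', g1', g2', -⟩ := mem_iUnion₂.mp ha'
    refine hsep t ht t' ht' hne a.2 g1 g1' (zz p a) (((hF t ht).1 p hp).2.2 ⟨_, g2.le, rfl⟩)
      (zz p' a) (((hF t' ht').1 p' hp').2.2 ⟨_, g2'.le, rfl⟩) ?_
    rw [cr_zz p (hne0 t ht p hp _ g1), cr_zz p' (hne0 t' ht' p' hp' _ g1')]
  obtain ⟨K, hKm, hK, -⟩ := exists_measurable_glue (ι := ↥(T.sigma F))
    (fun i => Good FF (ty i.1.1) i.1.2) (fun i => meas_Good _ _ _)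
    (fun i a => ((-Real.sin (2 * (ty i.1.1).ν - a.2))⁻¹ *
      cr (dir (2 * (ty i.1.1).ν - a.2)) (zz i.1.2 a), 2 * (ty i.1.1).ν - a.2))
    (fun i => (((Real.measurable_sin.comp (measurable_const.sub measurable_snd)).neg.inv.mul
      (measurable_cr (measurable_dir.comp (measurable_const.sub measurable_snd))
        (measurable_zz _))).prodMk (measurable_const.sub measurable_snd))) id measurable_id
  refine ⟨FF, ⋃ t ∈ T, Gt t, K, ?_, ?_, Finset.measurableSet_biUnion _ fun t _ => hGm t, hKm,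
    ?_, ?_⟩
  · intro p hp
    obtain ⟨t, ht, hp'⟩ := Finset.mem_biUnion.mp hp
    obtain ⟨a1, a2, a3⟩ := (hF t ht).1 p hp'
    exact ⟨by rw [a1, norm_dir], a2, t, ht, a3⟩
  · intro p hp q hq hne
    obtain ⟨t, ht, hp'⟩ := Finset.mem_biUnion.mp hp
    obtain ⟨t', ht', hq'⟩ := Finset.mem_biUnion.mp hq
    by_cases e : t = t'
    · subst e
      exact (hF t ht).2.1 p hp' q hq' hne
    · exact hdis t ht t' ht' e p hp' q hq'
  · intro a ha
    obtain ⟨t0, ht0, ha0⟩ := mem_iUnion₂.mp ha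
    obtain ⟨p0, hp0, ha1⟩ := mem_iUnion₂.mp ha0
    obtain ⟨⟨⟨t, p⟩, hi⟩, ⟨g1, g2, g3⟩, e⟩ := hK a ⟨⟨⟨t0, p0⟩, Finset.mem_sigma.mpr ⟨ht0, hp0⟩⟩, ha1⟩
    obtain ⟨ht, hp⟩ := Finset.mem_sigma.mp hi
    simp only at ht hp g1 g2 g3 e
    obtain ⟨a1, a2, a3⟩ := (hF t ht).1 p hp
    rw [e]
    refine ⟨t, ht, g1, rfl, p, Finset.mem_biUnion.mpr ⟨t, ht, hp⟩, a1, zz p a, ⟨_, g2, rfl⟩,
      a3 ⟨_, g2.le, rfl⟩, cr_zz p (hne0 t ht p hp _ g1), ?_, fun q hq hqp s hs =>
        ⟨fun h => (g3 q hq hqp).1 ⟨s, hs, h⟩, fun h => (g3 q hq hqp).2 ⟨s, hs, h⟩⟩⟩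
    simp only
    rw [cr_real_inv (Ty.own.mem hm (hok t ht) g1.refl)]
  · refine (Finset.sum_le_sum hlow).trans ?_
    rw [Finset.sum_add_distrib, measure_biUnion_finset hGd fun t _ => hGm t, Finset.sum_const,
      nsmul_eq_mul, ← ENNReal.ofReal_natCast, ← ENNReal.ofReal_mul hn0]
    refine add_le_add le_rfl (ENNReal.ofReal_le_ofReal ?_)
    have : (n + 1) * ((4 + 2 * n) * ε0) = ε := by rw [hε0]; field_simp
    nlinarith [mul_pos (show 0 < 4 + 2 * n by positivity) hε00]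

end Pool.Agent.Lib.MP_cc9ac0_pr
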