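import Pool.Agent.Lib.MP_cc9ac0_pr.Cover

set_option autoImplicit false

namespace Pool.Agent.Lib.MP_cc9ac0_pr

open MeasureTheory Set Filter Topology

/-- The selective mirror in normalised coordinates. -/
theorem select0 {γ1 γ2 l ε : ℝ} (h1 : 0 < γ1) (h12 : γ1 ≤ γ2) (h2 : γ2 < Real.pi / 2)
    (hl : 0 < l) (hε : 0 < ε) : ∃ Λ : ℝ, 0 < Λ ∧ ∀ s η ζ : ℝ, 0 < s → 0 < η → 0 < ζ →
    ∃ F : Finset Pc,
      (∀ p ∈ F, 0 < p.2 ∧ p.2 ≤ ζ ∧ |p.1.1| + p.2 ≤ l ∧ |p.1.2| ≤ ζ) ∧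
      (∀ p ∈ F, ∀ q ∈ F, p ≠ q → p.1.2 = q.1.2 → p.2 + q.2 < |p.1.1 - q.1.1|) ∧
      (∀ γ, γ1 ≤ |γ| → |γ| ≤ γ2 → ∃ Cl : Finset Pc, Cl ⊆ F ∧
        (∀ p ∈ Cl, ∀ q ∈ F, q ≠ p → p.1.2 ≤ q.1.2 →
          Disjoint (pr γ p) (pr γ q) ∧ Disjoint (pr (-γ) p) (pr (-γ) q)) ∧
        volume (Metric.closedBall 0 (l * Real.cos γ) \ ⋃ p ∈ Cl, opr γ p) ≤ ENNReal.ofReal ε) ∧
      (∀ γ, volume (⋃ p ∈ F, Metric.closedBall (Lf γ p.1) p.2) ≤ ENNReal.ofReal Λ) ∧
      (∀ γ ∈ Icc (-Real.pi) Real.pi, (∀ γ', γ1 ≤ |γ'| → |γ'| ≤ γ2 → s ≤ |Real.sin (γ - γ')|) →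
        volume (⋃ p ∈ F, Metric.closedBall (Lf γ p.1) p.2) ≤ ENNReal.ofReal η) := by
  classical
  set c := Real.cos γ2 with hc
  set σ := Real.sin γ1 with hσ
  have hc0 : 0 < c := Real.cos_pos_of_mem_Ioo ⟨by linarith [Real.pi_pos], h2⟩
  have hσ0 : 0 < σ := Real.sin_pos_of_pos_of_lt_pi h1 (by linarith [Real.pi_pos])
  set Q := 2 / (c * σ) * (3 * (l + 1) / (c * ε) + 1) + 1 with hQ
  have hQ0 : 0 < Q := by positivity
  refine ⟨l * Q * 2, by positivity, fun s η ζ hs hη hζ => ?_⟩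
  obtain ⟨B, hB, hsymm, hsep, hkill⟩ := gadget_symm h12 h1.le h2 hs
    (show 0 < η / (l * Q) by positivity)
  have hB0 : (0 : ℝ) < B.card := by exact_mod_cast hB.card_pos
  obtain ⟨Δ, hΔ⟩ := (B.image fun c => |c.1| + 1 + |c.2|).bddAbove
  have hΔ' : ∀ c ∈ B, |c.1| + 1 + |c.2| ≤ Δ := fun c hc =>
    hΔ (Finset.mem_coe.mpr (Finset.mem_image_of_mem _ hc))
  have hΔ0 : 0 ≤ Δ := by
    obtain ⟨c, hc⟩ := hB
    exact le_trans (by positivity) (hΔ' c hc)
  set Z := max ((4 * Δ + 3) / σ) B.card with hZ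
  have hZ1 : 4 * Δ + 3 ≤ Z * σ := by
    have := le_max_left ((4 * Δ + 3) / σ) B.card
    rwa [← hZ, div_le_iff₀ hσ0] at this
  have hZ2 : (B.card : ℝ) ≤ Z := le_max_right _ _
  have hZ0 : 0 < Z := hB0.trans_le hZ2
  set m := ⌈3 * Z * (l + 1) / (c * B.card * ε)⌉₊ with hm
  have hm1 : 3 * Z * (l + 1) / (c * B.card * ε) ≤ m := Nat.le_ceil _
  have hm2 : (m : ℝ) < 3 * Z * (l + 1) / (c * B.card * ε) + 1 := Nat.ceil_lt_add_one (by positivity)
  have hm0 : (0 : ℝ) < m := lt_of_lt_of_le (by positivity) hm1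
  set R := ⌈2 * m / (c * σ)⌉₊ with hR
  have hR1 : 2 * m / (c * σ) ≤ R := Nat.le_ceil _
  have hR2 : (R : ℝ) < 2 * m / (c * σ) + 1 := Nat.ceil_lt_add_one (by positivity)
  have hR0 : (0 : ℝ) < R := lt_of_lt_of_le (by positivity) hR1
  have hR3 : (1 : ℝ) ≤ R := by exact_mod_cast (Nat.cast_pos.mp hR0)
  have hRQ : R * B.card ≤ Q * Z := by
    have a1 : (m : ℝ) * B.card ≤ (3 * (l + 1) / (c * ε) + 1) * Z := by
      have : 3 * Z * (l + 1) / (c * B.card * ε) * B.card = 3 * (l + 1) / (c * ε) * Z := by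
        field_simp
      nlinarith
    have a2 : (R : ℝ) * B.card ≤ 2 / (c * σ) * (m * B.card) + B.card := by
      have : 2 * m / (c * σ) * B.card = 2 / (c * σ) * (m * B.card) := by ring
      nlinarith
    have a3 : 2 / (c * σ) * (m * B.card) ≤ 2 / (c * σ) * ((3 * (l + 1) / (c * ε) + 1) * Z) := by
      gcongr
    rw [hQ]; linarith
  set ρ := min (min l (min ζ 1 / R)) (ε / (6 * (2 * R + 3))) with hρ
  have hρ0 : 0 < ρ := lt_min (lt_min hl (div_pos (lt_min hζ one_pos) hR0)) (by positivity)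
  have hρ1 : ρ ≤ l := (min_le_left _ _).trans (min_le_left _ _)
  have hρ2 : R * ρ ≤ min ζ 1 := by
    have : ρ ≤ min ζ 1 / R := (min_le_left _ _).trans (min_le_right _ _)
    rwa [le_div_iff₀' hR0] at this
  have hρ3 : 6 * (2 * R + 3) * ρ ≤ ε := by
    have : ρ ≤ ε / (6 * (2 * R + 3)) := min_le_right _ _
    rwa [le_div_iff₀' (by positivity)] at this
  obtain ⟨K, hK1, hK2⟩ : ∃ K : ℕ, K * ρ + ρ ≤ l ∧ l ≤ (K + 2) * ρ := by
    have a0 : 1 ≤ l / ρ := by rw [le_div_iff₀ hρ0]; linarith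
    have a1 := Nat.floor_le (zero_le_one.trans a0)
    have a2 := Nat.lt_floor_add_one (l / ρ)
    have a3 : 1 ≤ ⌊l / ρ⌋₊ := Nat.le_floor (by simpa using a0)
    rw [le_div_iff₀ hρ0] at a1
    rw [div_lt_iff₀ hρ0] at a2
    refine ⟨⌊l / ρ⌋₊ - 1, ?_, ?_⟩ <;> rw [Nat.cast_sub a3] <;> push_cast <;> linarith
  obtain ⟨A, hA⟩ := exists_nat_gt (3 * (R * (4 * (2 * K + 1) * B.card * (ρ * c / 2))) / ε)
  have hA0 : (0 : ℝ) < A := lt_of_le_of_lt (by positivity) hA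
  let P : Par := ⟨γ1, γ2, B, Δ, Z, ρ, R, K, A, h1, h12, h2, hsymm, hsep,
    fun b hb => ⟨by linarith [hΔ' b hb, abs_nonneg b.2], by linarith [hΔ' b hb, abs_nonneg b.1]⟩,
    hΔ0, hZ1, hρ0, by exact_mod_cast hR3⟩
  have hT : P.T = ρ * c / 2 := rfl
  have hTρ : P.T ≤ ρ / 2 := P.T_le
  have hT0 := P.T_pos
  have hRT : R * P.T ≤ min ζ 1 := le_trans (by gcongr; linarith) hρ2
  have hfor : ∀ γ w, 0 ≤ w → volume (shade γ B) ≤ ENNReal.ofReal (w * B.card) →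
      volume (⋃ p ∈ P.I.image P.pc, Metric.closedBall (Lf γ p.1) p.2) ≤
        ENNReal.ofReal (l * Q * w) := by
    intro γ w hw h
    rw [Finset.set_biUnion_finset_image]
    refine (P.foreign γ (by positivity) h).trans (ENNReal.ofReal_le_ofReal ?_)
    change R * (2 * K + 1) * (P.T / Z) * (w * B.card) ≤ _
    have a1 : (2 * K + 1) * P.T ≤ l := by nlinarith
    calc R * (2 * K + 1) * (P.T / Z) * (w * B.card)
        = ((2 * K + 1) * P.T) * (R * B.card) * w / Z := by ring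
      _ ≤ l * (Q * Z) * w / Z := by gcongr
      _ = _ := by field_simp
  refine ⟨P.I.image P.pc, ?_, ?_, ?_, ?_, ?_⟩
  · intro p hp
    obtain ⟨i, hi, rfl⟩ := Finset.mem_image.mp hp
    obtain ⟨he, hb⟩ := P.mem_I.mp hi
    have a1 := P.δ_pos i.1.1
    have a2 := P.X_near hb
    have a3 := P.δΔ_le_ρ i.1.1
    have a4 := P.Y_abs hi
    have a5 := P.δΔ_le i.1.1
    have a6 := P.δZ_le i.1.1
    have a7 := mul_nonneg a1.le P.hΔ
    have a8 : P.T ≤ R * P.T := le_mul_of_one_le_left hT0.le hR3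
    have a9 := min_le_left ζ 1
    refine ⟨a1, ?_, ?_, ?_⟩
    · change P.δ i.1.1 ≤ ζ
      linarith
    · have b1 : |(i.1.2.1 : ℝ)| ≤ K := by exact_mod_cast (P.mem_E.mp he).2.1
      have b2 : |(i.1.2.1 : ℝ) * ρ| ≤ K * ρ := by rw [abs_mul, abs_of_pos hρ0]; gcongr
      have b3 := abs_add_le ((P.pc i).1.1 - i.1.2.1 * ρ) (i.1.2.1 * ρ)
      rw [sub_add_cancel] at b3
      change |(P.pc i).1.1 - i.1.2.1 * ρ| + (P.pc i).2 ≤ _ at a2
      change _ ≤ ρ / 8 at a3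
      linarith
    · change -(R * P.T) ≤ _ ∧ _ at a4
      exact abs_le.mpr ⟨by linarith [a4.1], by linarith [a4.2]⟩
  · intro p hp q hq hne hY
    obtain ⟨i, hi, rfl⟩ := Finset.mem_image.mp hp
    obtain ⟨i', hi', rfl⟩ := Finset.mem_image.mp hq
    have hr : i'.1.1 = i.1.1 := le_antisymm (P.layer_le hi hi' hY.le) (P.layer_le hi' hi hY.ge)
    have a1 := P.sep_layer (γ := γ1) (le_abs_self _) (by rw [abs_of_pos h1]; exact h12) hi hi' hr
      fun e => hne (e ▸ rfl)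
    have e : Lf γ1 (P.pc i).1 - Lf γ1 (P.pc i').1 =
        ((P.pc i).1.1 - (P.pc i').1.1) * Real.cos γ1 := by
      simp only [Lf, hY]; ring
    rw [e, abs_mul] at a1
    have a2 := mul_le_of_le_one_right (abs_nonneg ((P.pc i).1.1 - (P.pc i').1.1))
      (Real.abs_cos_le_one γ1)
    have a3 := P.δ_pos i.1.1
    change P.δ i.1.1 + P.δ i'.1.1 < _
    rw [hr]
    linarith
  · intro γ g1 g2
    refine ⟨(P.I.filter fun i => P.Clean γ i.1).image P.pc,
      Finset.image_subset_image (Finset.filter_subset _ _), ?_, ?_⟩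
    · intro p hp q hq hne hY
      obtain ⟨i, hi, rfl⟩ := Finset.mem_image.mp hp
      obtain ⟨i', hi', rfl⟩ := Finset.mem_image.mp hq
      obtain ⟨hi, hcl⟩ := Finset.mem_filter.mp hi
      exact P.clean_disj g1 g2 hi hi' hcl (P.layer_le hi hi' hY) fun e => hne (e ▸ rfl)
    · rw [Finset.set_biUnion_finset_image]
      refine (P.cover g1 g2 (m := m) (Nat.cast_pos.mp hm0) ?_ (Nat.cast_pos.mp hA0) hB hK2).trans
        (ENNReal.ofReal_le_ofReal ?_)
      · change m * ρ ≤ R * P.T * σ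
        rw [div_le_iff₀ (by positivity)] at hR1
        rw [hT]
        nlinarith
      · change 2 * ((2 * R + 3) * ρ) + Z * (K * ρ + ρ + R * P.T) / (c * B.card * m) +
          R * (4 * (2 * K + 1) * B.card * P.T / A) ≤ ε
        have a1 : Z * (K * ρ + ρ + R * P.T) / (c * B.card * m) ≤ ε / 3 := by
          rw [div_le_iff₀ (by positivity)] at hm1 ⊢
          have : Z * (K * ρ + ρ + R * P.T) ≤ Z * (l + 1) := by
            have := min_le_right ζ 1
            gcongr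
            linarith
          linarith
        have a2 : R * (4 * (2 * K + 1) * B.card * P.T / A) ≤ ε / 3 := by
          rw [div_lt_iff₀ hε] at hA
          rw [← mul_div_assoc, div_le_iff₀ hA0, hT]
          linarith
        linarith
  · intro γ
    refine hfor γ 2 zero_le_two ((measure_biUnion_finset_le _ _).trans (le_of_eq ?_))
    simp only [Real.volume_closedBall, Finset.sum_const, nsmul_eq_mul, mul_one]
    rw [ENNReal.ofReal_mul zero_le_two, ENNReal.ofReal_natCast, mul_comm]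
  · intro γ hγ hγs
    refine (hfor γ _ (by positivity) (hkill γ hγ hγs)).trans (le_of_eq ?_)
    congr 1
    field_simp

end Pool.Agent.Lib.MP_cc9ac0_pr
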