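import Pool.Agent.Lib.MP_cc9ac0_pr.Multi

set_option autoImplicit false

namespace Pool.Agent.Lib.MP_cc9ac0_pr

open MeasureTheory Set Filter Topology

/-- the open box above the floor of a strip -/
def boxU (k d : ℝ) : Set ℂ := {z | k < z.re ∧ z.re < k + 1 ∧ -d < z.im ∧ z.im < 0}

/-- the ray `a` meets exactly one piece of `F`, inside `U`, and comes out as `b` -/
def OneHit (F : Finset Seg) (U : Set ℂ) (a b : ℝ × ℝ) : Prop :=
  b ∈ rayD ∧ ∃ p ∈ F, ∃ t1 t2 : ℝ, 0 < t1 ∧ 0 < t2 ∧ (a.1 : ℂ) + t1 * dir a.2 ∈ p.oset ∧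
    p.u ^ 2 * (starRingEnd ℂ) (dir a.2) = dir (b.2 + Real.pi) ∧
    (b.1 : ℂ) = a.1 + t1 * dir a.2 + t2 * dir (b.2 + Real.pi) ∧
    (∀ s : ℝ, 0 < s → s < t1 → (a.1 : ℂ) + s * dir a.2 ∈ U ∧
      ∀ q ∈ F, (a.1 : ℂ) + s * dir a.2 ∉ q.set) ∧
    (∀ s : ℝ, 0 < s → s < t2 → (a.1 : ℂ) + t1 * dir a.2 + s * dir (b.2 + Real.pi) ∈ U ∧
      ∀ q ∈ F, (a.1 : ℂ) + t1 * dir a.2 + s * dir (b.2 + Real.pi) ∉ q.set)

lemma sin_margin {m α : ℝ} (hm : 0 < m) (h1 : -Real.pi + m ≤ α) (h2 : α ≤ -m) :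
    Real.sin m ≤ -Real.sin α := by
  have hα : |α| = -α := abs_of_neg (by linarith)
  have := sin_le_abs_sin hm.le (x := α) (by rw [hα]; linarith) (by rw [hα]; linarith)
  rwa [abs_of_neg (neg_pos.mp (neg_sin_pos ⟨by linarith, by linarith⟩))] at this

lemma halfpath {k d σ α x : ℝ} {z : ℂ} (hσ : 0 < σ) (hs : σ ≤ -Real.sin α)
    (hc : cr (dir α) z = cr (dir α) x) (h1 : -d < z.im) (h2 : z.im < 0)
    (h3 : k + d / σ ≤ z.re) (h4 : z.re ≤ k + 1 - d / σ) :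
    ∃ t : ℝ, 0 < t ∧ z = x + t * dir α ∧ k < x ∧ x < k + 1 ∧
      ∀ r : ℝ, 0 < r → r < t → z + ((-r : ℝ) : ℂ) * dir α ∈ boxU k d := by
  obtain ⟨t, ht⟩ : ∃ t : ℝ, z = x + t * dir α := ⟨_, eq_add_of_cr (norm_dir α) hc.symm⟩
  have him : z.im = t * Real.sin α := by rw [ht]; simp [dir_im]
  have hre : z.re = x + t * Real.cos α := by rw [ht]; simp [dir_re]
  have ht0 : 0 < t := by
    by_contra h
    have : 0 ≤ t * Real.sin α := mul_nonneg_of_nonpos_of_nonpos (not_lt.mp h) (by linarith)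
    linarith
  have htd : t < d / σ := by
    rw [lt_div_iff₀ hσ]
    nlinarith
  have c1 := Real.cos_le_one α
  have c2 := Real.neg_one_le_cos α
  refine ⟨t, ht0, ht, by nlinarith, by nlinarith, fun r hr hrt => ?_⟩
  have e1 : (z + ((-r : ℝ) : ℂ) * dir α).re = z.re - r * Real.cos α := by
    simp [dir_re, sub_eq_add_neg]
  have e2 : (z + ((-r : ℝ) : ℂ) * dir α).im = z.im - r * Real.sin α := by
    simp [dir_im, sub_eq_add_neg]
  refine ⟨?_, ?_, ?_, ?_⟩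
  · rw [e1]; nlinarith
  · rw [e1]; nlinarith
  · rw [e2]; nlinarith
  · rw [e2, him]; nlinarith

lemma conj_dir (α : ℝ) : (starRingEnd ℂ) (dir α) = dir (-α) := by
  apply Complex.ext <;> simp [dir_re, dir_im]

lemma not_mem_self {p : Seg} {z v : ℂ} (hz : z ∈ p.set) (hv : cr v p.u ≠ 0) {r : ℝ} (hr : 0 < r) :
    z + ((-r : ℝ) : ℂ) * v ∉ p.set := by
  rintro ⟨t', -, h'⟩
  obtain ⟨t, -, h⟩ := hz
  have e := congrArg (cr p.u) h'
  rw [h, cr_add, cr_add, cr_add, cr_smul, cr_smul, cr_smul, cr_self, cr_comm p.u v] at e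
  have : r * cr v p.u = 0 := by linarith
  exact hv ((mul_eq_zero.mp this).resolve_left hr.ne')

lemma oneHit_of {F : Finset Seg} {t : Ty} {m k d : ℝ} (hm : 0 < m) (ht : t.Ok m) {a b : ℝ × ℝ}
    (ha : t.own a.2) (hb : b.2 = 2 * t.ν - a.2) {p : Seg} (hp : p ∈ F)
    (hu : p.u = dir (t.ν + Real.pi / 2)) {z : ℂ} (hz : z ∈ p.oset)
    (c1 : cr (dir a.2) z = cr (dir a.2) a.1) (c2 : cr (dir b.2) z = cr (dir b.2) b.1)
    (hfree : ∀ q ∈ F, q ≠ p → ∀ s : ℝ, 0 < s → z + ((-s : ℝ) : ℂ) * dir a.2 ∉ q.set ∧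
      z + ((-s : ℝ) : ℂ) * dir b.2 ∉ q.set)
    (h1 : -d < z.im) (h2 : z.im < 0) (h3 : k + d / Real.sin m ≤ z.re)
    (h4 : z.re ≤ k + 1 - d / Real.sin m) :
    OneHit F (boxU k d) a b ∧ k < a.1 ∧ a.1 < k + 1 := by
  have hb' : t.own b.2 := hb ▸ ha.refl
  have hσ : 0 < Real.sin m := Real.sin_pos_of_pos_of_lt_pi hm
    (by linarith [(ha.range ht).1, (ha.range ht).2])
  obtain ⟨t1, p1, e1, x1, x2, u1⟩ := halfpath hσ
    (sin_margin hm (ha.range ht).1.le (ha.range ht).2.le) c1 h1 h2 h3 h4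
  obtain ⟨t2, p2, e2, -, -, u2⟩ := halfpath hσ
    (sin_margin hm (hb'.range ht).1.le (hb'.range ht).2.le) c2 h1 h2 h3 h4
  have hne : ∀ α, t.own α → cr (dir α) p.u ≠ 0 := fun α hα => by
    rw [hu, cr_dir_u]; exact (ht.cos_pos hm hα.2.le).ne'
  refine ⟨⟨⟨trivial, hb'.mem hm ht⟩, p, hp, t1, t2, p1, p2, e1 ▸ hz, ?_, ?_, ?_, ?_⟩, x1, x2⟩
  · rw [hu, pow_two, conj_dir, ← dir_add, ← dir_add, hb]
    congr 1; ring
  · rw [← e1, dir_add_pi, e2]; ring
  · intro s hs hst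
    have : (a.1 : ℂ) + s * dir a.2 = z + ((-(t1 - s) : ℝ) : ℂ) * dir a.2 := by
      rw [e1]; push_cast; ring
    rw [this]
    refine ⟨u1 _ (by linarith) (by linarith), fun q hq => ?_⟩
    by_cases e : q = p
    · rw [e]; exact not_mem_self (p.oset_subset hz) (hne _ ha) (by linarith)
    · exact (hfree q hq e _ (by linarith)).1
  · intro s hs hst
    have : (a.1 : ℂ) + t1 * dir a.2 + s * dir (b.2 + Real.pi) = z + ((-s : ℝ) : ℂ) * dir b.2 := by
      rw [← e1, dir_add_pi]; push_cast; ring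
    rw [this]
    refine ⟨u2 _ hs hst, fun q hq => ?_⟩
    by_cases e : q = p
    · rw [e]; exact not_mem_self (p.oset_subset hz) (hne _ hb') hs
    · exact (hfree q hq e _ hs).2

lemma Lf_lip (γ γ' : ℝ) (p : ℝ × ℝ) : |Lf γ p - Lf γ' p| ≤ (|p.1| + |p.2|) * |γ - γ'| := by
  have : Lf γ p - Lf γ' p = p.1 * (Real.cos γ - Real.cos γ') + p.2 * (Real.sin γ - Real.sin γ') := by
    simp only [Lf]; ring
  rw [this, add_mul]
  refine (abs_add_le _ _).trans (add_le_add ?_ ?_) <;> rw [abs_mul]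
  · exact mul_le_mul_of_nonneg_left (Real.abs_cos_sub_cos_le _ _) (abs_nonneg _)
  · exact mul_le_mul_of_nonneg_left (Real.abs_sin_sub_sin_le _ _) (abs_nonneg _)

lemma norm_toC (c : ℂ) (ν : ℝ) (p : ℝ × ℝ) : ‖toC c ν p - c‖ ≤ |p.1| + |p.2| := by
  have : toC c ν p - c = p.1 * dir (ν + Real.pi / 2) + ((-p.2 : ℝ) : ℂ) * dir ν := by
    simp only [toC]; ring
  rw [this]
  refine (norm_add_le _ _).trans (le_of_eq ?_)
  rw [norm_mul, norm_mul, norm_dir, norm_dir, mul_one, mul_one, Complex.norm_real,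
    Complex.norm_real, Real.norm_eq_abs, Real.norm_eq_abs, abs_neg]

lemma slab_geom {t : Ty} {P : ℂ} {p0 : ℝ × ℝ} {o mg B e ζ : ℝ} (hc : t.c = toC P t.ν p0)
    (hcos : 0 < Real.cos t.γ2) (hl : t.l * Real.cos t.γ2 = o / 2 - mg)
    (hB : |p0.1| + |p0.2| + t.l ≤ B) (he : 0 ≤ e) (hmg : B * e + ζ < mg) {z : ℂ}
    (hz : z ∈ t.slab ζ) :
    ‖z - P‖ ≤ B + ζ ∧ ∀ α γ0 : ℝ, Real.cos γ0 = Real.cos t.γ2 → |α - t.ν - γ0| ≤ e →
      |cr (dir α) z - cr (dir α) P - Lf γ0 p0| < o / 2 := by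
  obtain ⟨p, h1, h2, rfl⟩ := hz
  have hl0 : 0 ≤ t.l := (abs_nonneg _).trans h1
  constructor
  · have a1 := norm_toC t.c t.ν p
    have a2 := norm_toC P t.ν p0
    rw [← hc] at a2
    have := norm_add_le (toC t.c t.ν p - t.c) (t.c - P)
    rw [sub_add_sub_cancel] at this
    linarith
  · intro α γ0 hγ0 hα
    rw [cr_toC, hc, cr_toC]
    have a1 := Lf_lip (α - t.ν) γ0 p0
    have a2 : |Real.cos (α - t.ν)| ≤ Real.cos t.γ2 + e := by
      have b1 := Real.abs_cos_sub_cos_le (α - t.ν) γ0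
      have b2 := abs_add_le (Real.cos (α - t.ν) - Real.cos γ0) (Real.cos γ0)
      rw [sub_add_cancel, hγ0, abs_of_pos hcos] at b2
      rw [hγ0] at b1
      linarith
    have a3 : |Lf (α - t.ν) p| ≤ t.l * (Real.cos t.γ2 + e) + ζ := by
      refine (abs_add_le _ _).trans (add_le_add ?_ ?_) <;> rw [abs_mul]
      · exact mul_le_mul h1 a2 (abs_nonneg _) hl0
      · exact (mul_le_of_le_one_right (abs_nonneg _) (Real.abs_sin_le_one _)).trans h2
    have a4 := abs_add_le (Lf (α - t.ν) p0 - Lf γ0 p0) (Lf (α - t.ν) p)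
    have a5 : (|p0.1| + |p0.2|) * |α - t.ν - γ0| ≤ (|p0.1| + |p0.2|) * e :=
      mul_le_mul_of_nonneg_left hα (by positivity)
    have a6 := mul_le_mul_of_nonneg_right hB he
    rw [show cr (dir α) P + Lf (α - t.ν) p0 + Lf (α - t.ν) p - cr (dir α) P - Lf γ0 p0 =
      Lf (α - t.ν) p0 - Lf γ0 p0 + Lf (α - t.ν) p by ring]
    nlinarith

lemma cnt (u v q S : ℕ) : q ≤ ((Finset.range q).filter fun i => v + q + S ≤ u + 2 * i + 1).card +
    ((Finset.range q).filter fun i => u + q + S ≤ v + 2 * i + 1).card + 2 * S := by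
  have hs : Finset.range q ⊆ (((Finset.range q).filter fun i => v + q + S ≤ u + 2 * i + 1) ∪
      ((Finset.range q).filter fun i => u + q + S ≤ v + 2 * i + 1).image fun i => q - 1 - i) ∪
      Finset.Ico ((v + q - (u + 1 + S)) / 2) ((v + q - (u + 1 + S)) / 2 + 2 * S) := by
    intro i hi
    simp only [Finset.mem_union, Finset.mem_filter, Finset.mem_image, Finset.mem_range,
      Finset.mem_Ico] at hi ⊢
    by_cases h1 : v + q + S ≤ u + 2 * i + 1
    · exact Or.inl (Or.inl ⟨hi, h1⟩)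
    by_cases h2 : u + 2 * i + 1 + S ≤ v + q
    · exact Or.inl (Or.inr ⟨q - 1 - i, ⟨by omega, by omega⟩, by omega⟩)
    · exact Or.inr ⟨by omega, by omega⟩
  have := Finset.card_le_card hs
  rw [Finset.card_range] at this
  refine this.trans ((Finset.card_union_le _ _).trans (add_le_add
    ((Finset.card_union_le _ _).trans (add_le_add le_rfl Finset.card_image_le)) ?_))
  rw [Nat.card_Ico]; omega

lemma ofReal_sum_le' {ι : Type*} (T : Finset ι) (f : ι → ℝ) :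
    ENNReal.ofReal (∑ t ∈ T, f t) ≤ ∑ t ∈ T, ENNReal.ofReal (f t) := by
  classical
  induction T using Finset.induction_on with
  | empty => simp
  | insert i T hi ih =>
    rw [Finset.sum_insert hi, Finset.sum_insert hi]
    exact ENNReal.ofReal_add_le.trans (add_le_add le_rfl ih)

structure Grid where
  k : ℝ
  m : ℝ
  d : ℝ
  μ : ℝ
  N : ℕ
  J : ℕ

/-- masses -/
abbrev Ms := ℕ → ℕ → ℕ → ℝ

def cum (ω : Ms) (j a b : ℕ) : ℝ := ∑ b' ∈ Finset.range b, ω j a b'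

namespace Grid

variable (g : Grid)

noncomputable def τ : ℝ := (Real.pi - 2 * g.m) / g.N

noncomputable def w : ℝ := (1 - 2 * g.μ) / g.J

noncomputable def x (j : ℕ) : ℝ := g.k + g.μ + j * g.w

noncomputable def P (j : ℕ) : ℂ := ⟨g.x j, -g.d / 2⟩

def W (a : ℕ) : Set ℝ := Ioo (-Real.pi + g.m + a * g.τ) (-Real.pi + g.m + (a + 1) * g.τ)

def InBox (ω : Ms) (j a b : ℕ) (α ρ : ℝ) : Prop :=
  α ∈ g.W a ∧ cum ω j a b < ρ - cr (dir α) (g.P j) ∧ ρ - cr (dir α) (g.P j) < cum ω j a b + ω j a b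

def Box (ω : Ms) (j a b : ℕ) : Set (ℝ × ℝ) := {r | g.InBox ω j a b r.2 (cr (dir r.2) r.1)}

structure Ok : Prop where
  m0 : 0 < g.m
  m1 : g.m < Real.pi / 2
  N0 : 0 < g.N
  J0 : 0 < g.J
  d0 : 0 < g.d
  μ0 : g.d / 2 + g.d / Real.sin g.m ≤ g.μ
  μ1 : g.μ < 1 / 2

structure Adm (ω : Ms) : Prop where
  nn : ∀ j a b, 0 ≤ ω j a b
  symm : ∀ j a b, ω j a b = ω j b a
  row : ∀ j < g.J, ∀ a < g.N, ∀ α ∈ g.W a, cum ω j a g.N ≤ g.w * -Real.sin α

variable {g}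

lemma Ok.σ0 (h : g.Ok) : 0 < Real.sin g.m :=
  Real.sin_pos_of_pos_of_lt_pi h.m0 (by linarith [h.m1, Real.pi_pos])

lemma Ok.μpos (h : g.Ok) : 0 < g.μ := by
  have := div_pos h.d0 h.σ0
  linarith [h.μ0, h.d0]

lemma Ok.τ0 (h : g.Ok) : 0 < g.τ := div_pos (by linarith [h.m1]) (by exact_mod_cast h.N0)

lemma Ok.w0 (h : g.Ok) : 0 < g.w := div_pos (by linarith [h.μ1]) (by exact_mod_cast h.J0)

lemma Ok.Nτ (h : g.Ok) : g.N * g.τ = Real.pi - 2 * g.m :=
  mul_div_cancel₀ _ (by exact_mod_cast h.N0.ne')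

lemma Ok.Jw (h : g.Ok) : g.J * g.w = 1 - 2 * g.μ :=
  mul_div_cancel₀ _ (by exact_mod_cast h.J0.ne')

lemma Ok.W_range (h : g.Ok) {a : ℕ} (ha : a < g.N) {α : ℝ} (hα : α ∈ g.W a) :
    -Real.pi + g.m < α ∧ α < -g.m := by
  have h1 : (a : ℝ) + 1 ≤ g.N := by exact_mod_cast ha
  have h2 := mul_le_mul_of_nonneg_right h1 h.τ0.le
  have h3 : 0 ≤ (a : ℝ) * g.τ := mul_nonneg (Nat.cast_nonneg _) h.τ0.le
  constructor <;> linarith [hα.1, hα.2, h.Nτ]

lemma Ok.W_sub (h : g.Ok) {a : ℕ} (ha : a < g.N) : g.W a ⊆ Ioo (-Real.pi) 0 := fun _ hα =>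
  ⟨by linarith [(h.W_range ha hα).1, h.m0], by linarith [(h.W_range ha hα).2, h.m0]⟩

lemma Ok.W_sin (h : g.Ok) {a : ℕ} (ha : a < g.N) {α : ℝ} (hα : α ∈ g.W a) :
    Real.sin g.m ≤ -Real.sin α :=
  sin_margin h.m0 (h.W_range ha hα).1.le (h.W_range ha hα).2.le

lemma Ok.W_uniq (h : g.Ok) {a a' : ℕ} {α : ℝ} (h1 : α ∈ g.W a) (h2 : α ∈ g.W a') : a = a' := by
  have b1 : (a : ℝ) < a' + 1 := lt_of_mul_lt_mul_right (by linarith [h1.1, h2.2]) h.τ0.le
  have b2 : (a' : ℝ) < a + 1 := lt_of_mul_lt_mul_right (by linarith [h2.1, h1.2]) h.τ0.le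
  have c1 : a < a' + 1 := by exact_mod_cast b1
  have c2 : a' < a + 1 := by exact_mod_cast b2
  omega

lemma Adm.cum_nn {ω : Ms} (h : g.Adm ω) (j a b : ℕ) : 0 ≤ cum ω j a b :=
  Finset.sum_nonneg fun _ _ => h.nn _ _ _

lemma Adm.cum_le {ω : Ms} (h : g.Adm ω) (j a : ℕ) {b b' : ℕ} (hb : b < b') :
    cum ω j a b + ω j a b ≤ cum ω j a b' := by
  rw [cum, ← Finset.sum_range_succ]
  exact Finset.sum_le_sum_of_subset_of_nonneg (Finset.range_mono hb) fun _ _ _ => h.nn _ _ _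

lemma Adm.row' {ω : Ms} (h : g.Adm ω) (ok : g.Ok) {j a : ℕ} (hj : j < g.J) (ha : a < g.N) :
    cum ω j a g.N ≤ g.w := by
  have := h.row j hj a ha (-Real.pi + g.m + (a + 1 / 2) * g.τ)
    ⟨by nlinarith [ok.τ0], by nlinarith [ok.τ0]⟩
  nlinarith [ok.w0, Real.neg_one_le_sin (-Real.pi + g.m + (a + 1 / 2) * g.τ)]

lemma cr_P (α : ℝ) (j : ℕ) :
    cr (dir α) (g.P j) = -Real.sin α * g.x j - Real.cos α * g.d / 2 := by
  simp only [cr, P, dir_re, dir_im]; ring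

lemma box_uniq {ω : Ms} (ok : g.Ok) (h : g.Adm ω) {j a b j' a' b' : ℕ} (hj : j < g.J)
    (ha : a < g.N) (hb : b < g.N) (hj' : j' < g.J) (hb' : b' < g.N) {α ρ : ℝ}
    (h1 : g.InBox ω j a b α ρ) (h2 : g.InBox ω j' a' b' α ρ) : j = j' ∧ a = a' ∧ b = b' := by
  obtain rfl := ok.W_uniq h1.1 h2.1
  have hs := ok.σ0.trans_le (ok.W_sin ha h1.1)
  have key : ∀ {j b j' b' : ℕ}, j < g.J → b < g.N → g.InBox ω j a b α ρ → g.InBox ω j' a b' α ρ →
      ¬ j < j' := by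
    intro j b j' b' hj hb h1 h2 hlt
    have a1 := h.cum_le j a hb
    have a2 := h.row j hj a ha α h1.1
    have a3 := h.cum_nn j' a b'
    have a4 := h1.2.2
    have a5 := h2.2.1
    rw [cr_P, x] at a4 a5
    have a6 : (j : ℝ) + 1 ≤ j' := by exact_mod_cast hlt
    have a7 := mul_le_mul_of_nonneg_right a6 (mul_pos ok.w0 hs).le
    nlinarith
  obtain rfl : j = j' := le_antisymm (not_lt.mp (key hj' hb' h2 h1)) (not_lt.mp (key hj hb h1 h2))
  refine ⟨rfl, rfl, le_antisymm (not_lt.mp fun hlt => ?_) (not_lt.mp fun hlt => ?_)⟩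
  · linarith [h.cum_le j a hlt, h1.2.1, h2.2.2]
  · linarith [h.cum_le j a hlt, h2.2.1, h1.2.2]

lemma meas_Box (ω : Ms) (j a b : ℕ) : MeasurableSet (g.Box ω j a b) := by
  have h : Measurable fun r : ℝ × ℝ => cr (dir r.2) r.1 - cr (dir r.2) (g.P j) :=
    (measurable_cr (measurable_dir.comp measurable_snd)
      (Complex.measurable_ofReal.comp measurable_fst)).sub
      (measurable_cr (measurable_dir.comp measurable_snd) measurable_const)
  exact (measurable_snd (measurableSet_Ioo : MeasurableSet (g.W a))).inter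
    ((measurableSet_lt measurable_const h).inter (measurableSet_lt h measurable_const))

lemma vol_Box (ω : Ms) (ok : g.Ok) (j a b : ℕ) :
    rayMeas (g.Box ω j a b) ≤ ENNReal.ofReal (g.τ * ω j a b) := by
  rw [rayMeas_eq (meas_Box ω j a b)]
  calc ∫⁻ α in Ioo (-Real.pi) 0, volume (sec (g.Box ω j a b) α)
      ≤ ∫⁻ α in Ioo (-Real.pi) 0, (g.W a).indicator (fun _ => ENNReal.ofReal (ω j a b)) α := by
        refine setLIntegral_mono' measurableSet_Ioo fun α hα => ?_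
        by_cases h : α ∈ g.W a
        · rw [indicator_of_mem h]
          have : sec (g.Box ω j a b) α ⊆ Ioo (cr (dir α) (g.P j) + cum ω j a b)
              (cr (dir α) (g.P j) + cum ω j a b + ω j a b) := by
            rintro ρ ⟨-, h2, h3⟩
            simp only at h2 h3
            rw [cr_real_inv hα] at h2 h3
            exact ⟨by linarith, by linarith⟩
          refine (measure_mono this).trans (le_of_eq ?_)
          rw [Real.volume_Ioo]; congr 1; ring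
        · have : sec (g.Box ω j a b) α = ∅ := eq_empty_of_forall_notMem fun ρ hρ => h hρ.1
          rw [this, measure_empty]; exact bot_le
    _ ≤ ∫⁻ α, (g.W a).indicator (fun _ => ENNReal.ofReal (ω j a b)) α :=
        setLIntegral_le_lintegral _ _
    _ = _ := by
        rw [W, lintegral_indicator_const measurableSet_Ioo,
          Real.volume_Ioo, ← ENNReal.ofReal_mul' (by nlinarith [ok.τ0])]
        congr 1; ring

lemma box_near {ω : Ms} (ok : g.Ok) (h : g.Adm ω) {j a b : ℕ} (hj : j < g.J)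
    (ha : a < g.N) (hb : b < g.N) {r : ℝ × ℝ} (hr : r ∈ g.Box ω j a b) :
    |r.1 - g.x j| ≤ g.w + g.μ := by
  obtain ⟨h1, h2, h3⟩ := hr
  have hs := ok.W_sin ha h1
  have a1 := h.cum_le j a hb
  have a2 := h.row j hj a ha _ h1
  have a3 := h.cum_nn j a b
  rw [cr_P, cr_real] at h2 h3
  have c1 := Real.cos_le_one r.2
  have c2 := Real.neg_one_le_cos r.2
  have d1 : g.d ≤ g.μ * Real.sin g.m := by
    rw [← div_le_iff₀ ok.σ0]; linarith [ok.μ0, ok.d0]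
  have d2 := mul_le_mul_of_nonneg_left hs ok.μpos.le
  have s0 := ok.σ0.trans_le hs
  have d0 := ok.d0
  have w0 := ok.w0
  rw [abs_le]
  constructor
  · by_contra hh
    have := mul_lt_mul_of_pos_left (not_le.mp hh) s0
    nlinarith [mul_pos w0 s0]
  · by_contra hh
    have := mul_lt_mul_of_pos_left (not_le.mp hh) s0
    nlinarith

end Grid

end Pool.Agent.Lib.MP_cc9ac0_pr
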