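import Pool.Agent.Lib.MP_cc9ac0_pr.Strip

set_option autoImplicit false

namespace Pool.Agent.Lib.MP_cc9ac0_pr

open MeasureTheory Set Filter Topology

abbrev Ix := ℕ × ℕ × ℕ × ℕ

namespace Grid

variable (g : Grid)

noncomputable def γ2 (q : ℕ) (e : ℝ) (t : Ix) : ℝ :=
  (t.2.1 * q + 2 * t.2.2.2 + 2 - t.2.2.1 * q - q) * e / 2

noncomputable def ν (t : Ix) : ℝ := -Real.pi + g.m + (t.2.1 + t.2.2.1 + 1) * g.τ / 2

noncomputable def r (ω : Ms) (j a b : ℕ) : ℝ := cum ω j a b + ω j a b / 2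

noncomputable def p0 (ω : Ms) (q : ℕ) (e : ℝ) (t : Ix) : ℝ × ℝ :=
  ((r ω t.1 t.2.1 t.2.2.1 + r ω t.1 t.2.2.1 t.2.1) / (2 * Real.cos (γ2 q e t)),
    (r ω t.1 t.2.1 t.2.2.1 - r ω t.1 t.2.2.1 t.2.1) / (2 * Real.sin (γ2 q e t)))

noncomputable def ty (ω : Ms) (q : ℕ) (e mg : ℝ) (t : Ix) : Ty :=
  ⟨toC (g.P t.1) (g.ν t) (p0 ω q e t), g.ν t, γ2 q e t - e, γ2 q e t,
    (ω t.1 t.2.1 t.2.2.1 / 2 - mg) / Real.cos (γ2 q e t)⟩

def T (q S : ℕ) : Finset Ix :=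
  (Finset.range g.J ×ˢ Finset.range g.N ×ˢ Finset.range g.N ×ˢ Finset.range q).filter
    fun t => t.2.2.1 * q + q + S ≤ t.2.1 * q + 2 * t.2.2.2 + 1

variable {g}

lemma mem_T {q S j a b i : ℕ} : (j, a, b, i) ∈ g.T q S ↔
    (j < g.J ∧ a < g.N ∧ b < g.N ∧ i < q) ∧ b * q + q + S ≤ a * q + 2 * i + 1 := by
  simp [T]

lemma sum_T (q S : ℕ) (f : ℕ → ℕ → ℕ → ℝ) : ∑ t ∈ g.T q S, f t.1 t.2.1 t.2.2.1 =
    ∑ j ∈ Finset.range g.J, ∑ a ∈ Finset.range g.N, ∑ b ∈ Finset.range g.N,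
      ((Finset.range q).filter fun i => b * q + q + S ≤ a * q + 2 * i + 1).card * f j a b := by
  rw [T, Finset.sum_filter, Finset.sum_product]
  refine Finset.sum_congr rfl fun j _ => ?_
  rw [Finset.sum_product]
  refine Finset.sum_congr rfl fun a _ => ?_
  rw [Finset.sum_product]
  refine Finset.sum_congr rfl fun b _ => ?_
  simp only
  rw [← Finset.sum_filter, Finset.sum_const, nsmul_eq_mul]

lemma sum_T_ge {ω : Ms} (h : g.Adm ω) (q S : ℕ) :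
    (q - 2 * S) * ∑ j ∈ Finset.range g.J, ∑ a ∈ Finset.range g.N, ∑ b ∈ Finset.range g.N, ω j a b ≤
      2 * ∑ t ∈ g.T q S, ω t.1 t.2.1 t.2.2.1 := by
  rw [sum_T, Finset.mul_sum, Finset.mul_sum]
  refine Finset.sum_le_sum fun j _ => ?_
  rw [two_mul (∑ a ∈ Finset.range g.N, _)]
  nth_rewrite 3 [Finset.sum_comm]
  rw [← Finset.sum_add_distrib, Finset.mul_sum]
  refine Finset.sum_le_sum fun a _ => ?_
  rw [← Finset.sum_add_distrib, Finset.mul_sum]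
  refine Finset.sum_le_sum fun b _ => ?_
  rw [h.symm j b a, ← add_mul]
  refine mul_le_mul_of_nonneg_right ?_ (h.nn _ _ _)
  have := cnt (a * q) (b * q) q S
  rw [sub_le_iff_le_add]
  exact_mod_cast this

section
variable {ω : Ms} {q S : ℕ} {e mg : ℝ} {j a b i : ℕ}

lemma ty_a1 (hτ : g.τ = q * e) : (g.ty ω q e mg (j, a, b, i)).ν + (g.ty ω q e mg (j, a, b, i)).γ1 =
    -Real.pi + g.m + (a * q + i) * e := by simp only [ty, ν, γ2, hτ]; ring

lemma ty_a2 (hτ : g.τ = q * e) : (g.ty ω q e mg (j, a, b, i)).ν + (g.ty ω q e mg (j, a, b, i)).γ2 =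
    -Real.pi + g.m + (a * q + i + 1) * e := by simp only [ty, ν, γ2, hτ]; ring

lemma ty_b1 (hτ : g.τ = q * e) : (g.ty ω q e mg (j, a, b, i)).ν - (g.ty ω q e mg (j, a, b, i)).γ1 =
    -Real.pi + g.m + (b * q + q - i) * e := by simp only [ty, ν, γ2, hτ]; ring

lemma ty_b2 (hτ : g.τ = q * e) : (g.ty ω q e mg (j, a, b, i)).ν - (g.ty ω q e mg (j, a, b, i)).γ2 =
    -Real.pi + g.m + (b * q + q - i - 1) * e := by simp only [ty, ν, γ2, hτ]; ring

lemma γ2_ge (he : 0 < e) (ht : (j, a, b, i) ∈ g.T q S) :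
    (S + 1) * e / 2 ≤ γ2 q e (j, a, b, i) := by
  have h : (b : ℝ) * q + q + S ≤ a * q + 2 * i + 1 := by exact_mod_cast (mem_T.mp ht).2
  simp only [γ2]
  nlinarith

lemma ty_ok (ok : g.Ok) (hτ : g.τ = q * e) (he : 0 < e) (hS : 2 ≤ S)
    (ht : (j, a, b, i) ∈ g.T q S) : (g.ty ω q e mg (j, a, b, i)).Ok g.m := by
  obtain ⟨⟨-, ha, -, hi⟩, -⟩ := mem_T.mp ht
  have h1 := γ2_ge he ht
  have hS' : (2 : ℝ) ≤ S := by exact_mod_cast hS
  have hi' : (i : ℝ) + 1 ≤ q := by exact_mod_cast hi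
  have ha' : (a : ℝ) + 1 ≤ g.N := by exact_mod_cast ha
  refine ⟨?_, ?_, ?_, ?_⟩
  · change 0 < γ2 q e (j, a, b, i) - e
    nlinarith
  · change γ2 q e (j, a, b, i) - e ≤ γ2 q e (j, a, b, i)
    linarith
  · rw [ty_b2 hτ]
    have : 0 ≤ (b : ℝ) * q := by positivity
    nlinarith
  · rw [ty_a2 hτ]
    have h2 := ok.Nτ
    have h3 := mul_le_mul_of_nonneg_right ha' ok.τ0.le
    rw [hτ] at h2 h3
    nlinarith

lemma ty_B (ok : g.Ok) (h : g.Adm ω) (hτ : g.τ = q * e) (he : 0 < e) (hS : 2 ≤ S) (hmg : 0 ≤ mg)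
    (ht : (j, a, b, i) ∈ g.T q S) : Real.sin g.m ≤ Real.cos (γ2 q e (j, a, b, i)) ∧
      0 < Real.sin (γ2 q e (j, a, b, i)) ∧
      |(p0 ω q e (j, a, b, i)).1| + |(p0 ω q e (j, a, b, i)).2| + (g.ty ω q e mg (j, a, b, i)).l ≤
        g.w * (2 / Real.sin g.m + 2 / (S * e)) := by
  obtain ⟨⟨hj, ha, hb, -⟩, -⟩ := mem_T.mp ht
  have o := ty_ok (ω := ω) (mg := mg) ok hτ he hS ht
  have h1 := γ2_ge he ht
  have hS' : (2 : ℝ) ≤ S := by exact_mod_cast hS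
  set γ := γ2 q e (j, a, b, i) with hγ
  have g0 : S * e / 2 ≤ γ := by nlinarith
  have hSe : 0 < S * e := by positivity
  have g1 : γ ≤ Real.pi / 2 - g.m := by
    have b1 : -Real.pi + g.m ≤ g.ν (j, a, b, i) - γ := o.2.2.1
    have b2 : g.ν (j, a, b, i) + γ ≤ -g.m := o.2.2.2
    linarith
  have hc : Real.sin g.m ≤ Real.cos γ := by
    rw [← Real.cos_pi_div_two_sub]
    exact Real.cos_le_cos_of_nonneg_of_le_pi (by linarith) (by linarith [ok.m0, Real.pi_pos]) g1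
  have hs : S * e / 4 ≤ Real.sin γ := by
    have b1 := Real.mul_le_sin (x := γ) (by linarith) (by linarith [ok.m0])
    have b2 : 1 / 2 ≤ 2 / Real.pi := by
      rw [div_le_div_iff₀ two_pos Real.pi_pos]; linarith [Real.pi_le_four]
    nlinarith
  have σ0 := ok.σ0
  have w0 := ok.w0
  have hc0 : 0 < Real.cos γ := σ0.trans_le hc
  have hs0 : 0 < Real.sin γ := lt_of_lt_of_le (by positivity) hs
  have r1 : 0 ≤ r ω j a b ∧ r ω j a b ≤ g.w ∧ ω j a b ≤ g.w := by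
    have := h.cum_le j a hb
    have := h.row' ok hj ha
    have := h.cum_nn j a b
    have := h.nn j a b
    refine ⟨?_, ?_, ?_⟩ <;> (try simp only [r]) <;> linarith
  have r2 : 0 ≤ r ω j b a ∧ r ω j b a ≤ g.w := by
    have := h.cum_le j b ha
    have := h.row' ok hj hb
    have := h.cum_nn j b a
    have := h.nn j b a
    refine ⟨?_, ?_⟩ <;> simp only [r] <;> linarith
  refine ⟨hc, hs0, ?_⟩
  have b1 : |(p0 ω q e (j, a, b, i)).1| ≤ g.w / Real.sin g.m := by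
    change |(r ω j a b + r ω j b a) / (2 * Real.cos γ)| ≤ _
    rw [abs_of_nonneg (div_nonneg (by linarith [r1.1, r2.1]) (by positivity)),
      div_le_div_iff₀ (by positivity) σ0]
    nlinarith [r1.1, r2.1, r1.2.1, r2.2]
  have b2 : |(p0 ω q e (j, a, b, i)).2| ≤ g.w * (2 / (S * e)) := by
    change |(r ω j a b - r ω j b a) / (2 * Real.sin γ)| ≤ _
    have : |r ω j a b - r ω j b a| ≤ g.w :=
      abs_le.mpr ⟨by linarith [r1.1, r2.2], by linarith [r1.2.1, r2.1]⟩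
    rw [abs_div, abs_of_pos (show 0 < 2 * Real.sin γ by positivity), ← mul_div_assoc,
      div_le_div_iff₀ (by positivity) hSe]
    nlinarith [abs_nonneg (r ω j a b - r ω j b a)]
  have b3 : (g.ty ω q e mg (j, a, b, i)).l ≤ g.w / Real.sin g.m := by
    change (ω j a b / 2 - mg) / Real.cos γ ≤ _
    rw [div_le_div_iff₀ hc0 σ0]
    nlinarith [r1.2.2, h.nn j a b]
  have : g.w * (2 / Real.sin g.m + 2 / (S * e)) =
      g.w / Real.sin g.m + g.w * (2 / (S * e)) + g.w / Real.sin g.m := by ring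
  linarith

lemma ty_geom {ζ : ℝ} (ok : g.Ok) (h : g.Adm ω) (hτ : g.τ = q * e) (he : 0 < e) (hS : 2 ≤ S)
    (hζ : 0 < ζ) (hmg : g.w * (2 / Real.sin g.m + 2 / (S * e)) * e + ζ < mg)
    (ht : (j, a, b, i) ∈ g.T q S) {z : ℂ} (hz : z ∈ (g.ty ω q e mg (j, a, b, i)).slab ζ) :
    ‖z - g.P j‖ ≤ g.w * (2 / Real.sin g.m + 2 / (S * e)) + ζ ∧
    ∀ α, (g.ty ω q e mg (j, a, b, i)).own α →
      (g.ν (j, a, b, i) < α → g.InBox ω j a b α (cr (dir α) z) ∧
        -Real.pi + g.m + (a * q + i) * e < α ∧ α < -Real.pi + g.m + (a * q + i + 1) * e) ∧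
      (α < g.ν (j, a, b, i) → g.InBox ω j b a α (cr (dir α) z) ∧
        -Real.pi + g.m + (b * q + q - i - 1) * e < α ∧ α < -Real.pi + g.m + (b * q + q - i) * e) := by
  have σ0 := ok.σ0
  have w0 := ok.w0
  have hS' : (0 : ℝ) < S := by exact_mod_cast (lt_of_lt_of_le two_pos hS)
  have hmg0 : 0 ≤ mg := le_trans (by positivity) hmg.le
  obtain ⟨b1, b2, b3⟩ := ty_B ok h hτ he hS hmg0 ht
  obtain ⟨⟨hj, ha, hb, hi⟩, -⟩ := mem_T.mp ht
  have hc0 := σ0.trans_le b1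
  obtain ⟨c1, c2⟩ := slab_geom (t := g.ty ω q e mg (j, a, b, i)) (P := g.P j)
    (p0 := p0 ω q e (j, a, b, i)) (o := ω j a b) (mg := mg) rfl hc0
    (div_mul_cancel₀ _ hc0.ne') b3 he.le hmg hz
  have hi' : (i : ℝ) + 1 ≤ q := by exact_mod_cast hi
  have hi0 : (0 : ℝ) ≤ i := Nat.cast_nonneg _
  have a1 := ty_a1 (ω := ω) (mg := mg) (j := j) (a := a) (b := b) (i := i) hτ
  have a2 := ty_a2 (ω := ω) (mg := mg) (j := j) (a := a) (b := b) (i := i) hτ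
  have a3 := ty_b1 (ω := ω) (mg := mg) (j := j) (a := a) (b := b) (i := i) hτ
  have a4 := ty_b2 (ω := ω) (mg := mg) (j := j) (a := a) (b := b) (i := i) hτ
  have a5 : (g.ty ω q e mg (j, a, b, i)).γ1 = (g.ty ω q e mg (j, a, b, i)).γ2 - e := rfl
  have a6 : g.ν (j, a, b, i) = (g.ty ω q e mg (j, a, b, i)).ν := rfl
  refine ⟨c1, fun α hα => ⟨fun hlt => ?_, fun hlt => ?_⟩⟩
  · have o1 := hα.1
    have o2 := hα.2
    rw [a6] at hlt
    rw [abs_of_pos (sub_pos.mpr hlt)] at o1 o2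
    have d := c2 α (γ2 q e (j, a, b, i)) rfl (abs_le.mpr ⟨by
      change -e ≤ α - _ - (g.ty ω q e mg (j, a, b, i)).γ2; linarith, by
      change α - _ - (g.ty ω q e mg (j, a, b, i)).γ2 ≤ e; linarith⟩)
    have hL : Lf (γ2 q e (j, a, b, i)) (p0 ω q e (j, a, b, i)) = cum ω j a b + ω j a b / 2 := by
      simp only [Lf, p0]
      field_simp
      simp only [r]
      ring
    rw [hL, abs_lt] at d
    refine ⟨⟨⟨?_, ?_⟩, by linarith [d.1], by linarith [d.2]⟩, by linarith, by linarith⟩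
    · rw [hτ]; nlinarith
    · rw [hτ]; nlinarith
  · have o1 := hα.1
    have o2 := hα.2
    rw [a6] at hlt
    rw [abs_of_neg (sub_neg.mpr hlt)] at o1 o2
    have d := c2 α (-γ2 q e (j, a, b, i)) (Real.cos_neg _) (abs_le.mpr ⟨by
      change -e ≤ α - _ - -(g.ty ω q e mg (j, a, b, i)).γ2; linarith, by
      change α - _ - -(g.ty ω q e mg (j, a, b, i)).γ2 ≤ e; linarith⟩)
    have hL : Lf (-γ2 q e (j, a, b, i)) (p0 ω q e (j, a, b, i)) = cum ω j b a + ω j b a / 2 := by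
      simp only [Lf, p0, Real.cos_neg, Real.sin_neg]
      field_simp
      simp only [r]
      ring
    rw [hL, abs_lt, h.symm j a b] at d
    refine ⟨⟨⟨?_, ?_⟩, by linarith [d.1], by linarith [d.2]⟩, by linarith, by linarith⟩
    · rw [hτ]; nlinarith
    · rw [hτ]; nlinarith

end

lemma own_ne {t : Ty} {m α : ℝ} (ht : t.Ok m) (h : t.own α) : t.ν < α ∨ α < t.ν := by
  refine (lt_or_gt_of_ne fun e => ?_)
  have := h.1
  rw [← e, sub_self, abs_zero] at this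
  exact absurd ht.1 (not_lt.mpr this.le)

lemma ty_sep {ω : Ms} {q S : ℕ} {e mg ζ : ℝ} (ok : g.Ok) (h : g.Adm ω) (hτ : g.τ = q * e)
    (he : 0 < e) (hS : 2 ≤ S)
    (hζ : 0 < ζ) (hmg : g.w * (2 / Real.sin g.m + 2 / (S * e)) * e + ζ < mg) :
    ∀ t ∈ g.T q S, ∀ t' ∈ g.T q S, t ≠ t' → ∀ α, (g.ty ω q e mg t).own α →
      (g.ty ω q e mg t').own α → ∀ z ∈ (g.ty ω q e mg t).slab ζ,
      ∀ z' ∈ (g.ty ω q e mg t').slab ζ, cr (dir α) z ≠ cr (dir α) z' := by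
  rintro ⟨j, a, b, i⟩ ht ⟨j', a', b', i'⟩ ht' hne α o o' z hz z' hz' hzz
  obtain ⟨u1, u2⟩ := (ty_geom ok h hτ he hS hζ hmg ht hz).2 α o
  obtain ⟨v1, v2⟩ := (ty_geom ok h hτ he hS hζ hmg ht' hz').2 α o'
  rw [← hzz] at v1 v2
  obtain ⟨⟨hj, ha, hb, hi⟩, hc⟩ := mem_T.mp ht
  obtain ⟨⟨hj', ha', hb', hi'⟩, hc'⟩ := mem_T.mp ht'
  have lt : ∀ {x y : ℝ}, -Real.pi + g.m + x * e < α → α < -Real.pi + g.m + y * e → x < y :=
    fun h1 h2 => lt_of_mul_lt_mul_right (by linarith) he.le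
  rcases own_ne (ty_ok ok hτ he hS ht) o with c | c <;>
    rcases own_ne (ty_ok ok hτ he hS ht') o' with c' | c'
  · obtain ⟨x1, x2, x3⟩ := u1 c
    obtain ⟨y1, y2, y3⟩ := v1 c'
    obtain ⟨rfl, rfl, rfl⟩ := box_uniq ok h hj ha hb hj' hb' x1 y1
    have e1 : (i : ℝ) < i' + 1 := by linarith [lt x2 y3]
    have e2 : (i' : ℝ) < i + 1 := by linarith [lt y2 x3]
    have f1 : i < i' + 1 := by exact_mod_cast e1
    have f2 : i' < i + 1 := by exact_mod_cast e2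
    exact hne (by rw [show i = i' by omega])
  · obtain ⟨x1, x2, x3⟩ := u1 c
    obtain ⟨y1, y2, y3⟩ := v2 c'
    obtain ⟨rfl, rfl, rfl⟩ := box_uniq ok h hj ha hb hj' ha' x1 y1
    have e1 : (i : ℝ) + i' < q := by linarith [lt x2 y3]
    have f1 : i + i' < q := by exact_mod_cast e1
    omega
  · obtain ⟨x1, x2, x3⟩ := u2 c
    obtain ⟨y1, y2, y3⟩ := v1 c'
    obtain ⟨rfl, rfl, rfl⟩ := box_uniq ok h hj hb ha hj' hb' x1 y1
    have e1 : (i : ℝ) + i' < q := by linarith [lt y2 x3]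
    have f1 : i + i' < q := by exact_mod_cast e1
    omega
  · obtain ⟨x1, x2, x3⟩ := u2 c
    obtain ⟨y1, y2, y3⟩ := v2 c'
    obtain ⟨rfl, rfl, rfl⟩ := box_uniq ok h hj hb ha hj' ha' x1 y1
    have e1 : (i : ℝ) < i' + 1 := by linarith [lt y2 x3]
    have e2 : (i' : ℝ) < i + 1 := by linarith [lt x2 y3]
    have f1 : i < i' + 1 := by exact_mod_cast e1
    have f2 : i' < i + 1 := by exact_mod_cast e2
    exact hne (by rw [show i = i' by omega])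

/-- what the mirrors of one strip achieve -/
def Real_ (g : Grid) (ω : Ms) (ε : ℝ) : Prop :=
  ∃ (F : Finset Seg) (G : Set (ℝ × ℝ)) (K : ℝ × ℝ → ℝ × ℝ),
    (∀ p ∈ F, ‖p.u‖ = 1 ∧ 0 < p.h ∧ p.set ⊆ boxU g.k g.d) ∧
    (∀ p ∈ F, ∀ q ∈ F, p ≠ q → Disjoint p.set q.set) ∧ MeasurableSet G ∧ Measurable K ∧
    (∀ a ∈ G, OneHit F (boxU g.k g.d) a (K a) ∧ a ∈ rayD ∧ g.k < a.1 ∧ a.1 < g.k + 1 ∧
      ∃ j < g.J, ∃ u < g.N, ∃ v < g.N, a ∈ g.Box ω j u v ∧ K a ∈ g.Box ω j v u) ∧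
    ENNReal.ofReal (g.τ * ∑ j ∈ Finset.range g.J, ∑ a ∈ Finset.range g.N,
      ∑ b ∈ Finset.range g.N, ω j a b - ε) ≤ rayMeas G

theorem strip_core {ω : Ms} {q S : ℕ} {e ε : ℝ} (ok : g.Ok) (h : g.Adm ω) (hτ : g.τ = q * e)
    (he : 0 < e) (hS : 2 ≤ S) (hε : 0 < ε)
    (hw : g.w * (2 / Real.sin g.m + 2 / (S * e) + e) < g.d / 2)
    (hl : 2 * S * e * g.N + 4 * g.τ * g.N ^ 2 * (2 * e / Real.sin g.m + 2 / S + 2 * e) ≤ ε / 2) :
    g.Real_ ω ε := by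
  have σ0 := ok.σ0
  have w0 := ok.w0
  have hS' : (0 : ℝ) < S := by exact_mod_cast (lt_of_lt_of_le two_pos hS)
  set B := g.w * (2 / Real.sin g.m + 2 / (S * e)) with hB
  have hζ : 0 < g.w * e := mul_pos w0 he
  set mg := B * e + 2 * (g.w * e) with hmg
  have hmg1 : B * e + g.w * e < mg := by linarith
  obtain ⟨F, G, K, f1, f2, f3, f4, f5, f6⟩ := multi (g.T q S) (g.ty ω q e mg) ok.m0 hζ (half_pos hε)
    (fun ⟨j, a, b, i⟩ ht => ty_ok ok hτ he hS ht) (ty_sep ok h hτ he hS hζ hmg1)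
  have pos : ∀ t ∈ g.T q S, ∀ z ∈ (g.ty ω q e mg t).slab (g.w * e), -g.d < z.im ∧ z.im < 0 ∧
      g.k + g.d / Real.sin g.m < z.re ∧ z.re < g.k + 1 - g.d / Real.sin g.m := by
    rintro ⟨j, a, b, i⟩ ht z hz
    have c1 := (ty_geom ok h hτ he hS hζ hmg1 ht hz).1
    have c2 : ‖z - g.P j‖ < g.d / 2 := by
      refine c1.trans_lt (lt_of_eq_of_lt ?_ hw)
      ring
    have c3 := abs_lt.mp ((Complex.abs_re_le_norm _).trans_lt c2)
    have c4 := abs_lt.mp ((Complex.abs_im_le_norm _).trans_lt c2)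
    simp only [Complex.sub_re, Complex.sub_im, P, x] at c3 c4
    have hj : (j : ℝ) + 1 ≤ g.J := by exact_mod_cast (mem_T.mp ht).1.1
    have c5 := mul_le_mul_of_nonneg_right hj w0.le
    have c6 : 0 ≤ (j : ℝ) * g.w := by positivity
    refine ⟨by linarith [c4.1], by linarith [c4.2], by linarith [c3.1, ok.μ0],
      by linarith [c3.2, ok.μ0, ok.Jw]⟩
  have dσ : 0 < g.d / Real.sin g.m := div_pos ok.d0 σ0
  refine ⟨F, G, K, fun p hp => ?_, f2, f3, f4, fun a ha => ?_, ?_⟩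
  · obtain ⟨a1, a2, t, ht, a3⟩ := f1 p hp
    refine ⟨a1, a2, fun z hz => ?_⟩
    obtain ⟨b1, b2, b3, b4⟩ := pos t ht z (a3 hz)
    exact ⟨by linarith, by linarith, b1, b2⟩
  · obtain ⟨⟨j, u, v, i⟩, ht, o, hK, p, hp, hu, z, hz, hzs, c1, c2, hfree⟩ := f5 a ha
    obtain ⟨b1, b2, b3, b4⟩ := pos _ ht z hzs
    have tok := ty_ok (ω := ω) (mg := mg) ok hτ he hS ht
    obtain ⟨d1, d2, d3⟩ := oneHit_of ok.m0 tok o hK hp hu hz c1 c2 hfree b1 b2 b3.le b4.le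
    refine ⟨d1, ⟨trivial, o.mem ok.m0 tok⟩, d2, d3, ?_⟩
    obtain ⟨⟨hj, hu', hv, -⟩, -⟩ := mem_T.mp ht
    have o' : (g.ty ω q e mg (j, u, v, i)).own (K a).2 := hK ▸ o.refl
    obtain ⟨u1, u2⟩ := (ty_geom ok h hτ he hS hζ hmg1 ht hzs).2 _ o
    obtain ⟨v1, v2⟩ := (ty_geom ok h hτ he hS hζ hmg1 ht hzs).2 _ o'
    rw [c1] at u1 u2
    rw [c2] at v1 v2
    have a6 : g.ν (j, u, v, i) = (g.ty ω q e mg (j, u, v, i)).ν := rfl
    rcases own_ne tok o with c | c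
    · exact ⟨j, hj, u, hu', v, hv, (u1 c).1, (v2 (by rw [a6, hK]; linarith)).1⟩
    · exact ⟨j, hj, v, hv, u, hu', (u2 c).1, (v1 (by rw [a6, hK]; linarith)).1⟩
  · set Ω := ∑ j ∈ Finset.range g.J, ∑ a ∈ Finset.range g.N, ∑ b ∈ Finset.range g.N, ω j a b
      with hΩ
    have hΩN : Ω ≤ g.N := by
      have : Ω ≤ ∑ j ∈ Finset.range g.J, ∑ a ∈ Finset.range g.N, g.w :=
        Finset.sum_le_sum fun j hj => Finset.sum_le_sum fun a ha =>
          h.row' ok (Finset.mem_range.mp hj) (Finset.mem_range.mp ha)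
      simp only [Finset.sum_const, Finset.card_range, nsmul_eq_mul] at this
      have h2 := ok.Jw
      have h3 : (0 : ℝ) ≤ g.N := Nat.cast_nonneg _
      nlinarith [ok.μpos]
    have hsum : ∑ t ∈ g.T q S, 4 * ((g.ty ω q e mg t).l * Real.cos (g.ty ω q e mg t).γ2) *
        ((g.ty ω q e mg t).γ2 - (g.ty ω q e mg t).γ1) =
        e * (2 * ∑ t ∈ g.T q S, ω t.1 t.2.1 t.2.2.1) - (g.T q S).card * (4 * e * mg) := by
      rw [Finset.mul_sum, Finset.mul_sum, ← nsmul_eq_mul, ← Finset.sum_const,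
        ← Finset.sum_sub_distrib]
      refine Finset.sum_congr rfl ?_
      rintro ⟨j, a, b, i⟩ ht
      have hc0 := σ0.trans_le (ty_B ok h hτ he hS (mg := mg) (by positivity) ht).1
      simp only [ty]
      rw [div_mul_cancel₀ _ hc0.ne']
      ring
    have hcard : ((g.T q S).card : ℝ) ≤ g.J * (g.N * (g.N * q)) := by
      have := Finset.card_filter_le
        (Finset.range g.J ×ˢ Finset.range g.N ×ˢ Finset.range g.N ×ˢ Finset.range q)
        fun t => t.2.2.1 * q + q + S ≤ t.2.1 * q + 2 * t.2.2.2 + 1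
      simp only [Finset.card_product, Finset.card_range] at this
      exact_mod_cast this
    have hJm : g.J * mg ≤ 2 * e / Real.sin g.m + 2 / S + 2 * e := by
      have : g.J * mg = (g.J * g.w) * (2 * e / Real.sin g.m + 2 / S + 2 * e) := by
        rw [hmg, hB]; field_simp
      rw [this, ok.Jw]
      exact mul_le_of_le_one_left (by positivity) (by linarith [ok.μpos])
    have h1 := mul_le_mul_of_nonneg_left (sum_T_ge h q S) he.le
    rw [← hΩ] at h1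
    have h2 : ((g.T q S).card : ℝ) * (4 * e * mg) ≤
        4 * g.τ * g.N ^ 2 * (2 * e / Real.sin g.m + 2 / S + 2 * e) := by
      refine (mul_le_mul_of_nonneg_right hcard (by positivity)).trans ?_
      have : (g.J : ℝ) * (g.N * (g.N * q)) * (4 * e * mg) = 4 * g.τ * g.N ^ 2 * (g.J * mg) := by
        rw [hτ]; ring
      rw [this]
      exact mul_le_mul_of_nonneg_left hJm (by have := ok.τ0; positivity)
    have h3 := (ofReal_sum_le' _ _).trans f6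
    rw [hsum] at h3
    have h4 : 2 * S * e * Ω ≤ 2 * S * e * g.N := mul_le_mul_of_nonneg_left hΩN (by positivity)
    rw [← tsub_le_iff_right, ← ENNReal.ofReal_sub _ (half_pos hε).le] at h3
    refine le_trans (ENNReal.ofReal_le_ofReal ?_) h3
    rw [hτ]
    nlinarith

end Grid

theorem strip (m d ε : ℝ) (N : ℕ) (hm : 0 < m) (hm1 : m < Real.pi / 2) (hN : 0 < N) (hd : 0 < d)
    (hε : 0 < ε) : ∃ w0 : ℝ, 0 < w0 ∧ ∀ g : Grid, g.Ok → g.m = m → g.d = d → g.N = N → g.w ≤ w0 →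
      ∀ ω, g.Adm ω → g.Real_ ω ε := by
  have σ0 : 0 < Real.sin m := Real.sin_pos_of_pos_of_lt_pi hm (by linarith [Real.pi_pos])
  set τ := (Real.pi - 2 * m) / N with hτ
  have hN' : (0 : ℝ) < N := by exact_mod_cast hN
  have τ0 : 0 < τ := div_pos (by linarith) hN'
  obtain ⟨S0, hS0⟩ := exists_nat_ge (32 * τ * N ^ 2 / ε)
  set S := S0 + 2 with hS
  have hS1 : (0 : ℝ) < S := by rw [hS]; positivity
  have hS2 : 4 * τ * N ^ 2 * (2 / S) ≤ ε / 4 := by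
    rw [div_le_iff₀ hε] at hS0
    rw [← mul_div_assoc, div_le_iff₀ hS1, hS]
    push_cast
    nlinarith
  set A := 2 * S * N + 4 * τ * N ^ 2 * (2 / Real.sin m + 2) with hA
  have hA0 : 0 < A := by positivity
  obtain ⟨q0, hq0⟩ := exists_nat_ge (4 * A * τ / ε)
  set q := q0 + 1 with hq
  have hq1 : (0 : ℝ) < q := by rw [hq]; positivity
  set e := τ / q with he
  have he0 : 0 < e := div_pos τ0 hq1
  have he1 : A * e ≤ ε / 4 := by
    rw [div_le_iff₀ hε] at hq0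
    rw [he, ← mul_div_assoc, div_le_iff₀ hq1, hq]
    push_cast
    nlinarith
  set C := 2 / Real.sin m + 2 / (S * e) + e with hC
  have hC0 : 0 < C := by positivity
  refine ⟨d / (4 * C), by positivity, fun g ok e1 e2 e3 hw ω h => ?_⟩
  have eτ : g.τ = τ := by rw [Grid.τ, e1, e3]
  refine Grid.strip_core (q := q) (S := S) (e := e) ok h ?_ he0 (by omega) hε ?_ ?_
  · rw [eτ, he, mul_div_cancel₀ _ hq1.ne']
  · rw [e1, e2, ← hC]
    rw [le_div_iff₀ (by positivity)] at hw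
    linarith
  · rw [eτ, e1, e3]
    have : 2 * S * e * N + 4 * τ * N ^ 2 * (2 * e / Real.sin m + 2 / S + 2 * e) =
        A * e + 4 * τ * N ^ 2 * (2 / S) := by rw [hA]; ring
    linarith

end Pool.Agent.Lib.MP_cc9ac0_pr
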